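import Pool.Agent.ZC.FarFin2
import Pool.Agent.ZT.N17

/-! # ZC : final theorem, all large m -/

set_option autoImplicit false

open Finset

namespace Pool.Agent.ZT

open Pool.Agent.MP5g (zsm mom TT SS tot lft mom_eq local_all)

/-- For all large `m` (prime or not) the zero-sum minimum equals the 2-colour minimum (`n` large). -/
theorem large_all : ∃ m0 : ℕ, ∀ m ≥ m0, ∃ n0 : ℕ, ∀ n ≥ n0,
    (⨅ c : Sym2 (Fin n) → ZMod m, zsm m c) = (⨅ c : Sym2 (Fin n) → Fin 2, mom m c) := by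
  classical
  obtain ⟨δ, hδ, m0, hnear⟩ := near_final
  obtain ⟨m1, hfar⟩ := far_final2 δ hδ
  refine ⟨max 4 (max m0 m1), fun m hm => ?_⟩
  have hm4 : 4 ≤ m := (le_max_left _ _).trans hm
  have hm0 : m0 ≤ m := ((le_max_left _ _).trans (le_max_right _ _)).trans hm
  have hm1 : m1 ≤ m := ((le_max_right _ _).trans (le_max_right _ _)).trans hm
  obtain ⟨n1, h1⟩ := hnear m hm0
  obtain ⟨n2, h2⟩ := hfar m hm1
  refine ⟨n1 + n2, fun n hn => ?_⟩
  apply le_antisymm
  · apply le_ciInf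
    intro c
    rw [mom_eq (by omega)]
    exact ciInf_le (OrderBot.bddBelow _) _
  · apply le_ciInf
    intro c
    by_cases h : ∀ a b : ZMod m, IsUnit (b - a) → δ * (n : ℝ) ^ 2 ≤
      cnt (fun q : Fin n × Fin n => q.1 ≠ q.2 ∧ c s(q.1, q.2) ≠ a ∧ c s(q.1, q.2) ≠ b)
    · exact h2 n (by omega) c h
    · push Not at h
      obtain ⟨a, b, hu, hab⟩ := h
      exact h1 n (by omega) c a b hu hab.le

end Pool.Agent.ZT
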