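import Pool.Agent.ZT.Defs

/-! # ZC : cleaning a dense symmetric relation -/

set_option autoImplicit false

open Finset

namespace Pool.Agent.ZC

open Pool.Agent.ZT

theorem bclean_edge {V : Type} [Fintype V] [DecidableEq V] (E : V → V → Prop)
    (hE : ∀ x y, E x y → E y x) (U : Finset V) (x : V) :
    cnt (fun q : V × V => q.1 ∈ U ∧ q.2 ∈ U ∧ E q.1 q.2) ≤
      cnt (fun q : V × V => q.1 ∈ U.erase x ∧ q.2 ∈ U.erase x ∧ E q.1 q.2) +
        2 * cnt (fun y : V => y ∈ U ∧ E x y) := by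
  classical
  rw [cnt_eq_card, cnt_eq_card, cnt_eq_card]
  have hsub : (univ.filter (fun q : V × V => q.1 ∈ U ∧ q.2 ∈ U ∧ E q.1 q.2)) ⊆
      (univ.filter (fun q : V × V => q.1 ∈ U.erase x ∧ q.2 ∈ U.erase x ∧ E q.1 q.2)) ∪
        ((univ.filter (fun y : V => y ∈ U ∧ E x y)).image (fun y => (x, y)) ∪
          (univ.filter (fun y : V => y ∈ U ∧ E x y)).image (fun y => (y, x))) := by
    rintro ⟨u, v⟩ hq
    rw [mem_filter] at hq
    obtain ⟨-, hu, hv, huv⟩ := hq
    simp only at hu hv huv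
    rw [mem_union, mem_union]
    by_cases hux : u = x
    · right; left
      rw [mem_image]
      refine ⟨v, ?_, by rw [hux]⟩
      rw [mem_filter]
      exact ⟨mem_univ _, hv, hux ▸ huv⟩
    · by_cases hvx : v = x
      · right; right
        rw [mem_image]
        refine ⟨u, ?_, by rw [hvx]⟩
        rw [mem_filter]
        exact ⟨mem_univ _, hu, hE _ _ (hvx ▸ huv)⟩
      · left
        rw [mem_filter]
        exact ⟨mem_univ _, mem_erase.2 ⟨hux, hu⟩, mem_erase.2 ⟨hvx, hv⟩, huv⟩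
  refine (card_le_card hsub).trans ?_
  refine (card_union_le _ _).trans ?_
  have h1 := card_union_le ((univ.filter (fun y : V => y ∈ U ∧ E x y)).image (fun y => (x, y)))
    ((univ.filter (fun y : V => y ∈ U ∧ E x y)).image (fun y => (y, x)))
  have h2 : ((univ.filter (fun y : V => y ∈ U ∧ E x y)).image (fun y => (x, y))).card ≤
      (univ.filter (fun y : V => y ∈ U ∧ E x y)).card := card_image_le
  have h3 : ((univ.filter (fun y : V => y ∈ U ∧ E x y)).image (fun y => (y, x))).card ≤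
      (univ.filter (fun y : V => y ∈ U ∧ E x y)).card := card_image_le
  omega

/-- Every dense symmetric relation has a subset `U` with almost the same number of pairs and large minimum
degree inside `U`.

PROOF.  Let `n = |V|`, `E(U) = #{(x,y) ∈ U × U | E x y}`.  Choose `U` maximising the real number
`Φ(U) = E(U) - 2 ε n |U|` over all finite subsets (`Finset.exists_max_image` on `univ : Finset (Finset V)`).
`Φ(univ) = cnt E - 2 ε n^2 ≥ h n^2`, so `E(U) ≥ Φ(U) ≥ h n^2` (`ε ≥ 0`).  Let `x ∈ U` and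
`d = #{y ∈ U | E x y}`.  Every pair of `E(U)` that is not in `E(U.erase x)` is `(x, y)` or `(y, x)` with
`y ∈ U`, `E x y` (symmetry), so `E(U) ≤ E(U.erase x) + 2 d`; and `|U.erase x| = |U| - 1`.
`Φ(U.erase x) ≤ Φ(U)` gives `2 ε n ≤ 2 d`. -/
theorem clean {V : Type} [Fintype V] [DecidableEq V] (E : V → V → Prop) (hE : ∀ x y, E x y → E y x)
    (h ε : ℝ) (hε : 0 ≤ ε)
    (hh : (h + 2 * ε) * (Fintype.card V : ℝ) ^ 2 ≤ cnt (fun q : V × V => E q.1 q.2)) :
    ∃ U : Finset V,
      h * (Fintype.card V : ℝ) ^ 2 ≤ cnt (fun q : V × V => q.1 ∈ U ∧ q.2 ∈ U ∧ E q.1 q.2) ∧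
      ∀ x ∈ U, ε * Fintype.card V ≤ cnt (fun y : V => y ∈ U ∧ E x y) := by
  obtain ⟨U, -, hU⟩ := Finset.exists_max_image (univ : Finset (Finset V))
    (fun U => (cnt (fun q : V × V => q.1 ∈ U ∧ q.2 ∈ U ∧ E q.1 q.2) : ℝ) -
      2 * ε * Fintype.card V * U.card) ⟨∅, mem_univ _⟩
  refine ⟨U, ?_, ?_⟩
  · have h1 := hU univ (mem_univ _)
    have h2 : cnt (fun q : V × V => q.1 ∈ (univ : Finset V) ∧ q.2 ∈ (univ : Finset V) ∧ E q.1 q.2) =
        cnt (fun q : V × V => E q.1 q.2) := by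
      congr 1
      funext q
      simp
    rw [h2, card_univ] at h1
    have h3 : 0 ≤ 2 * ε * Fintype.card V * (U.card : ℝ) := by positivity
    nlinarith
  · intro x hx
    have h1 := hU (U.erase x) (mem_univ _)
    have h2 := bclean_edge E hE U x
    have h3 : ((U.erase x).card : ℝ) = U.card - 1 := by
      rw [card_erase_of_mem hx, Nat.cast_sub (card_pos.2 ⟨x, hx⟩)]
      simp
    have h4 : (cnt (fun q : V × V => q.1 ∈ U ∧ q.2 ∈ U ∧ E q.1 q.2) : ℝ) ≤
      cnt (fun q : V × V => q.1 ∈ U.erase x ∧ q.2 ∈ U.erase x ∧ E q.1 q.2) +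
        2 * cnt (fun y : V => y ∈ U ∧ E x y) := by exact_mod_cast h2
    rw [h3] at h1
    nlinarith

end Pool.Agent.ZC
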