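import Pool.Agent.ZC.BFill

/-! # ZC : correction of an element of the small subgroup by a bounded number of leaves -/

set_option autoImplicit false

open Finset

namespace Pool.Agent.ZC

/-- Every element of the group generated by the `z x = x - x0 - a x • g` is corrected by exactly `D`
elements of `F`.

PROOF.  Let `e x = x - x0`, `z x = e x - a x • g`, `L • z x = 0` for `x ∈ F`.  `rep_mod` (`K = ⊥`, `n x = L`):
`γ = ∑_{x ∈ F} n x • z x` with `n x < L`.  With `s = ∑_{x ∈ F} n x * a x ≤ k L A1`,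
`γ = ∑ n x • e x - s • g = ∑_{y ∈ F} N y • e y`, `N y = n y - s * c y`, `|N y| ≤ L + k L A1 C ≤ N0`.
Let `ν y = (N0 + N y).toNat ≤ 2 N0` for `y ∈ F`, `y ≠ x0`, and `ν x0 = D - ∑_{y ∈ F, y ≠ x0} ν y`
(possible as `2 N0 k ≤ D`).  Then `∑_{y ∈ F} ν y = D` and (`e x0 = 0`)
`∑ ν y • y = D • x0 + ∑_{y ∈ F} ν y • e y = D • x0 + ∑_{y ∈ F} (N0 + N y) • e y`. -/
theorem corr {A : Type} [AddCommGroup A] (F : Finset A) (x0 : A) (hx0 : x0 ∈ F) (a : A → ℕ) (c : A → ℤ)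
    (k L A1 C N0 D : ℕ) (hk : F.card ≤ k) (hL : 1 ≤ L) (ha : ∀ x ∈ F, a x ≤ A1)
    (hc : ∀ x ∈ F, |c x| ≤ (C : ℤ)) (g : A) (hg : g = ∑ x ∈ F, c x • (x - x0))
    (hz : ∀ x ∈ F, L • (x - x0 - a x • g) = 0) (hN0 : L + k * L * A1 * C ≤ N0)
    (hD : k * (2 * N0) ≤ D) (γ : A)
    (hγ : γ ∈ AddSubgroup.closure ((fun x => x - x0 - a x • g) '' (F : Set A))) :
    ∃ ν : A → ℕ, ∑ x ∈ F, ν x = D ∧
      ∑ x ∈ F, ν x • x = (D • x0 + N0 • ∑ x ∈ F, (x - x0)) + γ := by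
  classical
  obtain ⟨n, hn, hn2⟩ := rep_mod F (fun x => x - x0 - a x • g) ⊥ (fun _ => L)
    (fun x hx => ⟨hL, by rw [AddSubgroup.mem_bot]; exact hz x hx⟩) γ hγ
  rw [AddSubgroup.mem_bot, sub_eq_zero] at hn2
  set s : ℕ := ∑ x ∈ F, n x * a x with hs
  have hsle : s ≤ k * L * A1 := by
    calc s ≤ ∑ x ∈ F, L * A1 := Finset.sum_le_sum fun x hx => Nat.mul_le_mul (hn x hx).le (ha x hx)
      _ = F.card * (L * A1) := by rw [Finset.sum_const, smul_eq_mul]
      _ ≤ k * (L * A1) := Nat.mul_le_mul_right _ hk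
      _ = k * L * A1 := by ring
  -- the coefficients
  set N : A → ℤ := fun y => (n y : ℤ) - s * c y with hN
  have hγN : γ = ∑ y ∈ F, N y • (y - x0) := by
    have h1 : γ = ∑ x ∈ F, n x • (x - x0) - s • g := by
      rw [hn2, hs, Finset.sum_smul, ← Finset.sum_sub_distrib]
      refine Finset.sum_congr rfl fun x _ => ?_
      rw [smul_sub, mul_smul]
    rw [h1, hg, Finset.smul_sum, ← Finset.sum_sub_distrib]
    refine Finset.sum_congr rfl fun y _ => ?_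
    rw [hN]
    simp only
    rw [sub_smul, mul_smul, natCast_zsmul, natCast_zsmul]
  have hNb : ∀ y ∈ F, |N y| ≤ (N0 : ℤ) := by
    intro y hy
    have h1 : |N y| ≤ |(n y : ℤ)| + |(s : ℤ) * c y| := abs_sub _ _
    rw [abs_mul, Nat.abs_cast, Nat.abs_cast] at h1
    have h2 : (s : ℤ) * |c y| ≤ (k * L * A1 : ℕ) * (C : ℤ) :=
      mul_le_mul (by exact_mod_cast hsle) (hc y hy) (abs_nonneg _) (Nat.cast_nonneg _)
    have h3 : (n y : ℤ) ≤ L := by exact_mod_cast (hn y hy).le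
    have h4 : ((L + k * L * A1 * C : ℕ) : ℤ) ≤ N0 := by exact_mod_cast hN0
    push_cast at h2 h4
    linarith
  set μ : A → ℕ := fun y => ((N0 : ℤ) + N y).toNat with hμ
  have hμc : ∀ y ∈ F, ((μ y : ℕ) : ℤ) = N0 + N y := by
    intro y hy
    have := (abs_le.1 (hNb y hy)).1
    exact Int.toNat_of_nonneg (by linarith)
  have hμle : ∀ y ∈ F, μ y ≤ 2 * N0 := by
    intro y hy
    have h1 := (abs_le.1 (hNb y hy)).2
    have h2 := hμc y hy
    omega
  have hsumμ : ∑ y ∈ F.erase x0, μ y ≤ D := by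
    calc ∑ y ∈ F.erase x0, μ y ≤ ∑ y ∈ F.erase x0, 2 * N0 :=
          Finset.sum_le_sum fun y hy => hμle y (Finset.mem_of_mem_erase hy)
      _ = (F.erase x0).card * (2 * N0) := by rw [Finset.sum_const, smul_eq_mul]
      _ ≤ k * (2 * N0) := Nat.mul_le_mul_right _ (Finset.card_erase_le.trans hk)
      _ ≤ D := hD
  set ν : A → ℕ := fun y => if y = x0 then D - ∑ y ∈ F.erase x0, μ y else μ y with hν
  have hνe : ∀ y ∈ F.erase x0, ν y = μ y := by
    intro y hy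
    rw [hν]
    simp only
    rw [if_neg (Finset.ne_of_mem_erase hy)]
  have hν0 : ν x0 = D - ∑ y ∈ F.erase x0, μ y := by
    rw [hν]
    simp
  have hνsum : ∑ x ∈ F, ν x = D := by
    rw [← Finset.add_sum_erase _ _ hx0, hν0, Finset.sum_congr rfl hνe]
    exact Nat.sub_add_cancel hsumμ
  refine ⟨ν, hνsum, ?_⟩
  have h1 : ∑ x ∈ F, ν x • x = ∑ x ∈ F, ν x • (x - x0) + D • x0 := by
    rw [← hνsum, Finset.sum_smul, ← Finset.sum_add_distrib]
    refine Finset.sum_congr rfl fun x _ => ?_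
    rw [← smul_add, sub_add_cancel]
  have h2 : ∑ x ∈ F, ν x • (x - x0) = ∑ x ∈ F, ((N0 : ℤ) + N x) • (x - x0) := by
    refine Finset.sum_congr rfl fun x hx => ?_
    by_cases hxx : x = x0
    · rw [hxx, sub_self, smul_zero, smul_zero]
    · rw [hνe x (Finset.mem_erase.2 ⟨hxx, hx⟩), ← hμc x hx, natCast_zsmul]
  rw [h1, h2]
  have h3 : ∑ x ∈ F, ((N0 : ℤ) + N x) • (x - x0) = N0 • ∑ x ∈ F, (x - x0) + γ := by
    rw [hγN, Finset.smul_sum, ← Finset.sum_add_distrib]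
    refine Finset.sum_congr rfl fun x _ => ?_
    rw [add_smul, natCast_zsmul]
  rw [h3]
  abel

end Pool.Agent.ZC
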