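import Pool.Agent.ZT.Core3

/-! # ZC : numerical estimate for trees inside a coset -/

set_option autoImplicit false

open Finset

namespace Pool.Agent.ZC

open Pool.Agent.ZT

theorem bcosetnum_pow {m : ℕ} (hm : 1 ≤ m) :
    ((m + 1 : ℕ) : ℝ) ^ (m - 1) ≤ Real.exp (m * Real.log m + 1) := by
  have hm0 : (0 : ℝ) < m := by exact_mod_cast hm
  have h1 : (1 : ℝ) ≤ ((m + 1 : ℕ) : ℝ) := by push_cast; linarith
  calc ((m + 1 : ℕ) : ℝ) ^ (m - 1) ≤ ((m + 1 : ℕ) : ℝ) ^ m :=
        pow_le_pow_right₀ h1 (Nat.sub_le _ _)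
    _ = (m : ℝ) ^ m * (1 + 1 / m) ^ m := by
        rw [← mul_pow]
        congr 1
        push_cast
        field_simp
    _ ≤ (m : ℝ) ^ m * Real.exp 1 := by
        refine mul_le_mul_of_nonneg_left ?_ (by positivity)
        have h2 : (1 : ℝ) + 1 / m ≤ Real.exp (1 / m) := by
          have := Real.add_one_le_exp (1 / (m : ℝ))
          linarith
        calc ((1 : ℝ) + 1 / m) ^ m ≤ Real.exp (1 / m) ^ m := pow_le_pow_left₀ (by positivity) h2 m
          _ = Real.exp 1 := by
            rw [← Real.exp_nat_mul]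
            congr 1
            field_simp
    _ = Real.exp (m * Real.log m + 1) := by
        rw [Real.exp_add, Real.exp_nat_mul, Real.exp_log hm0]

/-- Choice of the parameters `M`, `e`, `J` for `coset_raw`; all losses are `exp(-O(√m log m))`.

PROOF.  Let `M = G ⌈√m⌉`, `e + 1 = m / M`, `J = m % M < M`.  For large `m` (depending on `D` only)
`√m ≤ M ≤ D (√m + 1) ≤ 2 D √m` and `m / M ≥ 2`, so `e ≥ 1`, and `M e = m - J - M ≥ m - 2 M`, `M e ≤ m`.
Logarithms (`T := √m log m`, all constants depend on `D, ε`):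
* `log (m!) ≥ m log m - m` (`ZT.core3_stir`);
* `(M + J) log (ε / (G m)) ≥ - 2 M (log m + log (D/ε)) ≥ - C1 T`;
* `M log ((e+1)^(e-1) / e!) ≥ M (e - 2 log (e+1)) ≥ m - 2 M - 2 M log m ≥ m - C2 T` (`ZT.core3_block`);
* `M e log h ≥ m log h` (`h ≤ 1`, `M e ≤ m`);
* `(m-1) log (m+1) ≤ m log m + 1` (`log (m+1) ≤ log m + 1/m`).
Sum: right side `≥ exp (m log m + m log h - C3 T)`, left side `≤ exp (m log h + m log m + 1 - C T)`; take
`C = C3 + 1` and `m` large. -/
theorem coset_num (D : ℕ) (ε h : ℝ) (hε : 0 < ε) (hε1 : ε ≤ 1) (hh : 0 < h) (hh1 : h ≤ 1) :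
    ∃ C > (0 : ℝ), ∃ m0 : ℕ, ∀ m ≥ m0, ∀ G : ℕ, 1 ≤ G → G ≤ D →
      ∃ e M J : ℕ, 1 ≤ e ∧ 1 ≤ M ∧ M * (e + 1) + J = m ∧ G ∣ M ∧
        h ^ m * ((m + 1 : ℕ) : ℝ) ^ (m - 1) * Real.exp (-C * Real.sqrt m * Real.log m) ≤
          (m.factorial : ℝ) * (ε / (G * m)) ^ (M + J) *
            (((e + 1 : ℕ) : ℝ) ^ (e - 1) * h ^ e / (e.factorial : ℝ)) ^ M := by
  set K : ℝ := |Real.log (D / ε)| with hK
  have hK0 : 0 ≤ K := abs_nonneg _
  refine ⟨4 * D * (K + 3) + 1, by positivity, 16 * D ^ 2 + 3, ?_⟩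
  intro m hm G hG hGD
  have hm3 : 3 ≤ m := by omega
  have hmD : 16 * D ^ 2 ≤ m := by omega
  have hm0 : (0 : ℝ) < m := by exact_mod_cast (by omega : 0 < m)
  have hD1 : 1 ≤ D := hG.trans hGD
  have hDr : (1 : ℝ) ≤ D := by exact_mod_cast hD1
  have hGr : (1 : ℝ) ≤ G := by exact_mod_cast hG
  have hGDr : (G : ℝ) ≤ D := by exact_mod_cast hGD
  set s : ℝ := Real.sqrt m with hs
  have hss : s * s = m := Real.mul_self_sqrt hm0.le
  have hs4 : 4 * (D : ℝ) ≤ s := by
    rw [hs]
    refine Real.le_sqrt_of_sq_le ?_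
    have : ((16 * D ^ 2 : ℕ) : ℝ) ≤ m := by exact_mod_cast hmD
    push_cast at this
    nlinarith
  have hs1 : 1 ≤ s := by linarith
  set L : ℝ := Real.log m with hL
  have hL1 : 1 ≤ L := by
    rw [hL, Real.le_log_iff_exp_le hm0]
    have h1 : Real.exp 1 < 3 := Real.exp_one_lt_d9.trans (by norm_num)
    have h2 : (3 : ℝ) ≤ m := by exact_mod_cast hm3
    linarith
  set S : ℕ := ⌈s⌉₊ with hS
  have hS1 : s ≤ S := Nat.le_ceil s
  have hS2 : (S : ℝ) < s + 1 := Nat.ceil_lt_add_one (by linarith)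
  have hSpos : 1 ≤ S := by
    have : (0 : ℝ) < S := by linarith
    exact_mod_cast this
  set M : ℕ := G * S with hM
  have hM1 : 1 ≤ M := Nat.mul_pos hG hSpos
  have hMr : (M : ℝ) ≤ 2 * D * s := by
    rw [hM]
    push_cast
    calc (G : ℝ) * S ≤ D * (s + 1) := mul_le_mul hGDr hS2.le (by positivity) (by linarith)
      _ ≤ D * (2 * s) := mul_le_mul_of_nonneg_left (by linarith) (by linarith)
      _ = 2 * D * s := by ring
  have h2M : 2 * M ≤ m := by
    have : (2 : ℝ) * M ≤ m := by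
      calc (2 : ℝ) * M ≤ 2 * (2 * D * s) := by linarith
        _ = (4 * D) * s := by ring
        _ ≤ s * s := mul_le_mul_of_nonneg_right hs4 (by linarith)
        _ = m := hss
    exact_mod_cast this
  have hdiv : 2 ≤ m / M := (Nat.le_div_iff_mul_le hM1).2 h2M
  set e : ℕ := m / M - 1 with he
  set J : ℕ := m % M with hJ
  have he1 : e + 1 = m / M := by omega
  have hJM : J < M := Nat.mod_lt _ hM1
  have hsum : M * (e + 1) + J = m := by
    rw [he1]
    exact Nat.div_add_mod m M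
  have hMe : M * e ≤ m := by
    rw [← hsum, Nat.mul_succ]
    omega
  have hMe2 : m ≤ M * e + 2 * M := by
    rw [← hsum, Nat.mul_succ]
    omega
  have hem : e + 1 ≤ m := by
    rw [he1]
    exact Nat.div_le_self m M
  refine ⟨e, M, J, by omega, hM1, hsum, ⟨S, rfl⟩, ?_⟩
  -- the factors
  have hMe2r : (m : ℝ) ≤ M * e + 2 * M := by exact_mod_cast hMe2
  have hMJ : ((M + J : ℕ) : ℝ) ≤ 2 * M := by
    have : M + J ≤ 2 * M := by omega
    exact_mod_cast this
  have hMp : (0 : ℝ) < M := by exact_mod_cast hM1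
  have hfac : Real.exp (m * L - m) ≤ (m.factorial : ℝ) := by
    rw [← Real.le_log_iff_exp_le (by positivity)]
    exact core3_stir m (by omega)
  have hlog : -(L + K) ≤ Real.log (ε / (G * m)) := by
    have h1 : Real.log (ε / (G * m)) = Real.log ε - (Real.log G + L) := by
      rw [Real.log_div hε.ne' (by positivity), Real.log_mul (by positivity) hm0.ne']
    have h2 : Real.log (D / ε) = Real.log D - Real.log ε :=
      Real.log_div (by positivity) hε.ne'
    have h3 : Real.log G ≤ Real.log D := Real.log_le_log (by linarith) hGDr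
    have h4 : Real.log (D / ε) ≤ K := le_abs_self _
    rw [h1]
    linarith
  have hpow : Real.exp (-(2 * M * (L + K))) ≤ (ε / (G * m)) ^ (M + J) := by
    have h0 : 0 < ε / (G * m) := by positivity
    rw [← Real.le_log_iff_exp_le (by positivity), Real.log_pow]
    have h1 : 0 ≤ L + K := by linarith
    calc -(2 * M * (L + K)) = (2 * M) * (-(L + K)) := by ring
      _ ≤ ((M + J : ℕ) : ℝ) * (-(L + K)) := by
          have := mul_le_mul_of_nonneg_right hMJ h1
          linarith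
      _ ≤ ((M + J : ℕ) : ℝ) * Real.log (ε / (G * m)) :=
          mul_le_mul_of_nonneg_left hlog (Nat.cast_nonneg _)
  have hblock : Real.exp (m - 2 * M - 2 * M * L) * h ^ m ≤
      (((e + 1 : ℕ) : ℝ) ^ (e - 1) * h ^ e / (e.factorial : ℝ)) ^ M := by
    have h1 := core3_block e
    have h2 : ((e + 1 : ℕ) : ℝ) ^ (e - 1) * h ^ e / (e.factorial : ℝ) =
        (((e + 1 : ℕ) : ℝ) ^ (e - 1) / (e.factorial : ℝ)) * h ^ e := by ring
    rw [h2, mul_pow, ← pow_mul, mul_comm e M]
    have h3 : h ^ m ≤ h ^ (M * e) := pow_le_pow_of_le_one hh.le hh1 hMe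
    refine mul_le_mul ?_ h3 (by positivity) (by positivity)
    calc Real.exp (m - 2 * M - 2 * M * L) ≤ Real.exp ((e : ℝ) - 2 * Real.log (e + 1)) ^ M := by
          rw [← Real.exp_nat_mul]
          refine Real.exp_le_exp.2 ?_
          have h4 : Real.log ((e : ℝ) + 1) ≤ L := by
            refine Real.log_le_log (by positivity) ?_
            exact_mod_cast hem
          have h5 : (M : ℝ) * Real.log ((e : ℝ) + 1) ≤ M * L := mul_le_mul_of_nonneg_left h4 hMp.le
          nlinarith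
      _ ≤ _ := pow_le_pow_left₀ (Real.exp_pos _).le h1 M
  have hT : 2 * M * (2 * L + K + 1) + 1 ≤ (4 * D * (K + 3) + 1) * s * L := by
    have h1 : 2 * L + K + 1 ≤ (K + 3) * L := by nlinarith
    have h2 : 2 * (M : ℝ) * (2 * L + K + 1) ≤ (2 * (2 * D * s)) * ((K + 3) * L) :=
      mul_le_mul (by linarith) h1 (by positivity) (by positivity)
    have h3 : 1 ≤ s * L := by nlinarith
    calc 2 * (M : ℝ) * (2 * L + K + 1) + 1 ≤ (2 * (2 * D * s)) * ((K + 3) * L) + s * L := by linarith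
      _ = _ := by ring
  calc h ^ m * ((m + 1 : ℕ) : ℝ) ^ (m - 1) *
        Real.exp (-(4 * D * (K + 3) + 1) * s * L)
      ≤ h ^ m * Real.exp (m * L + 1) * Real.exp (-(4 * D * (K + 3) + 1) * s * L) := by
        refine mul_le_mul_of_nonneg_right ?_ (Real.exp_pos _).le
        exact mul_le_mul_of_nonneg_left (bcosetnum_pow (by omega)) (by positivity)
    _ = h ^ m * Real.exp (m * L + 1 + -(4 * D * (K + 3) + 1) * s * L) := by
        rw [mul_assoc, ← Real.exp_add]
    _ ≤ h ^ m * Real.exp ((m * L - m) + -(2 * M * (L + K)) + (m - 2 * M - 2 * M * L)) := by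
        refine mul_le_mul_of_nonneg_left (Real.exp_le_exp.2 ?_) (by positivity)
        linarith
    _ = Real.exp (m * L - m) * Real.exp (-(2 * M * (L + K))) *
          (Real.exp (m - 2 * M - 2 * M * L) * h ^ m) := by
        rw [Real.exp_add, Real.exp_add]
        ring
    _ ≤ _ := by
        refine mul_le_mul (mul_le_mul hfac hpow (Real.exp_pos _).le (by positivity)) hblock ?_ ?_
        · positivity
        · positivity

end Pool.Agent.ZC
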