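import Pool.Agent.ZT.Block

/-! # ZC : many trees with all edges in one coset -/

set_option autoImplicit false

open Finset

namespace Pool.Agent.ZC

open Pool.Agent.ZT

theorem btree_RR {V G : Type} [Fintype V] [DecidableEq V] [AddCommMonoid G] [DecidableEq G]
    (c : V → V → G) (e : ℕ) (z : V) (g : G) :
    (RR c (Fin (e + 1)) 0 z g : ℝ) = ∑ p ∈ PT (Fin (e + 1)) 0, ∑ x : Fin (e + 1) → V,
      if x 0 = z ∧ PS c p 0 x = g then (1 : ℝ) else 0 := by
  classical
  rw [RR_congr, cnt_eq_sum, Fintype.sum_prod_type]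
  symm
  rw [← Finset.sum_subset (Finset.subset_univ (PT (Fin (e + 1)) 0))]
  · refine sum_congr rfl fun p hp => sum_congr rfl fun x _ => ?_
    simp only [hp, true_and]
  · intro p _ hp
    refine sum_eq_zero fun x _ => ?_
    simp [hp]

/-- some label different from the root is sent to the root -/
theorem btree_child {e : ℕ} (he : 1 ≤ e) {p : Fin (e + 1) → Fin (e + 1)}
    (hp : p ∈ PT (Fin (e + 1)) 0) : ∃ u : Fin (e + 1), u ≠ 0 ∧ p u = 0 := by
  classical
  simp only [PT, mem_filter, mem_univ, true_and] at hp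
  obtain ⟨-, h2⟩ := hp
  have hw : (Fin.last e) ≠ 0 := by
    intro h
    have h3 := congrArg Fin.val h
    rw [Fin.val_last, Fin.val_zero] at h3
    omega
  have hex := h2 (Fin.last e)
  have hk := Nat.find_spec hex
  have hmin := fun m => Nat.find_min hex (m := m)
  obtain ⟨k, hk'⟩ : ∃ k, Nat.find hex = k := ⟨_, rfl⟩
  rw [hk'] at hk hmin
  rcases k with _ | k
  · rw [Function.iterate_zero, id_eq] at hk
    exact absurd hk hw
  · refine ⟨p^[k] (Fin.last e), hmin k (Nat.lt_succ_self k), ?_⟩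
    rw [Function.iterate_succ_apply'] at hk
    exact hk

/-- Trees with `e ≥ 1` edges, all of them inside `U` and with colour in `x1 + Γ`.

PROOF.  If `V` is empty both sides are `0` (`sm`, `rr` are nonnegative).  Let `n = |V| > 0` and
`K x y = 1` if `x ∈ U`, `y ∈ U`, `c x y - x1 ∈ Γ` and `K x y = 0` otherwise (symmetric by `hc`).
`∑_{x,y} K x y = cnt (...) ≥ h n^2`, so `ZT.block_sid` gives
`(e+1)^(e-1) n^(e+1) h^e ≤ ∑_{p ∈ PT} ∑_x ∏_{w ≠ 0} K (x w) (x (p w))`.  Every product is `0` or `1`; if it is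
`1` then all edges are good, so `PS c p 0 x - e • x1 ∈ Γ` (sum of the `e` elements
`c (x w) (x (p w)) - x1 ∈ Γ` over `univ.erase 0`) and `x 0 ∈ U` (take any `w ≠ 0`, exists as `e ≥ 1`; some
iterate of `p` sends `w` to `0`, so there is a label `u ≠ 0` with `p u = 0`, and `K (x u) (x 0) = 1`).
Therefore the double sum is at most the number of pairs `(p, x)` with `p ∈ PT`, `x 0 ∈ U`,
`PS c p 0 x - e • x1 ∈ Γ`, which is `∑_{z ∈ U} ∑_{g, g - e • x1 ∈ Γ} RR c (Fin (e+1)) 0 z g`, and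
`rr = RR / (e! n^e)`. -/
theorem class_trees {V G : Type} [Fintype V] [DecidableEq V] [Fintype G] [AddCommGroup G]
    (c : V → V → G) (hc : ∀ x y, c x y = c y x) (Γ : AddSubgroup G) (x1 : G) (U : Finset V) (e : ℕ)
    (he : 1 ≤ e) (h : ℝ) (hh : 0 ≤ h)
    (hd : h * (Fintype.card V : ℝ) ^ 2 ≤
      cnt (fun q : V × V => q.1 ∈ U ∧ q.2 ∈ U ∧ c q.1 q.2 - x1 ∈ Γ)) :
    ((e + 1 : ℕ) : ℝ) ^ (e - 1) * h ^ e * (Fintype.card V : ℝ) ≤
      (e.factorial : ℝ) *
        ∑ z ∈ U, sm (fun g : G => g - e • x1 ∈ Γ) (fun g => rr c e z g) := by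
  classical
  rcases Nat.eq_zero_or_pos (Fintype.card V) with hV | hV
  · rw [hV, Nat.cast_zero, mul_zero]
    refine mul_nonneg (Nat.cast_nonneg _) (sum_nonneg fun z _ => ?_)
    rw [sm_eq]
    exact sum_nonneg fun g _ => rr_nonneg c e z g
  have hn : (0 : ℝ) < Fintype.card V := by exact_mod_cast hV
  have hfac : (0 : ℝ) < (e.factorial : ℝ) := by exact_mod_cast e.factorial_pos
  set K : V → V → ℝ := fun x y => if x ∈ U ∧ y ∈ U ∧ c x y - x1 ∈ Γ then 1 else 0 with hKdef
  have hK : ∀ x y, 0 ≤ K x y := by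
    intro x y
    simp only [hKdef]
    split_ifs
    · exact zero_le_one
    · exact le_rfl
  have hK1 : ∀ x y, K x y ≤ 1 := by
    intro x y
    simp only [hKdef]
    split_ifs
    · exact le_rfl
    · exact zero_le_one
  have hs : ∀ x y, K x y = K y x := by
    intro x y
    simp only [hKdef, hc x y]
    by_cases h1 : x ∈ U <;> by_cases h2 : y ∈ U <;> simp [h1, h2]
  have hsum : ∑ x, ∑ y, K x y =
      (cnt (fun q : V × V => q.1 ∈ U ∧ q.2 ∈ U ∧ c q.1 q.2 - x1 ∈ Γ) : ℝ) := by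
    rw [cnt_eq_sum, Fintype.sum_prod_type]
  rw [← hsum] at hd
  have hmain := block_sid K hK hs e h hh hd
  have hterm : ∀ p ∈ PT (Fin (e + 1)) 0, ∀ x : Fin (e + 1) → V,
      ∏ w ∈ univ.erase 0, K (x w) (x (p w)) ≤
        ∑ z ∈ U, ∑ g ∈ univ.filter (fun g : G => g - e • x1 ∈ Γ),
          if x 0 = z ∧ PS c p 0 x = g then (1 : ℝ) else 0 := by
    intro p hp x
    have hnn : 0 ≤ ∑ z ∈ U, ∑ g ∈ univ.filter (fun g : G => g - e • x1 ∈ Γ),
          if x 0 = z ∧ PS c p 0 x = g then (1 : ℝ) else 0 := by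
      refine sum_nonneg fun z _ => sum_nonneg fun g _ => ?_
      split_ifs
      · exact zero_le_one
      · exact le_rfl
    by_cases hall : ∀ w ∈ univ.erase (0 : Fin (e + 1)),
        x w ∈ U ∧ x (p w) ∈ U ∧ c (x w) (x (p w)) - x1 ∈ Γ
    · obtain ⟨u, hu0, hu⟩ := btree_child he hp
      have hx0 : x 0 ∈ U := by
        have h1 := (hall u (mem_erase.2 ⟨hu0, mem_univ _⟩)).2.1
        rwa [hu] at h1
      have hcd : (univ.erase (0 : Fin (e + 1))).card = e := by
        rw [card_erase_of_mem (mem_univ _), card_univ, Fintype.card_fin]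
        rfl
      have hPS : PS c p 0 x - e • x1 ∈ Γ := by
        have h1 : PS c p 0 x - e • x1 =
            ∑ w ∈ univ.erase (0 : Fin (e + 1)), (c (x w) (x (p w)) - x1) := by
          rw [sum_sub_distrib, sum_const, hcd]
          rfl
        rw [h1]
        exact Γ.sum_mem fun w hw => (hall w hw).2.2
      have h1 : ∏ w ∈ univ.erase 0, K (x w) (x (p w)) ≤ 1 :=
        prod_le_one (fun w _ => hK _ _) fun w _ => hK1 _ _
      refine h1.trans ?_
      have h2 : (1 : ℝ) ≤ ∑ g ∈ univ.filter (fun g : G => g - e • x1 ∈ Γ),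
          if x 0 = x 0 ∧ PS c p 0 x = g then (1 : ℝ) else 0 := by
        have h3 : (if x 0 = x 0 ∧ PS c p 0 x = PS c p 0 x then (1 : ℝ) else 0) = 1 :=
          if_pos ⟨rfl, rfl⟩
        refine le_trans (le_of_eq h3.symm) ?_
        refine single_le_sum (f := fun g : G => if x 0 = x 0 ∧ PS c p 0 x = g then (1 : ℝ) else 0)
          (a := PS c p 0 x) (fun g _ => ?_) (mem_filter.2 ⟨mem_univ _, hPS⟩)
        split_ifs
        · exact zero_le_one
        · exact le_rfl
      refine h2.trans ?_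
      refine single_le_sum (f := fun z : V => ∑ g ∈ univ.filter (fun g : G => g - e • x1 ∈ Γ),
          if x 0 = z ∧ PS c p 0 x = g then (1 : ℝ) else 0) (fun z _ => ?_) hx0
      refine sum_nonneg fun g _ => ?_
      split_ifs
      · exact zero_le_one
      · exact le_rfl
    · push Not at hall
      obtain ⟨w, hw, hne⟩ := hall
      have h0 : ∏ w ∈ univ.erase 0, K (x w) (x (p w)) = 0 := by
        refine prod_eq_zero hw ?_
        simp only [hKdef]
        rw [if_neg]
        rintro ⟨a1, a2, a3⟩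
        exact hne a1 a2 a3
      rw [h0]
      exact hnn
  have hswap : ∑ p ∈ PT (Fin (e + 1)) 0, ∑ x : Fin (e + 1) → V,
      ∑ z ∈ U, ∑ g ∈ univ.filter (fun g : G => g - e • x1 ∈ Γ),
          (if x 0 = z ∧ PS c p 0 x = g then (1 : ℝ) else 0) =
      ∑ z ∈ U, ∑ g ∈ univ.filter (fun g : G => g - e • x1 ∈ Γ), (RR c (Fin (e + 1)) 0 z g : ℝ) := by
    have h1 : ∀ p ∈ PT (Fin (e + 1)) 0, ∑ x : Fin (e + 1) → V,
        ∑ z ∈ U, ∑ g ∈ univ.filter (fun g : G => g - e • x1 ∈ Γ),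
          (if x 0 = z ∧ PS c p 0 x = g then (1 : ℝ) else 0) =
        ∑ z ∈ U, ∑ g ∈ univ.filter (fun g : G => g - e • x1 ∈ Γ), ∑ x : Fin (e + 1) → V,
          (if x 0 = z ∧ PS c p 0 x = g then (1 : ℝ) else 0) := by
      intro p _
      rw [sum_comm]
      exact sum_congr rfl fun z _ => sum_comm
    rw [sum_congr rfl h1, sum_comm]
    refine sum_congr rfl fun z _ => ?_
    rw [sum_comm]
    refine sum_congr rfl fun g _ => ?_
    rw [btree_RR]
  have hfin : ((e + 1 : ℕ) : ℝ) ^ (e - 1) * (Fintype.card V : ℝ) ^ (e + 1) * h ^ e ≤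
      ∑ z ∈ U, ∑ g ∈ univ.filter (fun g : G => g - e • x1 ∈ Γ), (RR c (Fin (e + 1)) 0 z g : ℝ) := by
    rw [← hswap]
    exact hmain.trans (sum_le_sum fun p hp => sum_le_sum fun x _ => hterm p hp x)
  have hR : (e.factorial : ℝ) *
        ∑ z ∈ U, sm (fun g : G => g - e • x1 ∈ Γ) (fun g => rr c e z g) =
      (∑ z ∈ U, ∑ g ∈ univ.filter (fun g : G => g - e • x1 ∈ Γ), (RR c (Fin (e + 1)) 0 z g : ℝ)) /
        (Fintype.card V : ℝ) ^ e := by
    rw [mul_sum, sum_div]
    refine sum_congr rfl fun z _ => ?_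
    rw [sm_eq, mul_sum, sum_div]
    refine sum_congr rfl fun g _ => ?_
    unfold rr
    field_simp
  rw [hR, le_div_iff₀ (by positivity)]
  refine le_trans (le_of_eq ?_) hfin
  rw [pow_succ]
  ring

end Pool.Agent.ZC
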