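import Pool.Agent.ZC.BHub
import Pool.Agent.ZC.BTree

/-! # ZC : zero-sum trees inside one coset of a small subgroup, raw form -/

set_option autoImplicit false

open Finset

namespace Pool.Agent.ZC

open Pool.Agent.ZT

/-- a natural multiple of the order of the subgroup kills its elements -/
theorem bcosetraw_kill {m : ℕ} [NeZero m] (Γ : AddSubgroup (ZMod m)) (k : ℕ) (hk : Nat.card Γ ∣ k)
    {a b : ZMod m} (h : a - b ∈ Γ) : k • a = k • b := by
  obtain ⟨q, rfl⟩ := hk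
  have h1 : Nat.card Γ • (⟨a - b, h⟩ : Γ) = 0 := card_nsmul_eq_zero'
  have h2 : Nat.card Γ • (a - b) = 0 := by
    have := congrArg Subtype.val h1
    rwa [AddSubgroup.coe_nsmul] at this
  have h3 : Nat.card Γ • a = Nat.card Γ • b := by
    rw [← sub_eq_zero, ← nsmul_sub]
    exact h2
  rw [mul_comm, mul_nsmul', mul_nsmul', h3]

/-- power mean -/
theorem bcosetraw_pm {V : Type} [Fintype V] (U : Finset V) (f : V → ℝ) (hf : ∀ y, 0 ≤ f y) (M : ℕ)
    (hM : 1 ≤ M) (n a : ℝ) (hn : 0 < n) (hU : (U.card : ℝ) ≤ n) (ha : 0 ≤ a)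
    (h : n * a ≤ ∑ y ∈ U, f y) : n * a ^ M ≤ ∑ y ∈ U, f y ^ M := by
  obtain ⟨k, rfl⟩ : ∃ k, M = k + 1 := ⟨M - 1, by omega⟩
  rcases Finset.eq_empty_or_nonempty U with rfl | hne
  · rw [sum_empty] at h
    have : a = 0 := by
      rcases ha.eq_or_lt with h0 | h0
      · exact h0.symm
      · have : 0 < n * a := mul_pos hn h0
        linarith
    rw [this]
    simp
  · have h1 := pow_sum_div_card_le_sum_pow (s := U) (f := f) (fun i _ => hf i) k
    have hc : (0 : ℝ) < (U.card : ℝ) := by exact_mod_cast hne.card_pos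
    refine le_trans ?_ h1
    rw [le_div_iff₀ (by positivity)]
    calc n * a ^ (k + 1) * (U.card : ℝ) ^ k ≤ n * a ^ (k + 1) * n ^ k := by gcongr
      _ = (n * a) ^ (k + 1) := by ring
      _ ≤ (∑ y ∈ U, f y) ^ (k + 1) := by gcongr

/-- Zero-sum trees all of whose edges have a colour in `x1 + Γ`: one hub `y`, `M` blocks with `e` edges and
the same popular sum, `J` leaves of one popular colour; `|Γ|` divides `M` and `m`, hence `J`, so the total
sum is `m • x1 = 0`.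

PROOF.  Let `n = |V|`, `G = Nat.card Γ` (`≥ 1`, and `G ∣ m` by Lagrange, `AddSubgroup.card_addSubgroup_dvd_card`
with `Nat.card (ZMod m) = m`; hence `G ∣ J`).  If `n = 0` the left side is `0`.
`T z := sm (fun g => g - e • x1 ∈ Γ) (fun g => rr c e z g)`, `Y y := {z ∈ U | c z y - x1 ∈ Γ}` for `y ∈ U`,
`β y := (∑_{z ∈ Y y} T z) / (G n)`.
(1) For `y ∈ U`: `pop_block` gives `σ` with `σ - (e+1) • x1 ∈ Γ` and `β y * n ≤ ∑_{z ∈ Y y} rr c e z (σ - c z y)`;
`hub_pow` with `e0 = 0`, `g = 0` (`rr_zero`) gives `(β y / m)^M ≤ rr c (M (e+1)) y (M • σ)`.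
(2) `pop_block` with `e = 0` (`sm (fun g => g - 0 • x1 ∈ Γ) (rr c 0 z) ≥ rr c 0 z 0 = 1`) and
`|Y y| ≥ ε n` (symmetry of `c`) give `b` with `b - x1 ∈ Γ` and
`(ε / G) n ≤ ∑_{z ∈ Y y} rr c 0 z (b - c z y)`; `hub_pow` with block size `0`, `M := J`, gives
`rr c m y 0 ≥ (β y / m)^M (ε / (G m))^J`, because `M • σ + J • b = M • ((e+1) • x1) + J • x1 = m • x1 = 0`:
`M • (σ - (e+1) • x1) = 0` and `J • (b - x1) = 0` as `G ∣ M`, `G ∣ J` (`G • γ = 0` for `γ ∈ Γ`).
(3) `∑_{y ∈ U} β y = (1/(G n)) ∑_{z ∈ U} T z #{y ∈ U | c z y - x1 ∈ Γ} ≥ (ε / G) ∑_{z ∈ U} T z ≥ (ε/G) n B`,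
`B = (e+1)^(e-1) h^e / e!` (`class_trees`).
(4) Power mean (`inner_le_nnorm_mul_nnorm`-free: `Finset.pow_sum_div_card_le_sum_pow` or
`inv_pow_mul_sum_pow...`; Mathlib: `pow_sum_div_card_le_sum_pow`), `|U| ≤ n`:
`∑_{y ∈ U} (β y)^M ≥ n ((∑_{y ∈ U} β y)/n)^M ≥ n ((ε/G) B)^M`.
(5) `NN c m 0 = m! n^m ∑_y rr c m y 0` (`sum_rr`), and `∑_y ≥ ∑_{y ∈ U}`. -/
theorem coset_raw {V : Type} [Fintype V] [DecidableEq V] {m : ℕ} [NeZero m] (c : V → V → ZMod m)
    (hc : ∀ x y, c x y = c y x) (Γ : AddSubgroup (ZMod m)) (x1 : ZMod m) (U : Finset V)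
    (e M J : ℕ) (he : 1 ≤ e) (hM : 1 ≤ M) (hm : M * (e + 1) + J = m) (hdM : Nat.card Γ ∣ M)
    (h ε : ℝ) (hh : 0 ≤ h) (hε : 0 ≤ ε)
    (hd : h * (Fintype.card V : ℝ) ^ 2 ≤
      cnt (fun q : V × V => q.1 ∈ U ∧ q.2 ∈ U ∧ c q.1 q.2 - x1 ∈ Γ))
    (hdeg : ∀ x ∈ U, ε * Fintype.card V ≤ cnt (fun y : V => y ∈ U ∧ c x y - x1 ∈ Γ)) :
    (m.factorial : ℝ) * (Fintype.card V : ℝ) ^ (m + 1) * (ε / (Nat.card Γ * m)) ^ (M + J) *
      (((e + 1 : ℕ) : ℝ) ^ (e - 1) * h ^ e / (e.factorial : ℝ)) ^ M ≤ NN c m 0 := by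
  classical
  rcases Nat.eq_zero_or_pos (Fintype.card V) with h0 | hn
  · rw [h0]
    simp
  have hm1 : 1 ≤ m := by
    have : 1 ≤ M * (e + 1) := Nat.one_le_iff_ne_zero.2 (by positivity)
    omega
  have hnR : (0 : ℝ) < (Fintype.card V : ℝ) := by exact_mod_cast hn
  have hmR : (0 : ℝ) < (m : ℝ) := by exact_mod_cast hm1
  have hG : 0 < Nat.card Γ := Nat.card_pos
  have hGR : (0 : ℝ) < (Nat.card Γ : ℝ) := by exact_mod_cast hG
  have hdm : Nat.card Γ ∣ m := by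
    have := AddSubgroup.card_addSubgroup_dvd_card Γ
    rwa [Nat.card_zmod] at this
  have hdJ : Nat.card Γ ∣ J := by
    have h1 : Nat.card Γ ∣ M * (e + 1) := Dvd.dvd.mul_right hdM _
    have h2 : Nat.card Γ ∣ M * (e + 1) + J := by
      obtain ⟨q, hq⟩ := hdm
      exact ⟨q, hm.trans hq⟩
    exact (Nat.dvd_add_right h1).1 h2
  set n : ℝ := (Fintype.card V : ℝ) with hnd
  set G : ℝ := (Nat.card Γ : ℝ) with hGd
  set T : V → ℝ := fun z => sm (fun g : ZMod m => g - e • x1 ∈ Γ) (fun g => rr c e z g) with hT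
  have hT0 : ∀ z, 0 ≤ T z := fun z => by
    rw [hT]
    simp only [sm_eq]
    exact sum_nonneg fun g _ => rr_nonneg c e z g
  set Y : V → Finset V := fun y => U.filter (fun z => c z y - x1 ∈ Γ) with hY
  have hYm : ∀ y, ∀ z ∈ Y y, c z y - x1 ∈ Γ := fun y z hz => (mem_filter.1 hz).2
  set β : V → ℝ := fun y => (∑ z ∈ Y y, T z) / (G * n) with hβ
  have hβ0 : ∀ y, 0 ≤ β y := fun y =>
    div_nonneg (sum_nonneg fun z _ => hT0 z) (by positivity)
  -- the degree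
  have hdegY : ∀ y ∈ U, ε * n ≤ ((Y y).card : ℝ) := by
    intro y hy
    have h1 := hdeg y hy
    rw [cnt_eq_card] at h1
    have h2 : (univ.filter (fun z : V => z ∈ U ∧ c y z - x1 ∈ Γ)) = Y y := by
      ext z
      simp only [hY, mem_filter, mem_univ, true_and]
      rw [hc y z]
    rwa [h2] at h1
  -- (1), (2)
  have hrr : ∀ y ∈ U, (β y / m) ^ M * (ε / (G * m)) ^ J ≤ rr c m y 0 := by
    intro y hy
    obtain ⟨σ, hσ, hσ2⟩ := pop_block c Γ x1 e y (Y y) (hYm y)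
    obtain ⟨b, hb, hb2⟩ := pop_block c Γ x1 0 y (Y y) (hYm y)
    have h1 := hub_pow c y e 0 M m 0 σ (Y y) (β y) (hβ0 y) (by
      rw [hβ]
      show (∑ z ∈ Y y, T z) / (G * n) * n ≤ _
      rw [div_mul_eq_mul_div, div_le_iff₀ (by positivity)]
      calc (∑ z ∈ Y y, T z) * n ≤ (G * ∑ z ∈ Y y, rr c e z (σ - c z y)) * n :=
            mul_le_mul_of_nonneg_right hσ2 hnR.le
        _ = _ := by ring) (by omega)
    rw [rr_zero, one_mul, zero_add, zero_add] at h1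
    have h2 := hub_pow c y 0 (M * (e + 1)) J m (M • σ) b (Y y) (ε / G) (by positivity) (by
      rw [div_mul_eq_mul_div, div_le_iff₀ hGR]
      have h3 : ((Y y).card : ℝ) ≤
          ∑ z ∈ Y y, sm (fun g : ZMod m => g - 0 • x1 ∈ Γ) (fun g => rr c 0 z g) := by
        rw [← nsmul_one (Y y).card, ← sum_const]
        refine sum_le_sum fun z _ => ?_
        rw [sm_eq]
        have h4 : (0 : ZMod m) ∈ univ.filter (fun g : ZMod m => g - 0 • x1 ∈ Γ) := by
          simp only [mem_filter, mem_univ, true_and, zero_nsmul, sub_zero]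
          exact Γ.zero_mem
        refine le_trans (le_of_eq ?_)
          (single_le_sum (f := fun g => rr c 0 z g) (fun g _ => rr_nonneg c 0 z g) h4)
        exact (rr_zero c z).symm
      calc ε * n ≤ ((Y y).card : ℝ) := hdegY y hy
        _ ≤ _ := h3
        _ ≤ _ := hb2
        _ = _ := by ring) (by omega)
    have e1 : M * (e + 1) + J * (0 + 1) = m := by omega
    have e2 : M • σ + J • b = 0 := by
      rw [bcosetraw_kill Γ M hdM hσ, bcosetraw_kill Γ J hdJ hb, zero_add, one_nsmul, ← mul_nsmul',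
        ← add_nsmul, hm, nsmul_eq_mul, ZMod.natCast_self, zero_mul]
    rw [e1, e2, div_div] at h2
    refine le_trans ?_ h2
    exact mul_le_mul_of_nonneg_right h1 (by positivity)
  -- (3)
  set B : ℝ := ((e + 1 : ℕ) : ℝ) ^ (e - 1) * h ^ e / (e.factorial : ℝ) with hB
  have hB0 : 0 ≤ B := by positivity
  have hfe : (0 : ℝ) < (e.factorial : ℝ) := by exact_mod_cast e.factorial_pos
  have hsT : n * B ≤ ∑ z ∈ U, T z := by
    have h1 := class_trees c hc Γ x1 U e he h hh hd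
    rw [hB, mul_div_assoc', div_le_iff₀ hfe]
    calc n * (((e + 1 : ℕ) : ℝ) ^ (e - 1) * h ^ e) = ((e + 1 : ℕ) : ℝ) ^ (e - 1) * h ^ e * n := by ring
      _ ≤ _ := h1
      _ = _ := by ring
  have hsβ : n * (ε / G * B) ≤ ∑ y ∈ U, β y := by
    have h1 : ∑ y ∈ U, ∑ z ∈ Y y, T z = ∑ z ∈ U, T z * ((Y z).card : ℝ) := by
      have h2 : ∀ y, ∑ z ∈ Y y, T z = ∑ z ∈ U, if c z y - x1 ∈ Γ then T z else 0 := by
        intro y
        rw [hY]
        exact sum_filter _ _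
      simp only [h2]
      rw [sum_comm]
      refine sum_congr rfl fun z _ => ?_
      rw [← sum_filter, sum_const, nsmul_eq_mul, mul_comm]
      congr 3
      ext y
      simp only [hY, mem_filter]
      rw [hc z y]
    have h3 : (∑ z ∈ U, T z) * (ε * n) ≤ ∑ y ∈ U, ∑ z ∈ Y y, T z := by
      rw [h1, sum_mul]
      exact sum_le_sum fun z hz => mul_le_mul_of_nonneg_left (hdegY z hz) (hT0 z)
    have h4 : ∑ y ∈ U, β y = (∑ y ∈ U, ∑ z ∈ Y y, T z) / (G * n) := by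
      rw [sum_div]
    rw [h4, le_div_iff₀ (by positivity)]
    calc n * (ε / G * B) * (G * n) = (n * B) * (ε * n) * (G / G) := by ring
      _ = (n * B) * (ε * n) := by rw [div_self hGR.ne', mul_one]
      _ ≤ (∑ z ∈ U, T z) * (ε * n) := mul_le_mul_of_nonneg_right hsT (by positivity)
      _ ≤ _ := h3
  -- (4)
  have hUn : (U.card : ℝ) ≤ n := by
    rw [hnd]
    exact_mod_cast card_le_univ U
  have hpm := bcosetraw_pm U β hβ0 M hM n (ε / G * B) hnR hUn (by positivity) hsβ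
  -- (5)
  have hfm : (0 : ℝ) < (m.factorial : ℝ) := by exact_mod_cast m.factorial_pos
  have hNN : (NN c m 0 : ℝ) = (m.factorial : ℝ) * n ^ m * ∑ y, rr c m y 0 := by
    rw [sum_rr, ← hnd, mul_div_cancel₀ _ (by positivity)]
  rw [hNN]
  have h5 : ∑ y ∈ U, (β y / m) ^ M * (ε / (G * m)) ^ J ≤ ∑ y, rr c m y 0 :=
    (sum_le_sum hrr).trans (sum_le_univ_sum_of_nonneg fun y => rr_nonneg c m y 0)
  have h6 : ∑ y ∈ U, (β y / m) ^ M * (ε / (G * m)) ^ J =
      (∑ y ∈ U, β y ^ M) / (m : ℝ) ^ M * (ε / (G * m)) ^ J := by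
    rw [← sum_mul, sum_div]
    congr 1
    exact sum_congr rfl fun y _ => div_pow _ _ _
  rw [h6] at h5
  calc (m.factorial : ℝ) * n ^ (m + 1) * (ε / (G * m)) ^ (M + J) * B ^ M
      = (m.factorial : ℝ) * n ^ m * (n * (ε / G * B) ^ M / (m : ℝ) ^ M * (ε / (G * m)) ^ J) := by
        have e3 : ε / (G * m) = ε / G / m := by rw [div_div]
        rw [pow_add (ε / (G * m)) M J, e3, div_pow (ε / G) (m : ℝ) M, mul_pow (ε / G) B M, pow_succ]
        ring
    _ ≤ (m.factorial : ℝ) * n ^ m * ∑ y, rr c m y 0 := by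
        refine mul_le_mul_of_nonneg_left (le_trans ?_ h5) (by positivity)
        gcongr

end Pool.Agent.ZC
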