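import Pool.Agent.ZT.Core5
import Pool.Agent.ZC.BClean
import Pool.Agent.ZC.BCosetRaw
import Pool.Agent.ZC.BCosetNum

/-! # ZC : bounded coset lemma -/

set_option autoImplicit false

open Finset

namespace Pool.Agent.ZC

open Pool.Agent.ZT

/-- If one coset of a bounded subgroup has density at least `h + γ` then the proportion of zero-sum trees is
at least `h^m`. -/
theorem bounded_coset (D : ℕ) (h γ : ℝ) (hh : 0 < h) (hγ : 0 < γ) : ∃ m0 : ℕ, ∀ m ≥ m0,
    ∀ (V : Type) [Fintype V] (c : V → V → ZMod m), (∀ x y, c x y = c y x) →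
    ∀ (Γ : AddSubgroup (ZMod m)) (x1 : ZMod m), Nat.card Γ ≤ D →
    (h + γ) * (Fintype.card V : ℝ) ^ 2 ≤ cnt (fun q : V × V => c q.1 q.2 - x1 ∈ Γ) →
    h ^ m * ((m + 1 : ℕ) : ℝ) ^ (m - 1) * (Fintype.card V : ℝ) ^ (m + 1) ≤ NN c m 0 := by
  classical
  by_cases hγ1 : h + γ ≤ 1
  swap
  · refine ⟨0, fun m _ V _ c hc Γ x1 hΓ hd => ?_⟩
    rcases Nat.eq_zero_or_pos (Fintype.card V) with h0 | h0
    · rw [h0]
      simp
    · exfalso
      have h1 : (cnt (fun q : V × V => c q.1 q.2 - x1 ∈ Γ) : ℝ) ≤ (Fintype.card V : ℝ) ^ 2 := by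
        have := cnt_le_card (fun q : V × V => c q.1 q.2 - x1 ∈ Γ)
        rw [Fintype.card_prod] at this
        rw [pow_two]
        exact_mod_cast this
      have h2 : (0 : ℝ) < (Fintype.card V : ℝ) ^ 2 := by positivity
      push Not at hγ1
      nlinarith
  obtain ⟨C, hC, m1, hnum⟩ := coset_num D (γ / 4) (h + γ / 2) (by positivity) (by linarith)
    (by positivity) (by linarith)
  obtain ⟨m2, hfin⟩ := final_num C h (γ / 2) hC (by positivity) hh
  refine ⟨max 1 (max m1 m2), fun m hm V _ c hc Γ x1 hΓ hd => ?_⟩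
  have hm1 : m1 ≤ m := le_trans (le_trans (le_max_left _ _) (le_max_right _ _)) hm
  have hm2 : m2 ≤ m := le_trans (le_trans (le_max_right _ _) (le_max_right _ _)) hm
  have hm0 : 1 ≤ m := le_trans (le_max_left _ _) hm
  have : NeZero m := ⟨by omega⟩
  obtain ⟨U, hU, hdeg⟩ := clean (fun x y => c x y - x1 ∈ Γ) (fun x y hxy => by rw [hc y x]; exact hxy)
    (h + γ / 2) (γ / 4) (by positivity) (by
      refine le_trans (le_of_eq ?_) hd
      ring)
  have hG1 : 1 ≤ Nat.card Γ := Nat.card_pos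
  obtain ⟨e, M, J, he, hM, hmm, hdM, hineq⟩ := hnum m hm1 (Nat.card Γ) hG1 hΓ
  have hraw := coset_raw c hc Γ x1 U e M J he hM hmm hdM (h + γ / 2) (γ / 4) (by positivity)
    (by positivity) hU hdeg
  have h3 := hfin m hm2
  calc h ^ m * ((m + 1 : ℕ) : ℝ) ^ (m - 1) * (Fintype.card V : ℝ) ^ (m + 1)
      ≤ ((h + γ / 2) ^ m * Real.exp (-C * Real.sqrt m * Real.log m)) *
          ((m + 1 : ℕ) : ℝ) ^ (m - 1) * (Fintype.card V : ℝ) ^ (m + 1) := by gcongr
    _ = ((h + γ / 2) ^ m * ((m + 1 : ℕ) : ℝ) ^ (m - 1) *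
          Real.exp (-C * Real.sqrt m * Real.log m)) * (Fintype.card V : ℝ) ^ (m + 1) := by ring
    _ ≤ ((m.factorial : ℝ) * ((γ / 4) / (Nat.card Γ * m)) ^ (M + J) *
            (((e + 1 : ℕ) : ℝ) ^ (e - 1) * (h + γ / 2) ^ e / (e.factorial : ℝ)) ^ M) *
          (Fintype.card V : ℝ) ^ (m + 1) := by gcongr
    _ = (m.factorial : ℝ) * (Fintype.card V : ℝ) ^ (m + 1) * ((γ / 4) / (Nat.card Γ * m)) ^ (M + J) *
            (((e + 1 : ℕ) : ℝ) ^ (e - 1) * (h + γ / 2) ^ e / (e.factorial : ℝ)) ^ M := by ring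
    _ ≤ NN c m 0 := hraw

end Pool.Agent.ZC
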