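import Pool.Agent.ZC.BFill

/-! # ZC : covering a subgroup by sums of exactly `J` elements -/

set_option autoImplicit false

open Finset

namespace Pool.Agent.ZC

/-- All orders are small.

PROOF.  `rep_mod` with `d x = x - y0`, `K = ⊥`, `n x = addOrderOf (x - y0)` (`addOrderOf_nsmul_eq_zero`):
`τ = ∑ ν x • (x - y0)` with `ν x < addOrderOf (x - y0) ≤ T`, so `∑ ν ≤ |F| T ≤ J`; then `fill`. -/
theorem cover_low {A : Type} [AddCommGroup A] (F : Finset A) (y0 : A) (hy0 : y0 ∈ F) (T : ℕ)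
    (hT : ∀ x ∈ F, 1 ≤ addOrderOf (x - y0) ∧ addOrderOf (x - y0) ≤ T) (J : ℕ) (hJ : F.card * T ≤ J)
    (τ : A) (hτ : τ ∈ AddSubgroup.closure ((fun x => x - y0) '' (F : Set A))) :
    ∃ γ : Fin J → A, (∀ j, γ j ∈ F) ∧ ∑ j, γ j = J • y0 + τ := by
  classical
  obtain ⟨ν, hν, hτ2⟩ := rep_mod F (fun x => x - y0) ⊥ (fun x => addOrderOf (x - y0))
    (fun x hx => ⟨(hT x hx).1, AddSubgroup.mem_bot.2 (addOrderOf_nsmul_eq_zero (x - y0))⟩) τ hτ
  have h1 : ∑ x ∈ F, ν x ≤ J := by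
    refine le_trans ?_ hJ
    calc ∑ x ∈ F, ν x ≤ ∑ x ∈ F, T :=
          Finset.sum_le_sum (fun x hx => ((hν x hx).le.trans (hT x hx).2))
      _ = F.card * T := by rw [Finset.sum_const, smul_eq_mul]
  obtain ⟨γ, hγ, hs⟩ := fill F y0 hy0 ν J h1
  refine ⟨γ, hγ, ?_⟩
  rw [hs, sub_eq_zero.1 (AddSubgroup.mem_bot.1 hτ2)]

/-- Every multiple of `d1` is a sum of few copies of `dx` and `d1`, if `k • dx = u • d1` with `|u|` large
but small compared with the order of `d1`.  (Compare `ZT.cover` in Pool/Agent/ZT/Dich1.lean.)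

PROOF.  `o = addOrderOf d1 ≥ 1`, `κ = t • d1` with `0 ≤ t < o` (`t` natural).  If `u > 0`, `t = q u + s` with
`0 ≤ s < u`, `q ≤ t / u ≤ o / B`, `s ≤ I` and `κ = q • (u • d1) + s • d1 = (q k) • dx + s • d1`.
If `u = -v < 0`, write `o - t = q v - s` with `0 ≤ s < v` (`q = ⌈(o-t)/v⌉ ≤ o / B + 1`); then
`t • d1 = (o - q v + s) • d1 = q • (u • d1) + s • d1`. -/
theorem cover_one {A : Type} [AddCommGroup A] (d1 dx : A) (k B I : ℕ) (u : ℤ)
    (h1 : 1 ≤ addOrderOf d1) (hk : k • dx = u • d1) (hB : 1 ≤ B) (hBu : (B : ℤ) < |u|)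
    (hu : |u| ≤ (I : ℤ)) (κ : A) (hκ : κ ∈ AddSubgroup.zmultiples d1) :
    ∃ q s : ℕ, q ≤ addOrderOf d1 / B + 1 ∧ s ≤ I ∧ κ = (q * k) • dx + s • d1 := by
  have ho : 0 < addOrderOf d1 := h1
  have hozero : addOrderOf d1 • d1 = 0 := addOrderOf_nsmul_eq_zero d1
  obtain ⟨t, ht, hκt⟩ : ∃ t : ℕ, t < addOrderOf d1 ∧ κ = t • d1 := by
    obtain ⟨z, rfl⟩ := AddSubgroup.mem_zmultiples_iff.1 hκ
    have h0 := Int.emod_nonneg z (show (addOrderOf d1 : ℤ) ≠ 0 by omega)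
    refine ⟨(z % (addOrderOf d1 : ℤ)).toNat, ?_, ?_⟩
    · have := Int.emod_lt_of_pos z (show (0 : ℤ) < (addOrderOf d1 : ℤ) by exact_mod_cast ho)
      omega
    · rw [← natCast_zsmul, Int.toNat_of_nonneg h0]
      exact (mod_addOrderOf_zsmul d1 z).symm
  rcases lt_trichotomy u 0 with hi0 | hi0 | hi0
  · -- negative
    obtain ⟨a, ha⟩ : ∃ a : ℕ, u = -(a : ℤ) := ⟨(-u).toNat, by omega⟩
    have haB : B < a := by
      rw [ha, abs_neg, Nat.abs_cast] at hBu
      exact_mod_cast hBu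
    have haI : a ≤ I := by
      rw [ha, abs_neg, Nat.abs_cast] at hu
      exact_mod_cast hu
    have ha0 : 0 < a := by omega
    obtain ⟨w, hw⟩ : ∃ w : ℕ, w + t = addOrderOf d1 := ⟨addOrderOf d1 - t, by omega⟩
    have hdm := Nat.div_add_mod (w + (a - 1)) a
    have hmod := Nat.mod_lt (w + (a - 1)) ha0
    set q := (w + (a - 1)) / a with hq
    obtain ⟨s, hs⟩ : ∃ s : ℕ, w + s = a * q := ⟨a * q - w, by omega⟩
    refine ⟨q, s, ?_, ?_, ?_⟩
    · have h3 : q ≤ (w + a) / a := Nat.div_le_div_right (by omega)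
      have h4 : (w + a) / a = w / a + 1 := Nat.add_div_right w ha0
      have h5 : w / a ≤ addOrderOf d1 / B :=
        (Nat.div_le_div_right (by omega)).trans (Nat.div_le_div_left haB.le (by omega))
      omega
    · omega
    · have e1 : w • d1 + t • d1 = 0 := by rw [← add_nsmul, hw, hozero]
      have e2 : w • d1 + s • d1 = (a * q) • d1 := by rw [← add_nsmul, hs]
      have e3 : (q * k) • dx = -((a * q) • d1) := by
        rw [mul_nsmul', hk, ha, neg_smul, natCast_zsmul, smul_neg, mul_nsmul]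
      rw [hκt, e3, ← e2]
      have e4 : t • d1 = -(w • d1) := (neg_eq_of_add_eq_zero_right e1).symm
      rw [e4]
      abel
  · rw [hi0, abs_zero] at hBu
    omega
  · obtain ⟨a, ha⟩ : ∃ a : ℕ, u = (a : ℤ) := ⟨u.toNat, by omega⟩
    have haB : B < a := by
      rw [ha, Nat.abs_cast] at hBu
      exact_mod_cast hBu
    have haI : a ≤ I := by
      rw [ha, Nat.abs_cast] at hu
      exact_mod_cast hu
    have ha0 : 0 < a := by omega
    have hdm := Nat.div_add_mod t a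
    have hmod := Nat.mod_lt t ha0
    refine ⟨t / a, t % a, ?_, ?_, ?_⟩
    · have h5 : t / a ≤ addOrderOf d1 / B :=
        (Nat.div_le_div_right ht.le).trans (Nat.div_le_div_left haB.le (by omega))
      omega
    · omega
    · have e3 : (t / a * k) • dx = (a * (t / a)) • d1 := by
        rw [mul_nsmul', hk, ha, natCast_zsmul, mul_nsmul]
      rw [hκt, e3, ← add_nsmul, hdm]

/-- Covering through one element `x1` of large order.

PROOF.  `rep_mod` with `d y = y - y0`, `K = zmultiples (x1 - y0)`, `n y = i1`: `τ = ∑ ν y • (y - y0) + κ` with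
`ν y < i1`, `κ ∈ K`; `cover_one` with `d1 = x1 - y0`, `dx = x - y0`: `κ = (q k) • (x - y0) + s • (x1 - y0)`.
With `ν' y = ν y + (if y = x then q k else 0) + (if y = x1 then s else 0)`:
`∑ ν' ≤ |F| i1 + (addOrderOf (x1 - y0) / B + 1) k + I ≤ J`, and `fill` applies. -/
theorem cover_high {A : Type} [AddCommGroup A] (F : Finset A) (y0 x1 x : A) (hy0 : y0 ∈ F)
    (hx1 : x1 ∈ F) (hx : x ∈ F) (k B I i1 : ℕ) (u : ℤ) (h1 : 1 ≤ addOrderOf (x1 - y0))
    (hk : k • (x - y0) = u • (x1 - y0)) (hB : 1 ≤ B) (hBu : (B : ℤ) < |u|) (hu : |u| ≤ (I : ℤ))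
    (hi1 : 1 ≤ i1) (hi : ∀ y ∈ F, i1 • (y - y0) ∈ AddSubgroup.zmultiples (x1 - y0)) (J : ℕ)
    (hJ : (addOrderOf (x1 - y0) / B + 1) * k + I + F.card * i1 ≤ J)
    (τ : A) (hτ : τ ∈ AddSubgroup.closure ((fun x => x - y0) '' (F : Set A))) :
    ∃ γ : Fin J → A, (∀ j, γ j ∈ F) ∧ ∑ j, γ j = J • y0 + τ := by
  classical
  obtain ⟨ν, hν, hτ2⟩ := rep_mod F (fun y => y - y0) (AddSubgroup.zmultiples (x1 - y0)) (fun _ => i1)
    (fun y hy => ⟨hi1, hi y hy⟩) τ hτ
  obtain ⟨q, s, hq, hs, hκ⟩ := cover_one (x1 - y0) (x - y0) k B I u h1 hk hB hBu hu _ hτ2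
  have hνs : ∑ y ∈ F, ν y ≤ F.card * i1 := by
    calc ∑ y ∈ F, ν y ≤ ∑ y ∈ F, i1 := Finset.sum_le_sum (fun y hy => (hν y hy).le)
      _ = F.card * i1 := by rw [Finset.sum_const, smul_eq_mul]
  have hsum : ∑ y ∈ F, (ν y + (if y = x then q * k else 0) + (if y = x1 then s else 0)) =
      ∑ y ∈ F, ν y + q * k + s := by
    rw [Finset.sum_add_distrib, Finset.sum_add_distrib, Finset.sum_ite_eq' F x,
      Finset.sum_ite_eq' F x1, if_pos hx, if_pos hx1]
  have hqk : q * k ≤ (addOrderOf (x1 - y0) / B + 1) * k := Nat.mul_le_mul_right k hq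
  obtain ⟨γ, hγ, hsγ⟩ := fill F y0 hy0
    (fun y => ν y + (if y = x then q * k else 0) + (if y = x1 then s else 0)) J
    (by rw [hsum]; omega)
  refine ⟨γ, hγ, ?_⟩
  rw [hsγ]
  congr 1
  have e1 : ∑ y ∈ F, (ν y + (if y = x then q * k else 0) + (if y = x1 then s else 0)) • (y - y0) =
      ∑ y ∈ F, ν y • (y - y0) + (q * k) • (x - y0) + s • (x1 - y0) := by
    have e2 : ∀ y ∈ F, (ν y + (if y = x then q * k else 0) + (if y = x1 then s else 0)) • (y - y0) =
        ν y • (y - y0) + (if y = x then (q * k) • (y - y0) else 0) +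
          (if y = x1 then s • (y - y0) else 0) := by
      intro y _
      rw [add_nsmul, add_nsmul, ite_smul, ite_smul, zero_smul]
    rw [Finset.sum_congr rfl e2, Finset.sum_add_distrib, Finset.sum_add_distrib,
      Finset.sum_ite_eq' F x, Finset.sum_ite_eq' F x1, if_pos hx, if_pos hx1]
  rw [e1, add_assoc, ← hκ]
  abel

end Pool.Agent.ZC
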