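import Pool.Agent.ZC.BNum
import Pool.Agent.ZC.BCorr

/-! # ZC : the structured case of the dichotomy -/

set_option autoImplicit false

open Finset

namespace Pool.Agent.ZC

/-- Bounded relations with one element of large order give the bounded integers and the small subgroup.

PROOF.  Constants: `C` from `bezout_bdd k (2 B)`, `N0 = L + k L (2B) C`,
`D = L + 2 B + k (2 N0) + ⌈2 B / θ⌉₊`.
Let `d1 = x1 - y0`, `x0 ∈ F` with `b x0` minimal (`Finset.exists_min_image`), `β x = (b x - b x0).toNat`, so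
`(β x : ℤ) = b x - b x0 ≤ 2 B` for `x ∈ F`.  `Finset.extract_gcd` gives `a` with `β x = E * a x` on `F`,
`E = F.gcd β`, `F.gcd a = 1`; `E ≥ 1` because `b y0 ≠ b x1`, hence `E ≤ 2 B`, `a x ≤ 2 B`, `a x0 = 0`.
`L • (x - x0) = L • (x - y0) - L • (x0 - y0) = β x • d1 = (E * a x) • d1` for `x ∈ F`.
`c` from `bezout_bdd`, `g = ∑_{x ∈ F} c x • (x - x0)`; `L • g = (∑ c x * (E a x)) • d1 = E • d1`.
`z x = x - x0 - a x • g` satisfies `L • z x = (E a x) • d1 - a x • (E • d1) = 0`.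
`Γ = closure (z '' F)`; `L` kills `Γ` (`AddSubgroup.closure_induction`), so `Nat.card Γ ≤ L ≤ D` (`tors_card`).
`corr` (with `A1 = 2B`) gives the correction property with `t0 = D • x0 + N0 • ∑_{x ∈ F} (x - x0)`.
`ord_quot` (with `d1`, `E`) gives `q, o` with `q * addOrderOf d1 ≤ E m`, and `θ m ≤ addOrderOf d1` gives
`q ≤ E / θ ≤ 2 B / θ ≤ D` (`m ≥ 1`). -/
theorem dich_struct (k L B : ℕ) (θ : ℝ) (hθ : 0 < θ) (hL : 1 ≤ L) : ∃ D : ℕ, ∀ m : ℕ, 1 ≤ m →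
    ∀ F : Finset (ZMod m), F.card ≤ k → ∀ y0 ∈ F, ∀ x1 ∈ F, θ * m ≤ addOrderOf (x1 - y0) →
    ∀ b : ZMod m → ℤ, (∀ x ∈ F, L • (x - y0) = b x • (x1 - y0) ∧ |b x| ≤ (B : ℤ)) → b y0 ≠ b x1 →
    ∃ (Γ : AddSubgroup (ZMod m)) (x0 g t0 : ZMod m) (a : ZMod m → ℕ) (q o : ℕ),
      Nat.card Γ ≤ D ∧ (∀ x ∈ F, a x ≤ D ∧ x - x0 - a x • g ∈ Γ) ∧ (∃ x ∈ F, a x = 0) ∧
      F.gcd a = 1 ∧
      (∀ γ ∈ Γ, ∃ ν : ZMod m → ℕ, ∑ x ∈ F, ν x = D ∧ ∑ x ∈ F, ν x • x = t0 + γ) ∧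
      q * o = m ∧ 1 ≤ q ∧ q ≤ D ∧ o • g ∈ Γ ∧ (q = 1 → Γ = ⊥ ∧ IsUnit g) := by
  classical
  obtain ⟨C, hC⟩ := bezout_bdd k (2 * B)
  set N0 : ℕ := L + k * L * (2 * B) * C with hN0
  refine ⟨L + 2 * B + k * (2 * N0) + ⌈2 * (B : ℝ) / θ⌉₊, ?_⟩
  set D : ℕ := L + 2 * B + k * (2 * N0) + ⌈2 * (B : ℝ) / θ⌉₊ with hD
  intro m hm F hFk y0 hy0 x1 hx1 hord b hb hne
  have : NeZero m := ⟨by omega⟩
  set d1 : ZMod m := x1 - y0 with hd1
  obtain ⟨x0, hx0, hmin⟩ := Finset.exists_min_image F b ⟨y0, hy0⟩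
  set β : ZMod m → ℕ := fun x => (b x - b x0).toNat with hβdef
  have hβ : ∀ x ∈ F, (β x : ℤ) = b x - b x0 := fun x hx =>
    Int.toNat_of_nonneg (sub_nonneg.2 (hmin x hx))
  have hβ2 : ∀ x ∈ F, β x ≤ 2 * B := by
    intro x hx
    have h1 := hβ x hx
    have h2 := abs_le.1 (hb x hx).2
    have h3 := abs_le.1 (hb x0 hx0).2
    omega
  obtain ⟨a, ha, hgcd⟩ := Finset.extract_gcd β (⟨y0, hy0⟩ : F.Nonempty)
  set E : ℕ := F.gcd β with hE
  have hex : ∃ x ∈ F, β x ≠ 0 := by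
    by_contra hcon
    push Not at hcon
    apply hne
    have h1 := hβ y0 hy0
    have h2 := hβ x1 hx1
    rw [hcon y0 hy0] at h1
    rw [hcon x1 hx1] at h2
    push_cast at h1 h2
    omega
  obtain ⟨x2, hx2, hβx2⟩ := hex
  have hE1 : 1 ≤ E := by
    rcases Nat.eq_zero_or_pos E with h | h
    · exfalso
      apply hβx2
      rw [ha x2 hx2, h, zero_mul]
    · exact h
  have hE2 : E ≤ 2 * B :=
    (Nat.le_of_dvd (Nat.pos_of_ne_zero hβx2) (Finset.gcd_dvd hx2)).trans (hβ2 x2 hx2)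
  have ha2 : ∀ x ∈ F, a x ≤ 2 * B := by
    intro x hx
    have h1 := ha x hx
    have h2 := hβ2 x hx
    nlinarith [Nat.zero_le (a x)]
  have ha0 : a x0 = 0 := by
    have h1 := ha x0 hx0
    have h2 := hβ x0 hx0
    have h3 : β x0 = 0 := by omega
    rw [h3] at h1
    have h4 := mul_eq_zero.1 h1.symm
    omega
  have hLx : ∀ x ∈ F, L • (x - x0) = (E * a x) • d1 := by
    intro x hx
    have h1 := (hb x hx).1
    have h2 := (hb x0 hx0).1
    have h3 : L • (x - x0) = L • (x - y0) - L • (x0 - y0) := by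
      rw [← smul_sub]
      congr 1
      abel
    rw [h3, h1, h2, ← sub_smul, ← hβ x hx, natCast_zsmul, ← ha x hx]
  obtain ⟨c, hc1, hc2⟩ := hC (ZMod m) F a hFk ha2 hgcd
  set g : ZMod m := ∑ x ∈ F, c x • (x - x0) with hg
  have hLg : L • g = E • d1 := by
    rw [hg, Finset.smul_sum]
    have h1 : ∀ x ∈ F, L • (c x • (x - x0)) = (c x * (E * a x : ℕ)) • d1 := by
      intro x hx
      rw [smul_comm, hLx x hx, mul_smul (c x), natCast_zsmul]
    rw [Finset.sum_congr rfl h1, ← Finset.sum_smul]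
    have h2 : ∑ x ∈ F, c x * ((E * a x : ℕ) : ℤ) = (E : ℤ) := by
      calc ∑ x ∈ F, c x * ((E * a x : ℕ) : ℤ) = (E : ℤ) * ∑ x ∈ F, c x * (a x : ℤ) := by
            rw [Finset.mul_sum]
            refine Finset.sum_congr rfl fun x _ => ?_
            push_cast
            ring
        _ = (E : ℤ) := by rw [hc1, mul_one]
    rw [h2, natCast_zsmul]
  have hLz : ∀ x ∈ F, L • (x - x0 - a x • g) = 0 := by
    intro x hx
    rw [smul_sub, hLx x hx, smul_comm L (a x) g, hLg, mul_comm E (a x), mul_smul, sub_self]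
  set Γ : AddSubgroup (ZMod m) := AddSubgroup.closure ((fun x => x - x0 - a x • g) '' (F : Set (ZMod m))) with hΓ
  have hLΓ : ∀ z ∈ Γ, L • z = 0 := by
    intro z hz
    rw [hΓ] at hz
    induction hz using AddSubgroup.closure_induction with
    | mem z hz =>
      obtain ⟨x, hx, rfl⟩ := hz
      exact hLz x hx
    | zero => exact smul_zero _
    | add x y _ _ hx hy => rw [smul_add, hx, hy, add_zero]
    | neg x _ hx => rw [smul_neg, hx, neg_zero]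
  obtain ⟨q, o, hqo, hq1, hq2, hog, hq3⟩ := ord_quot Γ g d1 L E hL hE1 hLΓ hLg
  refine ⟨Γ, x0, g, D • x0 + N0 • ∑ x ∈ F, (x - x0), a, q, o, ?_, ?_, ⟨x0, hx0, ha0⟩, hgcd, ?_, hqo, hq1, ?_, hog, hq3⟩
  · exact (tors_card Γ L hL hLΓ).trans (by omega)
  · intro x hx
    refine ⟨(ha2 x hx).trans (by omega), ?_⟩
    exact AddSubgroup.subset_closure ⟨x, hx, rfl⟩
  · intro γ hγ
    exact corr F x0 hx0 a c k L (2 * B) C N0 D hFk hL ha2 hc2 g hg hLz hN0.ge (by omega) γ hγ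
  · have hmr : (0 : ℝ) < m := by exact_mod_cast hm
    have h1 : (q : ℝ) * addOrderOf d1 ≤ E * m := by exact_mod_cast hq2
    have h2 : (q : ℝ) * (θ * m) ≤ q * addOrderOf d1 := mul_le_mul_of_nonneg_left hord (Nat.cast_nonneg q)
    have h3 : (q : ℝ) * θ ≤ E := by
      have h4 : ((q : ℝ) * θ) * m ≤ E * m := by linarith
      exact le_of_mul_le_mul_right h4 hmr
    have h5 : (E : ℝ) ≤ 2 * B := by exact_mod_cast hE2
    have h6 : (q : ℝ) ≤ 2 * B / θ := by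
      rw [le_div_iff₀ hθ]
      linarith
    have h7 : q ≤ ⌈2 * (B : ℝ) / θ⌉₊ := by
      have h8 := h6.trans (Nat.le_ceil _)
      exact_mod_cast h8
    omega

end Pool.Agent.ZC
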