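import Pool.Agent.ZC.BCover
import Pool.Agent.ZC.BStruct

/-! # ZC : the dichotomy for all moduli -/

set_option autoImplicit false

open Finset

namespace Pool.Agent.ZC

/-- The relation for one element. -/
theorem dich_one {m : ℕ} [NeZero m] (K : ℕ) (hK : 1 ≤ K) (d1 d : ZMod m) :
    ∃ (k : ℕ) (u : ℤ), 1 ≤ k ∧ k ≤ K * (m / addOrderOf d1) ∧
      (|u| : ℝ) ≤ (addOrderOf d1 : ℝ) / (K + 1) ∧ k • d = u • d1 := by
  have ho : 1 ≤ addOrderOf d1 := addOrderOf_pos d1
  obtain ⟨v, hv⟩ := AddSubgroup.mem_zmultiples_iff.1 (index_mem d1 d)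
  obtain ⟨j, u, hj1, hj, hu, ⟨t, ht⟩⟩ := dirichlet2 (addOrderOf d1) K ho hK v
  have hi1 : 1 ≤ m / addOrderOf d1 := by
    have h1 : addOrderOf d1 ∣ m := by
      have := addOrderOf_dvd_card (x := d1)
      rwa [ZMod.card] at this
    exact Nat.div_pos (Nat.le_of_dvd (Nat.pos_of_ne_zero (NeZero.ne m)) h1) ho
  refine ⟨j * (m / addOrderOf d1), u, Nat.mul_pos hj1 hi1, Nat.mul_le_mul_right _ hj, hu, ?_⟩
  have e1 : (j * (m / addOrderOf d1)) • d = ((j : ℤ) * v) • d1 := by
    rw [mul_nsmul', ← hv, ← natCast_zsmul, ← mul_zsmul]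
  have e2 : (j : ℤ) * v = u + (addOrderOf d1 : ℤ) * t := by linarith
  have e3 : ((addOrderOf d1 : ℤ) * t) • d1 = 0 := by
    rw [mul_comm, mul_zsmul, natCast_zsmul, addOrderOf_nsmul_eq_zero, smul_zero]
  rw [e1, e2, add_zsmul, e3, add_zero]

/-- The dichotomy: either all of the generated subgroup is covered by sums of exactly `J` elements of `F`, or
`F` is, modulo a bounded subgroup, a bounded part of an arithmetic progression with a difference of order
`m / q`, `q` bounded. -/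
theorem dich2 (k : ℕ) (η : ℝ) (hη : 0 < η) : ∃ D m0 : ℕ, ∀ m ≥ m0, ∀ F : Finset (ZMod m),
    F.Nonempty → F.card ≤ k → ∀ J : ℕ, η * m ≤ J →
    (∀ x0 ∈ F, ∀ τ ∈ AddSubgroup.closure ((fun x => x - x0) '' (F : Set (ZMod m))),
      ∃ γ : Fin J → ZMod m, (∀ j, γ j ∈ F) ∧ ∑ j, γ j = J • x0 + τ) ∨
    (∃ (Γ : AddSubgroup (ZMod m)) (x0 g t0 : ZMod m) (a : ZMod m → ℕ) (q o : ℕ),
      Nat.card Γ ≤ D ∧ (∀ x ∈ F, a x ≤ D ∧ x - x0 - a x • g ∈ Γ) ∧ (∃ x ∈ F, a x = 0) ∧
      F.gcd a = 1 ∧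
      (∀ γ ∈ Γ, ∃ ν : ZMod m → ℕ, ∑ x ∈ F, ν x = D ∧ ∑ x ∈ F, ν x • x = t0 + γ) ∧
      q * o = m ∧ 1 ≤ q ∧ q ≤ D ∧ o • g ∈ Γ ∧ (q = 1 → Γ = ⊥ ∧ IsUnit g)) := by
  classical
  -- constants
  set θ : ℝ := min (η / (4 * (k + 1))) 1 with hθdef
  have hθ : 0 < θ := lt_min (by positivity) one_pos
  have hθk : k * θ ≤ η / 4 := by
    have h1 : θ ≤ η / (4 * (k + 1)) := min_le_left _ _
    calc (k : ℝ) * θ ≤ (k + 1) * (η / (4 * (k + 1))) := by
          have : (k : ℝ) ≤ k + 1 := by linarith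
          gcongr
      _ = η / 4 := by field_simp
  set K : ℕ := ⌈8 / η⌉₊ + 1 with hKdef
  have hK1 : 1 ≤ K := by omega
  have hKη : 8 ≤ η * (K + 1) := by
    have h1 : 8 / η ≤ K + 1 := by
      rw [hKdef]
      push_cast
      linarith [Nat.le_ceil (8 / η)]
    rw [div_le_iff₀ hη] at h1
    linarith
  set I1 : ℕ := ⌊1 / θ⌋₊ with hI1
  set K' : ℕ := K * I1 with hK'
  set B0 : ℕ := ⌈8 * K' / η⌉₊ + 1 with hB0
  have hB1 : 1 ≤ B0 := by omega
  have hBη : 8 * (K' : ℝ) ≤ η * B0 := by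
    have h1 : 8 * (K' : ℝ) / η ≤ B0 := by
      rw [hB0]
      push_cast
      linarith [Nat.le_ceil (8 * (K' : ℝ) / η)]
    rw [div_le_iff₀ hη] at h1
    linarith
  set L : ℕ := K'.factorial with hL
  have hL1 : 1 ≤ L := Nat.factorial_pos _
  obtain ⟨D, hD⟩ := dich_struct k L (L * B0 + L) θ hθ hL1
  refine ⟨D, ⌈8 * (K' + k * I1) / η⌉₊ + I1 + 1, fun m hm F hF hFk J hJ => ?_⟩
  have hm1 : 1 ≤ m := by omega
  have : NeZero m := ⟨by omega⟩
  have hmη : 8 * ((K' : ℝ) + k * I1) ≤ η * m := by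
    have h1 : 8 * ((K' : ℝ) + k * I1) / η ≤ m := by
      have h2 : (⌈8 * ((K' : ℝ) + k * I1) / η⌉₊ : ℝ) ≤ m := by
        have h3 : ⌈8 * ((K' : ℝ) + k * I1) / η⌉₊ ≤ m := by omega
        exact_mod_cast h3
      exact (Nat.le_ceil _).trans h2
    rw [div_le_iff₀ hη] at h1
    linarith
  obtain ⟨y0, hy0⟩ := hF
  have hm0 : (0 : ℝ) < m := by exact_mod_cast hm1
  by_cases hlow : ∀ x ∈ F, (addOrderOf (x - y0) : ℝ) < θ * m
  · -- all orders small
    left
    intro x0 hx0
    refine base_change F y0 x0 hy0 hx0 J fun τ hτ => ?_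
    refine cover_low F y0 hy0 ⌊θ * m⌋₊ (fun x hx => ⟨addOrderOf_pos _, ?_⟩) J ?_ τ hτ
    · exact Nat.le_floor (hlow x hx).le
    · have h1 : ((F.card * ⌊θ * m⌋₊ : ℕ) : ℝ) ≤ J := by
        push_cast
        have h2 : (⌊θ * m⌋₊ : ℝ) ≤ θ * m := Nat.floor_le (by positivity)
        have h3 : (F.card : ℝ) ≤ k := by exact_mod_cast hFk
        calc (F.card : ℝ) * ⌊θ * m⌋₊ ≤ k * (θ * m) := by gcongr
          _ = (k * θ) * m := by ring
          _ ≤ (η / 4) * m := by gcongr
          _ ≤ η * m := by nlinarith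
          _ ≤ J := hJ
      exact_mod_cast h1
  · push Not at hlow
    obtain ⟨x1, hx1, ho1⟩ := hlow
    set d1 := x1 - y0 with hd1
    have hopos : 1 ≤ addOrderOf d1 := addOrderOf_pos d1
    have hodvd : addOrderOf d1 ∣ m := by
      have := addOrderOf_dvd_card (x := d1)
      rwa [ZMod.card] at this
    have hole : addOrderOf d1 ≤ m := Nat.le_of_dvd hm1 hodvd
    have hi1 : m / addOrderOf d1 ≤ I1 := by
      rw [hI1]
      refine Nat.le_floor ?_
      rw [Nat.cast_div hodvd (by positivity), div_le_div_iff₀ (by positivity) hθ]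
      linarith
    have hi1' : 1 ≤ m / addOrderOf d1 := Nat.div_pos hole hopos
    have hrel : ∀ x : ZMod m, ∃ (kk : ℕ) (u : ℤ), 1 ≤ kk ∧ kk ≤ K' ∧
        (|u| : ℝ) ≤ (addOrderOf d1 : ℝ) / (K + 1) ∧ kk • (x - y0) = u • d1 := by
      intro x
      obtain ⟨kk, u, h1, h2, h3, h4⟩ := dich_one K hK1 d1 (x - y0)
      exact ⟨kk, u, h1, h2.trans (Nat.mul_le_mul_left _ hi1), h3, h4⟩
    by_cases hhigh : ∃ x ∈ F, ∃ (kk : ℕ) (u : ℤ), kk ≤ K' ∧ (B0 : ℤ) < |u| ∧
        (|u| : ℝ) ≤ (addOrderOf d1 : ℝ) / (K + 1) ∧ kk • (x - y0) = u • d1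
    · left
      obtain ⟨x, hx, kk, u, hkk, hBu, hu, hku⟩ := hhigh
      intro x0 hx0
      refine base_change F y0 x0 hy0 hx0 J fun τ hτ => ?_
      refine cover_high F y0 x1 x hy0 hx1 hx kk B0 ⌊(addOrderOf d1 : ℝ) / (K + 1)⌋₊
        (m / addOrderOf d1) u hopos hku hB1 hBu ?_ hi1' (fun y _ => index_mem d1 _) J ?_ τ hτ
      · have h2 : (u.natAbs : ℝ) ≤ (addOrderOf d1 : ℝ) / (K + 1) := by
          rw [Nat.cast_natAbs, Int.cast_abs]
          exact hu
        have h3 := Nat.le_floor h2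
        rw [Int.abs_eq_natAbs]
        exact_mod_cast h3
      · have h1 : (((addOrderOf (x1 - y0) / B0 + 1) * kk + ⌊(addOrderOf d1 : ℝ) / (K + 1)⌋₊ +
            F.card * (m / addOrderOf d1) : ℕ) : ℝ) ≤ J := by
          have hmo : (addOrderOf d1 : ℝ) ≤ m := by exact_mod_cast hole
          have h2 : ((addOrderOf d1 / B0 : ℕ) : ℝ) ≤ (m : ℝ) / B0 :=
            (Nat.cast_div_le).trans (by gcongr)
          have h3 : (⌊(addOrderOf d1 : ℝ) / (K + 1)⌋₊ : ℝ) ≤ (m : ℝ) / (K + 1) :=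
            (Nat.floor_le (by positivity)).trans (by gcongr)
          have h4 : (kk : ℝ) ≤ K' := by exact_mod_cast hkk
          have h5 : ((m / addOrderOf d1 : ℕ) : ℝ) ≤ I1 := by exact_mod_cast hi1
          have h6 : (F.card : ℝ) ≤ k := by exact_mod_cast hFk
          have hB0' : (0 : ℝ) < B0 := by exact_mod_cast hB1
          have h7 : (m : ℝ) / B0 * K' ≤ η * m / 8 := by
            rw [div_mul_eq_mul_div, div_le_iff₀ hB0']
            nlinarith [mul_le_mul_of_nonneg_left hBη hm0.le]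
          have h8 : (m : ℝ) / (K + 1) ≤ η * m / 8 := by
            rw [div_le_iff₀ (by positivity)]
            nlinarith [mul_le_mul_of_nonneg_left hKη hm0.le]
          push_cast
          have h9 : (((addOrderOf d1 / B0 : ℕ) : ℝ) + 1) * kk ≤ ((m : ℝ) / B0 + 1) * K' := by
            gcongr
          have h10 : (F.card : ℝ) * ((m / addOrderOf d1 : ℕ) : ℝ) ≤ k * I1 := by gcongr
          have h11 : (((m : ℝ) / B0) + 1) * K' = (m : ℝ) / B0 * K' + K' := by ring
          nlinarith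
        exact_mod_cast h1
    · right
      have hlow2 : ∀ x ∈ F, ∃ b : ℤ, L • (x - y0) = b • d1 ∧ |b| ≤ ((L * B0 : ℕ) : ℤ) := by
        intro x hx
        obtain ⟨kk, u, h1, h2, h3, h4⟩ := hrel x
        have hu : |u| ≤ (B0 : ℤ) := by
          by_contra hcon
          push Not at hcon
          exact hhigh ⟨x, hx, kk, u, h2, hcon, h3, h4⟩
        have hdvd : kk ∣ L := Nat.dvd_factorial h1 h2
        obtain ⟨r, hr⟩ := hdvd
        refine ⟨(r : ℤ) * u, ?_, ?_⟩
        · rw [hr, mul_comm, mul_nsmul', h4, ← natCast_zsmul, ← mul_zsmul]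
        · rw [abs_mul]
          have h5 : (r : ℤ) ≤ L := by
            have : r ≤ L := by
              rw [hr]
              exact Nat.le_mul_of_pos_left _ h1
            exact_mod_cast this
          have h6 : |(r : ℤ)| = r := abs_of_nonneg (by positivity)
          rw [h6]
          push_cast
          gcongr
      choose! b hb using hlow2
      have hne : x1 ≠ y0 := by
        intro h
        have h1 : d1 = 0 := by rw [hd1, h, sub_self]
        have h2 : addOrderOf d1 = 1 := by rw [h1]; exact addOrderOf_zero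
        rw [h2] at ho1
        have h3 : (m : ℝ) ≤ 1 / θ := by
          rw [le_div_iff₀ hθ]
          push_cast at ho1
          linarith
        have h4 : m ≤ I1 := Nat.le_floor h3
        omega
      obtain h := hD m hm1 F hFk y0 hy0 x1 hx1 ho1
        (fun x => if x = y0 then 0 else if x = x1 then (L : ℤ) else b x) (by
          intro x hx
          split_ifs with h1 h2
          · rw [h1]
            refine ⟨by simp, ?_⟩
            rw [abs_zero]
            exact Int.natCast_nonneg _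
          · rw [h2]
            refine ⟨(natCast_zsmul _ _).symm, ?_⟩
            rw [abs_of_nonneg (by positivity)]
            push_cast
            nlinarith [Int.natCast_nonneg (L * B0)]
          · refine ⟨(hb x hx).1, (hb x hx).2.trans ?_⟩
            push_cast
            linarith [Int.natCast_nonneg L]) (by
          simp only [if_true, if_neg hne]
          have : (L : ℤ) ≠ 0 := by positivity
          exact fun h => this h.symm)
      exact h

end Pool.Agent.ZC
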