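import Mathlib

/-! # ZC : sums of exactly `J` elements of a finite set -/

set_option autoImplicit false

open Finset

namespace Pool.Agent.ZC

/-- `ν x` copies of `x` for every `x ∈ F`, and `y0` for the rest.

PROOF.  Induction on `J` (or on `∑ ν`), or: the multiset `∑_{x ∈ F} ν x • {x} + (J - ∑ ν) • {y0}` has
cardinality `J`, enumerate it.  `∑ γ = ∑_x ν x • x + (J - ∑ ν) • y0 = J • y0 + ∑_x ν x • (x - y0)`. -/
theorem fill {A : Type} [AddCommGroup A] (F : Finset A) (y0 : A) (hy0 : y0 ∈ F) (ν : A → ℕ) (J : ℕ)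
    (hJ : ∑ x ∈ F, ν x ≤ J) :
    ∃ γ : Fin J → A, (∀ j, γ j ∈ F) ∧ ∑ j, γ j = J • y0 + ∑ x ∈ F, ν x • (x - y0) := by
  classical
  induction J generalizing ν with
  | zero =>
    refine ⟨Fin.elim0, fun j => j.elim0, ?_⟩
    have h0 : ∀ x ∈ F, ν x = 0 := Finset.sum_eq_zero_iff.1 (Nat.le_zero.1 hJ)
    rw [Finset.sum_eq_zero (s := F) fun x hx => by rw [h0 x hx, zero_smul]]
    simp
  | succ J ih =>
    by_cases h : ∑ x ∈ F, ν x ≤ J
    · obtain ⟨γ, h1, h2⟩ := ih ν h
      refine ⟨Fin.cons y0 γ, fun j => ?_, ?_⟩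
      · refine Fin.cases ?_ (fun i => ?_) j
        · simpa using hy0
        · simpa using h1 i
      · rw [Fin.sum_univ_succ]
        simp only [Fin.cons_zero, Fin.cons_succ]
        rw [h2, succ_nsmul]
        abel
    · have hpos : 0 < ∑ x ∈ F, ν x := by omega
      obtain ⟨x, hx, hx0⟩ : ∃ x ∈ F, 0 < ν x := by
        by_contra hc
        push Not at hc
        have : ∑ x ∈ F, ν x = 0 := Finset.sum_eq_zero fun x hx => Nat.le_zero.1 (hc x hx)
        omega
      set ν' : A → ℕ := Function.update ν x (ν x - 1) with hν'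
      have e1 : ∀ {M : Type} [AddCommMonoid M] (f : A → ℕ → M),
          ∑ y ∈ F, f y (ν' y) = f x (ν x - 1) + ∑ y ∈ F.erase x, f y (ν y) := by
        intro M _ f
        rw [← Finset.add_sum_erase F _ hx]
        congr 1
        · rw [hν', Function.update_self]
        · refine Finset.sum_congr rfl fun y hy => ?_
          rw [hν', Function.update_of_ne (Finset.ne_of_mem_erase hy)]
      have e2 := e1 (M := ℕ) (fun _ k => k)
      have e3 : ∑ y ∈ F, ν y = ν x + ∑ y ∈ F.erase x, ν y := (Finset.add_sum_erase F _ hx).symm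
      obtain ⟨γ, h1, h2⟩ := ih ν' (by omega)
      refine ⟨Fin.cons x γ, fun j => ?_, ?_⟩
      · refine Fin.cases ?_ (fun i => ?_) j
        · simpa using hx
        · simpa using h1 i
      · rw [Fin.sum_univ_succ]
        simp only [Fin.cons_zero, Fin.cons_succ]
        rw [h2, e1 (M := A) (fun y k => k • (y - y0))]
        rw [← Finset.add_sum_erase F (fun y => ν y • (y - y0)) hx]
        obtain ⟨k, hk⟩ : ∃ k, ν x = k + 1 := ⟨ν x - 1, by omega⟩
        rw [hk, Nat.add_sub_cancel, succ_nsmul (x - y0) k, succ_nsmul y0 J]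
        abel

/-- Representation modulo a subgroup with bounded coefficients.

PROOF.  The set of all `τ` of the form `∑_{x ∈ F} z x • d x` with `z : A → ℤ` contains `d '' F` and is closed
under `0`, `+`, `-` (`AddSubgroup.closure_induction`).  For such a `τ` let `ν x := (z x % n x).toNat`
(`0 ≤ z x % n x < n x` for `x ∈ F`); then `τ - ∑ ν x • d x = ∑_{x ∈ F} (z x / n x) • (n x • d x) ∈ K`. -/
theorem rep_mod {A : Type} [AddCommGroup A] (F : Finset A) (d : A → A) (K : AddSubgroup A) (n : A → ℕ)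
    (hn : ∀ x ∈ F, 1 ≤ n x ∧ n x • d x ∈ K) (τ : A)
    (hτ : τ ∈ AddSubgroup.closure (d '' (F : Set A))) :
    ∃ ν : A → ℕ, (∀ x ∈ F, ν x < n x) ∧ τ - ∑ x ∈ F, ν x • d x ∈ K := by
  classical
  have h1 : ∃ z : A → ℤ, τ = ∑ x ∈ F, z x • d x := by
    induction hτ using AddSubgroup.closure_induction with
    | mem y hy =>
      obtain ⟨x, hx, rfl⟩ := hy
      have hx' : x ∈ F := hx
      refine ⟨fun y => if y = x then 1 else 0, ?_⟩
      rw [Finset.sum_eq_single_of_mem x hx' (fun b _ hb => by simp [hb])]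
      simp
    | zero => exact ⟨0, by simp⟩
    | add a b _ _ ha hb =>
      obtain ⟨z, rfl⟩ := ha
      obtain ⟨w, rfl⟩ := hb
      exact ⟨z + w, by simp [add_smul, Finset.sum_add_distrib]⟩
    | neg a _ ha =>
      obtain ⟨z, rfl⟩ := ha
      exact ⟨-z, by simp⟩
  obtain ⟨z, rfl⟩ := h1
  refine ⟨fun x => (z x % n x).toNat, fun x hx => ?_, ?_⟩
  · have hnx := (hn x hx).1
    have h2 : 0 ≤ z x % n x := Int.emod_nonneg _ (by omega)
    have h3 : z x % n x < n x := Int.emod_lt_of_pos _ (by omega)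
    show (z x % n x).toNat < n x
    omega
  · rw [← Finset.sum_sub_distrib]
    refine K.sum_mem fun x hx => ?_
    have hnx := (hn x hx).1
    have h2 : 0 ≤ z x % n x := Int.emod_nonneg _ (by omega)
    have h3 : ((z x % n x).toNat : ℤ) = z x % n x := Int.toNat_of_nonneg h2
    have h4 : (z x % n x).toNat • d x = (z x % n x) • d x := by
      rw [← natCast_zsmul, h3]
    have h5 : z x • d x - (z x % n x).toNat • d x = (z x / n x) • (n x • d x) := by
      rw [h4, ← sub_smul, ← natCast_zsmul (d x) (n x), smul_smul]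
      congr 1
      have := Int.mul_ediv_add_emod (z x) (n x)
      linarith
    show z x • d x - (z x % n x).toNat • d x ∈ K
    rw [h5]
    exact K.zsmul_mem (hn x hx).2 _

/-- Change of the base point.

PROOF.  `J • x0 + τ = J • y0 + (J • (x0 - y0) + τ)`; `τ` lies in the closure of the `x - y0`, because
`x - x0 = (x - y0) - (x0 - y0)` (`AddSubgroup.closure_le`). -/
theorem base_change {A : Type} [AddCommGroup A] (F : Finset A) (y0 x0 : A) (hy0 : y0 ∈ F) (hx0 : x0 ∈ F)
    (J : ℕ)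
    (H : ∀ τ ∈ AddSubgroup.closure ((fun x => x - y0) '' (F : Set A)),
      ∃ γ : Fin J → A, (∀ j, γ j ∈ F) ∧ ∑ j, γ j = J • y0 + τ) :
    ∀ τ ∈ AddSubgroup.closure ((fun x => x - x0) '' (F : Set A)),
      ∃ γ : Fin J → A, (∀ j, γ j ∈ F) ∧ ∑ j, γ j = J • x0 + τ := by
  intro τ hτ
  have hmem : ∀ x ∈ F, x - y0 ∈ AddSubgroup.closure ((fun x => x - y0) '' (F : Set A)) :=
    fun x hx => AddSubgroup.subset_closure ⟨x, hx, rfl⟩
  have h1 : AddSubgroup.closure ((fun x => x - x0) '' (F : Set A)) ≤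
      AddSubgroup.closure ((fun x => x - y0) '' (F : Set A)) := by
    rw [AddSubgroup.closure_le]
    rintro _ ⟨x, hx, rfl⟩
    have hx' : x ∈ F := hx
    have e : x - x0 = (x - y0) - (x0 - y0) := by abel
    show x - x0 ∈ AddSubgroup.closure ((fun x => x - y0) '' (F : Set A))
    rw [e]
    exact sub_mem (hmem x hx') (hmem x0 hx0)
  obtain ⟨γ, h2, h3⟩ := H (J • (x0 - y0) + τ)
    (add_mem (nsmul_mem (hmem x0 hx0) J) (h1 hτ))
  refine ⟨γ, h2, ?_⟩
  rw [h3, smul_sub]
  abel

end Pool.Agent.ZC
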