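import Pool.Agent.ZT.Glue

/-! # ZC : many blocks with the same sum at one hub; popular sums -/

set_option autoImplicit false

open Finset

namespace Pool.Agent.ZC

open Pool.Agent.ZT

/-- Gluing `M` blocks with `e` edges at the hub `y`; every block together with its connecting edge has the
sum `σ`.  (`ZT.blocks_glue` is the same statement for `G = ℤ × ℕ`; copy its proof.)

PROOF.  Induction on `M` with `ZT.glue` (`Y`, `g2 z = σ - c z y`, `g1 = g + M • σ`, new sum
`g + (M+1) • σ`); each step costs the factor `(e0 + M (e+1)) + e + 1 ≤ m`. -/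
theorem hub_pow {V G : Type} [Fintype V] [AddCommGroup G] (c : V → V → G) (y : V) (e e0 M m : ℕ)
    (g σ : G) (Y : Finset V) (β : ℝ) (hβ0 : 0 ≤ β)
    (hβ : β * (Fintype.card V : ℝ) ≤ ∑ z ∈ Y, rr c e z (σ - c z y))
    (hm : e0 + M * (e + 1) ≤ m) :
    rr c e0 y g * (β / m) ^ M ≤ rr c (e0 + M * (e + 1)) y (g + M • σ) := by
  classical
  induction M with
  | zero => simp
  | succ M ih =>
    have hm' : e0 + M * (e + 1) ≤ m := by nlinarith
    have ih' := ih hm'
    have hn : (0 : ℝ) < Fintype.card V := by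
      have : 0 < Fintype.card V := Fintype.card_pos_iff.2 ⟨y⟩
      exact_mod_cast this
    have hg := glue c (e0 + M * (e + 1)) e y (g + M • σ) (g + (M + 1) • σ)
      Y (fun z => σ - c z y) (by
        intro z _
        rw [succ_nsmul]
        abel)
    have hm1 : e0 + M * (e + 1) + e + 1 ≤ m := by nlinarith
    have hmpos : (0 : ℝ) < m := by
      have : 0 < m := by omega
      exact_mod_cast this
    set A := rr c (e0 + M * (e + 1)) y (g + M • σ) with hA
    have hA0 : 0 ≤ A := rr_nonneg _ _ _ _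
    have hidx : e0 + M * (e + 1) + e + 1 = e0 + (M + 1) * (e + 1) := by ring
    have hB0 : 0 ≤ rr c (e0 + M * (e + 1) + e + 1) y (g + (M + 1) • σ) :=
      rr_nonneg _ _ _ _
    have h1 : A * (β * Fintype.card V) ≤
        m * Fintype.card V * rr c (e0 + M * (e + 1) + e + 1) y (g + (M + 1) • σ) := by
      calc A * (β * Fintype.card V) ≤ A * ∑ z ∈ Y, rr c e z (σ - c z y) :=
            mul_le_mul_of_nonneg_left hβ hA0
        _ ≤ _ := hg
        _ ≤ _ := by
            have h2 : (((e0 + M * (e + 1) : ℕ) : ℝ) + e + 1) ≤ m := by exact_mod_cast hm1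
            gcongr
    have h3 : A * β ≤ m * rr c (e0 + M * (e + 1) + e + 1) y (g + (M + 1) • σ) := by
      have h4 : Fintype.card V * (A * β) ≤
          Fintype.card V * (m * rr c (e0 + M * (e + 1) + e + 1) y
            (g + (M + 1) • σ)) := by
        calc (Fintype.card V : ℝ) * (A * β) = A * (β * Fintype.card V) := by ring
          _ ≤ _ := h1
          _ = _ := by ring
      exact le_of_mul_le_mul_left h4 hn
    have h5 : A * (β / m) ≤ rr c (e0 + M * (e + 1) + e + 1) y (g + (M + 1) • σ) := by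
      rw [← mul_div_assoc, div_le_iff₀ hmpos]
      linarith
    calc rr c e0 y g * (β / m) ^ (M + 1)
        = (rr c e0 y g * (β / m) ^ M) * (β / m) := by ring
      _ ≤ A * (β / m) := mul_le_mul_of_nonneg_right ih' (by positivity)
      _ ≤ _ := h5
      _ = rr c (e0 + (M + 1) * (e + 1)) y (g + (M + 1) • σ) := by
          rw [hidx]

/-- The popular sum of a block with its connecting edge.

PROOF.  Let `S` be the finite set of all `σ` with `σ - (e+1) • x1 ∈ Γ`; it has `Nat.card Γ` elements and is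
not empty.  For `z ∈ Y` the map `σ ↦ σ - c z y` is a bijection of `S` onto `{g | g - e • x1 ∈ Γ}` (as
`c z y - x1 ∈ Γ`), hence `∑_{σ ∈ S} ∑_{z ∈ Y} rr c e z (σ - c z y)` is the left side.  Take the `σ ∈ S` with
the largest inner sum (`Finset.exists_max_image` or `Finset.sum_le_card_nsmul`). -/
theorem pop_block {V G : Type} [Fintype V] [Fintype G] [AddCommGroup G] (c : V → V → G)
    (Γ : AddSubgroup G) (x1 : G) (e : ℕ) (y : V) (Y : Finset V) (hY : ∀ z ∈ Y, c z y - x1 ∈ Γ) :
    ∃ σ : G, σ - (e + 1) • x1 ∈ Γ ∧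
      ∑ z ∈ Y, sm (fun g : G => g - e • x1 ∈ Γ) (fun g => rr c e z g)
        ≤ (Nat.card Γ : ℝ) * ∑ z ∈ Y, rr c e z (σ - c z y) := by
  classical
  set S : Finset G := univ.filter (fun σ : G => σ - (e + 1) • x1 ∈ Γ) with hS
  have hSmem : ∀ σ, σ ∈ S ↔ σ - (e + 1) • x1 ∈ Γ := fun σ => by rw [hS]; simp
  have hSne : S.Nonempty := ⟨(e + 1) • x1, by rw [hSmem, sub_self]; exact Γ.zero_mem⟩
  set F : G → ℝ := fun σ => ∑ z ∈ Y, rr c e z (σ - c z y) with hF
  obtain ⟨σ, hσ, hmax⟩ := Finset.exists_max_image S F hSne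
  refine ⟨σ, (hSmem σ).1 hσ, ?_⟩
  have h1 : ∀ z ∈ Y, sm (fun g : G => g - e • x1 ∈ Γ) (fun g => rr c e z g) =
      ∑ τ ∈ S, rr c e z (τ - c z y) := by
    intro z hz
    rw [sm_eq]
    symm
    refine Finset.sum_bij (fun τ _ => τ - c z y) ?_ ?_ ?_ ?_
    · intro τ hτ
      rw [Finset.mem_filter]
      refine ⟨Finset.mem_univ _, ?_⟩
      have h2 := Γ.sub_mem ((hSmem τ).1 hτ) (hY z hz)
      have h3 : τ - c z y - e • x1 = τ - (e + 1) • x1 - (c z y - x1) := by
        rw [succ_nsmul]; abel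
      rw [h3]
      exact h2
    · intro τ1 _ τ2 _ h
      exact sub_left_injective h
    · intro g hg
      rw [Finset.mem_filter] at hg
      refine ⟨g + c z y, ?_, by abel⟩
      rw [hSmem]
      have h3 : g + c z y - (e + 1) • x1 = (g - e • x1) + (c z y - x1) := by
        rw [succ_nsmul]; abel
      rw [h3]
      exact Γ.add_mem hg.2 (hY z hz)
    · intro τ _
      rfl
  have hcard : (S.card : ℝ) = (Nat.card Γ : ℝ) := by
    have h2 : Nat.card Γ = Nat.card S := by
      refine Nat.card_congr ⟨fun γ => ⟨(γ : G) + (e + 1) • x1, ?_⟩, fun τ => ⟨(τ : G) - (e + 1) • x1, ?_⟩, ?_, ?_⟩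
      · rw [hSmem, add_sub_cancel_right]
        exact γ.2
      · exact (hSmem _).1 τ.2
      · intro γ
        apply Subtype.ext
        simp
      · intro τ
        apply Subtype.ext
        simp
    rw [h2, Nat.card_eq_fintype_card, Fintype.card_coe]
  calc ∑ z ∈ Y, sm (fun g : G => g - e • x1 ∈ Γ) (fun g => rr c e z g)
      = ∑ z ∈ Y, ∑ τ ∈ S, rr c e z (τ - c z y) := Finset.sum_congr rfl h1
    _ = ∑ τ ∈ S, F τ := by rw [Finset.sum_comm]
    _ ≤ ∑ _τ ∈ S, F σ := Finset.sum_le_sum hmax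
    _ = (Nat.card Γ : ℝ) * F σ := by rw [Finset.sum_const, nsmul_eq_mul, hcard]

end Pool.Agent.ZC
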