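import Mathlib

/-! # ZC : Dirichlet's theorem modulo n, bounded Bezout coefficients, cyclic groups -/

set_option autoImplicit false

open Finset

namespace Pool.Agent.ZC

/-- Dirichlet's approximation theorem modulo `n`.

PROOF.  `Real.exists_int_int_abs_mul_sub_le (v / n) (hK)` gives integers `w, j` with `0 < j ≤ K` and
`|j (v/n) - w| ≤ 1/(K+1)`; take `u = j v - w n`. -/
theorem dirichlet2 (n K : ℕ) (hn : 1 ≤ n) (hK : 1 ≤ K) (v : ℤ) :
    ∃ (j : ℕ) (u : ℤ), 1 ≤ j ∧ j ≤ K ∧ (|u| : ℝ) ≤ (n : ℝ) / (K + 1) ∧ (n : ℤ) ∣ (j : ℤ) * v - u := by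
  obtain ⟨w, k, hk0, hk1, hk2⟩ := Real.exists_int_int_abs_mul_sub_le ((v : ℝ) / n) (n := K) (by omega)
  have hn0 : (0 : ℝ) < n := by exact_mod_cast (by omega : 0 < n)
  have hkn : ((k.toNat : ℕ) : ℤ) = k := Int.toNat_of_nonneg hk0.le
  refine ⟨k.toNat, k * v - w * n, by omega, by omega, ?_, ?_⟩
  · push_cast
    have h1 : (k : ℝ) * v - w * n = n * ((k : ℝ) * ((v : ℝ) / n) - w) := by
      field_simp
    rw [h1, abs_mul, abs_of_pos hn0]
    calc (n : ℝ) * |(k : ℝ) * ((v : ℝ) / n) - w| ≤ n * (1 / (K + 1)) :=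
          mul_le_mul_of_nonneg_left hk2 hn0.le
      _ = n / (K + 1) := by ring
  · rw [hkn]
    exact ⟨w, by ring⟩

/-- Bezout coefficients -/
theorem bnum_bezout {α : Type} [DecidableEq α] (F : Finset α) (a : α → ℕ) :
    ∃ z : α → ℤ, ∑ x ∈ F, z x * (a x : ℤ) = ((F.gcd a : ℕ) : ℤ) := by
  induction F using Finset.induction_on with
  | empty => exact ⟨fun _ => 0, by simp⟩
  | insert i F hi ih =>
    obtain ⟨z, hz⟩ := ih
    refine ⟨fun x => if x = i then Nat.gcdA (a i) (F.gcd a) else Nat.gcdB (a i) (F.gcd a) * z x, ?_⟩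
    rw [Finset.sum_insert hi, Finset.gcd_insert]
    beta_reduce
    rw [if_pos rfl]
    have h1 : ∑ x ∈ F, (if x = i then Nat.gcdA (a i) (F.gcd a) else
        Nat.gcdB (a i) (F.gcd a) * z x) * (a x : ℤ) = Nat.gcdB (a i) (F.gcd a) * (F.gcd a : ℕ) := by
      rw [← hz, Finset.mul_sum]
      refine Finset.sum_congr rfl fun x hx => ?_
      rw [if_neg (fun h : x = i => hi (h ▸ hx))]
      ring
    rw [h1]
    have h2 := Nat.gcd_eq_gcd_ab (a i) (F.gcd a)
    have h3 : ((GCDMonoid.gcd (a i) (F.gcd a) : ℕ) : ℤ) = ((Nat.gcd (a i) (F.gcd a) : ℕ) : ℤ) := rfl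
    rw [h3, h2]
    ring

/-- Bezout with bounded coefficients.  `C = 1 + k A^2 + A` works.

PROOF.  `F.gcd a = 1` gives integers `z x` with `∑_{x ∈ F} z x * a x = 1` (induction on `F`, or
`Finset.gcd` as an ideal generator in `ℤ`).  Some `x' ∈ F` has `a x' > 0` (otherwise the sum is `0`).  For
`x ≠ x'` in `F` put `c x := z x % a x' ∈ [0, a x')` and `c x' := z x' + ∑_{x ∈ F, x ≠ x'} (z x / a x') * a x`.
Then `∑ c x * a x = ∑ z x * a x = 1`, `|c x| ≤ A` for `x ≠ x'`, and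
`c x' * a x' = 1 - ∑_{x ≠ x'} c x * a x` gives `|c x'| ≤ 1 + k A^2`. -/
theorem bezout_bdd (k A : ℕ) : ∃ C : ℕ, ∀ (α : Type) (F : Finset α) (a : α → ℕ), F.card ≤ k →
    (∀ x ∈ F, a x ≤ A) → F.gcd a = 1 →
    ∃ c : α → ℤ, ∑ x ∈ F, c x * (a x : ℤ) = 1 ∧ ∀ x ∈ F, |c x| ≤ (C : ℤ) := by
  classical
  refine ⟨1 + k * A ^ 2 + A, ?_⟩
  intro α F a hk hA hg
  obtain ⟨z, hz⟩ := bnum_bezout F a
  rw [hg] at hz
  obtain ⟨x', hx', hpos⟩ : ∃ x ∈ F, 0 < a x := by
    by_contra h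
    push Not at h
    have h1 : F.gcd a = 0 := Finset.gcd_eq_zero_iff.2 fun x hx => by
      have := h x hx
      omega
    omega
  set c : α → ℤ := fun x => if x = x' then z x' + ∑ y ∈ F.erase x', (z y / (a x' : ℤ)) * a y
    else z x % (a x' : ℤ) with hc
  have hpos' : (0 : ℤ) < a x' := by exact_mod_cast hpos
  have hce : ∑ x ∈ F.erase x', c x * (a x : ℤ) = ∑ x ∈ F.erase x', (z x % (a x' : ℤ)) * a x := by
    refine Finset.sum_congr rfl fun x hx => ?_
    rw [hc]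
    simp only
    rw [if_neg (Finset.ne_of_mem_erase hx)]
  have hsum : ∑ x ∈ F, c x * (a x : ℤ) = 1 := by
    rw [← Finset.add_sum_erase _ _ hx', hce]
    have h1 : c x' = z x' + ∑ y ∈ F.erase x', (z y / (a x' : ℤ)) * a y := by
      rw [hc]
      simp
    rw [h1, add_mul, Finset.sum_mul, add_assoc, ← Finset.sum_add_distrib]
    have h2 : ∑ y ∈ F.erase x', (z y / (a x' : ℤ) * a y * a x' + z y % (a x' : ℤ) * a y) =
        ∑ y ∈ F.erase x', z y * (a y : ℤ) := by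
      refine Finset.sum_congr rfl fun y _ => ?_
      have := Int.mul_ediv_add_emod (z y) (a x' : ℤ)
      linear_combination (a y : ℤ) * this
    rw [h2, Finset.add_sum_erase F (fun y => z y * (a y : ℤ)) hx', hz]
    simp
  have hb1 : ∀ x ∈ F.erase x', |c x| ≤ (A : ℤ) := by
    intro x hx
    have h1 : c x = z x % (a x' : ℤ) := by
      rw [hc]
      simp only
      rw [if_neg (Finset.ne_of_mem_erase hx)]
    rw [h1, abs_of_nonneg (Int.emod_nonneg _ hpos'.ne')]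
    have h2 := Int.emod_lt_of_pos (z x) hpos'
    have h3 : (a x' : ℤ) ≤ A := by exact_mod_cast hA x' hx'
    linarith
  refine ⟨c, hsum, fun x hx => ?_⟩
  by_cases hxx : x = x'
  · subst hxx
    have h1 : c x * (a x : ℤ) = 1 - ∑ y ∈ F.erase x, c y * (a y : ℤ) := by
      rw [← hsum, ← Finset.add_sum_erase _ _ hx]
      ring
    have h2 : |∑ y ∈ F.erase x, c y * (a y : ℤ)| ≤ k * (A * A) := by
      calc |∑ y ∈ F.erase x, c y * (a y : ℤ)| ≤ ∑ y ∈ F.erase x, |c y * (a y : ℤ)| :=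
            Finset.abs_sum_le_sum_abs _ _
        _ ≤ ∑ y ∈ F.erase x, ((A : ℤ) * A) := by
            refine Finset.sum_le_sum fun y hy => ?_
            rw [abs_mul, Nat.abs_cast]
            have h3 : (a y : ℤ) ≤ A := by exact_mod_cast hA y (Finset.mem_of_mem_erase hy)
            exact mul_le_mul (hb1 y hy) h3 (Nat.cast_nonneg _) (Nat.cast_nonneg _)
        _ = ((F.erase x).card : ℤ) * (A * A) := by rw [Finset.sum_const, nsmul_eq_mul]
        _ ≤ k * (A * A) := by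
            refine mul_le_mul_of_nonneg_right ?_ (by positivity)
            exact_mod_cast (Finset.card_erase_le).trans hk
    have h3 : |c x| ≤ |c x| * (a x : ℤ) := by
      have : (1 : ℤ) ≤ a x := hpos'
      nlinarith [abs_nonneg (c x)]
    have h4 : |c x| * (a x : ℤ) = |c x * (a x : ℤ)| := by rw [abs_mul, Nat.abs_cast]
    rw [h4, h1] at h3
    have h5 := abs_sub (1 : ℤ) (∑ y ∈ F.erase x, c y * (a y : ℤ))
    rw [abs_one] at h5
    push_cast
    nlinarith [Nat.cast_nonneg (α := ℤ) A]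
  · have h1 := hb1 x (Finset.mem_erase.2 ⟨hxx, hx⟩)
    push_cast
    nlinarith [mul_nonneg (Nat.cast_nonneg (α := ℤ) k) (sq_nonneg (A : ℤ))]

/-- A subgroup of a cyclic group killed by `L` has at most `L` elements.

PROOF.  `ZMod m` is a cyclic additive group, so `Γ` is cyclic (`AddSubgroup.isAddCyclic` or
`Submodule`/`IsAddCyclic` instances); its generator has order dividing `L`, and this order is
`Nat.card Γ`. -/
theorem tors_card {m : ℕ} [NeZero m] (Γ : AddSubgroup (ZMod m)) (L : ℕ) (hL : 1 ≤ L)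
    (h : ∀ z ∈ Γ, L • z = 0) : Nat.card Γ ≤ L := by
  obtain ⟨g, hg⟩ := IsAddCyclic.exists_generator (α := Γ)
  have h1 : addOrderOf g = Nat.card Γ := addOrderOf_eq_card_of_forall_mem_zmultiples hg
  have h2 : L • g = 0 := by
    apply Subtype.ext
    rw [AddSubgroup.coe_nsmul, AddSubgroup.coe_zero]
    exact h g g.2
  rw [← h1]
  exact Nat.le_of_dvd hL (addOrderOf_dvd_of_nsmul_eq_zero h2)

/-- The index of `⟨d1⟩` kills the quotient.

PROOF.  `AddSubgroup.nsmul_index_mem` (additive version of `Subgroup.pow_index_mem`), and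
`(zmultiples d1).index * addOrderOf d1 = m` (`AddSubgroup.index_mul_card`, `Nat.card_zmultiples`,
`Nat.card_zmod`). -/
theorem index_mem {m : ℕ} [NeZero m] (d1 z : ZMod m) :
    (m / addOrderOf d1) • z ∈ AddSubgroup.zmultiples d1 := by
  have h1 : (AddSubgroup.zmultiples d1).index * Nat.card (AddSubgroup.zmultiples d1) =
      Nat.card (ZMod m) := AddSubgroup.index_mul_card _
  rw [Nat.card_zmultiples, Nat.card_zmod] at h1
  have h2 : 0 < addOrderOf d1 := addOrderOf_pos d1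
  have h3 : m / addOrderOf d1 = (AddSubgroup.zmultiples d1).index :=
    Nat.div_eq_of_eq_mul_left h2 h1.symm
  rw [h3]
  exact AddSubgroup.nsmul_index_mem (AddSubgroup.zmultiples d1) z

/-- The order of `g` modulo `Γ`.

PROOF.  `o := addOrderOf (QuotientAddGroup.mk g : ZMod m ⧸ Γ)`; `m • g = 0` gives `o ∣ m` (and `o ≥ 1`), `q := m / o`,
`o • g ∈ Γ`.  `L • (o • g) = 0`, so `(o * E) • d1 = o • (L • g) = 0`, `addOrderOf d1 ∣ o * E`, hence
`addOrderOf d1 ≤ o * E` and `q * addOrderOf d1 ≤ E * m`.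
If `q = 1` then `o = m`.  `o ∣ addOrderOf g ∣ m`, so `g` has order `m` and generates `ZMod m`; for `γ ∈ Γ`
write `γ = s • g`: then `o ∣ s`, so `m ∣ s` and `γ = 0`.  Also `1 = s • g = (s : ZMod m) * g` for some `s`, so
`g` is a unit. -/
theorem ord_quot {m : ℕ} [NeZero m] (Γ : AddSubgroup (ZMod m)) (g d1 : ZMod m) (L E : ℕ) (hL : 1 ≤ L)
    (hE : 1 ≤ E) (hΓ : ∀ z ∈ Γ, L • z = 0) (hg : L • g = E • d1) :
    ∃ q o : ℕ, q * o = m ∧ 1 ≤ q ∧ q * addOrderOf d1 ≤ E * m ∧ o • g ∈ Γ ∧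
      (q = 1 → Γ = ⊥ ∧ IsUnit g) := by
  have hm : 0 < m := Nat.pos_of_ne_zero (NeZero.ne m)
  obtain ⟨o, ho⟩ : ∃ o, o = addOrderOf (QuotientAddGroup.mk g : ZMod m ⧸ Γ) := ⟨_, rfl⟩
  have hmg : m • g = 0 := by
    rw [nsmul_eq_mul, ZMod.natCast_self, zero_mul]
  have hom : o ∣ m := by
    rw [ho]
    apply addOrderOf_dvd_of_nsmul_eq_zero
    rw [← QuotientAddGroup.mk_nsmul, hmg, QuotientAddGroup.mk_zero]
  have hoE : o • g ∈ Γ := by
    rw [← QuotientAddGroup.eq_zero_iff, QuotientAddGroup.mk_nsmul, ho]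
    exact addOrderOf_nsmul_eq_zero _
  have hq : m / o * o = m := Nat.div_mul_cancel hom
  have hq1 : 1 ≤ m / o := by
    rcases Nat.eq_zero_or_pos (m / o) with h0 | h0
    · rw [h0, zero_mul] at hq
      omega
    · exact h0
  have ho1 : 1 ≤ o := Nat.pos_of_dvd_of_pos hom hm
  have hd : addOrderOf d1 ∣ o * E := by
    apply addOrderOf_dvd_of_nsmul_eq_zero
    rw [mul_nsmul', ← hg, ← mul_nsmul', mul_comm o L, mul_nsmul']
    exact hΓ _ hoE
  have hd2 : addOrderOf d1 ≤ o * E := Nat.le_of_dvd (Nat.mul_pos ho1 hE) hd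
  refine ⟨m / o, o, hq, hq1, ?_, hoE, ?_⟩
  · calc m / o * addOrderOf d1 ≤ m / o * (o * E) := Nat.mul_le_mul_left _ hd2
      _ = E * m := by rw [← mul_assoc, hq, mul_comm]
  · intro h1
    rw [h1, one_mul] at hq
    have h2 : o ∣ addOrderOf g := by
      rw [ho]
      apply addOrderOf_dvd_of_nsmul_eq_zero
      rw [← QuotientAddGroup.mk_nsmul, addOrderOf_nsmul_eq_zero, QuotientAddGroup.mk_zero]
    have h3 : addOrderOf g ∣ m := addOrderOf_dvd_of_nsmul_eq_zero hmg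
    have h4 : addOrderOf g = m := Nat.dvd_antisymm h3 (hq ▸ h2)
    have h5 : AddSubgroup.zmultiples g = ⊤ := by
      apply AddSubgroup.eq_top_of_card_eq
      rw [Nat.card_zmultiples, h4, Nat.card_zmod]
    constructor
    · rw [eq_bot_iff]
      intro γ hγ
      have h6 : γ ∈ AddSubgroup.zmultiples g := by rw [h5]; exact AddSubgroup.mem_top γ
      obtain ⟨k, hk⟩ := AddSubgroup.mem_zmultiples_iff.1 h6
      have h7 : k • (QuotientAddGroup.mk g : ZMod m ⧸ Γ) = 0 := by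
        rw [← QuotientAddGroup.mk_zsmul, hk]
        exact (QuotientAddGroup.eq_zero_iff γ).2 hγ
      have h8 : ((addOrderOf (QuotientAddGroup.mk g : ZMod m ⧸ Γ) : ℕ) : ℤ) ∣ k :=
        addOrderOf_dvd_iff_zsmul_eq_zero.2 h7
      rw [← ho, hq] at h8
      rw [AddSubgroup.mem_bot, ← hk]
      obtain ⟨t, rfl⟩ := h8
      rw [mul_comm, mul_zsmul, natCast_zsmul, hmg, zsmul_zero]
    · have h6 : (1 : ZMod m) ∈ AddSubgroup.zmultiples g := by rw [h5]; exact AddSubgroup.mem_top _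
      obtain ⟨k, hk⟩ := AddSubgroup.mem_zmultiples_iff.1 h6
      rw [zsmul_eq_mul] at hk
      exact isUnit_iff_exists_inv.2 ⟨(k : ZMod m), by rw [mul_comm]; exact hk⟩

end Pool.Agent.ZC
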