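import Pool.Agent.ZC.Plant
import Pool.Agent.ZT.Block

/-! # ZC : cheap trees -/

set_option autoImplicit false

open Finset

namespace Pool.Agent.ZT

theorem ch_child {A : Type} (p : A → A) {v w : A} (hne : w ≠ v) (h : ∃ k : ℕ, p^[k] w = v) :
    ∃ u, u ≠ v ∧ p u = v := by
  obtain ⟨k, hk⟩ := h
  induction k generalizing w with
  | zero => exact absurd hk hne
  | succ k ih =>
    rw [Function.iterate_succ_apply] at hk
    by_cases h1 : p w = v
    · exact ⟨w, hne, h1⟩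
    · exact ih h1 hk

theorem ch_nest {S T : Type} [Fintype S] [Fintype T] (R : S × T → Prop) (P : S → Prop) (B : ℝ)
    (h : ∀ s, P s → B ≤ (cnt (fun t => R (s, t)) : ℝ)) : (cnt P : ℝ) * B ≤ (cnt R : ℝ) := by
  classical
  rw [cnt_eq_sum R, Fintype.sum_prod_type, cnt_eq_sum P, sum_mul]
  refine sum_le_sum fun s _ => ?_
  by_cases hs : P s
  · rw [if_pos hs, one_mul]
    have := h s hs
    rw [cnt_eq_sum] at this
    exact this
  · rw [if_neg hs, zero_mul]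
    refine sum_nonneg fun t _ => ?_
    split_ifs
    · exact zero_le_one
    · exact le_rfl

theorem ch_and {V : Type} [Fintype V] (P Q : V → Prop) :
    (cnt P : ℝ) + cnt Q ≤ cnt (fun v => P v ∧ Q v) + (Fintype.card V : ℝ) := by
  classical
  rw [cnt_eq_card, cnt_eq_card, cnt_eq_card, filter_and]
  have h1 := card_union_add_card_inter (univ.filter P) (univ.filter Q)
  have h2 : (univ.filter P ∪ univ.filter Q).card ≤ Fintype.card V := card_le_univ _
  have h3 : ((univ.filter P ∪ univ.filter Q).card : ℝ) ≤ (Fintype.card V : ℝ) := by exact_mod_cast h2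
  have h4 : ((univ.filter P ∪ univ.filter Q).card : ℝ) + ((univ.filter P ∩ univ.filter Q).card : ℝ) =
      ((univ.filter P).card : ℝ) + ((univ.filter Q).card : ℝ) := by exact_mod_cast h1
  linarith

theorem ch_pi {V : Type} [Fintype V] {N : ℕ} (P : Fin N → V → Prop) (B : ℝ) (hB : 0 ≤ B)
    (h : ∀ k, B ≤ (cnt (P k) : ℝ)) : B ^ N ≤ (cnt (fun z : Fin N → V => ∀ k, P k (z k)) : ℝ) := by
  classical
  have h1 : cnt (fun z : Fin N → V => ∀ k, P k (z k)) = ∏ k, cnt (P k) := by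
    rw [cnt_eq_card]
    have h2 : univ.filter (fun z : Fin N → V => ∀ k, P k (z k)) =
        Fintype.piFinset (fun k => univ.filter (P k)) := by
      ext z
      simp
    rw [h2, Fintype.card_piFinset]
    exact prod_congr rfl fun k _ => (cnt_eq_card _).symm
  rw [h1]
  push_cast
  have h3 : B ^ N = ∏ _k : Fin N, B := by simp
  rw [h3]
  exact prod_le_prod (fun _ _ => hB) fun k _ => h k

theorem ch_sum_mem {ι : Type} {m : ℕ} (K : AddSubgroup (ZMod m)) (x0 : ZMod m) (s : Finset ι) (f : ι → ZMod m)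
    (h : ∀ i ∈ s, f i - x0 ∈ K) : ∑ i ∈ s, f i - s.card • x0 ∈ K := by
  have h1 : ∑ i ∈ s, f i - s.card • x0 = ∑ i ∈ s, (f i - x0) := by
    rw [sum_sub_distrib, sum_const]
  rw [h1]
  exact K.sum_mem h

theorem ch_core {m : ℕ} {V : Type} [Fintype V] (c : V → V → ZMod m) (hc : ∀ x y, c x y = c y x)
    (X : Set (ZMod m)) (U : Finset V) (h : ℝ) (hh0 : 0 ≤ h)
    (hh : h * (Fintype.card V : ℝ) ^ 2 ≤
      cnt (fun q : V × V => q.1 ∈ U ∧ q.2 ∈ U ∧ c q.1 q.2 ∈ X)) (e : ℕ) (he : 1 ≤ e) :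
    ((e + 1 : ℕ) : ℝ) ^ (e - 1) * (Fintype.card V : ℝ) ^ (e + 1) * h ^ e ≤
      cnt (fun q : (Fin (e + 1) → Fin (e + 1)) × (Fin (e + 1) → V) =>
        q.1 ∈ PT (Fin (e + 1)) 0 ∧ (∀ w, q.2 w ∈ U) ∧
          ∀ w ∈ univ.erase (0 : Fin (e + 1)), c (q.2 w) (q.2 (q.1 w)) ∈ X) := by
  classical
  set c' : V → V → ℕ := fun x y => if x ∈ U ∧ y ∈ U ∧ c x y ∈ X then 0 else 1 with hc'
  have hz : ∀ x y, c' x y = 0 ↔ x ∈ U ∧ y ∈ U ∧ c x y ∈ X := by
    intro x y
    simp only [hc']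
    split_ifs with h1
    · exact ⟨fun _ => h1, fun _ => rfl⟩
    · exact ⟨fun h2 => by simp at h2, fun h2 => absurd h2 h1⟩
  have hsymm : ∀ x y, c' x y = c' y x := by
    intro x y
    simp only [hc']
    rw [hc x y]
    have : (x ∈ U ∧ y ∈ U ∧ c y x ∈ X) ↔ (y ∈ U ∧ x ∈ U ∧ c y x ∈ X) := by tauto
    simp only [this]
  have h1 := mono c' hsymm 0 h hh0 e (by
    refine hh.trans (le_of_eq ?_)
    congr 1
    exact cnt_congr fun q => (hz q.1 q.2).symm)
  refine h1.trans ?_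
  rw [smul_zero]
  unfold NN
  refine Nat.cast_le.2 (cnt_mono fun q hq => ?_)
  obtain ⟨hp, hs⟩ := hq
  unfold PS at hs
  rw [sum_eq_zero_iff] at hs
  have hall : ∀ w ∈ univ.erase (0 : Fin (e + 1)), q.2 w ∈ U ∧ q.2 (q.1 w) ∈ U ∧ c (q.2 w) (q.2 (q.1 w)) ∈ X :=
    fun w hw => (hz _ _).1 (hs w hw)
  refine ⟨hp, fun w => ?_, fun w hw => (hall w hw).2.2⟩
  by_cases hw : w = 0
  · subst hw
    -- some label is a child of the root
    obtain ⟨-, hk⟩ := mem_PT.1 hp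
    have hne : (1 : Fin (e + 1)) ≠ 0 := by
      obtain ⟨e', rfl⟩ := Nat.exists_eq_add_of_le' he
      exact one_ne_zero
    obtain ⟨w, hw, hw0⟩ := ch_child q.1 hne (hk 1)
    have := (hall w (mem_erase.2 ⟨hw, mem_univ _⟩)).2.1
    rwa [hw0] at this
  · exact (hall w (mem_erase.2 ⟨hw, mem_univ _⟩)).1

/-- Trees with all edges allowed except `J` leaves which correct the sum.

PROOF.  `plant3` with `g = 0`.  Restrict to the data with
* `p ∈ PT`, `x (w) ∈ U` for all `w`, all edges of the core allowed (colour in `X`): at least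
  `(e+1)^(e-1) n^(e+1) h^e` pairs `(p, x)` (`mono` for the kernel `V → V → ℕ` which is `0` if
  `x ∈ U ∧ y ∈ U ∧ c x y ∈ X` and `1` otherwise, `a = 0`; sum `0` means that all edges are allowed and, as
  `e ≥ 1`, all labels are placed in `U`);
* `σ` a permutation (`N!`), `t` arbitrary (`(e+1)^N`), `y` as in `hy` (at least `ω n^N`);
* `z k` a common allowed neighbour of `x (t k) ∈ U` and `y (σ⁻¹ k) ∈ U`: at least `(4/5) n` choices for
  every `k` (`hdeg`, symmetry), together at least `((4/5) n)^N`;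
* `s` with `∑_j c (s j).2 (y (s j).1) = τ`, `τ = -(sum of all other edges)`: at least `Q` choices.  All the
  other `e + 2N` edges have colours in `X ⊆ x0 + K`, so `τ - J x0 ∈ -(e + 2N + J) x0 + K = K`, because
  `m • x0 = 0` in `ZMod m`.
The count of the restricted data is a nested sum (use `cnt_eq_sum`/`Fintype.sum_prod_type`, or the
injection of a product set for fixed `(p, x, σ, t, y)`). -/
theorem ch {m : ℕ} {V : Type} [Fintype V] (c : V → V → ZMod m) (hc : ∀ x y, c x y = c y x)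
    (X : Set (ZMod m)) (K : AddSubgroup (ZMod m)) (x0 : ZMod m) (hX : ∀ a ∈ X, a - x0 ∈ K)
    (U : Finset V)
    (hdeg : ∀ x ∈ U, 9 / 10 * (Fintype.card V : ℝ) ≤ cnt (fun y : V => c x y ∈ X))
    (h : ℝ) (hh0 : 0 ≤ h)
    (hh : h * (Fintype.card V : ℝ) ^ 2 ≤
      cnt (fun q : V × V => q.1 ∈ U ∧ q.2 ∈ U ∧ c q.1 q.2 ∈ X))
    (e N J : ℕ) (he : 1 ≤ e) (hm : e + N + N + J = m) (ω Q : ℝ) (hω : 0 ≤ ω) (hQ : 0 ≤ Q)
    (hy : ω * (Fintype.card V : ℝ) ^ N ≤ cnt (fun y : Fin N → V => (∀ i, y i ∈ U) ∧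
      ∀ τ : ZMod m, τ - J • x0 ∈ K →
        Q ≤ cnt (fun s : Fin J → Fin N × V => ∑ j, c (s j).2 (y (s j).1) = τ))) :
    (((e + 1 : ℕ) : ℝ) ^ (e - 1) * (Fintype.card V : ℝ) ^ (e + 1) * h ^ e) *
      ((N.factorial : ℝ) * ((e + 1 : ℕ) : ℝ) ^ N * (4 / 5 * (Fintype.card V : ℝ)) ^ N) *
      (ω * (Fintype.card V : ℝ) ^ N) * Q ≤ NN c m 0 := by
  classical
  obtain ⟨n, hn⟩ : ∃ n : ℝ, n = (Fintype.card V : ℝ) := ⟨_, rfl⟩
  have hn0 : 0 ≤ n := by rw [hn]; exact Nat.cast_nonneg _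
  -- the core
  have hA := ch_core c hc X U h hh0 hh e he
  have hfin := plant3 c e N J (0 : ZMod m)
  rw [hm] at hfin
  refine le_trans ?_ (Nat.cast_le (α := ℝ).2 hfin)
  rw [← hn] at hA hdeg hy ⊢
  -- fixed core
  have hB : ∀ q : (Fin (e + 1) → Fin (e + 1)) × (Fin (e + 1) → V),
      (q.1 ∈ PT (Fin (e + 1)) 0 ∧ (∀ w, q.2 w ∈ U) ∧ ∀ w ∈ univ.erase (0 : Fin (e + 1)), c (q.2 w) (q.2 (q.1 w)) ∈ X) →
      (N.factorial : ℝ) * ((e + 1 : ℕ) : ℝ) ^ N * (ω * n ^ N * ((4 / 5 * n) ^ N * Q)) ≤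
      cnt (fun r : (Equiv.Perm (Fin N) × (Fin N → Fin (e + 1)) × (Fin N → V)) × (Fin N → V) × (Fin J → Fin N × V) =>
        q.1 ∈ PT (Fin (e + 1)) 0 ∧
          PS c q.1 0 q.2 + ∑ j, c (r.1.2.2 j) (q.2 (r.1.2.1 j)) +
            ∑ i, c (r.2.1 i) (r.1.2.2 (r.1.1 i)) +
            ∑ j, c (r.2.2 j).2 (r.2.1 (r.2.2 j).1) = 0) := by
    rintro ⟨p, x⟩ ⟨hp, hxU, hxX⟩
    simp only at hp hxU hxX ⊢
    have hinj : cnt (fun r : (Equiv.Perm (Fin N) × (Fin N → Fin (e + 1))) × ((Fin N → V) × ((Fin N → V) × (Fin J → Fin N × V))) =>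
          PS c p 0 x + ∑ j, c (r.2.2.1 j) (x (r.1.2 j)) +
            ∑ i, c (r.2.1 i) (r.2.2.1 (r.1.1 i)) +
            ∑ j, c (r.2.2.2 j).2 (r.2.1 (r.2.2.2 j).1) = 0) ≤
        cnt (fun r : (Equiv.Perm (Fin N) × (Fin N → Fin (e + 1)) × (Fin N → V)) × (Fin N → V) × (Fin J → Fin N × V) =>
          p ∈ PT (Fin (e + 1)) 0 ∧
          PS c p 0 x + ∑ j, c (r.1.2.2 j) (x (r.1.2.1 j)) +
            ∑ i, c (r.2.1 i) (r.1.2.2 (r.1.1 i)) +
            ∑ j, c (r.2.2 j).2 (r.2.1 (r.2.2 j).1) = 0) := by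
      refine cnt_inj (fun r => ((r.1.1, r.1.2, r.2.2.1), r.2.1, r.2.2.2)) (fun r hr => ⟨hp, hr⟩) ?_
      rintro ⟨⟨σ, t⟩, y, z, s⟩ ⟨⟨σ', t'⟩, y', z', s'⟩ _ _ heq
      simp only [Prod.mk.injEq] at heq ⊢
      obtain ⟨⟨h1, h2, h3⟩, h4, h5⟩ := heq
      exact ⟨⟨h1, h2⟩, h4, h3, h5⟩
    refine le_trans ?_ (Nat.cast_le (α := ℝ).2 hinj)
    have hst : (cnt (fun _ : Equiv.Perm (Fin N) × (Fin N → Fin (e + 1)) => True) : ℝ) =
        (N.factorial : ℝ) * ((e + 1 : ℕ) : ℝ) ^ N := by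
      rw [cnt_eq_card, filter_true, card_univ, Fintype.card_prod, Fintype.card_perm, Fintype.card_fun,
        Fintype.card_fin, Fintype.card_fin]
      push_cast
      rfl
    rw [← hst]
    refine ch_nest _ (fun _ => True) _ fun st _ => ?_
    obtain ⟨σ, t⟩ := st
    simp only
    refine le_trans (mul_le_mul_of_nonneg_right hy (mul_nonneg (pow_nonneg (by positivity) _) hQ)) ?_
    refine ch_nest _ _ _ fun y hyy => ?_
    obtain ⟨hyU, hyQ⟩ := hyy
    have hz : ((4 / 5 * n) ^ N : ℝ) ≤ cnt (fun z : Fin N → V => ∀ k, c (x (t k)) (z k) ∈ X ∧ c (y (σ.symm k)) (z k) ∈ X) := by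
      refine ch_pi (fun k v => c (x (t k)) v ∈ X ∧ c (y (σ.symm k)) v ∈ X) _ (by positivity) fun k => ?_
      have h1 := hdeg _ (hxU (t k))
      have h2 := hdeg _ (hyU (σ.symm k))
      have h3 := ch_and (fun v => c (x (t k)) v ∈ X) (fun v => c (y (σ.symm k)) v ∈ X)
      rw [← hn] at h3
      linarith
    refine le_trans (mul_le_mul_of_nonneg_right hz hQ) ?_
    refine ch_nest _ _ _ fun z hzz => ?_
    simp only
    -- the last leaves
    have hcomp : (-(PS c p 0 x + ∑ j, c (z j) (x (t j)) + ∑ i, c (y i) (z (σ i)))) - J • x0 ∈ K := by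
      have k1 : PS c p 0 x - e • x0 ∈ K := by
        have hcd : (univ.erase (0 : Fin (e + 1))).card = e := by
          rw [card_erase_of_mem (mem_univ _), card_univ, Fintype.card_fin]
          rfl
        unfold PS
        have h1 := ch_sum_mem K x0 (univ.erase (0 : Fin (e + 1))) (fun w => c (x w) (x (p w)))
          fun w hw => hX _ (hxX w hw)
        rwa [hcd] at h1
      have k2 : ∑ j, c (z j) (x (t j)) - N • x0 ∈ K := by
        have h1 := ch_sum_mem K x0 (univ : Finset (Fin N)) (fun j => c (z j) (x (t j)))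
          fun j _ => hX _ (by rw [hc]; exact (hzz j).1)
        rwa [card_univ, Fintype.card_fin] at h1
      have k3 : ∑ i, c (y i) (z (σ i)) - N • x0 ∈ K := by
        have h1 := ch_sum_mem K x0 (univ : Finset (Fin N)) (fun i => c (y i) (z (σ i)))
          fun i _ => hX _ (by
            have := (hzz (σ i)).2
            rwa [Equiv.symm_apply_apply] at this)
        rwa [card_univ, Fintype.card_fin] at h1
      have k4 : (e + N + N + J) • x0 = 0 := by
        rw [hm, nsmul_eq_mul, ZMod.natCast_self, zero_mul]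
      have k5 := K.neg_mem (K.add_mem (K.add_mem k1 k2) k3)
      have k6 : (-(PS c p 0 x + ∑ j, c (z j) (x (t j)) + ∑ i, c (y i) (z (σ i)))) - J • x0 =
          -(PS c p 0 x - e • x0 + (∑ j, c (z j) (x (t j)) - N • x0) + (∑ i, c (y i) (z (σ i)) - N • x0)) -
            (e + N + N + J) • x0 := by
        rw [add_smul, add_smul, add_smul]
        abel
      rw [k6, k4, sub_zero]
      exact k5
    refine (hyQ _ hcomp).trans (Nat.cast_le.2 (cnt_mono fun s hs => ?_))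
    rw [hs]
    abel
  have hfinal := ch_nest (fun q : ((Fin (e + 1) → Fin (e + 1)) × (Fin (e + 1) → V)) ×
        ((Equiv.Perm (Fin N) × (Fin N → Fin (e + 1)) × (Fin N → V)) ×
          (Fin N → V) × (Fin J → Fin N × V)) =>
      q.1.1 ∈ PT (Fin (e + 1)) 0 ∧
      PS c q.1.1 0 q.1.2 + ∑ j, c (q.2.1.2.2 j) (q.1.2 (q.2.1.2.1 j)) +
        ∑ i, c (q.2.2.1 i) (q.2.1.2.2 (q.2.1.1 i)) +
        ∑ j, c (q.2.2.2 j).2 (q.2.2.1 (q.2.2.2 j).1) = 0) _ _ hB
  refine le_trans ?_ hfinal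
  have hpos : 0 ≤ (N.factorial : ℝ) * ((e + 1 : ℕ) : ℝ) ^ N * (ω * n ^ N * ((4 / 5 * n) ^ N * Q)) := by positivity
  refine le_trans (le_of_eq ?_) (mul_le_mul_of_nonneg_right hA hpos)
  ring

end Pool.Agent.ZT
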