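import Pool.Agent.ZT.Defs

/-! # ZC : the number of cheap trees compared with all trees -/

set_option autoImplicit false

open Finset

namespace Pool.Agent.ZT

theorem chnum_exp_le (t : ℝ) (h0 : 0 ≤ t) (h1 : t ≤ 1 / 2) : Real.exp (-(2 * t)) ≤ 1 - t := by
  have h2 : 1 + 2 * t ≤ Real.exp (2 * t) := by
    have := Real.add_one_le_exp (2 * t)
    linarith
  rw [Real.exp_neg]
  have h3 : (0 : ℝ) < 1 + 2 * t := by linarith
  calc (Real.exp (2 * t))⁻¹ ≤ (1 + 2 * t)⁻¹ := inv_anti₀ h3 h2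
    _ ≤ 1 - t := by
      rw [inv_le_iff_one_le_mul₀ h3]
      nlinarith

theorem chnum_fact (N : ℕ) : Real.exp (-(N : ℝ)) * (N : ℝ) ^ N ≤ (N.factorial : ℝ) := by
  have h := Real.pow_div_factorial_le_exp (N : ℝ) (Nat.cast_nonneg N) N
  have h1 : (0 : ℝ) < (N.factorial : ℝ) := by exact_mod_cast N.factorial_pos
  rw [div_le_iff₀ h1] at h
  rw [Real.exp_neg, inv_mul_le_iff₀ (Real.exp_pos _)]
  exact h

theorem chnum_exp8 : (2000 : ℝ) ≤ Real.exp 8 := by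
  have h : Real.exp 8 = Real.exp 1 ^ 8 := by
    rw [← Real.exp_nat_mul]
    norm_num
  rw [h]
  have h1 := Real.exp_one_gt_d9
  calc (2000 : ℝ) ≤ 2.7 ^ 8 := by norm_num
    _ ≤ Real.exp 1 ^ 8 := pow_le_pow_left₀ (by norm_num) (by linarith) 8

theorem chnum_ceil {m N : ℕ} (hm : 1000 ≤ m) (hN : N = ⌈(m : ℝ) / 1000⌉₊) :
    (m : ℝ) / 1000 ≤ N ∧ (N : ℝ) ≤ (m : ℝ) / 500 := by
  have h0 : (1000 : ℝ) ≤ m := by exact_mod_cast hm
  constructor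
  · rw [hN]
    exact Nat.le_ceil _
  · have := Nat.ceil_lt_add_one (show (0 : ℝ) ≤ (m : ℝ) / 1000 by positivity)
    rw [hN]
    linarith

/-- PROOF.  `m` large, `N = ⌈m/1000⌉ ≤ 1.05 m/1000`, `J ≤ N`, `e + 1 = m + 1 - (2N + J)`.  With
`x = (2N+J)/(m+1) ≤ 1/2` and `1 - x ≥ e^{-2x}`: `(e+1)^(e-1+N) ≥ (m+1)^(e-1+N) e^{-2(2N+J)}` (the exponent is
`≤ m + 1`), and `e^{-2(2N+J)} ≥ e^{-6N}`.  `N! ≥ (N/e)^N` (`Nat.factorial_lt`… or Mathlib's
`Real`-Stirling lower bounds; elementary: `e^N ≥ N^N/N!`).  As `(m+1)^(m-1) = (m+1)^(e-1+N) (m+1)^(N+J)`,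
the quotient is at least `e^{-6N} e^{-N} (N/(m+1))^(N+J) ≥ e^{-7N} (1/2000)^(2N) ≥ e^{-22.3 N} ≥ e^{-m/20}`. -/
theorem ch_num : ∃ m0 : ℕ, ∀ m ≥ m0, ∀ e N J : ℕ, e + N + N + J = m → N = ⌈(m : ℝ) / 1000⌉₊ → J ≤ N →
    Real.exp (-((m : ℝ) / 20)) * ((m + 1 : ℕ) : ℝ) ^ (m - 1) ≤
      ((e + 1 : ℕ) : ℝ) ^ (e - 1) * ((N.factorial : ℝ) * ((e + 1 : ℕ) : ℝ) ^ N) * (N : ℝ) ^ J := by
  refine ⟨1000, ?_⟩
  intro m hm e N J hsum hN hJ
  obtain ⟨hN1, hN2⟩ := chnum_ceil hm hN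
  have hm' : (1000 : ℝ) ≤ m := by exact_mod_cast hm
  have hJ' : (J : ℝ) ≤ N := by exact_mod_cast hJ
  have hsum' : (e : ℝ) + N + N + J = m := by exact_mod_cast hsum
  have hN0 : (1 : ℝ) ≤ N := by linarith
  have he : 1 ≤ e := by
    have : (1 : ℝ) ≤ e := by linarith
    exact_mod_cast this
  have hm1 : m - 1 = (e - 1 + N) + (N + J) := by omega
  set M : ℝ := ((m + 1 : ℕ) : ℝ) with hM
  set E : ℝ := ((e + 1 : ℕ) : ℝ) with hE
  have hM' : M = (m : ℝ) + 1 := by rw [hM]; push_cast; ring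
  have hE' : E = (e : ℝ) + 1 := by rw [hE]; push_cast; ring
  have hMpos : 0 < M := by rw [hM']; linarith
  have hEpos : 0 < E := by rw [hE']; positivity
  -- Claim A
  have hA : Real.exp (-(6 * (N : ℝ))) * M ^ (e - 1 + N) ≤ E ^ (e - 1 + N) := by
    have ht0 : 0 ≤ 3 * (N : ℝ) / M := by positivity
    have ht1 : 3 * (N : ℝ) / M ≤ 1 / 2 := by
      rw [div_le_iff₀ hMpos, hM']
      linarith
    have h1 := chnum_exp_le _ ht0 ht1
    have h2 : M * Real.exp (-(2 * (3 * (N : ℝ) / M))) ≤ E := by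
      calc M * Real.exp (-(2 * (3 * (N : ℝ) / M))) ≤ M * (1 - 3 * (N : ℝ) / M) :=
            mul_le_mul_of_nonneg_left h1 hMpos.le
        _ = M - 3 * N := by field_simp
        _ ≤ E := by rw [hM', hE']; linarith
    have h3 := pow_le_pow_left₀ (by positivity) h2 (e - 1 + N)
    refine le_trans ?_ h3
    rw [mul_pow, mul_comm, ← Real.exp_nat_mul]
    refine mul_le_mul_of_nonneg_left ?_ (by positivity)
    refine Real.exp_le_exp.mpr ?_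
    have h4 : ((e - 1 + N : ℕ) : ℝ) ≤ M := by
      have : e - 1 + N ≤ m + 1 := by omega
      rw [hM]
      exact_mod_cast this
    have h5 : ((e - 1 + N : ℕ) : ℝ) * (2 * (3 * (N : ℝ) / M)) ≤ 6 * N := by
      calc ((e - 1 + N : ℕ) : ℝ) * (2 * (3 * (N : ℝ) / M)) ≤ M * (2 * (3 * (N : ℝ) / M)) :=
            mul_le_mul_of_nonneg_right h4 (by positivity)
        _ = 6 * N := by field_simp; norm_num
    linarith
  -- Claim C
  have hC : Real.exp (-(16 * (N : ℝ))) * M ^ (N + J) ≤ (N : ℝ) ^ (N + J) := by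
    have h1 : M * Real.exp (-8) ≤ N := by
      rw [Real.exp_neg]
      rw [← div_eq_mul_inv, div_le_iff₀ (Real.exp_pos _)]
      have := chnum_exp8
      calc M ≤ (N : ℝ) * 2000 := by rw [hM']; linarith
        _ ≤ N * Real.exp 8 := mul_le_mul_of_nonneg_left this (by positivity)
    have h3 := pow_le_pow_left₀ (by positivity) h1 (N + J)
    refine le_trans ?_ h3
    rw [mul_pow, mul_comm, ← Real.exp_nat_mul]
    refine mul_le_mul_of_nonneg_left ?_ (by positivity)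
    refine Real.exp_le_exp.mpr ?_
    push_cast
    linarith
  have hB := chnum_fact N
  have hexp : Real.exp (-((m : ℝ) / 20)) ≤ Real.exp (-(6 * (N : ℝ))) * Real.exp (-(N : ℝ)) * Real.exp (-(16 * (N : ℝ))) := by
    rw [← Real.exp_add, ← Real.exp_add]
    refine Real.exp_le_exp.mpr ?_
    linarith
  calc Real.exp (-((m : ℝ) / 20)) * M ^ (m - 1)
      ≤ (Real.exp (-(6 * (N : ℝ))) * Real.exp (-(N : ℝ)) * Real.exp (-(16 * (N : ℝ)))) * M ^ (m - 1) :=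
        mul_le_mul_of_nonneg_right hexp (by positivity)
    _ = (Real.exp (-(6 * (N : ℝ))) * M ^ (e - 1 + N)) * (Real.exp (-(N : ℝ)) *
        (Real.exp (-(16 * (N : ℝ))) * M ^ (N + J))) := by
        rw [hm1, pow_add M (e - 1 + N) (N + J)]
        ring
    _ ≤ E ^ (e - 1 + N) * (Real.exp (-(N : ℝ)) * (N : ℝ) ^ (N + J)) := by
        refine mul_le_mul hA ?_ (by positivity) (by positivity)
        exact mul_le_mul_of_nonneg_left hC (Real.exp_pos _).le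
    _ = E ^ (e - 1 + N) * (Real.exp (-(N : ℝ)) * (N : ℝ) ^ N) * (N : ℝ) ^ J := by
        rw [pow_add (N : ℝ) N J]
        ring
    _ ≤ E ^ (e - 1 + N) * (N.factorial : ℝ) * (N : ℝ) ^ J := by
        refine mul_le_mul_of_nonneg_right ?_ (by positivity)
        exact mul_le_mul_of_nonneg_left hB (by positivity)
    _ = E ^ (e - 1) * ((N.factorial : ℝ) * E ^ N) * (N : ℝ) ^ J := by
        rw [pow_add E (e - 1) N]
        ring

/-- PROOF.  `ch_num` and `(9/10)^m (4/5)^N (9/10)^N e^{-m/20} e^{-m/50}/4 ≥ (3/5)^m` for large `m`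
(`log (9/10) ≥ -0.106`, `N log (0.72) ≥ -0.33 · 1.05 m/1000`, `log (3/5) ≤ -0.51`). -/
theorem ch_num2 : ∃ m0 : ℕ, ∀ m ≥ m0, ∀ e N J : ℕ, e + N + N + J = m → N = ⌈(m : ℝ) / 1000⌉₊ → J ≤ N →
    ∀ w : ℝ, Real.exp (-((m : ℝ) / 50)) ≤ w →
    (3 / 5) ^ m * ((m + 1 : ℕ) : ℝ) ^ (m - 1) ≤
      1 / 4 * ((9 / 10) ^ e * (4 / 5) ^ N * (9 / 10) ^ N * w) *
      (((e + 1 : ℕ) : ℝ) ^ (e - 1) * ((N.factorial : ℝ) * ((e + 1 : ℕ) : ℝ) ^ N) * (N : ℝ) ^ J) := by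
  obtain ⟨m0, h0⟩ := ch_num
  refine ⟨max m0 1000, ?_⟩
  intro m hm e N J hsum hN hJ w hw
  have hm1 : 1000 ≤ m := le_trans (le_max_right _ _) hm
  have h := h0 m (le_trans (le_max_left _ _) hm) e N J hsum hN hJ
  obtain ⟨hN1, hN2⟩ := chnum_ceil hm1 hN
  have hm' : (1000 : ℝ) ≤ m := by exact_mod_cast hm1
  have h4N : 4 * N ≤ m := by
    have : (4 : ℝ) * N ≤ m := by linarith
    exact_mod_cast this
  have hw0 : 0 < w := lt_of_lt_of_le (Real.exp_pos _) hw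
  set B : ℝ := ((e + 1 : ℕ) : ℝ) ^ (e - 1) * ((N.factorial : ℝ) * ((e + 1 : ℕ) : ℝ) ^ N) * (N : ℝ) ^ J with hB
  set M : ℝ := ((m + 1 : ℕ) : ℝ) ^ (m - 1) with hM
  have hM0 : 0 ≤ M := by positivity
  have hexp : (9 / 10 : ℝ) ^ m ≤ Real.exp (-((m : ℝ) / 20)) * w := by
    have h1 : (9 / 10 : ℝ) ≤ Real.exp (-(7 / 100 : ℝ)) := by
      have := Real.add_one_le_exp (-(7 / 100 : ℝ))
      linarith
    calc (9 / 10 : ℝ) ^ m ≤ Real.exp (-(7 / 100 : ℝ)) ^ m := pow_le_pow_left₀ (by norm_num) h1 m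
      _ = Real.exp (-((m : ℝ) / 20)) * Real.exp (-((m : ℝ) / 50)) := by
        rw [← Real.exp_nat_mul, ← Real.exp_add]
        congr 1
        ring
      _ ≤ Real.exp (-((m : ℝ) / 20)) * w := mul_le_mul_of_nonneg_left hw (Real.exp_pos _).le
  have hN3 : (9 / 10 : ℝ) ^ m ≤ (4 / 5) ^ N * (9 / 10) ^ N := by
    calc (9 / 10 : ℝ) ^ m ≤ (9 / 10) ^ (4 * N) := pow_le_pow_of_le_one (by norm_num) (by norm_num) h4N
      _ = ((9 / 10) ^ 4) ^ N := by rw [pow_mul]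
      _ ≤ (4 / 5 * (9 / 10)) ^ N := pow_le_pow_left₀ (by norm_num) (by norm_num) N
      _ = (4 / 5) ^ N * (9 / 10) ^ N := mul_pow _ _ _
  have he : (9 / 10 : ℝ) ^ m ≤ (9 / 10) ^ e := pow_le_pow_of_le_one (by norm_num) (by norm_num) (by omega)
  have h35 : (3 / 5 : ℝ) ^ m ≤ 1 / 4 * ((9 / 10) ^ m * (9 / 10) ^ m * (9 / 10) ^ m) := by
    obtain ⟨k, rfl⟩ : ∃ k, m = 8 + k := ⟨m - 8, by omega⟩
    rw [← mul_pow, ← mul_pow, pow_add, pow_add]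
    have h1 : (3 / 5 : ℝ) ^ k ≤ (9 / 10 * (9 / 10) * (9 / 10)) ^ k := pow_le_pow_left₀ (by norm_num) (by norm_num) k
    have h2 : (3 / 5 : ℝ) ^ 8 ≤ 1 / 4 * (9 / 10 * (9 / 10) * (9 / 10)) ^ 8 := by norm_num
    calc (3 / 5 : ℝ) ^ 8 * (3 / 5) ^ k ≤ (1 / 4 * (9 / 10 * (9 / 10) * (9 / 10)) ^ 8) * (9 / 10 * (9 / 10) * (9 / 10)) ^ k :=
          mul_le_mul h2 h1 (by positivity) (by positivity)
      _ = _ := by ring
  have h9 : (0 : ℝ) < (9 / 10) ^ m := by positivity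
  calc (3 / 5 : ℝ) ^ m * M ≤ (1 / 4 * ((9 / 10) ^ m * (9 / 10) ^ m * (9 / 10) ^ m)) * M :=
        mul_le_mul_of_nonneg_right h35 hM0
    _ ≤ (1 / 4 * ((9 / 10) ^ e * ((4 / 5) ^ N * (9 / 10) ^ N) * (Real.exp (-((m : ℝ) / 20)) * w))) * M := by
        refine mul_le_mul_of_nonneg_right ?_ hM0
        refine mul_le_mul_of_nonneg_left ?_ (by norm_num)
        refine mul_le_mul (mul_le_mul he hN3 h9.le (by positivity)) hexp h9.le (by positivity)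
    _ = 1 / 4 * ((9 / 10) ^ e * (4 / 5) ^ N * (9 / 10) ^ N * w) * (Real.exp (-((m : ℝ) / 20)) * M) := by ring
    _ ≤ 1 / 4 * ((9 / 10) ^ e * (4 / 5) ^ N * (9 / 10) ^ N * w) * B := by
        refine mul_le_mul_of_nonneg_left h (by positivity)

end Pool.Agent.ZT
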