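import Pool.Agent.ZC.CH
import Pool.Agent.ZC.CHNum

/-! # ZC : cheap trees, final form -/

set_option autoImplicit false

open Finset

namespace Pool.Agent.ZT

/-- The cheap lemma in final form.

PROOF.  `ch` with `h = 9/10`, `N = ⌈m/1000⌉`, `e = m - 2N - J`, `ω n^N = 1/2 |U|^N` (so
`ω = 1/2 (|U|/n)^N ≥ 1/2 (9/10)^N`; or use `ω = 1/2 (9/10)^N`), `Q = 1/2 w (N n)^J`; and `ch_num2`. -/
theorem ch_fin : ∃ m0 : ℕ, ∀ m ≥ m0, ∀ (V : Type) [Fintype V] (c : V → V → ZMod m),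
    (∀ x y, c x y = c y x) → ∀ (X : Set (ZMod m)) (K : AddSubgroup (ZMod m)) (x0 : ZMod m),
    (∀ a ∈ X, a - x0 ∈ K) → ∀ U : Finset V, 9 / 10 * (Fintype.card V : ℝ) ≤ U.card →
    (∀ x ∈ U, 9 / 10 * (Fintype.card V : ℝ) ≤ cnt (fun y : V => c x y ∈ X)) →
    9 / 10 * (Fintype.card V : ℝ) ^ 2 ≤ cnt (fun q : V × V => q.1 ∈ U ∧ q.2 ∈ U ∧ c q.1 q.2 ∈ X) →
    ∀ (N J : ℕ) (w : ℝ), N = ⌈(m : ℝ) / 1000⌉₊ → J ≤ N → Real.exp (-((m : ℝ) / 50)) ≤ w →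
    (1 / 2 * (U.card : ℝ) ^ N ≤ cnt (fun y : Fin N → V => (∀ i, y i ∈ U) ∧
      ∀ τ : ZMod m, τ - J • x0 ∈ K → 1 / 2 * w * ((N : ℝ) * Fintype.card V) ^ J ≤
        cnt (fun s : Fin J → Fin N × V => ∑ j, c (s j).2 (y (s j).1) = τ))) →
    (3 / 5) ^ m * ((m + 1 : ℕ) : ℝ) ^ (m - 1) * (Fintype.card V : ℝ) ^ (m + 1) ≤ NN c m 0 := by
  obtain ⟨m0, h0⟩ := ch_num2
  refine ⟨max m0 1000, ?_⟩
  intro m hm V _ c hc X K x0 hX U hU hdeg hden N J w hN hJ hw hy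
  have hm1 : 1000 ≤ m := le_trans (le_max_right _ _) hm
  have hm' : (1000 : ℝ) ≤ m := by exact_mod_cast hm1
  have hN2 : (N : ℝ) ≤ (m : ℝ) / 500 := by
    have := Nat.ceil_lt_add_one (show (0 : ℝ) ≤ (m : ℝ) / 1000 by positivity)
    rw [hN]
    linarith
  have h3N : N + N + J + 1 ≤ m := by
    have h1 : (J : ℝ) ≤ N := by exact_mod_cast hJ
    have h2 : (N : ℝ) + N + J + 1 ≤ m := by linarith
    exact_mod_cast h2
  obtain ⟨e, he⟩ : ∃ e, e + N + N + J = m := ⟨m - (N + N + J), by omega⟩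
  have he1 : 1 ≤ e := by omega
  have hnum := h0 m (le_trans (le_max_left _ _) hm) e N J he hN hJ w hw
  have hw0 : 0 < w := lt_of_lt_of_le (Real.exp_pos _) hw
  set n : ℝ := (Fintype.card V : ℝ) with hn
  have hn0 : 0 ≤ n := by rw [hn]; positivity
  have hU' : (9 / 10 * n) ^ N ≤ (U.card : ℝ) ^ N := pow_le_pow_left₀ (by positivity) hU N
  have hch := ch c hc X K x0 hX U hdeg (9 / 10) (by norm_num) hden e N J he1 he (1 / 2 * (9 / 10) ^ N)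
    (1 / 2 * w * ((N : ℝ) * n) ^ J) (by positivity) (by positivity) (by
      refine le_trans ?_ hy
      rw [mul_assoc, ← mul_pow]
      exact mul_le_mul_of_nonneg_left hU' (by norm_num))
  refine le_trans ?_ hch
  have hpow : n ^ (m + 1) = n ^ (e + 1) * n ^ N * n ^ N * n ^ J := by
    rw [← pow_add, ← pow_add, ← pow_add]
    congr 1
    omega
  rw [hpow]
  calc (3 / 5) ^ m * ((m + 1 : ℕ) : ℝ) ^ (m - 1) * (n ^ (e + 1) * n ^ N * n ^ N * n ^ J)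
      ≤ (1 / 4 * ((9 / 10) ^ e * (4 / 5) ^ N * (9 / 10) ^ N * w) *
        (((e + 1 : ℕ) : ℝ) ^ (e - 1) * ((N.factorial : ℝ) * ((e + 1 : ℕ) : ℝ) ^ N) * (N : ℝ) ^ J)) *
        (n ^ (e + 1) * n ^ N * n ^ N * n ^ J) := mul_le_mul_of_nonneg_right hnum (by positivity)
    _ = _ := by
      rw [mul_pow (4 / 5) n N, mul_pow (N : ℝ) n J]
      ring

end Pool.Agent.ZT
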