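import Pool.Agent.ZT.Defs

/-! # ZC : Chernoff bounds in counting form -/

set_option autoImplicit false

open Finset

namespace Pool.Agent.ZT

theorem chern_aux {X : Type} [Fintype X] (S0 : Finset X) (f : X → ℝ) (hf : ∀ x, 0 ≤ f x) (N : ℕ)
    (P : (Fin N → X) → Prop) (t : ℝ) (hP : ∀ y, P y → t ≤ ∏ i, f (y i)) :
    t * (cnt (fun y : Fin N → X => (∀ i, y i ∈ S0) ∧ P y) : ℝ) ≤ (∑ x ∈ S0, f x) ^ N := by
  classical
  have h1 : (∑ x ∈ S0, f x) ^ N = ∑ y ∈ Fintype.piFinset (fun _ : Fin N => S0), ∏ i, f (y i) := by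
    have h2 := Finset.prod_univ_sum (fun _ : Fin N => S0) (fun (_ : Fin N) (x : X) => f x)
    rw [← h2]
    simp
  rw [h1, cnt_eq_card, mul_comm, ← nsmul_eq_mul, ← Finset.sum_const]
  refine (Finset.sum_le_sum (g := fun y : Fin N → X => ∏ i, f (y i)) ?_).trans
    (Finset.sum_le_sum_of_subset_of_nonneg ?_ ?_)
  · intro y hy
    simp only [mem_filter, mem_univ, true_and] at hy
    exact hP y hy.2
  · intro y hy
    simp only [mem_filter, mem_univ, true_and] at hy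
    exact Fintype.mem_piFinset.2 hy.1
  · intro y _ _
    exact Finset.prod_nonneg fun i _ => hf _

theorem chern_conv_neg {t : ℝ} (h0 : 0 ≤ t) (h1 : t ≤ 1) :
    Real.exp (-(Real.log 2 * t)) ≤ 1 - t / 2 := by
  have h := convexOn_exp.2 (Set.mem_univ (0 : ℝ)) (Set.mem_univ (-Real.log 2))
    (by linarith : (0 : ℝ) ≤ 1 - t) h0 (by ring)
  simp only [smul_eq_mul, mul_zero, zero_add, Real.exp_zero, mul_one] at h
  rw [Real.exp_neg (Real.log 2), Real.exp_log (by norm_num : (0 : ℝ) < 2)] at h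
  rw [show -(Real.log 2 * t) = t * -Real.log 2 by ring]
  linarith

theorem chern_conv_pos {t : ℝ} (h0 : 0 ≤ t) (h1 : t ≤ 1) :
    Real.exp (Real.log 2 * t) ≤ 1 + t := by
  have h := convexOn_exp.2 (Set.mem_univ (0 : ℝ)) (Set.mem_univ (Real.log 2))
    (by linarith : (0 : ℝ) ≤ 1 - t) h0 (by ring)
  simp only [smul_eq_mul, mul_zero, zero_add, Real.exp_zero, mul_one] at h
  rw [Real.exp_log (by norm_num : (0 : ℝ) < 2)] at h
  rw [show Real.log 2 * t = t * Real.log 2 by ring]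
  linarith

/-- Lower tail.

PROOF.  `λ = log 2 / b`.  For `z ∈ [0, b]`: `e^{-λ z} ≤ 1 - z/(2b)` (convexity of the exponential function:
equality at `z = 0` and `z = b`).  So `∑_{x ∈ S0} e^{-λ g x} ≤ |S0| (1 - μ/(2b)) ≤ |S0| e^{-μ/(2b)}` and
`∑_{y ∈ S0^N} e^{-λ ∑ g (y i)} = (∑_{x ∈ S0} e^{-λ g x})^N ≤ |S0|^N e^{-Nμ/(2b)}`.  Every counted `y` has
`e^{-λ ∑ g} ≥ e^{-λ N μ/2} = e^{-(log 2) N μ/(2b)}`, hence the count is at most
`|S0|^N e^{-(1 - log 2) N μ/(2b)}`, and `1 - log 2 ≥ 1/4`. -/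
theorem chern_lower {X : Type} [Fintype X] (S0 : Finset X) (g : X → ℝ) (b μ : ℝ) (hb : 0 < b)
    (hμ : 0 ≤ μ) (h0 : ∀ x ∈ S0, 0 ≤ g x) (h1 : ∀ x ∈ S0, g x ≤ b)
    (hg : μ * S0.card ≤ ∑ x ∈ S0, g x) (N : ℕ) :
    (cnt (fun y : Fin N → X => (∀ i, y i ∈ S0) ∧ ∑ i, g (y i) ≤ N * μ / 2) : ℝ) ≤
      Real.exp (-(N * μ / (8 * b))) * (S0.card : ℝ) ^ N := by
  have hl1 : Real.log 2 < 0.6931471808 := Real.log_two_lt_d9
  have hl0 : 0 < Real.log 2 := Real.log_pos (by norm_num)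
  have key := chern_aux S0 (fun x => Real.exp (-(Real.log 2 * (g x / b))))
    (fun x => (Real.exp_pos _).le) N (fun y => ∑ i, g (y i) ≤ N * μ / 2)
    (Real.exp (-(Real.log 2 * (N * μ / (2 * b))))) (by
      intro y hy
      rw [← Real.exp_sum]
      apply Real.exp_le_exp.2
      rw [Finset.sum_neg_distrib, ← Finset.mul_sum, ← Finset.sum_div]
      apply neg_le_neg
      apply mul_le_mul_of_nonneg_left _ hl0.le
      rw [div_le_div_iff₀ hb (by positivity)]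
      nlinarith [mul_le_mul_of_nonneg_right hy hb.le])
  have hsum : ∑ x ∈ S0, Real.exp (-(Real.log 2 * (g x / b))) ≤
      (S0.card : ℝ) * Real.exp (-(μ / (2 * b))) := by
    have h2 : ∑ x ∈ S0, Real.exp (-(Real.log 2 * (g x / b))) ≤ ∑ x ∈ S0, (1 - g x / b / 2) := by
      refine Finset.sum_le_sum fun x hx => chern_conv_neg (div_nonneg (h0 x hx) hb.le) ?_
      rw [div_le_one hb]
      exact h1 x hx
    refine h2.trans ?_
    rw [Finset.sum_sub_distrib, ← Finset.sum_div, ← Finset.sum_div, Finset.sum_const, nsmul_eq_mul,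
      mul_one]
    have h3 : -(μ / (2 * b)) + 1 ≤ Real.exp (-(μ / (2 * b))) := Real.add_one_le_exp _
    have h4 := mul_le_mul_of_nonneg_left h3 (Nat.cast_nonneg (α := ℝ) S0.card)
    refine le_trans ?_ h4
    have h5 : μ * S0.card / b / 2 ≤ (∑ x ∈ S0, g x) / b / 2 := by gcongr
    have h6 : μ * S0.card / b / 2 = (S0.card : ℝ) * (μ / (2 * b)) := by field_simp
    linarith
  have hpos : 0 < Real.exp (-(Real.log 2 * (N * μ / (2 * b)))) := Real.exp_pos _
  have h7 : (∑ x ∈ S0, Real.exp (-(Real.log 2 * (g x / b)))) ^ N ≤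
      ((S0.card : ℝ) * Real.exp (-(μ / (2 * b)))) ^ N :=
    pow_le_pow_left₀ (Finset.sum_nonneg fun x _ => (Real.exp_pos _).le) hsum N
  have h8 := key.trans h7
  rw [mul_pow, ← Real.exp_nat_mul] at h8
  have h9 : Real.exp (-(Real.log 2 * (N * μ / (2 * b)))) *
      (cnt (fun y : Fin N → X => (∀ i, y i ∈ S0) ∧ ∑ i, g (y i) ≤ N * μ / 2) : ℝ) ≤
      Real.exp (-(Real.log 2 * (N * μ / (2 * b)))) *
        (Real.exp (-(N * μ / (8 * b))) * (S0.card : ℝ) ^ N) := by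
    refine h8.trans ?_
    rw [← mul_assoc, ← Real.exp_add, mul_comm]
    apply mul_le_mul_of_nonneg_right _ (by positivity)
    apply Real.exp_le_exp.2
    have h10 : 0 ≤ N * μ / b := by positivity
    have h11 : (N : ℝ) * -(μ / (2 * b)) = -(N * μ / b) / 2 := by field_simp
    have h12 : N * μ / (2 * b) = (N * μ / b) / 2 := by field_simp
    have h13 : N * μ / (8 * b) = (N * μ / b) / 8 := by field_simp
    rw [h11, h12, h13]
    nlinarith
  exact le_of_mul_le_mul_left h9 hpos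

/-- Upper tail.

PROOF.  `λ = log 2 / b`.  For `z ∈ [0, b]`: `e^{λ z} ≤ 1 + z/b` (convexity).  So
`∑_{x ∈ S0} e^{λ g x} ≤ |S0| (1 + μ/b) ≤ |S0| e^{μ/b}`; every counted `y` has
`e^{λ ∑ g} ≥ e^{2 λ N μ} = e^{(2 log 2) N μ/b}`; `2 log 2 - 1 ≥ 1/3`. -/
theorem chern_upper {X : Type} [Fintype X] (S0 : Finset X) (g : X → ℝ) (b μ : ℝ) (hb : 0 < b)
    (hμ : 0 ≤ μ) (h0 : ∀ x ∈ S0, 0 ≤ g x) (h1 : ∀ x ∈ S0, g x ≤ b)
    (hg : ∑ x ∈ S0, g x ≤ μ * S0.card) (N : ℕ) :
    (cnt (fun y : Fin N → X => (∀ i, y i ∈ S0) ∧ 2 * N * μ ≤ ∑ i, g (y i)) : ℝ) ≤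
      Real.exp (-(N * μ / (3 * b))) * (S0.card : ℝ) ^ N := by
  have hl1 : 0.6931471803 < Real.log 2 := Real.log_two_gt_d9
  have hl0 : 0 < Real.log 2 := Real.log_pos (by norm_num)
  have key := chern_aux S0 (fun x => Real.exp (Real.log 2 * (g x / b)))
    (fun x => (Real.exp_pos _).le) N (fun y => 2 * N * μ ≤ ∑ i, g (y i))
    (Real.exp (Real.log 2 * (2 * N * μ / b))) (by
      intro y hy
      rw [← Real.exp_sum]
      apply Real.exp_le_exp.2
      rw [← Finset.mul_sum, ← Finset.sum_div]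
      apply mul_le_mul_of_nonneg_left _ hl0.le
      exact div_le_div_of_nonneg_right hy hb.le)
  have hsum : ∑ x ∈ S0, Real.exp (Real.log 2 * (g x / b)) ≤
      (S0.card : ℝ) * Real.exp (μ / b) := by
    have h2 : ∑ x ∈ S0, Real.exp (Real.log 2 * (g x / b)) ≤ ∑ x ∈ S0, (1 + g x / b) := by
      refine Finset.sum_le_sum fun x hx => chern_conv_pos (div_nonneg (h0 x hx) hb.le) ?_
      rw [div_le_one hb]
      exact h1 x hx
    refine h2.trans ?_
    rw [Finset.sum_add_distrib, ← Finset.sum_div, Finset.sum_const, nsmul_eq_mul, mul_one]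
    have h3 : μ / b + 1 ≤ Real.exp (μ / b) := Real.add_one_le_exp _
    have h4 := mul_le_mul_of_nonneg_left h3 (Nat.cast_nonneg (α := ℝ) S0.card)
    refine le_trans ?_ h4
    have h5 : (∑ x ∈ S0, g x) / b ≤ μ * S0.card / b := by gcongr
    have h6 : μ * S0.card / b = (S0.card : ℝ) * (μ / b) := by ring
    linarith
  have hpos : 0 < Real.exp (Real.log 2 * (2 * N * μ / b)) := Real.exp_pos _
  have h7 : (∑ x ∈ S0, Real.exp (Real.log 2 * (g x / b))) ^ N ≤
      ((S0.card : ℝ) * Real.exp (μ / b)) ^ N :=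
    pow_le_pow_left₀ (Finset.sum_nonneg fun x _ => (Real.exp_pos _).le) hsum N
  have h8 := key.trans h7
  rw [mul_pow, ← Real.exp_nat_mul] at h8
  have h9 : Real.exp (Real.log 2 * (2 * N * μ / b)) *
      (cnt (fun y : Fin N → X => (∀ i, y i ∈ S0) ∧ 2 * N * μ ≤ ∑ i, g (y i)) : ℝ) ≤
      Real.exp (Real.log 2 * (2 * N * μ / b)) *
        (Real.exp (-(N * μ / (3 * b))) * (S0.card : ℝ) ^ N) := by
    refine h8.trans ?_
    rw [← mul_assoc, ← Real.exp_add, mul_comm]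
    apply mul_le_mul_of_nonneg_right _ (by positivity)
    apply Real.exp_le_exp.2
    have h10 : 0 ≤ N * μ / b := by positivity
    have h11 : (N : ℝ) * (μ / b) = N * μ / b := by ring
    have h12 : 2 * N * μ / b = 2 * (N * μ / b) := by ring
    have h13 : N * μ / (3 * b) = (N * μ / b) / 3 := by field_simp
    rw [h11, h12, h13]
    nlinarith
  exact le_of_mul_le_mul_left h9 hpos

end Pool.Agent.ZT
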