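import Pool.Agent.ZC.KMin

/-! # ZC : the cleaned set of vertices -/

set_option autoImplicit false

open Finset

namespace Pool.Agent.ZT

/-- union bound -/
theorem clean_or {S : Type} [Fintype S] {P Q R : S → Prop} (h : ∀ s, P s → Q s ∨ R s) :
    (cnt P : ℝ) ≤ cnt Q + cnt R := by
  classical
  have h1 : cnt P ≤ cnt Q + cnt R := by
    rw [cnt_eq_card, cnt_eq_card, cnt_eq_card]
    refine (card_le_card fun s hs => ?_).trans (card_union_le _ _)
    simp only [mem_filter, mem_univ, true_and, mem_union] at hs ⊢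
    exact h s hs
  exact_mod_cast h1

/-- the number of elements outside of `U` -/
theorem clean_compl {V : Type} [Fintype V] (U : Finset V) :
    (cnt (fun x : V => x ∉ U) : ℝ) = (Fintype.card V : ℝ) - U.card := by
  classical
  rw [cnt_eq_card]
  have h1 : univ.filter (fun x : V => x ∉ U) = Uᶜ := by
    ext x
    simp
  rw [h1, card_compl, Nat.cast_sub (card_le_univ U)]

/-- pairs with one entry outside of `U` -/
theorem clean_fst {V : Type} [Fintype V] (U : Finset V) :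
    (cnt (fun q : V × V => q.1 ∉ U) : ℝ) =
      ((Fintype.card V : ℝ) - U.card) * Fintype.card V := by
  have h1 : cnt (fun q : V × V => q.1 ∉ U) = cnt (fun q : V × V => q.1 ∉ U ∧ True) :=
    cnt_congr fun q => by simp
  have h2 : cnt (fun _ : V => True) = Fintype.card V := by
    classical
    rw [cnt_eq_card, filter_true_of_mem (fun _ _ => trivial), card_univ]
  rw [h1, cnt_prod (fun x : V => x ∉ U) (fun _ : V => True), Nat.cast_mul, clean_compl, h2]

/-- pairs with one entry outside of `U` -/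
theorem clean_snd {V : Type} [Fintype V] (U : Finset V) :
    (cnt (fun q : V × V => q.2 ∉ U) : ℝ) ≤
      ((Fintype.card V : ℝ) - U.card) * Fintype.card V := by
  rw [← clean_fst]
  have h1 : cnt (fun q : V × V => q.2 ∉ U) ≤ cnt (fun q : V × V => q.1 ∉ U) :=
    cnt_inj (Q := fun q : V × V => q.1 ∉ U) Prod.swap (fun q hq => hq) fun q r _ _ h =>
      Prod.swap_injective h
  exact_mod_cast h1

/-- sum over the vertices outside of `U` -/
theorem clean_fiber {V : Type} [Fintype V] (U : Finset V) (E : V → V → Prop) (t : ℝ)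
    (h : ∀ x, x ∉ U → t ≤ (cnt (fun y => E x y) : ℝ)) :
    ((Fintype.card V : ℝ) - U.card) * t ≤ cnt (fun q : V × V => E q.1 q.2) := by
  classical
  have h1 : (cnt (fun q : V × V => E q.1 q.2) : ℝ) = ∑ x, (cnt (fun y => E x y) : ℝ) := by
    simp only [cnt_eq_sum]
    rw [Fintype.sum_prod_type]
  have h2 : ∑ x ∈ Uᶜ, (cnt (fun y => E x y) : ℝ) ≤ ∑ x, (cnt (fun y => E x y) : ℝ) :=
    sum_le_univ_sum_of_nonneg fun x => Nat.cast_nonneg _
  have h3 : ∑ x ∈ Uᶜ, t ≤ ∑ x ∈ Uᶜ, (cnt (fun y => E x y) : ℝ) :=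
    sum_le_sum fun x hx => h x (mem_compl.1 hx)
  rw [sum_const, nsmul_eq_mul, card_compl, Nat.cast_sub (card_le_univ U)] at h3
  rw [h1]
  exact h3.trans h2

/-- The cleaned set `U`: most vertices, and everything that is needed in the light case is visible from `U`.

PROOF.  Let `n = card V`, `k = |K| ≥ R0`, `N0 = cnt (¬ c - x0 ∈ K) ≤ (B/k) n^2`, `v = n - |U|`.  Every
`x ∉ U` has more than `ρ n` partners `y` with `¬ c x y - x0 ∈ K`, so `v ρ n ≤ N0` and `v ≤ (B/(ρ k)) n`.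
* (1) is this with `k ≥ R0`.
* (2) Let `P x y` be: `c y x - x0 ∈ K` and not `c y x - z ∈ H` (symmetric by `hc`).
  `cnt P ≥ cnt (¬ c - z ∈ H) - N0 ≥ (B/|H| - B/k) n^2 ≥ (B/(2|H|)) n^2` (`k ≥ 2|H|`, `subgr_index`) and
  `v^2 ≤ (B/(ρk))^2 n^2 ≤ (B/(4|H|)) n^2` because `4 B |H| ≤ 2 B k ≤ ρ^2 R0 k ≤ ρ^2 k^2`; `pair_loss`.
* (3) remove from the light pairs those with `x ∉ U` (at most `v n`) and those with `¬ c - x0 ∈ K`.
* (4) the pairs not counted: `¬ c - x0 ∈ K`, or `x ∉ U`, or `y ∉ U`. -/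
theorem clean {m : ℕ} [NeZero m] {V : Type} [Fintype V] (c : V → V → ZMod m)
    (hc : ∀ x y, c x y = c y x) (B ρ : ℝ) (hB : 0 < B) (hρ : 0 < ρ) (hρ1 : ρ ≤ 1) (R0 : ℕ)
    (K : AddSubgroup (ZMod m)) (x0 : ZMod m) (hK : R0 ≤ Nat.card K)
    (hN : (cnt (fun q : V × V => ¬ (c q.1 q.2 - x0 ∈ K)) : ℝ) ≤
        B / Nat.card K * (Fintype.card V : ℝ) ^ 2)
    (hmin : ∀ H : AddSubgroup (ZMod m), H < K → R0 ≤ Nat.card H → ∀ z : ZMod m,
        B / Nat.card H * (Fintype.card V : ℝ) ^ 2 < cnt (fun q : V × V => ¬ (c q.1 q.2 - z ∈ H)))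
    (hR1 : 2 * B ≤ ρ ^ 2 * R0) (hR0 : 1 ≤ R0) (U : Finset V)
    (hU : ∀ x : V, x ∉ U → ρ * (Fintype.card V : ℝ) < cnt (fun y : V => ¬ (c x y - x0 ∈ K))) :
    (1 - B / (ρ * R0)) * (Fintype.card V : ℝ) ≤ U.card ∧
    (∀ H : AddSubgroup (ZMod m), H < K → R0 ≤ Nat.card H → ∀ z : ZMod m,
      B / (8 * Nat.card H) * (Fintype.card V : ℝ) ^ 2 ≤
        cnt (fun q : V × V => q.1 ∈ U ∧ c q.2 q.1 - x0 ∈ K ∧ ¬ (c q.2 q.1 - z ∈ H))) ∧
    (∀ (L : Finset (ZMod m)) (ρ1 : ℝ), 2 * B / (ρ * R0) ≤ ρ1 / 2 →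
      ρ1 * (Fintype.card V : ℝ) ^ 2 ≤ cnt (fun q : V × V => c q.1 q.2 ∈ L) →
      ρ1 / 2 * (Fintype.card V : ℝ) ^ 2 ≤
        cnt (fun q : V × V => q.1 ∈ U ∧ c q.2 q.1 ∈ L ∧ c q.2 q.1 - x0 ∈ K)) ∧
    (1 - 3 * B / (ρ * R0)) * (Fintype.card V : ℝ) ^ 2 ≤
      cnt (fun q : V × V => q.1 ∈ U ∧ q.2 ∈ U ∧ c q.1 q.2 - x0 ∈ K) := by
  classical
  set n : ℝ := (Fintype.card V : ℝ) with hn
  set k : ℝ := (Nat.card K : ℝ) with hk
  set v : ℝ := n - U.card with hv
  set N0 : ℝ := (cnt (fun q : V × V => ¬ (c q.1 q.2 - x0 ∈ K)) : ℝ) with hN0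
  have hR0r : (1 : ℝ) ≤ (R0 : ℝ) := by exact_mod_cast hR0
  have hkR : (R0 : ℝ) ≤ k := by
    rw [hk]
    exact_mod_cast hK
  have hkpos : 0 < k := by linarith
  have hn0 : 0 ≤ n := Nat.cast_nonneg _
  have hv0 : 0 ≤ v := by
    rw [hv, sub_nonneg, hn]
    exact_mod_cast card_le_univ U
  -- v ρ n ≤ N0
  have hvN : v * (ρ * n) ≤ N0 := clean_fiber U (fun x y => ¬ (c x y - x0 ∈ K)) (ρ * n)
    fun x hx => (hU x hx).le
  -- v ≤ B / (ρ k) n
  have hvk : v ≤ B / (ρ * k) * n := by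
    rcases hn0.eq_or_lt with h0 | h0
    · have : v = 0 := by
        have h1 : v ≤ 0 := by
          rw [hv, ← h0]
          have : (0 : ℝ) ≤ (U.card : ℝ) := Nat.cast_nonneg _
          linarith
        exact le_antisymm h1 hv0
      rw [this, ← h0, mul_zero]
    · have h1 : v * (ρ * n) ≤ B / k * n ^ 2 := hvN.trans hN
      have h2 : v * ρ ≤ B / k * n := by
        have : (v * ρ) * n ≤ (B / k * n) * n := by nlinarith
        exact le_of_mul_le_mul_right this h0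
      have h3 : B / (ρ * k) * n = (B / k * n) / ρ := by
        field_simp
      rw [h3, le_div_iff₀ hρ]
      exact h2
  have hBk : B / (ρ * k) ≤ B / (ρ * R0) := by
    apply div_le_div_of_nonneg_left hB.le (by positivity)
    exact mul_le_mul_of_nonneg_left hkR hρ.le
  have hvR : v ≤ B / (ρ * R0) * n := hvk.trans (mul_le_mul_of_nonneg_right hBk hn0)
  have hBkR : B / k ≤ B / (ρ * R0) := by
    apply div_le_div_of_nonneg_left hB.le (by positivity)
    nlinarith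
  have hNR : N0 ≤ B / (ρ * R0) * n ^ 2 :=
    hN.trans (mul_le_mul_of_nonneg_right hBkR (sq_nonneg n))
  have hvn : v * n ≤ B / (ρ * R0) * n ^ 2 := by
    have := mul_le_mul_of_nonneg_right hvR hn0
    calc v * n ≤ B / (ρ * R0) * n * n := this
      _ = _ := by ring
  refine ⟨?_, ?_, ?_, ?_⟩
  · have : (U.card : ℝ) = n - v := by rw [hv]; ring
    rw [this]
    linarith
  · intro H hH hHR z
    obtain ⟨j, hj, hkj⟩ := subgr_index H K hH
    set d : ℝ := (Nat.card H : ℝ) with hd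
    have hdR : (R0 : ℝ) ≤ d := by
      rw [hd]
      exact_mod_cast hHR
    have hd0 : 0 < d := by linarith
    have hk2 : 2 * d ≤ k := by
      rw [hk, hkj, Nat.cast_mul, hd]
      have : (2 : ℝ) ≤ (j : ℝ) := by exact_mod_cast hj
      exact mul_le_mul_of_nonneg_right this (Nat.cast_nonneg _)
    have h1 := hmin H hH hHR z
    have h2 : (cnt (fun q : V × V => ¬ (c q.1 q.2 - z ∈ H)) : ℝ) ≤
        cnt (fun q : V × V => c q.2 q.1 - x0 ∈ K ∧ ¬ (c q.2 q.1 - z ∈ H)) + N0 := by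
      refine clean_or fun q hq => ?_
      by_cases hx : c q.1 q.2 - x0 ∈ K
      · left
        rw [hc q.2 q.1]
        exact ⟨hx, hq⟩
      · exact Or.inr hx
    have h3 := pair_loss U (fun x y => c y x - x0 ∈ K ∧ ¬ (c y x - z ∈ H)) (fun x y => by
      rw [hc y x])
    have h4 : v ^ 2 ≤ B / (4 * d) * n ^ 2 := by
      have h5 : v ^ 2 ≤ (B / (ρ * k) * n) ^ 2 := pow_le_pow_left₀ hv0 hvk 2
      refine h5.trans ?_
      rw [mul_pow]
      refine mul_le_mul_of_nonneg_right ?_ (sq_nonneg n)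
      rw [div_pow, div_le_div_iff₀ (by positivity) (by positivity)]
      have h6 : 4 * B * d ≤ ρ ^ 2 * k ^ 2 := by
        calc 4 * B * d = 2 * B * (2 * d) := by ring
          _ ≤ 2 * B * k := mul_le_mul_of_nonneg_left hk2 (by positivity)
          _ ≤ ρ ^ 2 * R0 * k := mul_le_mul_of_nonneg_right hR1 hkpos.le
          _ ≤ ρ ^ 2 * k * k := by gcongr
          _ = _ := by ring
      calc B ^ 2 * (4 * d) = B * (4 * B * d) := by ring
        _ ≤ B * (ρ ^ 2 * k ^ 2) := mul_le_mul_of_nonneg_left h6 hB.le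
        _ = B * (ρ * k) ^ 2 := by ring
    have h7 : B / k ≤ B / (2 * d) := by
      apply div_le_div_of_nonneg_left hB.le (by positivity) hk2
    have h8 : B / k * n ^ 2 ≤ B / (2 * d) * n ^ 2 := mul_le_mul_of_nonneg_right h7 (sq_nonneg n)
    have e1 : B / d * n ^ 2 = 8 * (B / (8 * d) * n ^ 2) := by
      field_simp
    have e2 : B / (2 * d) * n ^ 2 = 4 * (B / (8 * d) * n ^ 2) := by
      field_simp
      ring
    have e3 : B / (4 * d) * n ^ 2 = 2 * (B / (8 * d) * n ^ 2) := by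
      field_simp
      ring
    have h9 : (cnt (fun q : V × V => c q.2 q.1 - x0 ∈ K ∧ ¬ (c q.2 q.1 - z ∈ H)) : ℝ) ≤
        2 * cnt (fun q : V × V => q.1 ∈ U ∧ c q.2 q.1 - x0 ∈ K ∧ ¬ (c q.2 q.1 - z ∈ H)) +
          v ^ 2 := h3
    rw [e1] at h1
    rw [e2] at h8
    rw [e3] at h4
    linarith
  · intro L ρ1 hρ1 hL
    have h1 : (cnt (fun q : V × V => c q.1 q.2 ∈ L) : ℝ) ≤
        cnt (fun q : V × V => q.1 ∈ U ∧ c q.2 q.1 ∈ L ∧ c q.2 q.1 - x0 ∈ K) +
        cnt (fun q : V × V => q.1 ∉ U ∨ ¬ (c q.1 q.2 - x0 ∈ K)) := by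
      refine clean_or fun q hq => ?_
      by_cases h1 : q.1 ∈ U
      · by_cases h2 : c q.1 q.2 - x0 ∈ K
        · left
          rw [hc q.2 q.1]
          exact ⟨h1, hq, h2⟩
        · exact Or.inr (Or.inr h2)
      · exact Or.inr (Or.inl h1)
    have h2 : (cnt (fun q : V × V => q.1 ∉ U ∨ ¬ (c q.1 q.2 - x0 ∈ K)) : ℝ) ≤
        cnt (fun q : V × V => q.1 ∉ U) + N0 := clean_or fun q hq => hq
    rw [clean_fst] at h2
    have h3 : 2 * B / (ρ * R0) * n ^ 2 ≤ ρ1 / 2 * n ^ 2 :=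
      mul_le_mul_of_nonneg_right hρ1 (sq_nonneg n)
    have e1 : 2 * B / (ρ * R0) * n ^ 2 = 2 * (B / (ρ * R0) * n ^ 2) := by ring
    rw [e1] at h3
    have h4 : v * n = ((Fintype.card V : ℝ) - U.card) * Fintype.card V := rfl
    rw [← h4] at h2
    linarith
  · have h0 : (cnt (fun _ : V × V => True) : ℝ) = n ^ 2 := by
      rw [cnt_eq_card, filter_true_of_mem (fun _ _ => trivial), card_univ, Fintype.card_prod,
        Nat.cast_mul, pow_two]
    have h1 : (cnt (fun _ : V × V => True) : ℝ) ≤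
        cnt (fun q : V × V => q.1 ∈ U ∧ q.2 ∈ U ∧ c q.1 q.2 - x0 ∈ K) +
        cnt (fun q : V × V => q.1 ∉ U ∨ (q.2 ∉ U ∨ ¬ (c q.1 q.2 - x0 ∈ K))) := by
      refine clean_or fun q _ => ?_
      by_cases h1 : q.1 ∈ U
      · by_cases h2 : q.2 ∈ U
        · by_cases h3 : c q.1 q.2 - x0 ∈ K
          · exact Or.inl ⟨h1, h2, h3⟩
          · exact Or.inr (Or.inr (Or.inr h3))
        · exact Or.inr (Or.inr (Or.inl h2))
      · exact Or.inr (Or.inl h1)
    have h2 : (cnt (fun q : V × V => q.1 ∉ U ∨ (q.2 ∉ U ∨ ¬ (c q.1 q.2 - x0 ∈ K))) : ℝ) ≤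
        cnt (fun q : V × V => q.1 ∉ U) +
        cnt (fun q : V × V => q.2 ∉ U ∨ ¬ (c q.1 q.2 - x0 ∈ K)) := clean_or fun q hq => hq
    have h3 : (cnt (fun q : V × V => q.2 ∉ U ∨ ¬ (c q.1 q.2 - x0 ∈ K)) : ℝ) ≤
        cnt (fun q : V × V => q.2 ∉ U) + N0 := clean_or fun q hq => hq
    have h5 := clean_snd U
    rw [clean_fst] at h2
    have h4 : v * n = ((Fintype.card V : ℝ) - U.card) * Fintype.card V := rfl
    rw [← h4] at h2 h5
    rw [h0] at h1
    have e1 : (1 - 3 * B / (ρ * R0)) * n ^ 2 = n ^ 2 - 3 * (B / (ρ * R0) * n ^ 2) := by ring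
    rw [e1]
    linarith

end Pool.Agent.ZT
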