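import Pool.Agent.ZT.Glue

/-! # ZC : gadgets for colourings by residues -/

set_option autoImplicit false

open Finset

namespace Pool.Agent.ZT

/-- Stars: `ν` leaves of colour `x` at a vertex `z` with many `x`-partners.

PROOF.  Induction on `ν` with `glue` (`e1 = ν`, `e2 = 0`, `Y = {w | c w z = x}`, `g2 = 0`, `rr_zero`); every
step costs the factor `ν + 1 ≤ m`.  (Compare `star`, `blocks_glue` in ZT/Gadget.lean, ZT/Hub.lean.) -/
theorem gstar {V G : Type} [Fintype V] [AddCommMonoid G] (c : V → V → G) (z : V) (ν m : ℕ) (x : G)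
    (β : ℝ) (hβ0 : 0 ≤ β) (hβ : β * (Fintype.card V : ℝ) ≤ cnt (fun w : V => c w z = x))
    (hm : ν ≤ m) : (β / m) ^ ν ≤ rr c ν z (ν • x) := by
  classical
  have hn : (0 : ℝ) < Fintype.card V := by
    have : 0 < Fintype.card V := Fintype.card_pos_iff.2 ⟨z⟩
    exact_mod_cast this
  induction ν with
  | zero =>
    rw [pow_zero, zero_smul, rr_zero]
  | succ ν ih =>
    have h1 := ih (by omega)
    have h2 := glue c ν 0 z (ν • x) ((ν + 1) • x) (univ.filter (fun w => c w z = x)) (fun _ => 0) (by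
      intro w hw
      simp only [mem_filter, mem_univ, true_and] at hw
      rw [hw, zero_add, succ_nsmul])
    simp only [rr_zero] at h2
    rw [sum_const, nsmul_eq_mul, mul_one, ← cnt_eq_card] at h2
    have h3 := rr_nonneg c (ν + 1) z ((ν + 1) • x)
    have hm0 : (0 : ℝ) < m := by
      have : 0 < m := by omega
      exact_mod_cast this
    have h4 : (ν : ℝ) + ((0 : ℕ) : ℝ) + 1 ≤ m := by
      have : ν + 0 + 1 ≤ m := by omega
      exact_mod_cast this
    have h5 : (β / m) ^ ν * (β * (Fintype.card V : ℝ)) ≤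
        (m : ℝ) * (Fintype.card V : ℝ) * rr c (ν + 1) z ((ν + 1) • x) := by
      refine (mul_le_mul h1 hβ (by positivity) (rr_nonneg c ν z (ν • x))).trans (h2.trans ?_)
      have e1 : ν + 0 + 1 = ν + 1 := by omega
      rw [e1]
      gcongr
    have h6 : (β / m) ^ (ν + 1) * ((m : ℝ) * (Fintype.card V : ℝ)) =
        (β / m) ^ ν * (β * (Fintype.card V : ℝ)) := by
      rw [pow_succ]
      field_simp
    have h7 : (β / m) ^ (ν + 1) * ((m : ℝ) * (Fintype.card V : ℝ)) ≤
        rr c (ν + 1) z ((ν + 1) • x) * ((m : ℝ) * (Fintype.card V : ℝ)) := by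
      rw [h6]
      linarith
    exact le_of_mul_le_mul_right h7 (by positivity)

/-- pigeonhole for pairs of colours -/
theorem ggad_pigeon {S G : Type} [Fintype S] [DecidableEq G] (P : S → Prop) (f g : S → G) (F : Finset G)
    (k : ℕ) (hk : F.card ≤ k) (hF : F.Nonempty) (hf : ∀ s, P s → f s ∈ F) (hg : ∀ s, P s → g s ∈ F) :
    ∃ u1 ∈ F, ∃ u2 ∈ F,
      (cnt P : ℝ) ≤ (k : ℝ) ^ 2 * cnt (fun s => P s ∧ f s = u1 ∧ g s = u2) := by
  classical
  have hTne : (F ×ˢ F).Nonempty := hF.product hF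
  have hsum : (cnt P : ℝ) = ∑ t ∈ F ×ˢ F, (cnt (fun s => P s ∧ f s = t.1 ∧ g s = t.2) : ℝ) := by
    rw [cnt_eq_card, card_eq_sum_card_fiberwise (f := fun s => (f s, g s)) (t := F ×ˢ F)]
    · push_cast
      refine sum_congr rfl fun t _ => ?_
      rw [cnt_eq_card]
      congr 2
      ext s
      simp only [mem_filter, mem_univ, true_and, Prod.ext_iff]
    · intro s hs
      simp only [coe_filter, mem_univ, true_and, Set.mem_ofPred_eq] at hs
      simp only [coe_product, Set.mem_prod, mem_coe]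
      exact ⟨hf s hs, hg s hs⟩
  obtain ⟨t, ht, hmax⟩ := exists_max_image (F ×ˢ F)
    (fun t => (cnt (fun s => P s ∧ f s = t.1 ∧ g s = t.2) : ℝ)) hTne
  rw [mem_product] at ht
  refine ⟨t.1, ht.1, t.2, ht.2, ?_⟩
  have h1 : (cnt P : ℝ) ≤ ((F ×ˢ F).card : ℝ) * cnt (fun s => P s ∧ f s = t.1 ∧ g s = t.2) := by
    rw [hsum, ← nsmul_eq_mul]
    exact sum_le_card_nsmul (F ×ˢ F) _ _ hmax
  refine h1.trans ?_
  rw [card_product]
  push_cast
  have h2 : (F.card : ℝ) ≤ k := by exact_mod_cast hk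
  have h3 : (F.card : ℝ) * F.card ≤ (k : ℝ) ^ 2 := by
    rw [sq]
    gcongr
  gcongr

/-- rich vertices -/
theorem ggad_rich {V G : Type} [Fintype V] (c : V → V → G) (U : Finset V) (x : G) (κ : ℝ) (hκ0 : 0 < κ)
    (hκ : κ * (Fintype.card V : ℝ) ^ 2 ≤ cnt (fun q : V × V => q.1 ∈ U ∧ q.2 ∈ U ∧ c q.1 q.2 = x)) :
    κ / 2 * (Fintype.card V : ℝ) ≤
      cnt (fun z : V => z ∈ U ∧ κ / 2 * (Fintype.card V : ℝ) ≤ cnt (fun w : V => c w z = x)) := by
  classical
  set n : ℝ := (Fintype.card V : ℝ) with hn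
  have hn0 : 0 ≤ n := Nat.cast_nonneg _
  have hsum : (cnt (fun q : V × V => q.1 ∈ U ∧ q.2 ∈ U ∧ c q.1 q.2 = x) : ℝ) =
      ∑ z : V, (cnt (fun w : V => w ∈ U ∧ z ∈ U ∧ c w z = x) : ℝ) := by
    rw [cnt_eq_sum, Fintype.sum_prod_type_right]
    refine sum_congr rfl fun z _ => ?_
    rw [cnt_eq_sum]
  have hle : ∀ z : V, (cnt (fun w : V => w ∈ U ∧ z ∈ U ∧ c w z = x) : ℝ) ≤ κ / 2 * n +
      n * (if z ∈ U ∧ κ / 2 * n ≤ cnt (fun w : V => c w z = x) then (1 : ℝ) else 0) := by
    intro z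
    have h3 : 0 ≤ κ / 2 * n := by positivity
    have h1 : (cnt (fun w : V => w ∈ U ∧ z ∈ U ∧ c w z = x) : ℝ) ≤ cnt (fun w : V => c w z = x) := by
      have h0 : cnt (fun w : V => w ∈ U ∧ z ∈ U ∧ c w z = x) ≤ cnt (fun w : V => c w z = x) :=
        cnt_mono fun w hw => hw.2.2
      exact_mod_cast h0
    have h2 : (cnt (fun w : V => c w z = x) : ℝ) ≤ n := by
      rw [hn]
      exact_mod_cast cnt_le_card _
    split_ifs with h
    · linarith
    · rw [mul_zero, add_zero]
      by_cases hz : z ∈ U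
      · have h4 : ¬ κ / 2 * n ≤ cnt (fun w : V => c w z = x) := fun h5 => h ⟨hz, h5⟩
        linarith [not_le.1 h4]
      · have h5 : cnt (fun w : V => w ∈ U ∧ z ∈ U ∧ c w z = x) = 0 := by
          rw [cnt_eq_card, card_eq_zero, filter_eq_empty_iff]
          intro w _ hw
          exact hz hw.2.1
        rw [h5]
        simpa using h3
  have h4 : κ * n ^ 2 ≤ n * (κ / 2 * n) + n * cnt (fun z : V =>
      z ∈ U ∧ κ / 2 * n ≤ cnt (fun w : V => c w z = x)) := by
    calc κ * n ^ 2 ≤ ∑ z : V, (cnt (fun w : V => w ∈ U ∧ z ∈ U ∧ c w z = x) : ℝ) := by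
          rw [← hsum]
          exact hκ
      _ ≤ ∑ z : V, (κ / 2 * n +
          n * (if z ∈ U ∧ κ / 2 * n ≤ cnt (fun w : V => c w z = x) then (1 : ℝ) else 0)) :=
          sum_le_sum fun z _ => hle z
      _ = _ := by
          rw [sum_add_distrib, sum_const, card_univ, nsmul_eq_mul, ← mul_sum, cnt_eq_sum]
  rcases hn0.eq_or_lt with h5 | h5
  · rw [← h5, mul_zero]
    exact Nat.cast_nonneg _
  · have h6 : n * (κ / 2 * n) ≤ n * cnt (fun z : V =>
      z ∈ U ∧ κ / 2 * n ≤ cnt (fun w : V => c w z = x)) := by nlinarith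
    exact le_of_mul_le_mul_left h6 h5

/-- two vertices of `U` have many common allowed partners -/
theorem ggad_common {V G : Type} [Fintype V] [DecidableEq G] (c : V → V → G)
    (hc : ∀ x y, c x y = c y x) (U : Finset V) (F : Finset G)
    (hdeg : ∀ x ∈ U, 3 / 4 * (Fintype.card V : ℝ) ≤ cnt (fun y : V => c x y ∈ F))
    {y z : V} (hy : y ∈ U) (hz : z ∈ U) :
    (Fintype.card V : ℝ) / 2 ≤ cnt (fun u : V => c u y ∈ F ∧ c z u ∈ F) := by
  classical
  have h1 := hdeg y hy
  have h2 := hdeg z hz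
  have h3 : (cnt (fun u : V => c y u ∈ F) : ℝ) + cnt (fun u : V => c z u ∈ F) ≤
      cnt (fun u : V => c u y ∈ F ∧ c z u ∈ F) + Fintype.card V := by
    rw [cnt_eq_sum, cnt_eq_sum, cnt_eq_sum, ← sum_add_distrib]
    have h4 : (Fintype.card V : ℝ) = ∑ _u : V, (1 : ℝ) := by simp
    rw [h4, ← sum_add_distrib]
    refine sum_le_sum fun u _ => ?_
    rw [hc u y]
    by_cases h5 : c y u ∈ F <;> by_cases h6 : c z u ∈ F <;> simp [h5, h6]
  linarith

/-- The gadget: hub `y` – connector `u` – rich vertex `z` – `ν` leaves of colour `x` (compare `gadget` in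
ZT/Gadget.lean, complete; copy and adapt).

PROOF.  `Z = {z ∈ U | at least (κ/2) n vertices w have c w z = x}` has at least `(κ/2) n` elements (count
the pairs in `U × U` of colour `x`).  For `z ∈ Z`, `y ∈ U` at least `n/2` vertices `u` have `c u y ∈ F` and
`c z u ∈ F` (`hdeg` twice, symmetry).  By pigeonhole over `F × F` there are `u1, u2 ∈ F` with at least
`κ n^2/(4 k^2)` pairs `(u, z)`, `z ∈ Z`, `c u y = u1`, `c z u = u2`.  `gstar` at `z`, `glue` at `u` (the star
is hung on the one-vertex tree at `u`), `glue` at the hub `y`. -/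
theorem ggadget {V G : Type} [Fintype V] [DecidableEq G] [AddCommMonoid G] (c : V → V → G)
    (hc : ∀ x y, c x y = c y x) (U : Finset V) (F : Finset G) (k : ℕ) (hk : F.card ≤ k)
    (hdeg : ∀ x ∈ U, 3 / 4 * (Fintype.card V : ℝ) ≤ cnt (fun y : V => c x y ∈ F))
    (κ : ℝ) (hκ0 : 0 < κ) (x : G)
    (hκ : κ * (Fintype.card V : ℝ) ^ 2 ≤ cnt (fun q : V × V => q.1 ∈ U ∧ q.2 ∈ U ∧ c q.1 q.2 = x))
    (y : V) (hy : y ∈ U) :
    ∃ u1 ∈ F, ∃ u2 ∈ F, ∀ (e0 ν m : ℕ) (g : G), e0 + 2 + ν ≤ m →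
      rr c e0 y g * (κ / (4 * (k : ℝ) ^ 2 * (m : ℝ) ^ 2)) * (κ / (2 * m)) ^ ν ≤
        rr c (e0 + 2 + ν) y (g + (u1 + u2) + ν • x) := by
  classical
  set n : ℝ := (Fintype.card V : ℝ) with hn
  have hn0 : 0 < n := by
    rw [hn]
    have : 0 < Fintype.card V := Fintype.card_pos_iff.2 ⟨y⟩
    exact_mod_cast this
  have hF : F.Nonempty := by
    by_contra h0
    rw [not_nonempty_iff_eq_empty] at h0
    have h1 := hdeg y hy
    have h2 : cnt (fun u : V => c y u ∈ F) = 0 := by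
      rw [cnt_eq_card, card_eq_zero, filter_eq_empty_iff]
      intro u _ hu
      rw [h0] at hu
      exact notMem_empty _ hu
    rw [h2] at h1
    simp only [Nat.cast_zero] at h1
    linarith
  have hk0 : (0 : ℝ) < k := by
    have : 0 < k := lt_of_lt_of_le (card_pos.2 hF) hk
    exact_mod_cast this
  set R : V → Prop := fun z : V => z ∈ U ∧ κ / 2 * n ≤ cnt (fun w : V => c w z = x) with hR
  have hrich : κ / 2 * n ≤ cnt R := ggad_rich c U x κ hκ0 hκ
  -- pairs `(u, z)`
  set P : V × V → Prop := fun q => R q.2 ∧ c q.1 y ∈ F ∧ c q.2 q.1 ∈ F with hP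
  have hPcnt : κ * n ^ 2 / 4 ≤ cnt P := by
    have h1 : (cnt P : ℝ) = ∑ z : V, if R z then
        (cnt (fun u : V => c u y ∈ F ∧ c z u ∈ F) : ℝ) else 0 := by
      rw [cnt_eq_sum, Fintype.sum_prod_type_right]
      refine sum_congr rfl fun z _ => ?_
      split_ifs with h2
      · rw [cnt_eq_sum]
        refine sum_congr rfl fun u _ => ?_
        simp only [hP, h2, true_and]
      · refine sum_eq_zero fun u _ => ?_
        simp only [hP, h2, false_and, if_false]
    have h3 : n / 2 * cnt R ≤ cnt P := by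
      rw [h1, cnt_eq_sum, mul_sum]
      refine sum_le_sum fun z _ => ?_
      split_ifs with h2
      · rw [mul_one]
        exact ggad_common c hc U F hdeg hy h2.1
      · rw [mul_zero]
    have h4 : n / 2 * (κ / 2 * n) ≤ n / 2 * cnt R := by gcongr
    nlinarith
  obtain ⟨u1, hu1, u2, hu2, hpig⟩ := ggad_pigeon P (fun q => c q.1 y) (fun q => c q.2 q.1) F k hk hF
    (fun q hq => hq.2.1) (fun q hq => hq.2.2)
  refine ⟨u1, hu1, u2, hu2, ?_⟩
  intro e0 ν m g hm
  have hm0 : (0 : ℝ) < m := by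
    have : 0 < m := by omega
    exact_mod_cast this
  set B : ℝ := (κ / (2 * m)) ^ ν with hB
  have hB0 : 0 ≤ B := by positivity
  have hstar : ∀ z, R z → B ≤ rr c ν z (ν • x) := by
    intro z hz
    have h1 := gstar c z ν m x (κ / 2) (by positivity) hz.2 (by omega)
    rw [hB]
    have h2 : κ / (2 * (m : ℝ)) = κ / 2 / m := by rw [div_div]
    rw [h2]
    exact h1
  set Yz : V → Finset V := fun u => univ.filter (fun z => R z ∧ c z u = u2) with hYz
  have hconn : ∀ u : V, (Yz u).card * B / (m * n) ≤ rr c (0 + ν + 1) u (u2 + ν • x) := by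
    intro u
    have h1 := glue c 0 ν u 0 (u2 + ν • x) (Yz u) (fun _ => ν • x) (by
      intro z hz
      simp only [hYz, mem_filter, mem_univ, true_and] at hz
      rw [hz.2, zero_add, add_comm])
    rw [rr_zero, one_mul] at h1
    have h2 : (Yz u).card * B ≤ ∑ z ∈ Yz u, rr c ν z (ν • x) := by
      rw [← nsmul_eq_mul]
      refine card_nsmul_le_sum _ _ _ fun z hz => ?_
      simp only [hYz, mem_filter, mem_univ, true_and] at hz
      exact hstar z hz.1
    rw [div_le_iff₀ (by positivity)]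
    refine (h2.trans h1).trans ?_
    rw [mul_comm (rr c (0 + ν + 1) u _)]
    have h3 : ((0 : ℕ) : ℝ) + ν + 1 ≤ m := by
      have : 0 + ν + 1 ≤ m := by omega
      exact_mod_cast this
    have h4 := rr_nonneg c (0 + ν + 1) u (u2 + ν • x)
    gcongr
  have hglue := glue c e0 (0 + ν + 1) y g (g + (u1 + u2) + ν • x)
    (univ.filter (fun u => c u y = u1)) (fun _ => u2 + ν • x) (by
      intro u hu
      simp only [mem_filter, mem_univ, true_and] at hu
      rw [hu]
      abel)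
  have hpairs : (cnt (fun s : V × V => P s ∧ c s.1 y = u1 ∧ c s.2 s.1 = u2) : ℝ) =
      ∑ u ∈ univ.filter (fun u => c u y = u1), ((Yz u).card : ℝ) := by
    rw [cnt_eq_sum, Fintype.sum_prod_type, sum_filter]
    refine sum_congr rfl fun u _ => ?_
    split_ifs with h1
    · rw [hYz]
      simp only
      rw [card_filter]
      push_cast
      refine sum_congr rfl fun z _ => ?_
      have h2 : (P (u, z) ∧ c u y = u1 ∧ c z u = u2) ↔ (R z ∧ c z u = u2) := by
        constructor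
        · rintro ⟨h3, _, h4⟩
          exact ⟨h3.1, h4⟩
        · rintro ⟨h3, h4⟩
          refine ⟨⟨h3, ?_, ?_⟩, h1, h4⟩
          · simp only [h1]
            exact hu1
          · simp only [h4]
            exact hu2
      simp only [h2]
    · refine sum_eq_zero fun z _ => ?_
      rw [if_neg]
      rintro ⟨_, h3, _⟩
      exact h1 h3
  have hsumlow : κ * n / (4 * (k : ℝ) ^ 2 * m) * B ≤
      ∑ u ∈ univ.filter (fun u => c u y = u1), rr c (0 + ν + 1) u (u2 + ν • x) := by
    calc κ * n / (4 * (k : ℝ) ^ 2 * m) * B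
        ≤ (∑ u ∈ univ.filter (fun u => c u y = u1), ((Yz u).card : ℝ)) * B / (m * n) := by
          rw [← hpairs, div_mul_eq_mul_div, div_le_div_iff₀ (by positivity) (by positivity)]
          have h5 : κ * n ^ 2 / 4 ≤ (k : ℝ) ^ 2 *
            cnt (fun s : V × V => P s ∧ c s.1 y = u1 ∧ c s.2 s.1 = u2) := hPcnt.trans hpig
          have h6 : 0 ≤ B * m := by positivity
          have h7 := mul_le_mul_of_nonneg_right h5 h6
          nlinarith
      _ = ∑ u ∈ univ.filter (fun u => c u y = u1), (Yz u).card * B / (m * n) := by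
          rw [sum_mul, sum_div]
      _ ≤ _ := sum_le_sum fun u _ => hconn u
  have hr0 := rr_nonneg c e0 y g
  have e1 : e0 + (0 + ν + 1) + 1 = e0 + 2 + ν := by omega
  rw [e1] at hglue
  have hr1 := rr_nonneg c (e0 + 2 + ν) y (g + (u1 + u2) + ν • x)
  have h8 : ((e0 : ℝ) + ((0 + ν + 1 : ℕ) : ℝ) + 1) ≤ m := by
    have : e0 + (0 + ν + 1) + 1 ≤ m := by omega
    exact_mod_cast this
  have h9 : rr c e0 y g * (κ * n / (4 * (k : ℝ) ^ 2 * m) * B) ≤
      m * n * rr c (e0 + 2 + ν) y (g + (u1 + u2) + ν • x) := by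
    refine (mul_le_mul_of_nonneg_left hsumlow hr0).trans (hglue.trans ?_)
    gcongr
  have h10 : rr c e0 y g * (κ / (4 * (k : ℝ) ^ 2 * (m : ℝ) ^ 2)) * B =
      rr c e0 y g * (κ * n / (4 * (k : ℝ) ^ 2 * m) * B) / (m * n) := by
    field_simp
  rw [h10, div_le_iff₀ (by positivity)]
  linarith

/-- Gadgets for all colours in `F`.

PROOF.  For `T ⊆ F` by induction on `T` (`Finset.induction_on`): there is `μ` with `∑_{x ∈ F} μ x = 2 |T|` and
the inequality for sums over `x ∈ T` of `ν`; adding `x` to `T` adds the two connector colours `u1, u2 ∈ F` to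
`μ` (`Function.update` or `μ + Pi.single u1 1 + Pi.single u2 1`). -/
theorem ggadgets {V G : Type} [Fintype V] [DecidableEq G] [AddCommMonoid G] (c : V → V → G)
    (hc : ∀ x y, c x y = c y x) (U : Finset V) (F : Finset G) (k : ℕ) (hk : F.card ≤ k)
    (hdeg : ∀ x ∈ U, 3 / 4 * (Fintype.card V : ℝ) ≤ cnt (fun y : V => c x y ∈ F))
    (κ : ℝ) (hκ0 : 0 < κ)
    (hκ : ∀ x ∈ F, κ * (Fintype.card V : ℝ) ^ 2 ≤
      cnt (fun q : V × V => q.1 ∈ U ∧ q.2 ∈ U ∧ c q.1 q.2 = x))
    (y : V) (hy : y ∈ U) :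
    ∃ μ : G → ℕ, ∑ x ∈ F, μ x = 2 * F.card ∧ ∀ (ν : G → ℕ) (e0 m : ℕ) (g : G),
      e0 + 2 * F.card + ∑ x ∈ F, ν x ≤ m →
      rr c e0 y g * (κ / (4 * (k : ℝ) ^ 2 * (m : ℝ) ^ 2)) ^ F.card *
        (κ / (2 * m)) ^ (∑ x ∈ F, ν x) ≤
        rr c (e0 + 2 * F.card + ∑ x ∈ F, ν x) y (g + ∑ x ∈ F, μ x • x + ∑ x ∈ F, ν x • x) := by
  classical
  -- for subsets `T` of `F`
  have key : ∀ T : Finset G, T ⊆ F → ∃ μ : G → ℕ, ∑ x ∈ F, μ x = 2 * T.card ∧
      ∀ (ν : G → ℕ) (e0 m : ℕ) (g : G), e0 + 2 * T.card + ∑ x ∈ T, ν x ≤ m →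
      rr c e0 y g * (κ / (4 * (k : ℝ) ^ 2 * (m : ℝ) ^ 2)) ^ T.card *
        (κ / (2 * m)) ^ (∑ x ∈ T, ν x) ≤
        rr c (e0 + 2 * T.card + ∑ x ∈ T, ν x) y (g + ∑ x ∈ F, μ x • x + ∑ x ∈ T, ν x • x) := by
    intro T
    induction T using Finset.induction_on with
    | empty =>
      intro _
      refine ⟨fun _ => 0, by simp, fun ν e0 m g _ => ?_⟩
      simp
    | insert a T ha ih =>
      intro hT
      obtain ⟨μ, hμ, hI⟩ := ih fun i hi => hT (mem_insert_of_mem hi)
      obtain ⟨u1, hu1, u2, hu2, hA⟩ := ggadget c hc U F k hk hdeg κ hκ0 a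
        (hκ a (hT (mem_insert_self a T))) y hy
      refine ⟨fun x => μ x + (if x = u1 then 1 else 0) + (if x = u2 then 1 else 0), ?_,
        fun ν e0 m g hm => ?_⟩
      · rw [card_insert_of_notMem ha, sum_add_distrib, sum_add_distrib, hμ, sum_ite_eq' F u1,
          sum_ite_eq' F u2, if_pos hu1, if_pos hu2]
        omega
      · have hμsum : ∑ x ∈ F, (μ x + (if x = u1 then 1 else 0) + (if x = u2 then 1 else 0)) • x =
            ∑ x ∈ F, μ x • x + u1 + u2 := by
          have h1 : ∀ x ∈ F, (μ x + (if x = u1 then 1 else 0) + (if x = u2 then 1 else 0)) • x =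
              μ x • x + (if x = u1 then x else 0) + (if x = u2 then x else 0) := by
            intro x _
            rw [add_nsmul, add_nsmul]
            congr 1
            · congr 1
              split_ifs <;> simp
            · split_ifs <;> simp
          rw [sum_congr rfl h1, sum_add_distrib, sum_add_distrib, sum_ite_eq' F u1,
            sum_ite_eq' F u2, if_pos hu1, if_pos hu2]
        rw [hμsum]
        rw [card_insert_of_notMem ha, sum_insert ha] at hm
        rw [card_insert_of_notMem ha, sum_insert ha, sum_insert ha]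
        have h1 := hI ν e0 m g (by omega)
        have h2 := hA (e0 + 2 * T.card + ∑ i ∈ T, ν i) (ν a) m
          (g + ∑ x ∈ F, μ x • x + ∑ x ∈ T, ν x • x) (by omega)
        set A : ℝ := κ / (4 * (k : ℝ) ^ 2 * (m : ℝ) ^ 2) with hAd
        set B : ℝ := κ / (2 * m) with hBd
        have hA0 : 0 ≤ A := by positivity
        have hB0 : 0 ≤ B := by positivity
        have h3 : rr c e0 y g * A ^ (T.card + 1) * B ^ (ν a + ∑ i ∈ T, ν i) =
            rr c e0 y g * A ^ T.card * B ^ (∑ i ∈ T, ν i) * A * B ^ ν a := by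
          rw [pow_succ, pow_add]
          ring
        rw [h3]
        have h4 : rr c e0 y g * A ^ T.card * B ^ (∑ i ∈ T, ν i) * A * B ^ ν a ≤
            rr c (e0 + 2 * T.card + ∑ i ∈ T, ν i) y
              (g + ∑ x ∈ F, μ x • x + ∑ x ∈ T, ν x • x) * A * B ^ ν a := by
          gcongr
        refine h4.trans (h2.trans (le_of_eq ?_))
        congr 1
        · omega
        · abel
  exact key F subset_rfl

end Pool.Agent.ZT
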