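import Pool.Agent.ZC.Trans2
import Pool.Agent.ZC.GGad

/-! # ZC : correction in a bounded subgroup -/

set_option autoImplicit false

open Finset

namespace Pool.Agent.ZT

theorem corr_aux1 {m : ℕ} (F : Finset (ZMod m)) (Γ : AddSubgroup (ZMod m)) (x0 g : ZMod m)
    (a w : ZMod m → ℕ) (ha : ∀ x ∈ F, x - x0 - a x • g ∈ Γ) :
    ∑ x ∈ F, w x • x - (∑ x ∈ F, w x) • x0 - (∑ x ∈ F, w x * a x) • g ∈ Γ := by
  have h1 : ∑ x ∈ F, w x • x - (∑ x ∈ F, w x) • x0 - (∑ x ∈ F, w x * a x) • g =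
      ∑ x ∈ F, w x • (x - x0 - a x • g) := by
    rw [sum_smul, sum_smul, ← sum_sub_distrib, ← sum_sub_distrib]
    refine sum_congr rfl fun x _ => ?_
    rw [smul_sub, smul_sub, mul_smul]
  rw [h1]
  exact AddSubgroup.sum_mem _ fun x hx => Γ.nsmul_mem (ha x hx) _

theorem corr_aux2 {m : ℕ} (F : Finset (ZMod m)) (D : ℕ) (a w : ZMod m → ℕ)
    (ha : ∀ x ∈ F, a x ≤ D) : ∑ x ∈ F, w x * a x ≤ (∑ x ∈ F, w x) * D := by
  rw [sum_mul]
  exact sum_le_sum fun x hx => Nat.mul_le_mul_left _ (ha x hx)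

theorem corr_aux3 {S : Type} (s : Finset S) (f : S → ℝ) (X : ℝ) (D : ℕ) (hD : s.card ≤ D)
    (hs : s.Nonempty) (hX : 0 ≤ X) (h : X ≤ ∑ x ∈ s, f x) : ∃ x ∈ s, X / D ≤ f x := by
  by_contra hcon
  push Not at hcon
  have hD0 : (0 : ℝ) < D := by
    have := hs.card_pos
    exact_mod_cast lt_of_lt_of_le this hD
  have h1 : ∑ x ∈ s, f x < ∑ x ∈ s, X / D := sum_lt_sum_of_nonempty hs hcon
  rw [sum_const, nsmul_eq_mul] at h1
  have h2 : (s.card : ℝ) * (X / D) ≤ D * (X / D) :=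
    mul_le_mul_of_nonneg_right (by exact_mod_cast hD) (by positivity)
  rw [mul_div_cancel₀ _ hD0.ne'] at h2
  linarith

/-- From integer sums to zero-sum trees: for every hub `y` there is an offset `r0` such that trees with `e0`
edges and integer sum `r0` rooted at `y` can be completed to zero-sum trees with `m = e0 + 2|F| + D`
edges.

PROOF.  `ggadgets` gives `μ`; `∑_{x ∈ F} μ x • x = (2|F|) • x0 + A • g + γ1`, `A = ∑ μ x a x ≤ 2|F| D`, `γ1 ∈ Γ`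
(`ha`).  `hpat` for `γ = 0` gives `ν0` with `t0 = ∑ ν0 x • x = D • x0 + A' • g + γ0`,
`A' = ∑ ν0 x a x ≤ D · D`, `γ0 ∈ Γ`.  Put `r0 = t o - A - A'`:
`q r0 - t e0 = t (m - e0) - q (A + A') = t (2|F| + D) - q (A + A')` has absolute value at most
`q D (2K + D) + q (2 K D + D D) = 2 q D (2K + D)`.  By `trans2` some `γ ∈ Γ` has
`rr c e0 y (e0 • x0 + r0 • g + γ) ≥ rr (ic …) e0 y (r0, 0)/|Γ| ≥ …/D`.  The element
`-(e0 • x0 + r0 • g + γ + ∑ μ x • x + t0)` is in `Γ`: the sum in brackets is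
`m • x0 + (t o) • g + (an element of Γ)`, `m • x0 = 0` and `o • g ∈ Γ`.  Take `ν` from `hpat` for it
and apply the inequality of `ggadgets`. -/
theorem corr {V : Type} [Fintype V] {m : ℕ} [NeZero m] (c : V → V → ZMod m)
    (hc : ∀ x y, c x y = c y x) (U : Finset V) (F : Finset (ZMod m)) (K D : ℕ) (hK : F.card ≤ K)
    (hdeg : ∀ x ∈ U, 3 / 4 * (Fintype.card V : ℝ) ≤ cnt (fun y : V => c x y ∈ F))
    (κ : ℝ) (hκ0 : 0 < κ)
    (hκ : ∀ x ∈ F, κ * (Fintype.card V : ℝ) ^ 2 ≤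
      cnt (fun q : V × V => q.1 ∈ U ∧ q.2 ∈ U ∧ c q.1 q.2 = x))
    (Γ : AddSubgroup (ZMod m)) (hΓ : Nat.card Γ ≤ D) (x0 g t0 : ZMod m) (a : ZMod m → ℕ) (q o t : ℕ)
    (ha : ∀ x ∈ F, a x ≤ D ∧ x - x0 - a x • g ∈ Γ)
    (hpat : ∀ γ ∈ Γ, ∃ ν : ZMod m → ℕ, ∑ x ∈ F, ν x = D ∧ ∑ x ∈ F, ν x • x = t0 + γ)
    (hqo : q * o = m) (hog : o • g ∈ Γ) (ht : t ≤ q * D) (e0 : ℕ) (he0 : e0 + 2 * F.card + D = m)
    (y : V) (hy : y ∈ U) :
    ∃ r0 : ℤ, |(q : ℤ) * r0 - t * e0| ≤ ((2 * q * D * (2 * K + D) : ℕ) : ℤ) ∧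
      rr (ic c U F a 0) e0 y (r0, 0) / D * (κ / (4 * (K : ℝ) ^ 2 * (m : ℝ) ^ 2)) ^ F.card *
        (κ / (2 * m)) ^ D ≤ rr c m y 0 := by
  classical
  obtain ⟨μ, hμ, hgad⟩ := ggadgets c hc U F K hK hdeg κ hκ0 hκ y hy
  obtain ⟨ν0, hν0, hν0'⟩ := hpat 0 Γ.zero_mem
  have ha1 : ∀ x ∈ F, a x ≤ D := fun x hx => (ha x hx).1
  have ha2 : ∀ x ∈ F, x - x0 - a x • g ∈ Γ := fun x hx => (ha x hx).2
  have hA := corr_aux2 F D a μ ha1
  have hA' := corr_aux2 F D a ν0 ha1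
  have hM := corr_aux1 F Γ x0 g a μ ha2
  have hM' := corr_aux1 F Γ x0 g a ν0 ha2
  rw [hμ] at hA hM
  rw [hν0] at hA' hM'
  rw [hν0', add_zero] at hM'
  generalize hAdef : ∑ x ∈ F, μ x * a x = A at hA hM
  generalize hAdef' : ∑ x ∈ F, ν0 x * a x = A' at hA' hM'
  refine ⟨(t : ℤ) * o - A - A', ?_, ?_⟩
  · have e1 : (q : ℤ) * ((t : ℤ) * o - A - A') - t * e0 =
        t * (2 * F.card + D) - q * (A + A') := by
      have e2 : (e0 : ℤ) + 2 * F.card + D = q * o := by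
        exact_mod_cast he0.trans hqo.symm
      have e3 : (q : ℤ) * ((t : ℤ) * o - A - A') - t * e0 =
        t * (q * o) - q * (A + A') - t * e0 := by ring
      rw [e3, ← e2]
      ring
    rw [e1]
    have h1 : (0 : ℤ) ≤ t * (2 * F.card + D) := by positivity
    have h2 : (0 : ℤ) ≤ q * (A + A') := by positivity
    have h3 : (t * (2 * F.card + D) : ℕ) ≤ q * D * (2 * K + D) :=
      Nat.mul_le_mul ht (by omega)
    have h4 : q * (A + A') ≤ q * D * (2 * K + D) := by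
      have h5 : A + A' ≤ D * (2 * K + D) := by
        have h6 : 2 * F.card * D ≤ 2 * K * D := Nat.mul_le_mul_right _ (by omega)
        calc A + A' ≤ 2 * K * D + D * D := by omega
          _ = D * (2 * K + D) := by ring
      rw [mul_assoc]
      exact Nat.mul_le_mul_left _ h5
    have h3' : (t : ℤ) * (2 * F.card + D) ≤ ((q * D * (2 * K + D) : ℕ) : ℤ) := by
      exact_mod_cast h3
    have h4' : (q : ℤ) * (A + A') ≤ ((q * D * (2 * K + D) : ℕ) : ℤ) := by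
      exact_mod_cast h4
    have h7 : ((2 * q * D * (2 * K + D) : ℕ) : ℤ) = 2 * ((q * D * (2 * K + D) : ℕ) : ℤ) := by
      push_cast
      ring
    rw [h7, abs_le]
    constructor <;> linarith
  · set r0 : ℤ := (t : ℤ) * o - A - A' with hr0
    have hX := trans2 c U F a Γ x0 g ha2 e0 y r0
    have hX0 : 0 ≤ rr (ic c U F a 0) e0 y (r0, 0) := rr_nonneg _ _ _ _
    have hcard : (univ.filter (fun γ : ZMod m => γ ∈ Γ)).card ≤ D := by
      refine le_trans (le_of_eq ?_) hΓ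
      rw [← Fintype.card_subtype, ← Nat.card_eq_fintype_card]
    obtain ⟨γ, hγ, hγ'⟩ := corr_aux3 (univ.filter (fun γ : ZMod m => γ ∈ Γ))
      (fun γ => rr c e0 y (e0 • x0 + r0 • g + γ)) _ D hcard
      ⟨0, by simp [Γ.zero_mem]⟩ hX0 hX
    rw [mem_filter] at hγ
    have hδ : -(e0 • x0 + r0 • g + γ + ∑ x ∈ F, μ x • x + t0) ∈ Γ := by
      refine Γ.neg_mem ?_
      have h1 : e0 • x0 + r0 • g + γ + ∑ x ∈ F, μ x • x + t0 =
          γ + (∑ x ∈ F, μ x • x - (2 * F.card) • x0 - A • g) + (t0 - D • x0 - A' • g) +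
            t • (o • g) := by
        have h3 : (e0 : ZMod m) + 2 * F.card + D = 0 := by
          have h4 := congrArg (Nat.cast : ℕ → ZMod m) he0
          rw [ZMod.natCast_self] at h4
          push_cast at h4
          exact h4
        simp only [nsmul_eq_mul, zsmul_eq_mul, hr0]
        push_cast
        linear_combination x0 * h3
      rw [h1]
      exact Γ.add_mem (Γ.add_mem (Γ.add_mem hγ.2 hM) hM') (Γ.nsmul_mem hog t)
    obtain ⟨ν, hν, hν'⟩ := hpat _ hδ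
    have hg := hgad ν e0 m (e0 • x0 + r0 • g + γ) (by rw [hν]; exact he0.le)
    rw [hν, he0, hν'] at hg
    have h0 : e0 • x0 + r0 • g + γ + ∑ x ∈ F, μ x • x +
        (t0 + -(e0 • x0 + r0 • g + γ + ∑ x ∈ F, μ x • x + t0)) = 0 := by abel
    rw [h0] at hg
    refine le_trans ?_ hg
    have hκ1 : (0 : ℝ) ≤ κ / (4 * (K : ℝ) ^ 2 * (m : ℝ) ^ 2) := by positivity
    have hκ2 : (0 : ℝ) ≤ κ / (2 * m) := by positivity
    exact mul_le_mul_of_nonneg_right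
      (mul_le_mul_of_nonneg_right hγ' (pow_nonneg hκ1 _)) (pow_nonneg hκ2 _)

end Pool.Agent.ZT
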