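import Pool.Agent.ZT.Defs

/-! # ZC : numerics of the correction -/

set_option autoImplicit false

open Finset

namespace Pool.Agent.ZT

theorem corr_num_aux1 (A C : ℝ) (L : ℕ) (hA : 0 < A) (hC : 0 < C) : ∃ m0 : ℕ, ∀ m : ℕ, m0 ≤ m →
    A * (m : ℝ) ^ L * Real.exp (C * Real.sqrt m * Real.log m) ≤ (519 / 510 : ℝ) ^ m := by
  have hδ : 0 < Real.log (519 / 510) := Real.log_pos (by norm_num)
  set δ := Real.log (519 / 510) with hδd
  have h1 : ∀ᶠ x : ℝ in Filter.atTop, Real.log A ≤ δ / 3 * x := by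
    filter_upwards [Filter.eventually_ge_atTop (Real.log A / (δ / 3))] with x hx
    rw [div_le_iff₀ (by positivity)] at hx
    linarith
  have h2 : ∀ᶠ x : ℝ in Filter.atTop, (L : ℝ) * Real.log x ≤ δ / 3 * x := by
    have h := (Real.isLittleO_log_id_atTop).bound (show (0 : ℝ) < δ / 3 / (L + 1) by positivity)
    filter_upwards [h, Filter.eventually_ge_atTop (1 : ℝ)] with x hx hx1
    have hl : 0 ≤ Real.log x := Real.log_nonneg hx1
    rw [Real.norm_of_nonneg hl, id, Real.norm_of_nonneg (by linarith)] at hx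
    have h3 : ((L : ℝ) + 1) * Real.log x ≤ (L + 1) * (δ / 3 / (L + 1) * x) :=
      mul_le_mul_of_nonneg_left hx (by positivity)
    have h4 : ((L : ℝ) + 1) * (δ / 3 / (L + 1) * x) = δ / 3 * x := by
      field_simp
    rw [h4] at h3
    linarith
  have h3 : ∀ᶠ x : ℝ in Filter.atTop, C * Real.sqrt x * Real.log x ≤ δ / 3 * x := by
    have h := (isLittleO_log_rpow_atTop (show (0 : ℝ) < 1 / 2 by norm_num)).bound
      (show (0 : ℝ) < δ / 3 / C by positivity)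
    filter_upwards [h, Filter.eventually_ge_atTop (1 : ℝ)] with x hx hx1
    have hl : 0 ≤ Real.log x := Real.log_nonneg hx1
    rw [Real.norm_of_nonneg hl, ← Real.sqrt_eq_rpow, Real.norm_of_nonneg (Real.sqrt_nonneg x)] at hx
    calc C * Real.sqrt x * Real.log x ≤ C * Real.sqrt x * (δ / 3 / C * Real.sqrt x) :=
          mul_le_mul_of_nonneg_left hx (by positivity)
      _ = δ / 3 * (Real.sqrt x * Real.sqrt x) := by field_simp
      _ = δ / 3 * x := by rw [Real.mul_self_sqrt (by linarith)]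
  have h := tendsto_natCast_atTop_atTop.eventually (h1.and (h2.and (h3.and
    (Filter.eventually_ge_atTop (1 : ℝ)))))
  obtain ⟨m0, hm0⟩ := Filter.eventually_atTop.1 h
  refine ⟨m0, fun m hm => ?_⟩
  obtain ⟨g1, g2, g3, g4⟩ := hm0 m hm
  have hm1 : (0 : ℝ) < m := by linarith
  calc A * (m : ℝ) ^ L * Real.exp (C * Real.sqrt m * Real.log m) =
      Real.exp (Real.log A + L * Real.log m + C * Real.sqrt m * Real.log m) := by
        rw [Real.exp_add, Real.exp_add, Real.exp_log hA, Real.exp_nat_mul, Real.exp_log hm1]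
    _ ≤ Real.exp (m * δ) := Real.exp_le_exp.2 (by linarith)
    _ = (519 / 510 : ℝ) ^ m := by
        rw [Real.exp_nat_mul, hδd, Real.exp_log (by norm_num)]

theorem corr_num_aux2 (j : ℕ) : (((j + 1 + 1 : ℕ) : ℝ) ^ (j + 1 - 1) / (j + 1).factorial) ≤
    3 * (((j + 1 : ℕ) : ℝ) ^ (j - 1) / j.factorial) := by
  rcases Nat.eq_zero_or_pos j with h | h
  · subst h
    norm_num
  · have h1 : ((j + 1 + 1 : ℕ) : ℝ) ^ j ≤ 3 * ((j + 1 : ℕ) : ℝ) ^ j := by
      have h2 : (1 + 1 / ((j + 1 : ℕ) : ℝ)) ^ j ≤ 3 := by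
        calc (1 + 1 / ((j + 1 : ℕ) : ℝ)) ^ j ≤ (Real.exp (1 / ((j + 1 : ℕ) : ℝ))) ^ j := by
              refine pow_le_pow_left₀ (by positivity) ?_ j
              linarith [Real.add_one_le_exp (1 / ((j + 1 : ℕ) : ℝ))]
          _ = Real.exp (j * (1 / ((j + 1 : ℕ) : ℝ))) := by rw [Real.exp_nat_mul]
          _ ≤ Real.exp 1 := by
              refine Real.exp_le_exp.2 ?_
              rw [mul_one_div, div_le_one (by positivity)]
              push_cast
              linarith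
          _ ≤ 3 := by
              have := Real.exp_one_lt_d9
              linarith
      have h3 : ((j + 1 + 1 : ℕ) : ℝ) = (1 + 1 / ((j + 1 : ℕ) : ℝ)) * ((j + 1 : ℕ) : ℝ) := by
        have : ((j + 1 : ℕ) : ℝ) ≠ 0 := by positivity
        field_simp
        push_cast
        ring
      rw [h3, mul_pow]
      exact mul_le_mul_of_nonneg_right h2 (by positivity)
    have h4 : ((j + 1 : ℕ) : ℝ) ^ j = ((j + 1 : ℕ) : ℝ) ^ (j - 1) * ((j + 1 : ℕ) : ℝ) := by
      rw [← pow_succ, Nat.sub_add_cancel h]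
    rw [Nat.add_sub_cancel, Nat.factorial_succ, ← mul_div_assoc,
      div_le_div_iff₀ (by positivity) (by positivity)]
    rw [h4] at h1
    push_cast at h1 ⊢
    calc ((j : ℝ) + 1 + 1) ^ j * (j.factorial : ℝ) ≤
        3 * (((j : ℝ) + 1) ^ (j - 1) * ((j : ℝ) + 1)) * (j.factorial : ℝ) :=
          mul_le_mul_of_nonneg_right h1 (by positivity)
      _ = 3 * ((j : ℝ) + 1) ^ (j - 1) * (((j : ℝ) + 1) * (j.factorial : ℝ)) := by ring

theorem corr_num_aux3 (e s : ℕ) : (((e + s + 1 : ℕ) : ℝ) ^ (e + s - 1) / (e + s).factorial) ≤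
    3 ^ s * (((e + 1 : ℕ) : ℝ) ^ (e - 1) / e.factorial) := by
  induction s with
  | zero => simp
  | succ s ih =>
    have h := corr_num_aux2 (e + s)
    calc (((e + (s + 1) + 1 : ℕ) : ℝ) ^ (e + (s + 1) - 1) / (e + (s + 1)).factorial) ≤
        3 * (((e + s + 1 : ℕ) : ℝ) ^ (e + s - 1) / (e + s).factorial) := h
      _ ≤ 3 * (3 ^ s * (((e + 1 : ℕ) : ℝ) ^ (e - 1) / e.factorial)) :=
          mul_le_mul_of_nonneg_left ih (by norm_num)
      _ = 3 ^ (s + 1) * (((e + 1 : ℕ) : ℝ) ^ (e - 1) / e.factorial) := by ring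

/-- PROOF.  `a_j = (j+1)^(j-1)/j!` satisfies `a_{j+1} ≤ e a_j` (`a_{j+1}/a_j = ((j+2)/(j+1))^j ≤ e`), so
`(m+1)^(m-1)/m! ≤ e^s (e0+1)^(e0-1)/e0!` with `s = m - e0 ≤ S`.  The remaining factors
`D⁻¹ (κ/(4K²m²))^f (κ/(2m))^D exp(-C √e0 log e0) e^{-S}` are at least `(101/100)^{-m}` for large `m`
(`f ≤ K`; logarithms are `O(√m log m)`), and `(519/1000)^e0 ≥ (519/1000)^m`,
`519/1000 · 100/101 ≥ 51/100`. -/
theorem corr_num (D K S : ℕ) (hD : 1 ≤ D) (κ C : ℝ) (hκ : 0 < κ) (hC : 0 < C) : ∃ m0 : ℕ,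
    ∀ m ≥ m0, ∀ e0 f : ℕ, e0 ≤ m → m ≤ e0 + S → f ≤ K →
    (51 / 100) ^ m * (((m + 1 : ℕ) : ℝ) ^ (m - 1) / m.factorial) ≤
      1 / D * (κ / (4 * (K : ℝ) ^ 2 * (m : ℝ) ^ 2)) ^ f * (κ / (2 * m)) ^ D *
      ((519 / 1000) ^ e0 * Real.exp (-C * Real.sqrt e0 * Real.log e0) *
        (((e0 + 1 : ℕ) : ℝ) ^ (e0 - 1) / e0.factorial)) := by
  have hD0 : (0 : ℝ) < D := by exact_mod_cast hD
  have hc1 : 0 < (κ / (4 * (K : ℝ) ^ 2)) ^ K * (κ / 2) ^ D := by
    rcases Nat.eq_zero_or_pos K with h | h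
    · subst h
      simp only [pow_zero, one_mul]
      positivity
    · have : (0 : ℝ) < K := by exact_mod_cast h
      positivity
  set c1 := (κ / (4 * (K : ℝ) ^ 2)) ^ K * (κ / 2) ^ D with hc1d
  obtain ⟨m1, hm1⟩ := corr_num_aux1 (3 ^ S * D / c1) C (2 * K + D) (by positivity) hC
  obtain ⟨m2, hm2⟩ := exists_nat_ge κ
  refine ⟨max m1 (m2 + 1), fun m hm e0 f he0 heS hf => ?_⟩
  have hm1' := hm1 m (le_trans (le_max_left _ _) hm)
  have hmm2 : m2 + 1 ≤ m := le_trans (le_max_right _ _) hm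
  have hmκ : κ ≤ m := le_trans hm2 (by exact_mod_cast le_trans (Nat.le_succ m2) hmm2)
  have hm1r : (1 : ℝ) ≤ m := by exact_mod_cast le_trans (Nat.le_add_left 1 m2) hmm2
  have hm0 : (0 : ℝ) < m := by linarith
  -- tree numbers
  have hT : (((m + 1 : ℕ) : ℝ) ^ (m - 1) / m.factorial) ≤
      3 ^ S * (((e0 + 1 : ℕ) : ℝ) ^ (e0 - 1) / e0.factorial) := by
    have h := corr_num_aux3 e0 (m - e0)
    rw [Nat.add_sub_cancel' he0] at h
    refine le_trans h ?_
    refine mul_le_mul_of_nonneg_right ?_ (by positivity)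
    exact pow_le_pow_right₀ (by norm_num) (by omega)
  -- the factor with f
  have hF : (κ / (4 * (K : ℝ) ^ 2 * (m : ℝ) ^ 2)) ^ K ≤ (κ / (4 * (K : ℝ) ^ 2 * (m : ℝ) ^ 2)) ^ f := by
    rcases Nat.eq_zero_or_pos K with h | h
    · have : f = K := by omega
      rw [this]
    · refine pow_le_pow_of_le_one (by positivity) ?_ hf
      have hK1 : (1 : ℝ) ≤ K := by exact_mod_cast h
      rw [div_le_one (by positivity)]
      calc κ ≤ m := hmκ
        _ ≤ (m : ℝ) ^ 2 := by nlinarith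
        _ ≤ 4 * (K : ℝ) ^ 2 * (m : ℝ) ^ 2 := by
          have : (1 : ℝ) ≤ 4 * (K : ℝ) ^ 2 := by nlinarith
          nlinarith [sq_nonneg (m : ℝ)]
  have hP : c1 / (m : ℝ) ^ (2 * K + D) ≤
      (κ / (4 * (K : ℝ) ^ 2 * (m : ℝ) ^ 2)) ^ f * (κ / (2 * m)) ^ D := by
    refine le_trans (le_of_eq ?_) (mul_le_mul_of_nonneg_right hF (by positivity))
    rw [hc1d, ← div_div κ _ ((m : ℝ) ^ 2), ← div_div κ 2 (m : ℝ), div_pow _ ((m : ℝ) ^ 2),
      div_pow _ (m : ℝ), pow_add, pow_mul, mul_div_mul_comm]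
  have hE : Real.exp (-(C * Real.sqrt m * Real.log m)) ≤
      Real.exp (-C * Real.sqrt e0 * Real.log e0) := by
    refine Real.exp_le_exp.2 ?_
    have h1 : Real.sqrt e0 * Real.log e0 ≤ Real.sqrt m * Real.log m := by
      rcases Nat.eq_zero_or_pos e0 with h | h
      · subst h
        simp only [Nat.cast_zero, Real.sqrt_zero, zero_mul]
        exact mul_nonneg (Real.sqrt_nonneg _) (Real.log_nonneg hm1r)
      · have h2 : (1 : ℝ) ≤ e0 := by exact_mod_cast h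
        have h3 : (e0 : ℝ) ≤ m := by exact_mod_cast he0
        exact mul_le_mul (Real.sqrt_le_sqrt h3) (Real.log_le_log (by linarith) h3)
          (Real.log_nonneg h2) (Real.sqrt_nonneg _)
    have h4 := mul_le_mul_of_nonneg_left h1 hC.le
    linarith
  have hQ : (519 / 1000 : ℝ) ^ m ≤ (519 / 1000 : ℝ) ^ e0 :=
    pow_le_pow_of_le_one (by norm_num) (by norm_num) he0
  have hmain : (51 / 100 : ℝ) ^ m * 3 ^ S ≤ 1 / D * (c1 / (m : ℝ) ^ (2 * K + D)) *
      ((519 / 1000 : ℝ) ^ m * Real.exp (-(C * Real.sqrt m * Real.log m))) := by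
    have h1 : (519 / 1000 : ℝ) ^ m = (51 / 100 : ℝ) ^ m * (519 / 510 : ℝ) ^ m := by
      rw [← mul_pow]
      norm_num
    rw [h1]
    have h2 : (0 : ℝ) < (51 / 100 : ℝ) ^ m := by positivity
    have h3 : (3 : ℝ) ^ S ≤ 1 / D * (c1 / (m : ℝ) ^ (2 * K + D)) *
        ((519 / 510 : ℝ) ^ m * Real.exp (-(C * Real.sqrt m * Real.log m))) := by
      have h5 : (3 : ℝ) ^ S = 1 / D * (c1 / (m : ℝ) ^ (2 * K + D)) *
          ((3 ^ S * D / c1 * (m : ℝ) ^ (2 * K + D) * Real.exp (C * Real.sqrt m * Real.log m)) *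
            Real.exp (-(C * Real.sqrt m * Real.log m))) := by
        rw [mul_assoc (3 ^ S * D / c1 * (m : ℝ) ^ (2 * K + D)), ← Real.exp_add, add_neg_cancel,
          Real.exp_zero, mul_one]
        field_simp
      rw [h5]
      refine mul_le_mul_of_nonneg_left ?_ (by positivity)
      exact mul_le_mul_of_nonneg_right hm1' (Real.exp_nonneg _)
    calc (51 / 100 : ℝ) ^ m * 3 ^ S ≤ (51 / 100 : ℝ) ^ m * (1 / D * (c1 / (m : ℝ) ^ (2 * K + D)) *
        ((519 / 510 : ℝ) ^ m * Real.exp (-(C * Real.sqrt m * Real.log m)))) :=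
          mul_le_mul_of_nonneg_left h3 h2.le
      _ = _ := by ring
  have hT0 : (0 : ℝ) ≤ (((e0 + 1 : ℕ) : ℝ) ^ (e0 - 1) / e0.factorial) := by positivity
  calc (51 / 100 : ℝ) ^ m * (((m + 1 : ℕ) : ℝ) ^ (m - 1) / m.factorial) ≤
      (51 / 100 : ℝ) ^ m * (3 ^ S * (((e0 + 1 : ℕ) : ℝ) ^ (e0 - 1) / e0.factorial)) :=
        mul_le_mul_of_nonneg_left hT (by positivity)
    _ = (51 / 100 : ℝ) ^ m * 3 ^ S * (((e0 + 1 : ℕ) : ℝ) ^ (e0 - 1) / e0.factorial) := by ring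
    _ ≤ 1 / D * (c1 / (m : ℝ) ^ (2 * K + D)) *
      ((519 / 1000 : ℝ) ^ m * Real.exp (-(C * Real.sqrt m * Real.log m))) *
        (((e0 + 1 : ℕ) : ℝ) ^ (e0 - 1) / e0.factorial) := mul_le_mul_of_nonneg_right hmain hT0
    _ ≤ 1 / D * ((κ / (4 * (K : ℝ) ^ 2 * (m : ℝ) ^ 2)) ^ f * (κ / (2 * m)) ^ D) *
      ((519 / 1000) ^ e0 * Real.exp (-C * Real.sqrt e0 * Real.log e0)) *
        (((e0 + 1 : ℕ) : ℝ) ^ (e0 - 1) / e0.factorial) := by
        refine mul_le_mul_of_nonneg_right ?_ hT0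
        refine mul_le_mul (mul_le_mul_of_nonneg_left hP (by positivity)) ?_ (by positivity)
          ?_
        · exact mul_le_mul hQ hE (Real.exp_nonneg _) (by positivity)
        · have : 0 ≤ c1 / (m : ℝ) ^ (2 * K + D) := by positivity
          exact mul_nonneg (by positivity) (le_trans this hP)
    _ = _ := by ring

end Pool.Agent.ZT
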