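import Pool.Agent.ZC.Chern

/-! # ZC : typical positions for a finite set of colours -/

set_option autoImplicit false

open Finset

namespace Pool.Agent.ZT

/-- all entries of a tuple in `U` -/
theorem typf_all {V : Type} [Fintype V] (U : Finset V) (N : ℕ) :
    cnt (fun y : Fin N → V => ∀ i, y i ∈ U) = U.card ^ N := by
  classical
  rw [cnt_eq_card]
  have h : (univ.filter fun y : Fin N → V => ∀ i, y i ∈ U) = Fintype.piFinset (fun _ => U) := by
    ext y
    simp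
  rw [h, Fintype.card_piFinset_const]

/-- a union bound -/
theorem typf_union {S ι : Type} [Fintype S] (F : Finset ι) (A G : S → Prop) (B : ι → S → Prop)
    (h : ∀ s, A s → G s ∨ ∃ a ∈ F, B a s) : (cnt A : ℝ) ≤ cnt G + ∑ a ∈ F, (cnt (B a) : ℝ) := by
  classical
  have h1 : cnt A ≤ cnt G + ∑ a ∈ F, cnt (B a) := by
    simp only [cnt_eq_card]
    have h2 : univ.filter A ⊆ univ.filter G ∪ F.biUnion (fun a => univ.filter (B a)) := by
      intro s hs
      simp only [mem_filter, mem_univ, true_and, mem_union, mem_biUnion] at hs ⊢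
      exact h s hs
    refine (card_le_card h2).trans ((card_union_le _ _).trans ?_)
    exact Nat.add_le_add_left card_biUnion_le _
  exact_mod_cast h1

/-- the number of pairs inside `U` of colour `a` -/
theorem typf_pairs {m : ℕ} {V : Type} [Fintype V] (c : V → V → ZMod m) (U : Finset V) (a : ZMod m) :
    (cnt (fun q : V × V => q.1 ∈ U ∧ q.2 ∈ U ∧ c q.1 q.2 = a) : ℝ) ≤
      ∑ x ∈ U, (cnt (fun v => c v x = a) : ℝ) := by
  classical
  rw [cnt_eq_sum, Fintype.sum_prod_type_right]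
  have h1 : ∀ x : V, ∑ v : V, (if v ∈ U ∧ x ∈ U ∧ c v x = a then (1 : ℝ) else 0) ≤
      if x ∈ U then (cnt (fun v => c v x = a) : ℝ) else 0 := by
    intro x
    by_cases hx : x ∈ U
    · rw [if_pos hx, cnt_eq_sum]
      refine sum_le_sum fun v _ => ?_
      split_ifs with h2 h3 h3
      · exact le_rfl
      · exact absurd h2.2.2 h3
      · exact zero_le_one
      · exact le_rfl
    · rw [if_neg hx]
      refine (sum_eq_zero fun v _ => ?_).le
      rw [if_neg]
      exact fun h2 => hx h2.2.1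
  refine (sum_le_sum fun x _ => h1 x).trans ?_
  rw [← sum_filter]
  have h2 : univ.filter (fun x => x ∈ U) = U := by
    ext x
    simp
  rw [h2]

/-- the neighbours of a tuple -/
theorem typf_tuple {m : ℕ} {V : Type} [Fintype V] (c : V → V → ZMod m) (a : ZMod m) {N : ℕ} (y : Fin N → V) :
    (cnt (fun s : Fin N × V => c s.2 (y s.1) = a) : ℝ) = ∑ i, (cnt (fun v => c v (y i) = a) : ℝ) := by
  classical
  rw [cnt_eq_sum, Fintype.sum_prod_type]
  refine sum_congr rfl fun i _ => ?_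
  rw [cnt_eq_sum]

/-- Typical positions for a finite set of heavy colours.

PROOF.  Let `n = card V`.  For `a ∈ F` let `g x = #{v | c v x = a}/n ∈ [0,1]`;
`∑_{x ∈ U} g x ≥ cnt (q.1 ∈ U, q.2 ∈ U, c = a)/n ≥ κ n ≥ κ |U|`.  `chern_lower` (`μ = κ`, `b = 1`):
`∑ g (y i) ≤ N κ/2` for at most `e^{-Nκ/8} |U|^N` tuples in `U`.  Union over `F`. -/
theorem typF {m : ℕ} {V : Type} [Fintype V] (c : V → V → ZMod m) (hc : ∀ x y, c x y = c y x)
    (U : Finset V) (F : Finset (ZMod m)) (κ : ℝ) (hκ : 0 < κ)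
    (hF : ∀ a ∈ F, κ * (Fintype.card V : ℝ) ^ 2 ≤
      cnt (fun q : V × V => q.1 ∈ U ∧ q.2 ∈ U ∧ c q.1 q.2 = a)) (N : ℕ)
    (hN : (F.card : ℝ) * Real.exp (-(N * κ / 8)) ≤ 1 / 2) :
    1 / 2 * (U.card : ℝ) ^ N ≤ cnt (fun y : Fin N → V => (∀ i, y i ∈ U) ∧ ∀ a ∈ F,
      κ / 2 * ((N : ℝ) * Fintype.card V) ≤ cnt (fun s : Fin N × V => c s.2 (y s.1) = a)) := by
  classical
  set n : ℝ := (Fintype.card V : ℝ) with hn
  have hn0 : 0 ≤ n := Nat.cast_nonneg _
  -- the relative frequencies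
  set g : ZMod m → V → ℝ := fun a x => (cnt (fun v => c v x = a) : ℝ) / n with hg
  have hg0 : ∀ a, ∀ x ∈ U, 0 ≤ g a x := fun a x _ => div_nonneg (Nat.cast_nonneg _) hn0
  have hg1 : ∀ a, ∀ x ∈ U, g a x ≤ 1 := by
    intro a x _
    refine div_le_one_of_le₀ ?_ hn0
    rw [hn]
    exact_mod_cast cnt_le_card _
  have hU : (U.card : ℝ) ≤ n := by
    rw [hn]
    exact_mod_cast card_le_univ U
  have hsum : ∀ a ∈ F, κ * U.card ≤ ∑ x ∈ U, g a x := by
    intro a ha
    have h1 : ∑ x ∈ U, g a x = (∑ x ∈ U, (cnt (fun v => c v x = a) : ℝ)) / n := by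
      rw [sum_div]
    rw [h1]
    rcases hn0.lt_or_eq with h0 | h0
    · rw [le_div_iff₀ h0]
      have h2 := hF a ha
      have h3 := typf_pairs c U a
      have h4 : κ * U.card * n ≤ κ * n ^ 2 := by
        have h5 : (U.card : ℝ) * n ≤ n * n := mul_le_mul_of_nonneg_right hU hn0
        have h6 := mul_le_mul_of_nonneg_left h5 hκ.le
        calc κ * U.card * n = κ * (U.card * n) := by ring
          _ ≤ κ * (n * n) := h6
          _ = κ * n ^ 2 := by ring
      linarith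
    · have h2 : (U.card : ℝ) = 0 := le_antisymm (by rw [← h0] at hU; exact hU) (Nat.cast_nonneg _)
      rw [h2, ← h0]
      simp
  have hbad : ∀ a ∈ F, (cnt (fun y : Fin N → V => (∀ i, y i ∈ U) ∧ ∑ i, g a (y i) ≤ N * κ / 2) : ℝ) ≤
      Real.exp (-(N * κ / 8)) * (U.card : ℝ) ^ N := by
    intro a ha
    have h1 := chern_lower U (g a) 1 κ one_pos hκ.le (hg0 a) (hg1 a) (hsum a ha) N
    rwa [mul_one] at h1
  have hcov : ∀ y : Fin N → V, (∀ i, y i ∈ U) → ((∀ i, y i ∈ U) ∧ ∀ a ∈ F,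
      κ / 2 * ((N : ℝ) * n) ≤ cnt (fun s : Fin N × V => c s.2 (y s.1) = a)) ∨
      ∃ a ∈ F, ((∀ i, y i ∈ U) ∧ ∑ i, g a (y i) ≤ N * κ / 2) := by
    intro y hy
    by_cases h : ∃ a ∈ F, ∑ i, g a (y i) ≤ N * κ / 2
    · right
      obtain ⟨a, ha, h1⟩ := h
      exact ⟨a, ha, hy, h1⟩
    · left
      push Not at h
      refine ⟨hy, fun a ha => ?_⟩
      have h1 := h a ha
      rw [typf_tuple]
      rcases hn0.lt_or_eq with h0 | h0
      · have h2 : ∑ i, g a (y i) = (∑ i, (cnt (fun v => c v (y i) = a) : ℝ)) / n := by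
          rw [sum_div]
        rw [h2, lt_div_iff₀ h0] at h1
        have h3 : κ / 2 * ((N : ℝ) * n) = N * κ / 2 * n := by ring
        rw [h3]
        exact h1.le
      · rw [← h0, mul_zero, mul_zero]
        exact sum_nonneg fun i _ => Nat.cast_nonneg _
  have hmain := typf_union F (fun y : Fin N → V => ∀ i, y i ∈ U) (fun y : Fin N → V =>
    (∀ i, y i ∈ U) ∧ ∀ a ∈ F, κ / 2 * ((N : ℝ) * n) ≤ cnt (fun s : Fin N × V => c s.2 (y s.1) = a))
    (fun a y => (∀ i, y i ∈ U) ∧ ∑ i, g a (y i) ≤ N * κ / 2) hcov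
  rw [typf_all] at hmain
  push_cast at hmain
  have hb : ∑ a ∈ F, (cnt (fun y : Fin N → V => (∀ i, y i ∈ U) ∧ ∑ i, g a (y i) ≤ N * κ / 2) : ℝ) ≤
      1 / 2 * (U.card : ℝ) ^ N := by
    calc ∑ a ∈ F, (cnt (fun y : Fin N → V => (∀ i, y i ∈ U) ∧ ∑ i, g a (y i) ≤ N * κ / 2) : ℝ)
        ≤ ∑ _a ∈ F, Real.exp (-(N * κ / 8)) * (U.card : ℝ) ^ N := sum_le_sum hbad
      _ = (F.card : ℝ) * Real.exp (-(N * κ / 8)) * (U.card : ℝ) ^ N := by
          rw [sum_const, nsmul_eq_mul, mul_assoc]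
      _ ≤ 1 / 2 * (U.card : ℝ) ^ N := mul_le_mul_of_nonneg_right hN (by positivity)
  linarith

end Pool.Agent.ZT
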