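import Pool.Agent.ZC.CHFin
import Pool.Agent.ZC.TypF

/-! # ZC : the cover case, every modulus -/

set_option autoImplicit false

open Finset

namespace Pool.Agent.ZT

theorem cover_cnt_pi {T : Type} [Fintype T] (J : ℕ) (P : Fin J → T → Prop) :
    cnt (fun s : Fin J → T => ∀ j, P j (s j)) = ∏ j, cnt (P j) := by
  classical
  rw [cnt_eq_card]
  have h : (univ.filter fun s : Fin J → T => ∀ j, P j (s j)) = Fintype.piFinset fun j => univ.filter (P j) := by
    ext s
    simp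
  rw [h, Fintype.card_piFinset]
  refine prod_congr rfl ?_
  intro j _
  rw [cnt_eq_card]

theorem cover_card {m : ℕ} {V : Type} [Fintype V] (c : V → V → ZMod m) (U : Finset V) (F : Finset (ZMod m))
    (κ : ℝ) (hF : ∀ a ∈ F, κ * (Fintype.card V : ℝ) ^ 2 ≤
      cnt (fun q : V × V => q.1 ∈ U ∧ q.2 ∈ U ∧ c q.1 q.2 = a)) :
    (F.card : ℝ) * (κ * (Fintype.card V : ℝ) ^ 2) ≤ (Fintype.card V : ℝ) ^ 2 := by
  classical
  have h1 : ∀ a ∈ F, κ * (Fintype.card V : ℝ) ^ 2 ≤
      (((univ : Finset (V × V)).filter (fun q => c q.1 q.2 = a)).card : ℝ) := by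
    intro a ha
    refine le_trans (hF a ha) ?_
    have h2 : cnt (fun q : V × V => q.1 ∈ U ∧ q.2 ∈ U ∧ c q.1 q.2 = a) ≤ cnt (fun q : V × V => c q.1 q.2 = a) :=
      cnt_mono fun q hq => hq.2.2
    rw [cnt_eq_card (fun q : V × V => c q.1 q.2 = a)] at h2
    exact_mod_cast h2
  have h2 := Finset.sum_le_sum h1
  rw [Finset.sum_const, nsmul_eq_mul] at h2
  refine le_trans h2 ?_
  have h3 : ∑ a ∈ F, ((univ : Finset (V × V)).filter (fun q => c q.1 q.2 = a)).card ≤ Fintype.card V ^ 2 := by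
    rw [← Finset.card_biUnion]
    · refine le_trans (card_le_univ _) ?_
      rw [Fintype.card_prod, sq]
    · intro a _ b _ hab
      rw [Function.onFun, Finset.disjoint_left]
      intro q hq hq'
      simp only [mem_filter, mem_univ, true_and] at hq hq'
      exact hab (hq.symm.trans hq')
  exact_mod_cast h3

theorem cover_dense {m : ℕ} {V : Type} [Fintype V] (c : V → V → ZMod m) (U : Finset V) (F : Finset (ZMod m))
    (hU : 99 / 100 * (Fintype.card V : ℝ) ≤ U.card)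
    (hdeg : ∀ x ∈ U, 99 / 100 * (Fintype.card V : ℝ) ≤ cnt (fun y : V => y ∈ U ∧ c x y ∈ F)) :
    9 / 10 * (Fintype.card V : ℝ) ^ 2 ≤ cnt (fun q : V × V => q.1 ∈ U ∧ q.2 ∈ U ∧ c q.1 q.2 ∈ (F : Set (ZMod m))) := by
  classical
  have h1 : (cnt (fun q : V × V => q.1 ∈ U ∧ q.2 ∈ U ∧ c q.1 q.2 ∈ (F : Set (ZMod m))) : ℝ) =
      ∑ x ∈ U, (cnt (fun y : V => y ∈ U ∧ c x y ∈ F) : ℝ) := by
    rw [cnt_eq_sum, Fintype.sum_prod_type, ← Finset.sum_filter_add_sum_filter_not univ (fun x => x ∈ U)]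
    have h2 : ∑ x ∈ univ.filter (fun x => ¬ x ∈ U), ∑ y : V, (if (x, y).1 ∈ U ∧ (x, y).2 ∈ U ∧
        c (x, y).1 (x, y).2 ∈ (F : Set (ZMod m)) then (1 : ℝ) else 0) = 0 := by
      refine Finset.sum_eq_zero ?_
      intro x hx
      refine Finset.sum_eq_zero ?_
      intro y _
      rw [if_neg]
      intro h
      exact (mem_filter.mp hx).2 h.1
    rw [h2, add_zero]
    have h3 : univ.filter (fun x => x ∈ U) = U := by
      ext x
      simp
    rw [h3]
    refine sum_congr rfl ?_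
    intro x hx
    rw [cnt_eq_sum]
    refine sum_congr rfl ?_
    intro y _
    simp only [hx, true_and, Finset.mem_coe]
  rw [h1]
  have hn : (0 : ℝ) ≤ Fintype.card V := by positivity
  calc 9 / 10 * (Fintype.card V : ℝ) ^ 2 ≤ (99 / 100 * (Fintype.card V : ℝ)) * (99 / 100 * (Fintype.card V : ℝ)) := by nlinarith
    _ ≤ (U.card : ℝ) * (99 / 100 * (Fintype.card V : ℝ)) := mul_le_mul_of_nonneg_right hU (by positivity)
    _ = ∑ x ∈ U, (99 / 100 * (Fintype.card V : ℝ)) := by rw [Finset.sum_const, nsmul_eq_mul]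
    _ ≤ _ := Finset.sum_le_sum hdeg

/-- The cover case.

PROOF.  `n = card V > 0` may be assumed (for `n = 0` the left side is `0`).  `|F| κ ≤ 1` (disjoint sets of
pairs), so `κ ≤ 1`.  `η = min (1/1000) (1/(100 (1 + log (2/κ))))`; `J = ⌈η m⌉ ≤ N = ⌈m/1000⌉`.  `ch_fin` with `X = F`,
`K = closure (F - x0)`, `w = (κ/2)^J ≥ e^{-m/50}`.  The density hypothesis: `U × U` contains at least
`|U| (99/100) n ≥ (9/10) n^2` pairs with colour in `F`.  For `y` from `typF` and `τ - J x0 ∈ K` take `γ` with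
`∑ γ = τ`; the number of `s` with `c (s j).2 (y (s j).1) = γ j` for all `j` is a product of `J` factors
`≥ κ/2 · N n`. -/
theorem cover_case (κ : ℝ) (hκ : 0 < κ) : ∃ η > (0 : ℝ), ∃ m0 : ℕ, ∀ m ≥ m0, ∀ J : ℕ, J = ⌈η * m⌉₊ →
    ∀ (V : Type) [Fintype V] (c : V → V → ZMod m), (∀ x y, c x y = c y x) →
    ∀ (U : Finset V) (F : Finset (ZMod m)), 99 / 100 * (Fintype.card V : ℝ) ≤ U.card →
    (∀ x ∈ U, 99 / 100 * (Fintype.card V : ℝ) ≤ cnt (fun y : V => y ∈ U ∧ c x y ∈ F)) →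
    (∀ a ∈ F, κ * (Fintype.card V : ℝ) ^ 2 ≤
      cnt (fun q : V × V => q.1 ∈ U ∧ q.2 ∈ U ∧ c q.1 q.2 = a)) →
    ∀ x0 ∈ F, (∀ τ ∈ AddSubgroup.closure ((fun x => x - x0) '' (F : Set (ZMod m))),
      ∃ γ : Fin J → ZMod m, (∀ j, γ j ∈ F) ∧ ∑ j, γ j = J • x0 + τ) →
    (3 / 5 : ℝ) ^ m * ((m + 1 : ℕ) : ℝ) ^ (m - 1) * (Fintype.card V : ℝ) ^ (m + 1) ≤ NN c m 0 := by
  obtain ⟨m1, h1⟩ := ch_fin
  set L : ℝ := 1 + max 0 (Real.log (2 / κ)) with hL
  have hL1 : 1 ≤ L := by
    rw [hL]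
    have := le_max_left 0 (Real.log (2 / κ))
    linarith
  have hL2 : Real.log (2 / κ) ≤ L := by
    rw [hL]
    have := le_max_right 0 (Real.log (2 / κ))
    linarith
  have hL0 : 0 < L := by linarith
  refine ⟨min (1 / 1000) (1 / (100 * L)), by positivity, max m1 (max ⌈100 * L⌉₊ ⌈16000 / κ ^ 2⌉₊), ?_⟩
  intro m hm J hJ V _ c hc U F hU hdeg hF x0 hx0 hγ
  have hm1 : m1 ≤ m := le_trans (le_max_left _ _) hm
  have hm2 : 100 * L ≤ m := by
    have h : ⌈100 * L⌉₊ ≤ m := le_trans (le_trans (le_max_left _ _) (le_max_right _ _)) hm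
    exact le_trans (Nat.le_ceil _) (by exact_mod_cast h)
  have hm3 : 16000 / κ ^ 2 ≤ m := by
    have h : ⌈16000 / κ ^ 2⌉₊ ≤ m := le_trans (le_trans (le_max_right _ _) (le_max_right _ _)) hm
    exact le_trans (Nat.le_ceil _) (by exact_mod_cast h)
  have hmpos : (0 : ℝ) < m := by
    have : 0 < 16000 / κ ^ 2 := by positivity
    linarith
  rcases Nat.eq_zero_or_pos (Fintype.card V) with hV | hV
  · rw [hV]
    have : ((0 : ℕ) : ℝ) ^ (m + 1) = 0 := by
      rw [Nat.cast_zero]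
      exact zero_pow (Nat.succ_ne_zero m)
    rw [this, mul_zero]
    positivity
  have hn0 : (0 : ℝ) < Fintype.card V := by exact_mod_cast hV
  have hcard := cover_card c U F κ hF
  have hFκ : (F.card : ℝ) * κ ≤ 1 := by
    rw [← mul_assoc] at hcard
    have h2 : (0 : ℝ) < (Fintype.card V : ℝ) ^ 2 := by positivity
    by_contra h
    push Not at h
    nlinarith
  have hF1 : (1 : ℝ) ≤ F.card := by
    have : 0 < F.card := Finset.card_pos.mpr ⟨x0, hx0⟩
    exact_mod_cast this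
  have hκ1 : κ ≤ 1 := by nlinarith
  set N : ℕ := ⌈(m : ℝ) / 1000⌉₊ with hN
  have hNm : (m : ℝ) / 1000 ≤ N := Nat.le_ceil _
  have hJN : J ≤ N := by
    rw [hJ, hN]
    refine Nat.ceil_mono ?_
    have := min_le_left (1 / 1000 : ℝ) (1 / (100 * L))
    calc min (1 / 1000 : ℝ) (1 / (100 * L)) * m ≤ 1 / 1000 * m := mul_le_mul_of_nonneg_right this hmpos.le
      _ = (m : ℝ) / 1000 := by ring
  have hJ2 : (J : ℝ) ≤ m / (100 * L) + 1 := by
    have h3 := Nat.ceil_lt_add_one (show (0 : ℝ) ≤ min (1 / 1000 : ℝ) (1 / (100 * L)) * m by positivity)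
    rw [← hJ] at h3
    have := min_le_right (1 / 1000 : ℝ) (1 / (100 * L))
    have h4 : min (1 / 1000 : ℝ) (1 / (100 * L)) * m ≤ 1 / (100 * L) * m := mul_le_mul_of_nonneg_right this hmpos.le
    have h5 : 1 / (100 * L) * m = m / (100 * L) := by ring
    linarith
  have hw : Real.exp (-((m : ℝ) / 50)) ≤ (κ / 2) ^ J := by
    have h3 : κ / 2 = Real.exp (-Real.log (2 / κ)) := by
      rw [Real.exp_neg, Real.exp_log (by positivity), inv_div]
    rw [h3, ← Real.exp_nat_mul]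
    refine Real.exp_le_exp.mpr ?_
    have h4 : (J : ℝ) * Real.log (2 / κ) ≤ m / 50 := by
      have h5 : (J : ℝ) * L ≤ m / 50 := by
        calc (J : ℝ) * L ≤ (m / (100 * L) + 1) * L := mul_le_mul_of_nonneg_right hJ2 hL0.le
          _ = m / 100 + L := by field_simp
          _ ≤ m / 50 := by linarith
      exact le_trans (mul_le_mul_of_nonneg_left hL2 (by positivity)) h5
    linarith
  have hNF : (F.card : ℝ) * Real.exp (-(N * κ / 8)) ≤ 1 / 2 := by
    have h3 : (F.card : ℝ) ≤ 1 / κ := by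
      rw [le_div_iff₀ hκ]
      exact hFκ
    have hy0 : 0 < (N : ℝ) * κ / 8 := by
      have : (0 : ℝ) < N := lt_of_lt_of_le (by positivity) hNm
      positivity
    have h4 : Real.exp (-(N * κ / 8)) ≤ 1 / (N * κ / 8) := by
      rw [Real.exp_neg, ← one_div]
      refine one_div_le_one_div_of_le hy0 ?_
      have := Real.add_one_le_exp ((N : ℝ) * κ / 8)
      linarith
    calc (F.card : ℝ) * Real.exp (-(N * κ / 8)) ≤ 1 / κ * (1 / (N * κ / 8)) :=
          mul_le_mul h3 h4 (Real.exp_pos _).le (by positivity)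
      _ ≤ 1 / 2 := by
        have hm3' : 16000 ≤ m * κ ^ 2 := by
          rw [div_le_iff₀ (by positivity)] at hm3
          exact hm3
        have h6 : (16 : ℝ) ≤ N * κ ^ 2 := by
          have : (m : ℝ) / 1000 * κ ^ 2 ≤ N * κ ^ 2 := mul_le_mul_of_nonneg_right hNm (by positivity)
          linarith
        have h7 : 1 / κ * (1 / (N * κ / 8)) = 8 / (N * κ ^ 2) := by
          field_simp
        rw [h7, div_le_div_iff₀ (by nlinarith) (by norm_num)]
        linarith
  have hty := typF c hc U F κ hκ hF N hNF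
  refine h1 m hm1 V c hc (F : Set (ZMod m)) (AddSubgroup.closure ((fun x => x - x0) '' (F : Set (ZMod m)))) x0
    (fun a ha => AddSubgroup.subset_closure ⟨a, ha, rfl⟩) U (by linarith) ?_ (cover_dense c U F hU hdeg) N J
    ((κ / 2) ^ J) hN hJN hw ?_
  · intro x hx
    refine le_trans ?_ (le_trans (hdeg x hx) ?_)
    · linarith
    · have h3 : cnt (fun y : V => y ∈ U ∧ c x y ∈ F) ≤ cnt (fun y : V => c x y ∈ (F : Set (ZMod m))) :=
        cnt_mono fun y hy => Finset.mem_coe.mpr hy.2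
      exact_mod_cast h3
  · refine le_trans hty ?_
    have : cnt (fun y : Fin N → V => (∀ i, y i ∈ U) ∧ ∀ a ∈ F,
        κ / 2 * ((N : ℝ) * Fintype.card V) ≤ cnt (fun s : Fin N × V => c s.2 (y s.1) = a)) ≤
        cnt (fun y : Fin N → V => (∀ i, y i ∈ U) ∧
      ∀ τ : ZMod m, τ - J • x0 ∈ AddSubgroup.closure ((fun x => x - x0) '' (F : Set (ZMod m))) →
        1 / 2 * (κ / 2) ^ J * ((N : ℝ) * Fintype.card V) ^ J ≤
        cnt (fun s : Fin J → Fin N × V => ∑ j, c (s j).2 (y (s j).1) = τ)) := by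
      refine cnt_mono ?_
      rintro y ⟨hy1, hy2⟩
      refine ⟨hy1, ?_⟩
      intro τ hτ
      obtain ⟨γ, hγF, hγs⟩ := hγ _ hτ
      have hγs' : ∑ j, γ j = τ := by rw [hγs]; abel
      have h3 : cnt (fun s : Fin J → Fin N × V => ∀ j, c (s j).2 (y (s j).1) = γ j) ≤
          cnt (fun s : Fin J → Fin N × V => ∑ j, c (s j).2 (y (s j).1) = τ) := by
        refine cnt_mono ?_
        intro s hs
        rw [← hγs']
        exact sum_congr rfl fun j _ => hs j
      have h4 : ((cnt (fun s : Fin J → Fin N × V => ∀ j, c (s j).2 (y (s j).1) = γ j) : ℕ) : ℝ) =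
          ∏ j : Fin J, (cnt (fun s : Fin N × V => c s.2 (y s.1) = γ j) : ℝ) := by
        rw [cover_cnt_pi J (fun j (s : Fin N × V) => c s.2 (y s.1) = γ j)]
        push_cast
        rfl
      have h5 : (κ / 2 * ((N : ℝ) * Fintype.card V)) ^ J ≤
          ∏ j : Fin J, (cnt (fun s : Fin N × V => c s.2 (y s.1) = γ j) : ℝ) := by
        calc (κ / 2 * ((N : ℝ) * Fintype.card V)) ^ J = ∏ _j : Fin J, (κ / 2 * ((N : ℝ) * Fintype.card V)) := by
              rw [Finset.prod_const, card_univ, Fintype.card_fin]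
          _ ≤ _ := by
            refine Finset.prod_le_prod (fun _ _ => by positivity) ?_
            intro j _
            exact hy2 (γ j) (hγF j)
      calc 1 / 2 * (κ / 2) ^ J * ((N : ℝ) * Fintype.card V) ^ J
          ≤ (κ / 2) ^ J * ((N : ℝ) * Fintype.card V) ^ J := by
            refine mul_le_mul_of_nonneg_right ?_ (by positivity)
            have : 0 ≤ (κ / 2) ^ J := by positivity
            linarith
        _ = (κ / 2 * ((N : ℝ) * Fintype.card V)) ^ J := (mul_pow _ _ _).symm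
        _ ≤ _ := h5
        _ = _ := h4.symm
        _ ≤ _ := by exact_mod_cast h3
    exact_mod_cast this

end Pool.Agent.ZT
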