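import Pool.Agent.ZT.Far2

/-! # ZC : case (b) for one difference `g` -/

set_option autoImplicit false

open Finset

namespace Pool.Agent.ZT

/-- `far_level` (ZT/Far1.lean, complete) with the hypothesis on the third mass only for pairs `b, b + g`.

PROOF.  Copy the proof of `far_level`.  The hypothesis is used once, for
`b = x0 + k g`, `b' = x0 + (k+1) g` (with `k.toNat`); for `k ≥ 0` this is the pair `b, b + g`; for `k < 0` use the
pair `x0, x0 + g` (the integers `a x` are `≥ 0`, so only `a x = 0 = k + 1` is possible, with colour `x0`). -/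
theorem far_level2 {V : Type} [Fintype V] (hV : 0 < Fintype.card V) {m : ℕ} (c : V → V → ZMod m)
    (δ : ℝ) (hδ : 0 < δ) (hδ1 : δ ≤ 1) (x0 g : ZMod m)
    (h3 : ∀ b : ZMod m, δ * (Fintype.card V : ℝ) ^ 2 ≤
      cnt (fun q : V × V => c q.1 q.2 ≠ b ∧ c q.1 q.2 ≠ b + g))
    (U : Finset V) (hU : (1 - δ / 100) * Fintype.card V ≤ U.card) (F : Finset (ZMod m))
    (hdeg : ∀ x ∈ U, (1 - δ / 100) * Fintype.card V ≤ cnt (fun y : V => y ∈ U ∧ c x y ∈ F))
    (a : ZMod m → ℕ) (ha : ∀ x ∈ F, x = x0 + (a x : ZMod m) * g) :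
    (∃ x ∈ F, (1 / 2 + δ / 10) * (Fintype.card V : ℝ) ^ 2 ≤ cnt (fun q : V × V => c q.1 q.2 = x)) ∨
    (∃ t : ℕ, 0 < t ∧ (∃ x ∈ F, t < a x) ∧ ∀ θ : ℝ, (1 / 2 + δ / 10) * (Fintype.card V : ℝ) ^ 2 ≤
      ∑ x ∈ F, (cnt (fun q : V × V => q.1 ∈ U ∧ q.2 ∈ U ∧ c q.1 q.2 = x) : ℝ) *
          Real.exp (θ * ((a x : ℤ) - (t : ℤ) : ℤ))) := by
  classical
  by_cases hfirst : ∃ x ∈ F, (1 / 2 + δ / 10) * (Fintype.card V : ℝ) ^ 2 ≤
      cnt (fun q : V × V => c q.1 q.2 = x)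
  · exact Or.inl hfirst
  right
  push Not at hfirst
  set n : ℝ := (Fintype.card V : ℝ) with hn
  have hn0 : 0 < n := by rw [hn]; exact_mod_cast hV
  set lam : ZMod m → ℝ := fun x => (cnt (fun q : V × V => q.1 ∈ U ∧ q.2 ∈ U ∧ c q.1 q.2 = x) : ℝ)
    with hlam
  have hlam0 : ∀ x, 0 ≤ lam x := fun x => Nat.cast_nonneg _
  have hfib : ∀ T : Finset (ZMod m), ∑ x ∈ T, lam x =
      cnt (fun q : V × V => (q.1 ∈ U ∧ q.2 ∈ U) ∧ c q.1 q.2 ∈ T) := by
    intro T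
    rw [← far1_fiber]
    refine sum_congr rfl fun x _ => ?_
    exact congrArg (Nat.cast : ℕ → ℝ) (cnt_congr fun q => and_assoc.symm)
  set L : ℝ := ∑ x ∈ F, lam x with hL
  -- lower bound of `L`
  have hLlow : (1 - δ / 50) * n ^ 2 ≤ L := by
    rw [hL, hfib F, far1_prod (S := V) (T := V) (fun x y => (x ∈ U ∧ y ∈ U) ∧ c x y ∈ F)]
    have h1 : ∑ x ∈ U, ((1 - δ / 100) * n) ≤
        ∑ x, (cnt (fun y : V => (x ∈ U ∧ y ∈ U) ∧ c x y ∈ F) : ℝ) := by
      calc ∑ x ∈ U, ((1 - δ / 100) * n) ≤ ∑ x ∈ U, (cnt (fun y : V => (x ∈ U ∧ y ∈ U) ∧ c x y ∈ F) : ℝ) := by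
            refine sum_le_sum fun x hx => (hdeg x hx).trans (Nat.cast_le.2 ?_)
            exact cnt_mono fun y hy => ⟨⟨hx, hy.1⟩, hy.2⟩
        _ ≤ _ := sum_le_sum_of_subset_of_nonneg (subset_univ _) fun _ _ _ => Nat.cast_nonneg _
    refine le_trans ?_ h1
    rw [sum_const, nsmul_eq_mul]
    have h2 : 0 ≤ (1 - δ / 100) * n := mul_nonneg (by linarith) hn0.le
    calc (1 - δ / 50) * n ^ 2 ≤ ((1 - δ / 100) * n) * ((1 - δ / 100) * n) := by nlinarith [sq_nonneg (δ * n)]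
      _ ≤ (U.card : ℝ) * ((1 - δ / 100) * n) := mul_le_mul_of_nonneg_right hU h2
  have hLpos : 0 < L := lt_of_lt_of_le (mul_pos (by linarith) (by positivity)) hLlow
  -- the colour is determined by the integer
  have hinj : ∀ x ∈ F, ∀ y ∈ F, a x = a y → x = y := by
    intro x hx y hy h
    rw [ha x hx, ha y hy, h]
  -- two adjacent integers
  have hadj : ∀ k : ℤ, 49 / 50 * δ * L ≤ sm (fun i : F => (a i : ℤ) ≠ k ∧ (a i : ℤ) ≠ k + 1) (fun i => lam i) := by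
    intro k
    have e1 : sm (fun i : F => (a i : ℤ) ≠ k ∧ (a i : ℤ) ≠ k + 1) (fun i => lam i) =
        ∑ x ∈ F.filter (fun x => (a x : ℤ) ≠ k ∧ (a x : ℤ) ≠ k + 1), lam x := by
      rw [sm_eq, sum_filter, sum_filter,
        sum_coe_sort F (fun x => if (a x : ℤ) ≠ k ∧ (a x : ℤ) ≠ k + 1 then lam x else 0)]
    rw [e1, hfib]
    set b : ZMod m := x0 + ((k.toNat : ℕ) : ZMod m) * g with hb
    set b' : ZMod m := b + g with hb'
    have h5 : cnt (fun q : V × V => (q.1 ∈ U ∧ q.2 ∈ U) ∧ c q.1 q.2 ∈ F) ≤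
        cnt (fun q : V × V => (q.1 ∈ U ∧ q.2 ∈ U) ∧ c q.1 q.2 ∈
          F.filter (fun x => (a x : ℤ) ≠ k ∧ (a x : ℤ) ≠ k + 1)) +
        cnt (fun q : V × V => ¬ (c q.1 q.2 ≠ b ∧ c q.1 q.2 ≠ b')) := by
      refine far1_or fun q hq => ?_
      by_cases h6 : (a (c q.1 q.2) : ℤ) ≠ k ∧ (a (c q.1 q.2) : ℤ) ≠ k + 1
      · left
        exact ⟨hq.1, mem_filter.2 ⟨hq.2, h6⟩⟩
      · right
        rw [not_and_or, not_not, not_not] at h6 ⊢
        rcases h6 with h6 | h6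
        · left
          rw [hb, ← h6, Int.toNat_natCast]
          exact ha _ hq.2
        · by_cases hk : 0 ≤ k
          · right
            have e2 : a (c q.1 q.2) = k.toNat + 1 := by omega
            rw [hb', hb, ha _ hq.2, e2, Nat.cast_add, Nat.cast_one, add_mul, one_mul, add_assoc]
          · left
            have e2 : a (c q.1 q.2) = 0 := by omega
            have e3 : k.toNat = 0 := by omega
            rw [hb, e3, ha _ hq.2, e2]
    have h6 := cnt_add_not (fun q : V × V => c q.1 q.2 ≠ b ∧ c q.1 q.2 ≠ b')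
    have h7 := h3 b
    have h8 : (Fintype.card (V × V) : ℝ) = n ^ 2 := by
      rw [Fintype.card_prod, hn]
      push_cast
      ring
    have h5' : L ≤ (cnt (fun q : V × V => (q.1 ∈ U ∧ q.2 ∈ U) ∧ c q.1 q.2 ∈
          F.filter (fun x => (a x : ℤ) ≠ k ∧ (a x : ℤ) ≠ k + 1)) : ℝ) +
        (cnt (fun q : V × V => ¬ (c q.1 q.2 ≠ b ∧ c q.1 q.2 ≠ b')) : ℝ) := by
      rw [hL, hfib F]
      exact_mod_cast h5
    have h6' : (cnt (fun q : V × V => c q.1 q.2 ≠ b ∧ c q.1 q.2 ≠ b') : ℝ) +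
        (cnt (fun q : V × V => ¬ (c q.1 q.2 ≠ b ∧ c q.1 q.2 ≠ b')) : ℝ) = n ^ 2 := by
      rw [← h8, ← h6]
      push_cast
      ring
    have h9 : (1 - δ) * n ^ 2 ≤ L * (1 - 49 / 50 * δ) := by
      have h10 : (1 - δ / 50) * n ^ 2 * (1 - 49 / 50 * δ) ≤ L * (1 - 49 / 50 * δ) :=
        mul_le_mul_of_nonneg_right hLlow (by linarith)
      nlinarith [sq_nonneg (δ * n)]
    linarith
  obtain ⟨t, ht⟩ := level (ι := F) (fun i => lam i) (fun i => hlam0 _) (fun i => (a i : ℤ)) L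
    (49 / 50 * δ) (sum_coe_sort F lam) hLpos (by positivity) hadj
  have hnum : (1 / 2 + δ / 10) * n ^ 2 ≤ min (3 / 4) (1 / 2 + 49 / 50 * δ / 8) * L := by
    have h1 : 1 / 2 + δ / 10 ≤ min (3 / 4) (1 / 2 + 49 / 50 * δ / 8) * (1 - δ / 50) := by
      rw [min_mul_of_nonneg _ _ (by linarith)]
      refine le_min (by nlinarith) (by nlinarith)
    have h2 : 0 ≤ min (3 / 4 : ℝ) (1 / 2 + 49 / 50 * δ / 8) := le_min (by norm_num) (by positivity)
    calc (1 / 2 + δ / 10) * n ^ 2 ≤ (min (3 / 4) (1 / 2 + 49 / 50 * δ / 8) * (1 - δ / 50)) * n ^ 2 :=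
          mul_le_mul_of_nonneg_right h1 (by positivity)
      _ = min (3 / 4) (1 / 2 + 49 / 50 * δ / 8) * ((1 - δ / 50) * n ^ 2) := by ring
      _ ≤ _ := mul_le_mul_of_nonneg_left hLlow h2
  have hmom : ∀ θ : ℝ, (1 / 2 + δ / 10) * n ^ 2 ≤
      ∑ i : F, lam i * Real.exp (θ * (((a i : ℤ) : ℝ) - (t : ℝ))) := fun θ => hnum.trans (ht θ)
  have hpos : 0 < (1 / 2 + δ / 10) * n ^ 2 := by positivity
  obtain ⟨⟨i, hi, hti⟩, ⟨i', hi', hti'⟩⟩ := interior (ι := F) (fun i => lam i) (fun i => hlam0 _)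
    (fun i => (a i : ℤ)) (fun i i' h => Subtype.ext (hinj _ i.2 _ i'.2 (Int.ofNat_inj.1 h))) t
    ((1 / 2 + δ / 10) * n ^ 2) hpos hmom (fun i => by
      refine lt_of_le_of_lt (Nat.cast_le.2 ?_) (hfirst _ i.2)
      exact cnt_mono fun q hq => hq.2.2)
  have ht0 : 0 < t := lt_of_le_of_lt (Int.natCast_nonneg _) hti'
  obtain ⟨s, rfl⟩ := Int.eq_ofNat_of_zero_le ht0.le
  refine ⟨s, by exact_mod_cast ht0, ⟨i, i.2, by exact_mod_cast hti⟩, fun θ => ?_⟩
  have h1 := hmom θ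
  rw [sum_coe_sort F (fun x => lam x * Real.exp (θ * (((a x : ℤ) : ℝ) - ((s : ℤ) : ℝ))))] at h1
  refine h1.trans (le_of_eq ?_)
  refine sum_congr rfl fun x _ => ?_
  push_cast
  rfl

/-- `far_b` (ZT/Far2.lean, complete) with the hypothesis on the third mass only for pairs `b, b + g`
(copy the proof, `far_level2` instead of `far_level`). -/
theorem far_b2 (δ : ℝ) (hδ : 0 < δ) (hδ1 : δ ≤ 1) (κ : ℝ) (hκ : 0 < κ) (D K : ℕ) :
    ∃ m0 : ℕ, ∀ m ≥ m0, ∀ (V : Type) [Fintype V] (c : V → V → ZMod m),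
    (∀ x y, c x y = c y x) → 0 < Fintype.card V →
    ∀ x0 g : ZMod m,
    (∀ b : ZMod m, δ * (Fintype.card V : ℝ) ^ 2 ≤
      cnt (fun q : V × V => c q.1 q.2 ≠ b ∧ c q.1 q.2 ≠ b + g)) →
    ∀ (U : Finset V) (F : Finset (ZMod m)), (1 - δ / 100) * Fintype.card V ≤ U.card →
    (∀ x ∈ U, (1 - δ / 100) * Fintype.card V ≤ cnt (fun y : V => y ∈ U ∧ c x y ∈ F)) →
    (∀ a ∈ F, κ * (Fintype.card V : ℝ) ^ 2 ≤
      cnt (fun q : V × V => q.1 ∈ U ∧ q.2 ∈ U ∧ c q.1 q.2 = a)) →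
    F.card ≤ K →
    ∀ (a : ZMod m → ℕ), (∀ x ∈ F, a x ≤ D ∧ x = x0 + (a x : ZMod m) * g) →
    (∃ x ∈ F, a x = 0) → F.gcd a = 1 →
    (1 / 2 + δ / 20) ^ m * ((m + 1 : ℕ) : ℝ) ^ (m - 1) * (Fintype.card V : ℝ) ^ (m + 1) ≤
      NN c m 0 := by
  obtain ⟨C0, hC0⟩ := pattern D
  obtain ⟨C, hC, m1, hm1⟩ := int_case D K C0 κ (1 / 2 + δ / 10) hκ (by positivity) (by linarith)
  obtain ⟨m2, hm2⟩ := final_num C (1 / 2 + δ / 20) (δ / 20) hC (by positivity) (by positivity)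
  refine ⟨max m1 m2, fun m hm V _ c hc hV x0 g h3 U F hU hdeg hF hK a ha h0 hgcd => ?_⟩
  have hm1' : m1 ≤ m := (le_max_left _ _).trans hm
  have hm2' : m2 ≤ m := (le_max_right _ _).trans hm
  have hn0 : 0 < (Fintype.card V : ℝ) := by exact_mod_cast hV
  rcases far_level2 hV c δ hδ hδ1 x0 g h3 U hU F hdeg a (fun x hx => (ha x hx).2) with
    ⟨x, hx, hx'⟩ | ⟨t, ht0, ⟨x, hx, htx⟩, hmom⟩
  · -- one heavy colour
    classical
    have h1 := mono c hc x (1 / 2 + δ / 10) (by positivity) m hx'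
    have h2 : m • x = 0 := by rw [nsmul_eq_mul, ZMod.natCast_self, zero_mul]
    rw [h2] at h1
    refine le_trans ?_ h1
    have h4 : (1 / 2 + δ / 20) ^ m ≤ (1 / 2 + δ / 10) ^ m := by
      gcongr
      linarith
    calc (1 / 2 + δ / 20) ^ m * ((m + 1 : ℕ) : ℝ) ^ (m - 1) * (Fintype.card V : ℝ) ^ (m + 1)
        ≤ (1 / 2 + δ / 10) ^ m * ((m + 1 : ℕ) : ℝ) ^ (m - 1) * (Fintype.card V : ℝ) ^ (m + 1) := by
          gcongr
      _ = _ := by ring
  · -- the integer case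
    classical
    have hUne : U.Nonempty := by
      rw [nonempty_iff_ne_empty]
      rintro rfl
      rw [card_empty, Nat.cast_zero] at hU
      have : 0 < (1 - δ / 100) * (Fintype.card V : ℝ) := mul_pos (by linarith) hn0
      linarith
    have hinj : ∀ y ∈ F, ∀ z ∈ F, a y = a z → y = z := by
      intro y hy z hz h
      rw [(ha y hy).2, (ha z hz).2, h]
    have hIK : IK (ic c U F a (t : ℤ)) U D :=
      ic_IK c hc U hUne F a t D (fun y hy => (ha y hy).1) (Int.natCast_nonneg _)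
        (by exact_mod_cast htx.le.trans (ha x hx).1) (fun y hy => by
          refine le_trans ?_ (hdeg y hy)
          exact mul_le_mul_of_nonneg_right (by linarith) hn0.le)
    set I : Finset ℤ := F.image (fun y => (a y : ℤ) - (t : ℤ)) with hI
    have hIcard : I.card ≤ K := card_image_le.trans hK
    have hIden : ∀ i ∈ I, κ * (Fintype.card V : ℝ) ^ 2 ≤
        cnt (fun q : V × V => ic c U F a (t : ℤ) q.1 q.2 = (i, 0)) := by
      intro i hi
      obtain ⟨y, hy, rfl⟩ := mem_image.1 hi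
      refine (hF y hy).trans (Nat.cast_le.2 (cnt_mono fun q hq => ?_))
      obtain ⟨h1, h2, h4⟩ := hq
      unfold ic
      rw [if_pos ⟨h1, h2, by rw [h4]; exact hy⟩, h4]
    have hmoment : ∀ θ : ℝ, (1 / 2 + δ / 10) * (Fintype.card V : ℝ) ^ 2 ≤
        sm (fun q : V × V => (ic c U F a (t : ℤ) q.1 q.2).2 = 0)
          (fun q => Real.exp (θ * (ic c U F a (t : ℤ) q.1 q.2).1)) := by
      intro θ
      rw [ic_moment]
      exact hmom θ
    have hpat : ∀ (J : ℕ) (r : ℤ), |r| + C0 ≤ J →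
        ∃ ν : ℤ → ℕ, ∑ i ∈ I, ν i = J ∧ ∑ i ∈ I, (ν i : ℤ) * i = r := by
      intro J r hJ
      obtain ⟨ν, hν1, hν2⟩ := hC0 (F.image a) (fun b hb => by
          obtain ⟨y, hy, rfl⟩ := mem_image.1 hb
          exact (ha y hy).1) (by
          obtain ⟨y, hy, hy0⟩ := h0
          exact mem_image.2 ⟨y, hy, hy0⟩) (by
          rw [Finset.gcd_image, Function.id_comp]
          exact hgcd) t ht0
        ⟨a x, mem_image_of_mem _ hx, htx⟩ J r hJ
      have e : I = (F.image a).image (fun b : ℕ => (b : ℤ) - (t : ℤ)) := by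
        rw [hI, image_image]
        rfl
      have hinj2 : Set.InjOn (fun b : ℕ => (b : ℤ) - (t : ℤ)) (F.image a : Finset ℕ) := by
        intro b _ b' _ h
        have h' : (b : ℤ) - (t : ℤ) = (b' : ℤ) - (t : ℤ) := h
        omega
      refine ⟨fun i => ν (i + t).toNat, ?_, ?_⟩
      · rw [e, sum_image hinj2, ← hν1]
        refine sum_congr rfl fun b _ => ?_
        simp
      · rw [e, sum_image hinj2, ← hν2]
        refine sum_congr rfl fun b _ => ?_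
        simp
    have h1 := hm1 m hm1' V (ic c U F a (t : ℤ)) U I hIK hIcard hIden hmoment hpat
    have h2 := transfer c U F a (t : ℤ) x0 g (fun y hy => (ha y hy).2)
    have h4 : (NN (ic c U F a (t : ℤ)) m (0, 0) : ℝ) ≤ NN c m 0 := by exact_mod_cast h2
    refine le_trans ?_ (h1.trans h4)
    have h5 := hm2 m hm2'
    have h6 : (1 / 2 + δ / 20 + δ / 20 : ℝ) = 1 / 2 + δ / 10 := by ring
    rw [h6] at h5
    gcongr

end Pool.Agent.ZT
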