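import Pool.Agent.ZC.IntRaw2
import Pool.Agent.ZT.Core3

/-! # ZC : the integer case at a level `t/q`, choice of parameters -/

set_option autoImplicit false

open Finset

namespace Pool.Agent.ZT

/-- Like `int_case` (file ZT/Core4.lean, complete; copy and adapt its proof).

PROOF.  For large `m`: `b = e + 1 = ⌊√m⌋`, `k' = |I| ≤ K`,
`J0 = R + 2qDb + 2qD(b+2) + 4qDK + C0`, `M = ⌊(m - 2k' - J0)/b⌋ ≤ b + 2`, `J = m - 2k' - M b < J0 + b`; `int_raw2`
and `int_num` (with a constant `C'` such that `J0 + b ≤ C' √m`, `b + 2 ≤ C' √m`). -/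
theorem int_case2 (D K C0 q R : ℕ) (hq : 1 ≤ q) (κ h : ℝ) (hκ0 : 0 < κ) (hh0 : 0 < h) (hh1 : h ≤ 1) :
    ∃ C : ℝ, 0 < C ∧ ∃ m0 : ℕ, ∀ m ≥ m0, ∀ (V : Type) [Fintype V] (c : V → V → ℤ × ℕ) (U : Finset V)
      (I : Finset ℤ), IK c U D → I.card ≤ K →
      (∀ i ∈ I, κ * (Fintype.card V : ℝ) ^ 2 ≤ cnt (fun p : V × V => c p.1 p.2 = (i, 0))) →
      ∀ t : ℤ, |t| ≤ (q : ℤ) * D →
      (∀ θ : ℝ, h * (Fintype.card V : ℝ) ^ 2 ≤
        sm (fun p : V × V => (c p.1 p.2).2 = 0)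
          (fun p => Real.exp (θ * (((c p.1 p.2).1 : ℝ) - (t : ℝ) / q)))) →
      (∀ (J : ℕ) (r : ℤ), |(q : ℤ) * r - t * J| + C0 ≤ J →
        ∃ ν : ℤ → ℕ, ∑ i ∈ I, ν i = J ∧ ∑ i ∈ I, (ν i : ℤ) * i = r) →
      ∀ r0 : V → ℤ, (∀ y, |(q : ℤ) * r0 y - t * m| ≤ (R : ℤ)) →
      h ^ m * Real.exp (-C * Real.sqrt m * Real.log m) * ((m + 1 : ℕ) : ℝ) ^ (m - 1) *
        (Fintype.card V : ℝ) ^ (m + 1) ≤
      (m.factorial : ℝ) * (Fintype.card V : ℝ) ^ m *
        sm (fun y : V => y ∈ U) (fun y => rr c m y (r0 y, 0)) := by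
  obtain ⟨C, hC, hnum⟩ := int_num D K (R + 8 * (q * D) + 4 * (q * D) * K + C0 + 4) κ h hκ0 hh0 hh1
  set B := R + 8 * (q * D) + 2 * K + 4 * (q * D) * K + C0 + 3 with hB
  refine ⟨C, hC, (B + 1) ^ 2, fun m hm V _ c U I H hI hκ t ht hθ hpat r0 hr0 => ?_⟩
  -- `b = ⌊√m⌋`
  set b := Nat.sqrt m with hb
  have hb1 : b * b ≤ m := Nat.sqrt_le m
  have hb2 : m ≤ b * b + b + b := Nat.sqrt_le_add m
  have hBb : B + 1 ≤ b := by
    rw [hb, Nat.le_sqrt']
    exact hm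
  obtain ⟨e, he⟩ : ∃ e, b = e + 1 := ⟨b - 1, by omega⟩
  have he1 : 1 ≤ e := by omega
  have hbB : b * (B + 1) ≤ b * b := Nat.mul_le_mul_left b hBb
  set k' := I.card with hk'
  set N := q * D with hN
  set J0 := R + 2 * N * b + 2 * N * (b + 2) + 4 * N * K + C0 with hJ0
  have e1 : J0 = R + 4 * (N * b) + 4 * N + 4 * (N * K) + C0 := by rw [hJ0]; ring
  have e2 : b * (B + 1) = R * b + 8 * (N * b) + 2 * (K * b) + 4 * (N * K * b) + C0 * b + 4 * b := by
    rw [hB]; ring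
  have f0 : R ≤ R * b := Nat.le_mul_of_pos_right _ (by omega)
  have f1 : N ≤ N * b := Nat.le_mul_of_pos_right _ (by omega)
  have f2 : K ≤ K * b := Nat.le_mul_of_pos_right _ (by omega)
  have f3 : N * K ≤ N * K * b := Nat.le_mul_of_pos_right _ (by omega)
  have f4 : C0 ≤ C0 * b := Nat.le_mul_of_pos_right _ (by omega)
  have hJ0m : 2 * k' + J0 ≤ m := by omega
  obtain ⟨M, S, hS, hMS⟩ : ∃ M S, S < b ∧ m = M * b + 2 * k' + (J0 + S) := by
    refine ⟨(m - 2 * k' - J0) / b, (m - 2 * k' - J0) % b, Nat.mod_lt _ (by omega), ?_⟩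
    have := Nat.div_add_mod (m - 2 * k' - J0) b
    rw [mul_comm] at this
    omega
  have hM : M ≤ b + 2 := by
    by_contra hcon
    push Not at hcon
    have := Nat.mul_le_mul_right b hcon
    have e3 : (b + 2).succ * b = b * b + 3 * b := by
      rw [Nat.succ_eq_add_one]; ring
    omega
  have hbs : (b : ℝ) ≤ Real.sqrt m := by
    apply Real.le_sqrt_of_sq_le
    rw [sq]
    exact_mod_cast hb1
  have e4 : (R + 8 * N + 4 * N * K + C0 + 4) * b =
      R * b + 8 * (N * b) + 4 * (N * K * b) + C0 * b + 4 * b := by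
    ring
  have hMs : (M : ℝ) ≤ ((R + 8 * N + 4 * N * K + C0 + 4 : ℕ) : ℝ) * Real.sqrt m := by
    refine le_trans ?_ (mul_le_mul_of_nonneg_left hbs (by positivity))
    have : M ≤ (R + 8 * N + 4 * N * K + C0 + 4) * b := by
      omega
    exact_mod_cast this
  have hJs : ((J0 + S : ℕ) : ℝ) ≤ ((R + 8 * N + 4 * N * K + C0 + 4 : ℕ) : ℝ) * Real.sqrt m := by
    refine le_trans ?_ (mul_le_mul_of_nonneg_left hbs (by positivity))
    have : J0 + S ≤ (R + 8 * N + 4 * N * K + C0 + 4) * b := by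
      omega
    exact_mod_cast this
  have hm3 : 3 ≤ m := by
    have h1 : 4 * 4 ≤ b * b := Nat.mul_le_mul (by omega) (by omega)
    omega
  have g1 := hnum e M (J0 + S) m k' hm3 hI he.symm (by rw [← he]; exact hMS) hMs hJs
  have g2 := int_raw2 H κ hκ0 I hκ h hh0 q hq t ht hθ C0 hpat R r0 e M (J0 + S) m he1
    (by rw [← he]; exact hMS) hr0 (by
    have h1 : 2 * q * D * e ≤ 2 * N * b := by
      have h1a : 2 * N * e ≤ 2 * N * b := Nat.mul_le_mul_left _ (by omega)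
      have h1b : 2 * q * D * e = 2 * N * e := by rw [hN]; ring
      omega
    have h2 : 2 * q * D * M ≤ 2 * N * (b + 2) := by
      have h2a : 2 * N * M ≤ 2 * N * (b + 2) := Nat.mul_le_mul_left _ hM
      have h2b : 2 * q * D * M = 2 * N * M := by rw [hN]; ring
      omega
    have h3 : 4 * q * D * I.card ≤ 4 * N * K := by
      have h3a : 4 * N * I.card ≤ 4 * N * K := Nat.mul_le_mul_left _ hI
      have h3b : 4 * q * D * I.card = 4 * N * I.card := by rw [hN]; ring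
      omega
    omega)
  refine le_trans (mul_le_mul_of_nonneg_right g1 (by positivity)) (le_trans (le_of_eq ?_) g2)
  ring

end Pool.Agent.ZT
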