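import Pool.Agent.ZT.Defs

/-! # ZC : levels in `(1/q) ℤ`, `q ≥ 2` -/

set_option autoImplicit false

open Finset

namespace Pool.Agent.ZT

/-- the linear lower bound of the exponential moments -/
theorem level2_lin {ι : Type} [Fintype ι] (l : ι → ℝ) (hl : ∀ i, 0 ≤ l i) (a : ι → ℕ) (L : ℝ)
    (hL : ∑ i, l i = L) (τ θ : ℝ) :
    L + θ * (∑ i, l i * a i - τ * L) ≤ ∑ i, l i * Real.exp (θ * ((a i : ℝ) - τ)) := by
  have h1 : L + θ * (∑ i, l i * a i - τ * L) = ∑ i, l i * (θ * ((a i : ℝ) - τ) + 1) := by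
    have h2 : ∀ i, l i * (θ * ((a i : ℝ) - τ) + 1) = θ * (l i * a i) - θ * τ * l i + l i := by
      intro i
      ring
    rw [sum_congr rfl fun i _ => h2 i, sum_add_distrib, sum_sub_distrib, ← mul_sum, ← mul_sum, hL]
    ring
  rw [h1]
  exact sum_le_sum fun i _ => mul_le_mul_of_nonneg_left (Real.add_one_le_exp _) (hl i)

theorem level2_part {ι : Type} [Fintype ι] (l : ι → ℝ) (hl : ∀ i, 0 ≤ l i) (a : ι → ℕ)
    (τ θ x : ℝ) (Q : ι → Prop) [DecidablePred Q] (hQ : ∀ i, Q i → x ≤ θ * ((a i : ℝ) - τ)) :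
    (∑ i ∈ univ.filter Q, l i) * Real.exp x ≤ ∑ i, l i * Real.exp (θ * ((a i : ℝ) - τ)) := by
  rw [sum_mul]
  calc ∑ i ∈ univ.filter Q, l i * Real.exp x
      ≤ ∑ i ∈ univ.filter Q, l i * Real.exp (θ * ((a i : ℝ) - τ)) :=
        sum_le_sum fun i hi => mul_le_mul_of_nonneg_left
          (Real.exp_le_exp.2 (hQ i (mem_filter.1 hi).2)) (hl i)
    _ ≤ ∑ i, l i * Real.exp (θ * ((a i : ℝ) - τ)) :=
        sum_le_sum_of_subset_of_nonneg (filter_subset _ _) fun i _ _ =>
          mul_nonneg (hl i) (Real.exp_nonneg _)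

/-- Either one integer carries `11/20` of the mass or there is a level `t/q`, strictly inside the range of
`a`, at which all exponential moments are at least `53/100` of the mass.

PROOF.  Divide by `L` (or keep `L`).  Suppose every integer carries less than `0.55 L`.  Let
`μ = (∑ l_i a_i)/L ≥ 0`, `k = ⌊μ⌋ ∈ ℕ`, `P1 = P(a ≥ k+1)`, `P0 = P(a ≤ k)`, `P0 + P1 = 1`.
* `P1 ≥ 0.55`: `t = q (k+1)`.  Some `a_i ≥ k + 2` has `l_i > 0` (otherwise `k+1` carries `P1`); some
  `a_i ≤ k` has `l_i > 0` because the mean is `< k + 1`.  For `θ ≥ 0` the moment is `≥ P1`; for `θ ≤ 0` it is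
  `≥ 1 + θ E(a - (k+1)) ≥ 1` (`e^x ≥ 1 + x`, `E(a - (k+1)) ≤ 0`).
* `P0 ≥ 0.55`: `t = q k`.  Some `a_i < k` has `l_i > 0` (otherwise `k` carries `P0`), so `k ≥ 1`, and some
  `a_i > k` has `l_i > 0` because the mean is `≥ k`.  For `θ ≤ 0` the moment is `≥ P0`; for `θ ≥ 0` it is
  `≥ 1 + θ E(a - k) ≥ 1`.
* otherwise `P0, P1 > 0.45`: `t = q k + ⌊q/2⌋`, `p = ⌊q/2⌋/q ∈ [1/3, 1/2]`, `t/q = k + p`.  There are `l_i > 0`
  with `a_i ≤ k` and with `a_i ≥ k + 1`.  `θ ≥ 1/2`: the moment is `≥ P1 e^{θ(1-p)} ≥ 0.45 e^{1/4} ≥ 0.577`;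
  `θ ≤ -1/2`: `≥ P0 e^{-θ p} ≥ 0.45 e^{1/6} ≥ 0.5315`; `|θ| ≤ 1/2`: `≥ 1 + θ (μ - k - p) ≥ 1 - 1/2 · 2/3 = 2/3`. -/
theorem level2 {ι : Type} [Fintype ι] (l : ι → ℝ) (hl : ∀ i, 0 ≤ l i) (a : ι → ℕ) (L : ℝ)
    (hL : ∑ i, l i = L) (hLpos : 0 < L) (q : ℕ) (hq : 2 ≤ q) :
    (∃ k : ℕ, 11 / 20 * L ≤ sm (fun i => a i = k) l) ∨
    (∃ t : ℕ, (∃ i, 0 < l i ∧ q * a i < t) ∧ (∃ i, 0 < l i ∧ t < q * a i) ∧
      ∀ θ : ℝ, 53 / 100 * L ≤ ∑ i, l i * Real.exp (θ * ((a i : ℝ) - (t : ℝ) / q))) := by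
  classical
  by_cases hone : ∃ k : ℕ, 11 / 20 * L ≤ sm (fun i => a i = k) l
  · exact Or.inl hone
  right
  push Not at hone
  set W : ℝ := ∑ i, l i * a i with hW
  have hW0 : 0 ≤ W := sum_nonneg fun i _ => mul_nonneg (hl i) (Nat.cast_nonneg _)
  set k : ℕ := ⌊W / L⌋₊ with hk
  have hk1 : (k : ℝ) * L ≤ W := by
    have h1 : (k : ℝ) ≤ W / L := Nat.floor_le (by positivity)
    rwa [le_div_iff₀ hLpos] at h1
  have hk2 : W < ((k : ℝ) + 1) * L := by
    have h1 : W / L < (k : ℝ) + 1 := Nat.lt_floor_add_one _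
    rwa [div_lt_iff₀ hLpos] at h1
  have hlin := level2_lin l hl a L hL
  rw [← hW] at hlin
  set P1 : ℝ := ∑ i ∈ univ.filter (fun i => k + 1 ≤ a i), l i with hP1
  set P0 : ℝ := ∑ i ∈ univ.filter (fun i => a i ≤ k), l i with hP0
  have hP : P1 + P0 = L := by
    rw [← hL, ← sum_filter_add_sum_filter_not univ (fun i => k + 1 ≤ a i)]
    have h1 : univ.filter (fun i => ¬ k + 1 ≤ a i) = univ.filter (fun i => a i ≤ k) := by
      ext i
      simp only [mem_filter, mem_univ, true_and]
      omega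
    rw [h1]
  have hq0 : (0 : ℝ) < q := by
    have : 0 < q := by omega
    exact_mod_cast this
  -- a sum which is too large has a positive term
  have hex : ∀ (Q : ι → Prop) [DecidablePred Q] (x : ℝ),
      x < ∑ i ∈ univ.filter Q, l i → 0 ≤ x → ∃ i, 0 < l i ∧ Q i := by
    intro Q _ x h1 h2
    by_contra h3
    push Not at h3
    have h4 : ∑ i ∈ univ.filter Q, l i = 0 := by
      refine sum_eq_zero fun i hi => ?_
      have h5 := (mem_filter.1 hi).2
      by_contra h6
      exact h3 i (lt_of_le_of_ne (hl i) (Ne.symm h6)) h5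
    linarith
  by_cases hA : 11 / 20 * L ≤ P1
  · -- the level `k + 1`
    refine ⟨q * (k + 1), ?_, ?_, fun θ => ?_⟩
    · by_contra h1
      push Not at h1
      have h2 : ((k : ℝ) + 1) * L ≤ W := by
        rw [hW, ← hL, mul_sum]
        refine sum_le_sum fun i _ => ?_
        rcases eq_or_lt_of_le (hl i) with h3 | h3
        · rw [← h3]
          simp
        · have h4 := h1 i h3
          have h5 : k + 1 ≤ a i := Nat.le_of_mul_le_mul_left h4 (by omega)
          have h6 : (k : ℝ) + 1 ≤ a i := by exact_mod_cast h5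
          rw [mul_comm]
          exact mul_le_mul_of_nonneg_left h6 (hl i)
      linarith
    · by_contra h1
      push Not at h1
      have h2 : P1 ≤ sm (fun i => a i = k + 1) l := by
        rw [sm_eq, hP1]
        have h3 : ∑ i ∈ univ.filter (fun i => k + 1 ≤ a i), l i ≤
            ∑ i ∈ univ.filter (fun i => k + 1 ≤ a i), (if a i = k + 1 then l i else 0) := by
          refine sum_le_sum fun i hi => ?_
          have h4 := (mem_filter.1 hi).2
          split_ifs with h5
          · exact le_rfl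
          · by_contra h6
            have h7 := h1 i (lt_of_not_ge h6)
            have h8 : a i ≤ k + 1 := Nat.le_of_mul_le_mul_left h7 (by omega)
            exact h5 (le_antisymm h8 h4)
        refine h3.trans ?_
        rw [← sum_filter]
        refine sum_le_sum_of_subset_of_nonneg (fun i hi => ?_) fun i _ _ => hl i
        rw [mem_filter] at hi
        exact mem_filter.2 ⟨mem_univ _, hi.2⟩
      have h3 := hone (k + 1)
      linarith
    · have hτ : ((q * (k + 1) : ℕ) : ℝ) / q = (k : ℝ) + 1 := by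
        push_cast
        field_simp
      rw [hτ]
      rcases le_total 0 θ with h1 | h1
      · have h2 := level2_part l hl a ((k : ℝ) + 1) θ 0 (fun i => k + 1 ≤ a i) (fun i hi => by
          have h3 : (k : ℝ) + 1 ≤ a i := by exact_mod_cast hi
          exact mul_nonneg h1 (by linarith))
        rw [Real.exp_zero, mul_one, ← hP1] at h2
        linarith
      · have h2 := hlin ((k : ℝ) + 1) θ
        have h3 : 0 ≤ θ * (W - ((k : ℝ) + 1) * L) := mul_nonneg_of_nonpos_of_nonpos h1 (by linarith)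
        linarith
  by_cases hB : 11 / 20 * L ≤ P0
  · -- the level `k`
    have hex0 : ∃ i, 0 < l i ∧ a i < k := by
      by_contra h1
      push Not at h1
      have h2 : P0 ≤ sm (fun i => a i = k) l := by
        rw [sm_eq, hP0]
        have h3 : ∑ i ∈ univ.filter (fun i => a i ≤ k), l i ≤
            ∑ i ∈ univ.filter (fun i => a i ≤ k), (if a i = k then l i else 0) := by
          refine sum_le_sum fun i hi => ?_
          have h4 := (mem_filter.1 hi).2
          split_ifs with h5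
          · exact le_rfl
          · by_contra h6
            have h7 := h1 i (lt_of_not_ge h6)
            exact h5 (le_antisymm h4 h7)
        refine h3.trans ?_
        rw [← sum_filter]
        refine sum_le_sum_of_subset_of_nonneg (fun i hi => ?_) fun i _ _ => hl i
        rw [mem_filter] at hi
        exact mem_filter.2 ⟨mem_univ _, hi.2⟩
      have h3 := hone k
      linarith
    refine ⟨q * k, ?_, ?_, fun θ => ?_⟩
    · obtain ⟨i, h1, h2⟩ := hex0
      exact ⟨i, h1, Nat.mul_lt_mul_of_pos_left h2 (by omega)⟩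
    · by_contra h1
      push Not at h1
      obtain ⟨i0, h2, h3⟩ := hex0
      have h4 : W < (k : ℝ) * L := by
        rw [hW, ← hL, mul_sum]
        refine sum_lt_sum (fun i _ => ?_) ⟨i0, mem_univ _, ?_⟩
        · rcases eq_or_lt_of_le (hl i) with h5 | h5
          · rw [← h5]
            simp
          · have h6 := h1 i h5
            have h7 : a i ≤ k := Nat.le_of_mul_le_mul_left h6 (by omega)
            have h8 : (a i : ℝ) ≤ k := by exact_mod_cast h7
            rw [mul_comm]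
            exact mul_le_mul_of_nonneg_right h8 (hl i)
        · have h8 : (a i0 : ℝ) < k := by exact_mod_cast h3
          rw [mul_comm]
          exact mul_lt_mul_of_pos_right h8 h2
      linarith
    · have hτ : ((q * k : ℕ) : ℝ) / q = (k : ℝ) := by
        push_cast
        field_simp
      rw [hτ]
      rcases le_total 0 θ with h1 | h1
      · have h2 := hlin (k : ℝ) θ
        have h3 : 0 ≤ θ * (W - (k : ℝ) * L) := mul_nonneg h1 (by linarith)
        linarith
      · have h2 := level2_part l hl a (k : ℝ) θ 0 (fun i => a i ≤ k) (fun i hi => by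
          have h3 : (a i : ℝ) ≤ k := by exact_mod_cast hi
          exact mul_nonneg_of_nonpos_of_nonpos h1 (by linarith))
        rw [Real.exp_zero, mul_one, ← hP0] at h2
        linarith
  -- the middle level
  push Not at hA hB
  have hP1' : 9 / 20 * L < P1 := by linarith
  have hP0' : 9 / 20 * L < P0 := by linarith
  have hq1 : 1 ≤ q / 2 := by omega
  have hq2 : q / 2 < q := by omega
  obtain ⟨p, hp⟩ : ∃ p : ℝ, p = ((q / 2 : ℕ) : ℝ) / q := ⟨_, rfl⟩
  have hp1 : 1 / 3 ≤ p := by
    rw [hp, le_div_iff₀ hq0]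
    have h1 : q ≤ 3 * (q / 2) := by omega
    have h2 : (q : ℝ) ≤ 3 * ((q / 2 : ℕ) : ℝ) := by exact_mod_cast h1
    linarith
  have hp2 : p ≤ 1 / 2 := by
    rw [hp, div_le_iff₀ hq0]
    have h1 : 2 * (q / 2) ≤ q := by omega
    have h2 : 2 * ((q / 2 : ℕ) : ℝ) ≤ (q : ℝ) := by exact_mod_cast h1
    linarith
  refine ⟨q * k + q / 2, ?_, ?_, fun θ => ?_⟩
  · obtain ⟨i, h1, h2⟩ := hex (fun i => a i ≤ k) (9 / 20 * L) hP0' (by linarith)
    refine ⟨i, h1, ?_⟩
    have h3 : q * a i ≤ q * k := Nat.mul_le_mul_left q h2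
    omega
  · obtain ⟨i, h1, h2⟩ := hex (fun i => k + 1 ≤ a i) (9 / 20 * L) hP1' (by linarith)
    refine ⟨i, h1, ?_⟩
    have h3 : q * (k + 1) ≤ q * a i := Nat.mul_le_mul_left q h2
    rw [mul_add, mul_one] at h3
    omega
  · have hτ : ((q * k + q / 2 : ℕ) : ℝ) / q = (k : ℝ) + p := by
      rw [hp, Nat.cast_add, Nat.cast_mul]
      field_simp
    rw [hτ]
    rcases le_total (1 / 2) θ with h1 | h1
    · have h2 := level2_part l hl a ((k : ℝ) + p) θ (1 / 4) (fun i => k + 1 ≤ a i) (fun i hi => by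
        have h3 : (k : ℝ) + 1 ≤ a i := by exact_mod_cast hi
        have h4 : (1 / 2 : ℝ) * (1 / 2) ≤ θ * ((a i : ℝ) - (k + p)) :=
          mul_le_mul h1 (by linarith) (by norm_num) (by linarith)
        linarith)
      rw [← hP1] at h2
      have h3 : (1 : ℝ) / 4 + 1 ≤ Real.exp (1 / 4) := Real.add_one_le_exp _
      have h4 : 9 / 20 * L * (1 / 4 + 1) ≤ P1 * Real.exp (1 / 4) :=
        mul_le_mul hP1'.le h3 (by norm_num) (by linarith)
      linarith
    · rcases le_total θ (-(1 / 2)) with h5 | h5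
      · have h2 := level2_part l hl a ((k : ℝ) + p) θ (1 / 6) (fun i => a i ≤ k) (fun i hi => by
          have h3 : (a i : ℝ) ≤ k := by exact_mod_cast hi
          have h4 : (1 / 2 : ℝ) * (1 / 3) ≤ (-θ) * (((k : ℝ) + p) - a i) :=
            mul_le_mul (by linarith) (by linarith) (by norm_num) (by linarith)
          linarith)
        rw [← hP0] at h2
        have h3 : 1 + (1 : ℝ) / 6 + (1 / 6) ^ 2 / 2 ≤ Real.exp (1 / 6) :=
          Real.quadratic_le_exp_of_nonneg (by norm_num)
        have h4 : 9 / 20 * L * (1 + 1 / 6 + (1 / 6) ^ 2 / 2) ≤ P0 * Real.exp (1 / 6) :=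
          mul_le_mul hP0'.le h3 (by norm_num) (by linarith)
        linarith
      · have h2 := hlin ((k : ℝ) + p) θ
        have h3 : -(1 / 3 * L) ≤ θ * (W - ((k : ℝ) + p) * L) := by
          have h6 : |θ * (W - ((k : ℝ) + p) * L)| ≤ 1 / 2 * (2 / 3 * L) := by
            rw [abs_mul]
            refine mul_le_mul (abs_le.2 ⟨by linarith, h1⟩) ?_ (abs_nonneg _) (by norm_num)
            rw [abs_le]
            constructor <;> nlinarith
          have h7 := (abs_le.1 h6).1
          linarith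
        linarith

end Pool.Agent.ZT
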