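import Pool.Agent.ZT.Semi

/-! # ZC : patterns near a level in `(1/q) ℤ` -/

set_option autoImplicit false

open Finset

namespace Pool.Agent.ZT

/-- PROOF.  `C` from `semigroup D`, `M = max S`.  From `|q r - t J| + q C ≤ J` and `t ≥ 1`:
`q r ≥ t J - J + q C ≥ q C`, so `r ≥ C`; as `t ≤ q M - 1`: `q r ≤ t J + J - q C ≤ q (M J - C)`, so
`r + C ≤ M J`.  Apply `semigroup`. -/
theorem pattern2 (D : ℕ) : ∃ C : ℕ, ∀ S : Finset ℕ, (∀ a ∈ S, a ≤ D) → 0 ∈ S → S.gcd id = 1 →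
    ∀ q t : ℕ, 1 ≤ q → 0 < t → (∃ a ∈ S, t < q * a) → ∀ (J : ℕ) (r : ℤ),
    |(q : ℤ) * r - t * J| + q * C ≤ J →
    ∃ ν : ℕ → ℕ, ∑ a ∈ S, ν a = J ∧ ∑ a ∈ S, (ν a : ℤ) * (a : ℤ) = r := by
  obtain ⟨C, hC⟩ := semigroup D
  refine ⟨C, fun S hSD h0 hS q t hq ht0 hta J r hr => ?_⟩
  obtain ⟨M, hM, hmax⟩ := Finset.exists_max_image S id ⟨0, h0⟩
  have htM : t + 1 ≤ q * M := by
    obtain ⟨a, ha, hta⟩ := hta
    exact lt_of_lt_of_le hta (Nat.mul_le_mul_left q (hmax a ha))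
  have h1 := neg_abs_le ((q : ℤ) * r - t * J)
  have h2 := le_abs_self ((q : ℤ) * r - t * J)
  have hJ0 : (0 : ℤ) ≤ J := by positivity
  have hq0 : (0 : ℤ) < q := by exact_mod_cast hq
  have ht1 : (J : ℤ) ≤ t * J := by
    have : (1 : ℤ) ≤ t := by exact_mod_cast ht0
    nlinarith
  have htM' : (t : ℤ) * J + J ≤ q * M * J := by
    have : (t : ℤ) + 1 ≤ q * M := by exact_mod_cast htM
    nlinarith
  have hlow : (C : ℤ) ≤ r := by
    have h3 : (q : ℤ) * C ≤ q * r := by linarith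
    exact le_of_mul_le_mul_left h3 hq0
  have hup : r + C ≤ M * J := by
    have h3 : (q : ℤ) * (r + C) ≤ q * (M * J) := by
      have e1 : (q : ℤ) * (r + C) = q * r + q * C := by ring
      have e2 : (q : ℤ) * (M * J) = q * M * J := by ring
      rw [e1, e2]
      linarith
    exact le_of_mul_le_mul_left h3 hq0
  obtain ⟨r', hr'⟩ : ∃ r' : ℕ, (r' : ℤ) = r := ⟨r.toNat, by
    rw [Int.toNat_of_nonneg]
    have : (0 : ℤ) ≤ C := by positivity
    linarith⟩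
  obtain ⟨ν, hν1, hν2⟩ := hC S hSD h0 hS M hM (fun a ha => hmax a ha) J r' (by
    have : (C : ℤ) ≤ r' := by
      rw [hr']
      exact hlow
    exact_mod_cast this) (by
    have : (r' : ℤ) + C ≤ M * J := by
      rw [hr']
      exact hup
    exact_mod_cast this)
  refine ⟨ν, hν1, ?_⟩
  rw [← hr']
  exact_mod_cast hν2

end Pool.Agent.ZT
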