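import Pool.Agent.ZC.BCoset
import Pool.Agent.ZC.Level2
import Pool.Agent.ZC.Pattern2
import Pool.Agent.ZC.IntCase2
import Pool.Agent.ZC.Corr
import Pool.Agent.ZC.CorrNum
import Pool.Agent.ZT.Far1

/-! # ZC : the structured case with index `q ≥ 2` -/

set_option autoImplicit false

open Finset

namespace Pool.Agent.ZT

/-- The structured case, `q ≥ 2`.

PROOF.  Let `n = card V`.  All constants depend on `κ, D, K` only: `C0` from `pattern2 D`; for every `q ≤ D`
(finitely many; take the maximum of the `m0` and of the `C` over `q ∈ Icc 2 D`, or apply `int_case2` inside for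
each `q` by a finite choice) `int_case2 D K (q C0) q (2 q D (2K + D))` with `h = 519/1000`; `corr_num`,
`bounded_coset D (52/100) (1/100)`.
`level2` with `ι = F` (subtype), `l x = cnt (q.1 ∈ U, q.2 ∈ U, c = x)`, total
`L = cnt (U × U, c ∈ F) ≥ (99/100)^2 n^2` (`far1_fiber` in ZT/Far1.lean).
* First alternative (`a x = k` carries `0.55 L ≥ 0.53 n^2`): these colours lie in the coset
  `x1 + Γ`, `x1 = x0 + k • g`; `bounded_coset` gives `(52/100)^m …`.
* Second alternative, level `t/q`: `t > 0` and `t < q a x ≤ q D`.  The kernel `ic c U F a 0` satisfies `IK`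
  (`ic_IK` with `t = 0`); `I = {a x}` (image of `F` in `ℤ`), densities `≥ κ` as in ZT/Far2.lean; moments by
  `ic_moment` (`t = 0`) times `e^{-θ t/q}`, they are `≥ 0.53 · 0.9801 n^2 ≥ 0.519 n^2`; `hpat` from `pattern2`
  for `S = F.image a` (as in ZT/Far2.lean).  Put `e0 = m - 2|F| - D`, let `r0 y` be the offset from `corr`
  for `y ∈ U` (any integer with the same bound, e.g. `⌊t e0/q⌋`, for `y ∉ U`).  `int_case2` for `e0` and
  `NN c m 0 = m! n^m ∑_y rr c m y 0` (`sum_rr`) and `corr`, `corr_num` give the claim (`n > 0`). -/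
theorem far_c (κ : ℝ) (hκ : 0 < κ) (D K : ℕ) : ∃ m0 : ℕ, ∀ m ≥ m0, ∀ (V : Type) [Fintype V]
    (c : V → V → ZMod m), (∀ x y, c x y = c y x) → 0 < Fintype.card V →
    ∀ (U : Finset V) (F : Finset (ZMod m)), 99 / 100 * (Fintype.card V : ℝ) ≤ U.card →
    (∀ x ∈ U, 99 / 100 * (Fintype.card V : ℝ) ≤ cnt (fun y : V => y ∈ U ∧ c x y ∈ F)) →
    (∀ a ∈ F, κ * (Fintype.card V : ℝ) ^ 2 ≤
      cnt (fun q : V × V => q.1 ∈ U ∧ q.2 ∈ U ∧ c q.1 q.2 = a)) →
    F.card ≤ K →
    ∀ (Γ : AddSubgroup (ZMod m)) (x0 g t0 : ZMod m) (a : ZMod m → ℕ) (q o : ℕ), Nat.card Γ ≤ D →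
    (∀ x ∈ F, a x ≤ D ∧ x - x0 - a x • g ∈ Γ) → (∃ x ∈ F, a x = 0) → F.gcd a = 1 →
    (∀ γ ∈ Γ, ∃ ν : ZMod m → ℕ, ∑ x ∈ F, ν x = D ∧ ∑ x ∈ F, ν x • x = t0 + γ) →
    q * o = m → 2 ≤ q → q ≤ D → o • g ∈ Γ →
    (51 / 100 : ℝ) ^ m * ((m + 1 : ℕ) : ℝ) ^ (m - 1) * (Fintype.card V : ℝ) ^ (m + 1) ≤ NN c m 0 := by
  classical
  rcases Nat.eq_zero_or_pos D with hD0 | hD1
  · refine ⟨0, fun m _ V _ c _ _ U F _ _ _ _ Γ x0 g t0 a q o _ _ _ _ _ _ hq2 hqD => ?_⟩
    omega
  obtain ⟨C0, hC0⟩ := pattern2 D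
  choose Cf hCf mf hmf using fun (q : ℕ) (hq : 1 ≤ q) =>
    int_case2 D K (q * C0) q (2 * q * D * (2 * K + D)) hq κ (519 / 1000) hκ (by norm_num)
      (by norm_num)
  set C : ℝ := 1 + ∑ q ∈ range D, Cf (q + 1) (Nat.succ_pos q) with hCdef
  have hsum0 : 0 ≤ ∑ q ∈ range D, Cf (q + 1) (Nat.succ_pos q) :=
    sum_nonneg fun q _ => (hCf (q + 1) (Nat.succ_pos q)).le
  have hC : 0 < C := by rw [hCdef]; linarith
  obtain ⟨m2, hm2⟩ := corr_num D K (2 * K + D) hD1 κ C hκ hC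
  obtain ⟨m3, hm3⟩ := Pool.Agent.ZC.bounded_coset D (52 / 100) (1 / 100) (by norm_num) (by norm_num)
  refine ⟨1 + (2 * K + D) + (∑ q ∈ range D, mf (q + 1) (Nat.succ_pos q)) + m2 + m3,
    fun m hm V _ c hc hV U F hU hdeg hF hK Γ x0 g t0 a q o hΓ ha h0 hgcd hpat hqo hq2 hqD hog => ?_⟩
  have hm1 : 1 ≤ m := by omega
  have hmS : 2 * K + D ≤ m := by omega
  have hm2' : m2 ≤ m := by omega
  have hm3' : m3 ≤ m := by omega
  have : NeZero m := ⟨by omega⟩
  have hn0 : 0 < (Fintype.card V : ℝ) := by exact_mod_cast hV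
  obtain ⟨q', rfl⟩ : ∃ q', q = q' + 1 := ⟨q - 1, by omega⟩
  have hq'D : q' ∈ range D := mem_range.2 (by omega)
  have hCq : Cf (q' + 1) (Nat.succ_pos q') ≤ C := by
    have h1 := single_le_sum (f := fun q => Cf (q + 1) (Nat.succ_pos q))
      (fun q _ => (hCf (q + 1) (Nat.succ_pos q)).le) hq'D
    rw [hCdef]
    linarith
  have hmq : mf (q' + 1) (Nat.succ_pos q') + (2 * K + D) ≤ m := by
    have h1 := single_le_sum (f := fun q => mf (q + 1) (Nat.succ_pos q))
      (fun q _ => Nat.zero_le _) hq'D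
    omega
  have hint := hmf (q' + 1) (Nat.succ_pos q')
  clear hm
  set n : ℝ := (Fintype.card V : ℝ) with hn
  set lam : ZMod m → ℝ := fun x => (cnt (fun q : V × V => q.1 ∈ U ∧ q.2 ∈ U ∧ c q.1 q.2 = x) : ℝ)
    with hlam
  have hlam0 : ∀ x, 0 ≤ lam x := fun x => Nat.cast_nonneg _
  have hfib : ∀ T : Finset (ZMod m), ∑ x ∈ T, lam x =
      cnt (fun q : V × V => (q.1 ∈ U ∧ q.2 ∈ U) ∧ c q.1 q.2 ∈ T) := by
    intro T
    rw [← far1_fiber]
    refine sum_congr rfl fun x _ => ?_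
    exact congrArg (Nat.cast : ℕ → ℝ) (cnt_congr fun q => and_assoc.symm)
  set L : ℝ := ∑ x ∈ F, lam x with hL
  have hLlow : 9801 / 10000 * n ^ 2 ≤ L := by
    rw [hL, hfib F, far1_prod (S := V) (T := V) (fun x y => (x ∈ U ∧ y ∈ U) ∧ c x y ∈ F)]
    have h1 : ∑ x ∈ U, (99 / 100 * n) ≤
        ∑ x, (cnt (fun y : V => (x ∈ U ∧ y ∈ U) ∧ c x y ∈ F) : ℝ) := by
      calc ∑ x ∈ U, (99 / 100 * n) ≤ ∑ x ∈ U, (cnt (fun y : V => (x ∈ U ∧ y ∈ U) ∧ c x y ∈ F) : ℝ) := by
            refine sum_le_sum fun x hx => (hdeg x hx).trans (Nat.cast_le.2 ?_)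
            exact cnt_mono fun y hy => ⟨⟨hx, hy.1⟩, hy.2⟩
        _ ≤ _ := sum_le_sum_of_subset_of_nonneg (subset_univ _) fun _ _ _ => Nat.cast_nonneg _
    refine le_trans ?_ h1
    rw [sum_const, nsmul_eq_mul]
    have h2 : 0 ≤ 99 / 100 * n := by positivity
    calc 9801 / 10000 * n ^ 2 = (99 / 100 * n) * (99 / 100 * n) := by ring
      _ ≤ (U.card : ℝ) * (99 / 100 * n) := mul_le_mul_of_nonneg_right hU h2
  have hLpos : 0 < L := lt_of_lt_of_le (by positivity) hLlow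
  rcases level2 (ι := F) (fun i => lam i) (fun i => hlam0 _) (fun i => a i) L
    (sum_coe_sort F lam) hLpos (q' + 1) hq2 with ⟨k, hk⟩ | ⟨t, ⟨i, _, hti⟩, ⟨i', _, hti'⟩, hmom⟩
  · -- one coset carries more than half
    have e1 : sm (fun i : F => a i = k) (fun i => lam i) = ∑ x ∈ F.filter (fun x => a x = k), lam x := by
      rw [sm_eq, sum_filter, sum_filter, sum_coe_sort F (fun x => if a x = k then lam x else 0)]
    rw [e1, hfib] at hk
    have h1 : (cnt (fun q : V × V => (q.1 ∈ U ∧ q.2 ∈ U) ∧ c q.1 q.2 ∈ F.filter (fun x => a x = k)) : ℝ)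
        ≤ cnt (fun q : V × V => c q.1 q.2 - (x0 + k • g) ∈ Γ) := by
      refine Nat.cast_le.2 (cnt_mono fun q hq => ?_)
      obtain ⟨h2, h3⟩ := mem_filter.1 hq.2
      have h4 := (ha _ h2).2
      rw [h3] at h4
      rwa [← sub_sub]
    have h2 := hm3 m hm3' V c hc Γ (x0 + k • g) hΓ (by
      refine le_trans ?_ (hk.trans h1)
      have h5 : (0 : ℝ) < n ^ 2 := by positivity
      change (52 / 100 + 1 / 100) * n ^ 2 ≤ _
      linarith)
    refine le_trans ?_ h2
    have h4 : (51 / 100 : ℝ) ^ m ≤ (52 / 100) ^ m := by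
      gcongr
      norm_num
    gcongr
  · -- the integer case
    have ht0 : 0 < t := by omega
    have hai' : a i' ≤ D := (ha _ i'.2).1
    have htD : t ≤ (q' + 1) * D := hti'.le.trans (Nat.mul_le_mul_left _ hai')
    have hUne : U.Nonempty := by
      rw [nonempty_iff_ne_empty]
      rintro rfl
      rw [card_empty, Nat.cast_zero] at hU
      have : 0 < 99 / 100 * n := by positivity
      linarith
    have hIK : IK (ic c U F a 0) U D :=
      ic_IK c hc U hUne F a 0 D (fun y hy => (ha y hy).1) le_rfl (Int.natCast_nonneg _) hdeg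
    set I : Finset ℤ := F.image (fun y => (a y : ℤ)) with hI
    have hIcard : I.card ≤ K := card_image_le.trans hK
    have hIden : ∀ i ∈ I, κ * (Fintype.card V : ℝ) ^ 2 ≤
        cnt (fun q : V × V => ic c U F a 0 q.1 q.2 = (i, 0)) := by
      intro i hi
      obtain ⟨y, hy, rfl⟩ := mem_image.1 hi
      refine (hF y hy).trans (Nat.cast_le.2 (cnt_mono fun q hq => ?_))
      obtain ⟨h1, h2, h4⟩ := hq
      unfold ic
      rw [if_pos ⟨h1, h2, by rw [h4]; exact hy⟩, h4, sub_zero]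
    have hmoment : ∀ θ : ℝ, 519 / 1000 * (Fintype.card V : ℝ) ^ 2 ≤
        sm (fun q : V × V => (ic c U F a 0 q.1 q.2).2 = 0)
          (fun q => Real.exp (θ * (((ic c U F a 0 q.1 q.2).1 : ℝ) - ((t : ℤ) : ℝ) / ((q' + 1 : ℕ) : ℝ)))) := by
      intro θ
      have e2 : sm (fun q : V × V => (ic c U F a 0 q.1 q.2).2 = 0)
          (fun q => Real.exp (θ * (((ic c U F a 0 q.1 q.2).1 : ℝ) - ((t : ℤ) : ℝ) / ((q' + 1 : ℕ) : ℝ)))) =
          sm (fun q : V × V => (ic c U F a 0 q.1 q.2).2 = 0)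
            (fun q => Real.exp (θ * ((ic c U F a 0 q.1 q.2).1 : ℝ))) *
            Real.exp (-(θ * (((t : ℤ) : ℝ) / ((q' + 1 : ℕ) : ℝ)))) := by
        rw [sm_eq, sm_eq, sum_mul]
        refine sum_congr rfl fun q _ => ?_
        rw [← Real.exp_add]
        congr 1
        ring
      rw [e2, ic_moment, sum_mul]
      have h1 := hmom θ
      rw [sum_coe_sort F (fun x => lam x * Real.exp (θ * ((a x : ℝ) - (t : ℝ) / ((q' + 1 : ℕ) : ℝ))))] at h1
      have h2 : 519 / 1000 * (Fintype.card V : ℝ) ^ 2 ≤ 53 / 100 * L := by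
        have h5 : (0 : ℝ) < n ^ 2 := by positivity
        change 519 / 1000 * n ^ 2 ≤ _
        linarith
      refine h2.trans (h1.trans (le_of_eq ?_))
      refine sum_congr rfl fun x _ => ?_
      rw [mul_assoc, ← Real.exp_add]
      congr 2
      push_cast
      ring
    have hpat' : ∀ (J : ℕ) (r : ℤ), |((q' + 1 : ℕ) : ℤ) * r - (t : ℤ) * J| + (((q' + 1) * C0 : ℕ) : ℤ) ≤ J →
        ∃ ν : ℤ → ℕ, ∑ i ∈ I, ν i = J ∧ ∑ i ∈ I, (ν i : ℤ) * i = r := by
      intro J r hJ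
      rw [Nat.cast_mul] at hJ
      obtain ⟨ν, hν1, hν2⟩ := hC0 (F.image a) (fun b hb => by
          obtain ⟨y, hy, rfl⟩ := mem_image.1 hb
          exact (ha y hy).1) (by
          obtain ⟨y, hy, hy0⟩ := h0
          exact mem_image.2 ⟨y, hy, hy0⟩) (by
          rw [Finset.gcd_image, Function.id_comp]
          exact hgcd) (q' + 1) t (Nat.succ_pos q') ht0
        ⟨a i', mem_image_of_mem _ i'.2, hti'⟩ J r hJ
      have e : I = (F.image a).image (fun b : ℕ => (b : ℤ)) := by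
        rw [hI, image_image]
        rfl
      have hinj2 : Set.InjOn (fun b : ℕ => (b : ℤ)) (F.image a : Finset ℕ) := by
        intro b _ b' _ h
        have h' : (b : ℤ) = (b' : ℤ) := h
        omega
      refine ⟨fun i => ν i.toNat, ?_, ?_⟩
      · rw [e, sum_image hinj2, ← hν1]
        refine sum_congr rfl fun b _ => ?_
        simp
      · rw [e, sum_image hinj2, ← hν2]
        refine sum_congr rfl fun b _ => ?_
        simp
    -- the offsets
    obtain ⟨e0, he0⟩ : ∃ e0 : ℕ, e0 + 2 * F.card + D = m := ⟨m - 2 * F.card - D, by omega⟩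
    have hoff : ∀ y : V, ∃ r0 : ℤ,
        |((q' + 1 : ℕ) : ℤ) * r0 - (t : ℤ) * e0| ≤ ((2 * (q' + 1) * D * (2 * K + D) : ℕ) : ℤ) ∧
        (y ∈ U → rr (ic c U F a 0) e0 y (r0, 0) / D *
          (κ / (4 * (K : ℝ) ^ 2 * (m : ℝ) ^ 2)) ^ F.card * (κ / (2 * m)) ^ D ≤ rr c m y 0) := by
      intro y
      by_cases hy : y ∈ U
      · obtain ⟨r0, h1, h2⟩ := corr c hc U F K D hK (fun x hx => by
            have h3 := hdeg x hx
            have h4 : (cnt (fun y : V => y ∈ U ∧ c x y ∈ F) : ℝ) ≤ cnt (fun y : V => c x y ∈ F) :=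
              Nat.cast_le.2 (cnt_mono fun y hy => hy.2)
            change 3 / 4 * n ≤ _
            linarith) κ hκ hF Γ hΓ x0 g t0 a (q' + 1) o t ha hpat hqo hog htD e0 he0 y hy
        exact ⟨r0, h1, fun _ => h2⟩
      · refine ⟨((t : ℤ) * e0) / ((q' + 1 : ℕ) : ℤ), ?_, fun h => absurd h hy⟩
        have h1 := Int.emod_add_mul_ediv ((t : ℤ) * e0) ((q' + 1 : ℕ) : ℤ)
        have h2 := Int.emod_nonneg ((t : ℤ) * e0) (b := ((q' + 1 : ℕ) : ℤ)) (by positivity)
        have h3 := Int.emod_lt_of_pos ((t : ℤ) * e0) (b := ((q' + 1 : ℕ) : ℤ)) (by positivity)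
        have h4 : q' + 1 ≤ 2 * (q' + 1) * D * (2 * K + D) := by
          calc q' + 1 = (q' + 1) * 1 * 1 := by ring
            _ ≤ (2 * (q' + 1)) * D * (2 * K + D) := by
              refine Nat.mul_le_mul (Nat.mul_le_mul ?_ hD1) ?_
              · omega
              · omega
        have h5 : ((q' + 1 : ℕ) : ℤ) ≤ ((2 * (q' + 1) * D * (2 * K + D) : ℕ) : ℤ) := by
          exact_mod_cast h4
        rw [abs_le]
        constructor
        · linarith
        · linarith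
    choose r0 hr0 hr1 using hoff
    have hme : mf (q' + 1) (Nat.succ_pos q') ≤ e0 := by omega
    have hI2 := hint e0 hme V (ic c U F a 0) U I hIK hIcard hIden (t : ℤ) (by
        rw [abs_of_nonneg (Int.natCast_nonneg _)]
        exact_mod_cast htD) hmoment hpat' r0 hr0
    have hnum := hm2 m hm2' e0 F.card (by omega) (by omega) hK
    -- assembly
    set B : ℝ := (κ / (4 * (K : ℝ) ^ 2 * (m : ℝ) ^ 2)) ^ F.card * (κ / (2 * m)) ^ D with hB
    have hB0 : 0 ≤ B := by rw [hB]; positivity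
    set S : ℝ := sm (fun y : V => y ∈ U) (fun y => rr (ic c U F a 0) e0 y (r0 y, 0)) with hS
    have hsumU : S / D * B ≤ ∑ y, rr c m y 0 := by
      have h1 : S / D * B = ∑ y ∈ univ.filter (fun y : V => y ∈ U),
          (rr (ic c U F a 0) e0 y (r0 y, 0) / D *
          (κ / (4 * (K : ℝ) ^ 2 * (m : ℝ) ^ 2)) ^ F.card * (κ / (2 * m)) ^ D) := by
        rw [hS, sm_eq, sum_div, sum_mul]
        refine sum_congr rfl fun y _ => ?_
        rw [hB]
        ring
      rw [h1]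
      refine (sum_le_sum fun y hy => hr1 y (mem_filter.1 hy).2).trans ?_
      exact sum_le_sum_of_subset_of_nonneg (filter_subset _ _) fun y _ _ => rr_nonneg _ _ _ _
    rw [sum_rr] at hsumU
    have hfm : (0 : ℝ) < (m.factorial : ℝ) * (Fintype.card V : ℝ) ^ m := by positivity
    rw [le_div_iff₀ hfm] at hsumU
    refine le_trans ?_ hsumU
    have hfe : (0 : ℝ) < (e0.factorial : ℝ) * (Fintype.card V : ℝ) ^ e0 := by positivity
    have hSlow : (519 / 1000) ^ e0 * Real.exp (-C * Real.sqrt e0 * Real.log e0) *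
        (((e0 + 1 : ℕ) : ℝ) ^ (e0 - 1) / e0.factorial) * n ≤ S := by
      have h1 : (519 / 1000 : ℝ) ^ e0 * Real.exp (-C * Real.sqrt e0 * Real.log e0) *
          ((e0 + 1 : ℕ) : ℝ) ^ (e0 - 1) * (Fintype.card V : ℝ) ^ (e0 + 1) ≤
          (e0.factorial : ℝ) * (Fintype.card V : ℝ) ^ e0 * S := by
        refine le_trans ?_ hI2
        have h2 : Real.exp (-C * Real.sqrt e0 * Real.log e0) ≤
            Real.exp (-Cf (q' + 1) (Nat.succ_pos q') * Real.sqrt e0 * Real.log e0) := by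
          refine Real.exp_le_exp.2 ?_
          have h3 : 0 ≤ Real.sqrt e0 * Real.log e0 :=
            mul_nonneg (Real.sqrt_nonneg _) (Real.log_natCast_nonneg _)
          have h4 := mul_le_mul_of_nonneg_right hCq h3
          linarith
        gcongr
      rw [← sub_nonneg] at h1 ⊢
      have h3 : (e0.factorial : ℝ) * (Fintype.card V : ℝ) ^ e0 * S -
          (519 / 1000 : ℝ) ^ e0 * Real.exp (-C * Real.sqrt e0 * Real.log e0) *
          ((e0 + 1 : ℕ) : ℝ) ^ (e0 - 1) * (Fintype.card V : ℝ) ^ (e0 + 1) =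
          ((e0.factorial : ℝ) * (Fintype.card V : ℝ) ^ e0) * (S -
          (519 / 1000) ^ e0 * Real.exp (-C * Real.sqrt e0 * Real.log e0) *
        (((e0 + 1 : ℕ) : ℝ) ^ (e0 - 1) / e0.factorial) * n) := by
        have h5 : (e0.factorial : ℝ) ≠ 0 := by positivity
        rw [hn]
        field_simp
        ring
      rw [h3] at h1
      exact nonneg_of_mul_nonneg_right h1 hfe
    have hD' : (0 : ℝ) < D := by exact_mod_cast hD1
    calc (51 / 100 : ℝ) ^ m * ((m + 1 : ℕ) : ℝ) ^ (m - 1) * (Fintype.card V : ℝ) ^ (m + 1)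
        = ((51 / 100) ^ m * (((m + 1 : ℕ) : ℝ) ^ (m - 1) / m.factorial)) *
            (n * ((m.factorial : ℝ) * (Fintype.card V : ℝ) ^ m)) := by
          have h5 : (m.factorial : ℝ) ≠ 0 := by positivity
          rw [hn]
          field_simp
          ring
      _ ≤ (1 / D * (κ / (4 * (K : ℝ) ^ 2 * (m : ℝ) ^ 2)) ^ F.card * (κ / (2 * m)) ^ D *
          ((519 / 1000) ^ e0 * Real.exp (-C * Real.sqrt e0 * Real.log e0) *
          (((e0 + 1 : ℕ) : ℝ) ^ (e0 - 1) / e0.factorial))) *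
            (n * ((m.factorial : ℝ) * (Fintype.card V : ℝ) ^ m)) :=
          mul_le_mul_of_nonneg_right hnum (mul_nonneg hn0.le hfm.le)
      _ = (((519 / 1000) ^ e0 * Real.exp (-C * Real.sqrt e0 * Real.log e0) *
          (((e0 + 1 : ℕ) : ℝ) ^ (e0 - 1) / e0.factorial) * n) / D * B) *
            ((m.factorial : ℝ) * (Fintype.card V : ℝ) ^ m) := by
          rw [hB]
          ring
      _ ≤ (S / D * B) * ((m.factorial : ℝ) * (Fintype.card V : ℝ) ^ m) := by
          refine mul_le_mul_of_nonneg_right ?_ hfm.le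
          refine mul_le_mul_of_nonneg_right ?_ hB0
          exact div_le_div_of_nonneg_right hSlow hD'.le

end Pool.Agent.ZT
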