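import Pool.Agent.ZC.Light
import Pool.Agent.ZC.Cover
import Pool.Agent.ZC.BDich
import Pool.Agent.ZC.FarB2
import Pool.Agent.ZC.FarC
import Pool.Agent.ZT.GoodPair

/-! # ZC : THE FAR REGIME, EVERY MODULUS -/

set_option autoImplicit false

open Finset

namespace Pool.Agent.ZT

/-- at most `1/κ1` colours have density `> κ1` -/
theorem farall_card {V C : Type} [Fintype V] [Fintype C] (c : V → V → C) (κ1 : ℝ)
    (F0 : Finset C) (hn : 0 < Fintype.card V)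
    (h : ∀ a ∈ F0, κ1 * (Fintype.card V : ℝ) ^ 2 ≤ cnt (fun q : V × V => c q.1 q.2 = a)) :
    κ1 * F0.card ≤ 1 := by
  classical
  have h1 : (∑ a ∈ F0, cnt (fun q : V × V => c q.1 q.2 = a)) ≤ Fintype.card (V × V) := by
    simp only [cnt_eq_card]
    have e1 := card_eq_sum_card_fiberwise (f := fun q : V × V => c q.1 q.2) (t := F0)
      (s := univ.filter fun q : V × V => c q.1 q.2 ∈ F0) (fun q hq => by simpa using hq)
    have e2 : ∑ a ∈ F0, (univ.filter fun q : V × V => c q.1 q.2 = a).card =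
        ∑ a ∈ F0, ((univ.filter fun q : V × V => c q.1 q.2 ∈ F0).filter
          fun q : V × V => c q.1 q.2 = a).card := by
      refine sum_congr rfl fun a ha => ?_
      congr 1
      ext q
      simp only [mem_filter, mem_univ, true_and]
      constructor
      · intro h3
        exact ⟨by rw [h3]; exact ha, h3⟩
      · rintro ⟨-, h3⟩
        exact h3
    rw [e2, ← e1, ← card_univ]
    exact card_le_card (filter_subset _ _)
  have h2 : (F0.card : ℝ) * (κ1 * (Fintype.card V : ℝ) ^ 2) ≤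
      ((∑ a ∈ F0, cnt (fun q : V × V => c q.1 q.2 = a) : ℕ) : ℝ) := by
    rw [← nsmul_eq_mul, ← sum_const]
    push_cast
    exact sum_le_sum h
  have h3 : ((Fintype.card (V × V) : ℕ) : ℝ) = (Fintype.card V : ℝ) ^ 2 := by
    rw [Fintype.card_prod]
    push_cast
    ring
  have h4 : (F0.card : ℝ) * (κ1 * (Fintype.card V : ℝ) ^ 2) ≤ (Fintype.card V : ℝ) ^ 2 := by
    refine h2.trans ?_
    rw [← h3]
    exact_mod_cast h1
  have h5 : (0 : ℝ) < (Fintype.card V : ℝ) ^ 2 := by positivity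
  by_contra hcon
  push Not at hcon
  nlinarith

theorem farall_main (δ : ℝ) (hδ : 0 < δ) (hδ1 : δ ≤ 1) : ∃ m0 n0 : ℕ, ∀ m ≥ m0,
    ∀ (V : Type) [Fintype V] (c : V → V → ZMod m), (∀ x y, c x y = c y x) → n0 ≤ Fintype.card V →
    (∀ a b : ZMod m, IsUnit (b - a) → δ * (Fintype.card V : ℝ) ^ 2 ≤
      cnt (fun q : V × V => c q.1 q.2 ≠ a ∧ c q.1 q.2 ≠ b)) →
    (1 / 2 + min (1 / 100) (δ / 20)) ^ m * ((m + 1 : ℕ) : ℝ) ^ (m - 1) *
      (Fintype.card V : ℝ) ^ (m + 1) ≤ NN c m 0 := by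
  classical
  set ρ3 : ℝ := δ / 100 with hρ3
  set ρ1 : ℝ := ρ3 ^ 2 / 4 with hρ1
  have h3pos : 0 < ρ3 := by positivity
  have h1pos : 0 < ρ1 := by positivity
  obtain ⟨κ1, hκ1, hκ1', m1, hlight⟩ := light ρ1 h1pos
  have hκpos : 0 < ρ1 * κ1 := by positivity
  obtain ⟨η, hη, m2, hcov⟩ := cover_case (ρ1 * κ1) hκpos
  obtain ⟨D, m3, hdich⟩ := Pool.Agent.ZC.dich2 ⌊1 / κ1⌋₊ η hη
  obtain ⟨m4, hfb⟩ := far_b2 δ hδ hδ1 (ρ1 * κ1) hκpos D ⌊1 / κ1⌋₊
  obtain ⟨m5, hfc⟩ := far_c (ρ1 * κ1) hκpos D ⌊1 / κ1⌋₊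
  refine ⟨max (max m1 m2) (max (max m3 m4) (max m5 1)), ⌈2 / ρ3⌉₊ + 1, ?_⟩
  intro m hm V _ c hc hn hfar
  have hm1 : m1 ≤ m := (le_max_left _ _).trans ((le_max_left _ _).trans hm)
  have hm2 : m2 ≤ m := (le_max_right _ _).trans ((le_max_left _ _).trans hm)
  have hm34 : max m3 m4 ≤ m := (le_max_left _ _).trans ((le_max_right _ _).trans hm)
  have hm3 : m3 ≤ m := (le_max_left _ _).trans hm34
  have hm4 : m4 ≤ m := (le_max_right _ _).trans hm34
  have hm51 : max m5 1 ≤ m := (le_max_right _ _).trans ((le_max_right _ _).trans hm)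
  have hm5 : m5 ≤ m := (le_max_left _ _).trans hm51
  have hmpos : 1 ≤ m := (le_max_right _ _).trans hm51
  have hne : NeZero m := ⟨by omega⟩
  have hVpos : 0 < Fintype.card V := by omega
  have hVr : (0 : ℝ) < (Fintype.card V : ℝ) := by exact_mod_cast hVpos
  set γ : ℝ := min (1 / 100) (δ / 20) with hγ
  have hγ0 : 0 ≤ γ := le_min (by norm_num) (by positivity)
  have hγ1 : γ ≤ 1 / 100 := min_le_left _ _
  have hγ2 : γ ≤ δ / 20 := min_le_right _ _
  have hcmp : ∀ t : ℝ, 1 / 2 + γ ≤ t →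
      (1 / 2 + γ) ^ m * ((m + 1 : ℕ) : ℝ) ^ (m - 1) * (Fintype.card V : ℝ) ^ (m + 1) ≤
      t ^ m * ((m + 1 : ℕ) : ℝ) ^ (m - 1) * (Fintype.card V : ℝ) ^ (m + 1) := by
    intro t ht
    have : (1 / 2 + γ) ^ m ≤ t ^ m := pow_le_pow_left₀ (by positivity) ht m
    gcongr
  by_cases hL : ρ1 * (Fintype.card V : ℝ) ^ 2 ≤ cnt (fun q : V × V =>
      (cnt (fun q' : V × V => c q'.1 q'.2 = c q.1 q.2) : ℝ) ≤ κ1 * (Fintype.card V : ℝ) ^ 2)
  · exact (hcmp (3 / 5) (by linarith)).trans (hlight m hm1 V c hc hL)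
  push Not at hL
  set F0 : Finset (ZMod m) := univ.filter fun a =>
    κ1 * (Fintype.card V : ℝ) ^ 2 < cnt (fun q : V × V => c q.1 q.2 = a) with hF0
  have hmF0 : ∀ a, a ∈ F0 ↔ κ1 * (Fintype.card V : ℝ) ^ 2 < cnt (fun q : V × V => c q.1 q.2 = a) := by
    intro a
    rw [hF0, mem_filter]
    exact ⟨fun h => h.2, fun h => ⟨mem_univ _, h⟩⟩
  have hF0c : κ1 * F0.card ≤ 1 :=
    farall_card c κ1 F0 hVpos fun a ha => ((hmF0 a).1 ha).le
  have hout : (cnt (fun q : V × V => c q.1 q.2 ∉ F0) : ℝ) ≤ ρ1 * (Fintype.card V : ℝ) ^ 2 := by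
    refine le_trans (le_of_eq ?_) hL.le
    congr 1
    refine cnt_congr fun q => ?_
    rw [hmF0, not_lt]
  have hn2 : 2 / ρ3 ≤ Fintype.card V := by
    have h4 : (⌈2 / ρ3⌉₊ : ℝ) ≤ Fintype.card V := by
      exact_mod_cast (by omega : ⌈2 / ρ3⌉₊ ≤ Fintype.card V)
    exact (Nat.le_ceil _).trans h4
  obtain ⟨F, hFF0, U, hU, hdeg, hmass⟩ := good_pair c hc F0 ρ1 ρ3 (ρ1 * κ1) h1pos.le h3pos
    (by rw [hρ3]; linarith) (by rw [hρ1]; linarith) (by positivity)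
    (by
      calc ρ1 * κ1 * F0.card = ρ1 * (κ1 * F0.card) := by ring
        _ ≤ ρ1 * 1 := by gcongr
        _ = ρ1 := mul_one _) hn2 hout
  have hρ99 : 99 / 100 * (Fintype.card V : ℝ) ≤ (1 - ρ3) * Fintype.card V := by
    apply mul_le_mul_of_nonneg_right _ hVr.le
    rw [hρ3]
    linarith
  have hU' : 99 / 100 * (Fintype.card V : ℝ) ≤ U.card := hρ99.trans hU
  have hdeg' : ∀ x ∈ U, 99 / 100 * (Fintype.card V : ℝ) ≤ cnt (fun y : V => y ∈ U ∧ c x y ∈ F) :=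
    fun x hx => hρ99.trans (hdeg x hx)
  -- `F` is nonempty
  have hFne : F.Nonempty := by
    have hUpos : (0 : ℝ) < U.card := lt_of_lt_of_le (by positivity) hU'
    have hUpos' : 0 < U.card := by exact_mod_cast hUpos
    obtain ⟨x, hx⟩ := card_pos.1 hUpos'
    have h1 : (0 : ℝ) < cnt (fun y : V => y ∈ U ∧ c x y ∈ F) :=
      lt_of_lt_of_le (by positivity) (hdeg' x hx)
    have h2 : 0 < cnt (fun y : V => y ∈ U ∧ c x y ∈ F) := by exact_mod_cast h1
    rw [cnt_eq_card] at h2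
    obtain ⟨y, hy⟩ := card_pos.1 h2
    rw [mem_filter] at hy
    exact ⟨c x y, hy.2.2⟩
  have hFc : F.card ≤ ⌊1 / κ1⌋₊ := by
    apply Nat.le_floor
    have h16 : (F.card : ℝ) ≤ F0.card := by exact_mod_cast card_le_card hFF0
    rw [le_div_iff₀ hκ1]
    nlinarith
  rcases hdich m hm3 F hFne hFc ⌈η * m⌉₊ (Nat.le_ceil _) with
    hA | ⟨Γ, x0, g, t0, a, q, o, hΓ, ha, ha0, hgcd, hν, hqo, hq1, hqD, hog, hq1'⟩
  · obtain ⟨x0, hx0⟩ := hFne
    exact (hcmp (3 / 5) (by linarith)).trans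
      (hcov m hm2 _ rfl V c hc U F hU' hdeg' hmass x0 hx0 (hA x0 hx0))
  · rcases Nat.eq_or_lt_of_le hq1 with hq | hq
    · obtain ⟨hbot, hg⟩ := hq1' hq.symm
      refine (hcmp (1 / 2 + δ / 20) (by linarith)).trans
        (hfb m hm4 V c hc hVpos x0 g (fun b => ?_) U F hU hdeg hmass hFc a (fun x hx => ⟨(ha x hx).1, ?_⟩)
          ha0 hgcd)
      · apply hfar b (b + g)
        rw [add_sub_cancel_left]
        exact hg
      · have h1 := (ha x hx).2
        rw [hbot, AddSubgroup.mem_bot, nsmul_eq_mul] at h1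
        linear_combination h1
    · exact (hcmp (51 / 100) (by linarith)).trans
        (hfc m hm5 V c hc hVpos U F hU' hdeg' hmass hFc Γ x0 g t0 a q o hΓ ha ha0 hgcd hν hqo hq hqD hog)

/-- THE FAR REGIME, EVERY MODULUS (compare `far` in ZT/Far3.lean, complete).

PROOF.  We may assume `δ ≤ 1` (for `δ > 1` the hypothesis for the pair `0, 1` forces `n = 0`).
`ρ3 = δ/100`, `ρ1 = ρ3^2/4`.  `light ρ1` gives `κ1`.  If the pairs whose colour has density `≤ κ1` have mass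
`≥ ρ1`, done (`3/5`).  Otherwise `F0 = {colours of density > κ1}` has at most `1/κ1` elements and
`cnt (c ∉ F0) ≤ ρ1 n^2`.  `good_pair` with `κ = ρ1 κ1` gives `F, U`; `F` is nonempty (degrees).  Let `η` be as in
`cover_case κ`, `J = ⌈η m⌉₊`, `D` from `dich2 ⌊1/κ1⌋ η`.  First alternative of `dich2`: `cover_case`
(`99/100 ≤ 1 - δ/100`).  Second alternative: if `q = 1`, `Γ = ⊥` and `g` is a unit, so `x = x0 + (a x) g` on `F`,
and `far_b2` applies (`(b + g) - b = g` is a unit) with `1/2 + δ/20`; if `q ≥ 2`, `far_c`.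
`γ = min (1/100) (δ/20)`. -/
theorem far_all (δ : ℝ) (hδ : 0 < δ) : ∃ γ > (0 : ℝ), ∃ m0 n0 : ℕ, ∀ m ≥ m0,
    ∀ (V : Type) [Fintype V] (c : V → V → ZMod m), (∀ x y, c x y = c y x) → n0 ≤ Fintype.card V →
    (∀ a b : ZMod m, IsUnit (b - a) → δ * (Fintype.card V : ℝ) ^ 2 ≤
      cnt (fun q : V × V => c q.1 q.2 ≠ a ∧ c q.1 q.2 ≠ b)) →
    (1 / 2 + γ) ^ m * ((m + 1 : ℕ) : ℝ) ^ (m - 1) * (Fintype.card V : ℝ) ^ (m + 1) ≤ NN c m 0 := by
  obtain ⟨m0, n0, h⟩ := farall_main (min δ 1) (lt_min hδ one_pos) (min_le_right _ _)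
  refine ⟨min (1 / 100) (min δ 1 / 20), lt_min (by norm_num) (div_pos (lt_min hδ one_pos) (by norm_num)),
    m0, n0, ?_⟩
  intro m hm V _ c hc hn hfar
  refine h m hm V c hc hn fun a b hab => ?_
  refine le_trans ?_ (hfar a b hab)
  exact mul_le_mul_of_nonneg_right (min_le_left _ _) (by positivity)

end Pool.Agent.ZT
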