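import Pool.Agent.ZT.Core1
import Pool.Agent.ZT.Block
import Pool.Agent.ZT.Dual

/-! # ZC : the integer case at a level `t/q` with prescribed offsets -/

set_option autoImplicit false

open Finset

namespace Pool.Agent.ZT

/-- Like `int_raw` (file ZT/Core2.lean, complete; copy and adapt its proof), but at the level `t/q` instead
of `0`, and with a prescribed target `r0 y` (close to `m t/q`) for every hub `y`.

PROOF.  Let `Q = (e+1)^(e-1) n^(e+1) h^e`.  `block_sum` with `h e^{θ t/q}` in the place of `h` gives, for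
every `θ`, `∑_s NN c e (s,0) e^{θ (s - t e/q)} ≥ Q`.  Apply `dual` to the set `S = {q s - t e | |s| ≤ D e}`
(`2De + 1` elements) and `f u = NN c e (s, 0)` for `u = q s - t e` (with `θ/q` in the place of `θ`): there are
`u1 ≤ 0 ≤ u2`, i.e. `s1, s2`, and `w` as in `int_raw`; `round_weights` gives `n1 + n2 = M`,
`|n1 u1 + n2 u2| ≤ |u2 - u1| ≤ 2 q D e`.  For every hub `y` from `hub_two` apply `core` (same `β_k` as in
`int_raw`) and choose `ν` by `hpat` with `r = r0 y - (n1 s1 + n2 s2 + j0)`, because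
`q r - t J = (q r0 y - t m) - (n1 u1 + n2 u2) + t (M + 2|I|) - q j0` has absolute value at most
`R + 2qDe + qDM + 2qD|I| + q (DM + 2D|I|)`.  Sum over the hubs `y ∈ U`. -/
theorem int_raw2 {V : Type} [Fintype V] {c : V → V → ℤ × ℕ} {U : Finset V} {D : ℕ} (H : IK c U D)
    (κ : ℝ) (hκ0 : 0 < κ) (I : Finset ℤ)
    (hκ : ∀ i ∈ I, κ * (Fintype.card V : ℝ) ^ 2 ≤ cnt (fun q : V × V => c q.1 q.2 = (i, 0)))
    (h : ℝ) (hh0 : 0 < h) (q : ℕ) (hq : 1 ≤ q) (t : ℤ) (ht : |t| ≤ (q : ℤ) * D)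
    (hθ : ∀ θ : ℝ, h * (Fintype.card V : ℝ) ^ 2 ≤
      sm (fun p : V × V => (c p.1 p.2).2 = 0)
        (fun p => Real.exp (θ * (((c p.1 p.2).1 : ℝ) - (t : ℝ) / q))))
    (C : ℕ) (hpat : ∀ (J : ℕ) (r : ℤ), |(q : ℤ) * r - t * J| + C ≤ J →
      ∃ ν : ℤ → ℕ, ∑ i ∈ I, ν i = J ∧ ∑ i ∈ I, (ν i : ℤ) * i = r)
    (R : ℕ) (r0 : V → ℤ) (e M J m : ℕ) (he : 1 ≤ e) (hm : m = M * (e + 1) + 2 * I.card + J)
    (hr0 : ∀ y, |(q : ℤ) * r0 y - t * m| ≤ (R : ℤ))
    (hJ : R + 2 * q * D * e + 2 * q * D * M + 4 * q * D * I.card + C ≤ J) :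
    (m.factorial : ℝ) / 2 * (Fintype.card V : ℝ) ^ (m + 1) *
      (((e + 1 : ℕ) : ℝ) ^ (e - 1) / e.factorial / (2 * (2 * D + 1) * m)) ^ M *
      Real.exp (-((M : ℝ) + 2) * (Real.log (2 * D * e + 1) - e * Real.log h)) *
      (κ / (4 * (2 * D + 1) ^ 2 * (m : ℝ) ^ 2)) ^ I.card * (κ / (2 * m)) ^ J
    ≤ (m.factorial : ℝ) * (Fintype.card V : ℝ) ^ m *
      sm (fun y : V => y ∈ U) (fun y => rr c m y (r0 y, 0)) := by
  classical
  set n : ℝ := (Fintype.card V : ℝ) with hn
  have hnpos : 0 < n := by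
    obtain ⟨u, _⟩ := H.ne
    rw [hn]
    exact_mod_cast Fintype.card_pos_iff.2 ⟨u⟩
  have hqpos : (0 : ℝ) < q := by exact_mod_cast hq
  have hqZ : (0 : ℤ) < q := by exact_mod_cast hq
  set A : ℝ := ((e + 1 : ℕ) : ℝ) ^ (e - 1) with hA
  have hApos : 0 < A := by positivity
  set T : ℝ := A * n ^ (e + 1) with hT
  have hTpos : 0 < T := by positivity
  set S0 : Finset ℤ := Icc (-((D : ℤ) * e)) ((D : ℤ) * e) with hS0
  have hinj : Function.Injective (fun s : ℤ => (q : ℤ) * s - t * e) := by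
    intro a b hab
    have h1 : (q : ℤ) * a = q * b := by
      have h2 : (q : ℤ) * a - t * e = q * b - t * e := hab
      linarith
    exact mul_left_cancel₀ hqZ.ne' h1
  set S : Finset ℤ := S0.image (fun s : ℤ => (q : ℤ) * s - t * e) with hS
  have hScard : (S.card : ℝ) = 2 * D * e + 1 := by
    have h0 : S.card = S0.card := card_image_of_injective _ hinj
    have h1 : S0.card = 2 * (D * e) + 1 := by
      rw [hS0, Int.card_Icc]
      have : ((D : ℤ) * e) = ((D * e : ℕ) : ℤ) := by push_cast; ring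
      rw [this]
      omega
    rw [h0, h1]
    push_cast
    ring
  have hdiv : ∀ s : ℤ, ((q : ℤ) * s - t * e + t * e) / q = s := by
    intro s
    rw [sub_add_cancel, Int.mul_ediv_cancel_left _ hqZ.ne']
  obtain ⟨u1, hu1, u2, hu2, w, hw0, hw1, hws, hf1, hf2, hlog⟩ :=
    dual S (fun u => (NN c e ((u + t * e) / q, 0) : ℝ)) (fun s _ => Nat.cast_nonneg _) (T * h ^ e)
      (by positivity) (fun θ => by
        have hb := block_sum c H.symm D H.bdd e (θ * q) (h * Real.exp (θ * t)) (by positivity) (by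
          have h1 := hθ (θ * q)
          rw [sm_eq] at h1 ⊢
          have h2 : ∑ p ∈ univ.filter (fun p : V × V => (c p.1 p.2).2 = 0),
              Real.exp (θ * q * (c p.1 p.2).1) =
              (∑ p ∈ univ.filter (fun p : V × V => (c p.1 p.2).2 = 0),
                Real.exp (θ * q * (((c p.1 p.2).1 : ℝ) - (t : ℝ) / q))) * Real.exp (θ * t) := by
            rw [sum_mul]
            refine sum_congr rfl fun p _ => ?_
            rw [← Real.exp_add]
            congr 1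
            field_simp
            ring
          rw [h2]
          have h3 := mul_le_mul_of_nonneg_right h1 (Real.exp_nonneg (θ * t))
          refine le_trans (le_of_eq ?_) h3
          ring)
        rw [hS, sum_image (fun a _ b _ hab => hinj hab)]
        simp only [hdiv]
        have h4 : ∑ s ∈ S0, (NN c e (s, 0) : ℝ) * Real.exp (θ * (((q : ℤ) * s - t * e : ℤ) : ℝ)) =
            (∑ s ∈ S0, (NN c e (s, 0) : ℝ) * Real.exp (θ * q * s)) * Real.exp (-(θ * t * e)) := by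
          rw [sum_mul]
          refine sum_congr rfl fun s _ => ?_
          rw [mul_assoc, ← Real.exp_add]
          congr 2
          push_cast
          ring
        rw [h4]
        have h5 := mul_le_mul_of_nonneg_right hb (Real.exp_nonneg (-(θ * t * e)))
        refine le_trans (le_of_eq ?_) h5
        rw [mul_pow, ← Real.exp_nat_mul, hT, hA, hn]
        have h6 : Real.exp ((e : ℝ) * (θ * t)) * Real.exp (-(θ * t * e)) = 1 := by
          rw [← Real.exp_add]
          have : (e : ℝ) * (θ * t) + -(θ * t * e) = 0 := by ring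
          rw [this, Real.exp_zero]
        calc ((e + 1 : ℕ) : ℝ) ^ (e - 1) * (Fintype.card V : ℝ) ^ (e + 1) * h ^ e
            = ((e + 1 : ℕ) : ℝ) ^ (e - 1) * (Fintype.card V : ℝ) ^ (e + 1) * h ^ e *
              (Real.exp ((e : ℝ) * (θ * t)) * Real.exp (-(θ * t * e))) := by rw [h6, mul_one]
          _ = _ := by ring)
  obtain ⟨s1, hs1, rfl⟩ := mem_image.1 hu1
  obtain ⟨s2, hs2, rfl⟩ := mem_image.1 hu2
  simp only [hdiv] at hf1 hf2 hlog
  set f1 : ℝ := (NN c e (s1, 0) : ℝ) with hf1d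
  set f2 : ℝ := (NN c e (s2, 0) : ℝ) with hf2d
  have hp1 : 0 < f1 / T := by positivity
  have hp2 : 0 < f2 / T := by positivity
  have hp1' : f1 / T ≤ 1 := by
    rw [div_le_one hTpos]
    exact NN_le c e (s1, 0)
  have hp2' : f2 / T ≤ 1 := by
    rw [div_le_one hTpos]
    exact NN_le c e (s2, 0)
  set E : ℝ := Real.log (2 * D * e + 1) - e * Real.log h with hE
  have hEle : -E ≤ w * Real.log (f1 / T) + (1 - w) * Real.log (f2 / T) := by
    rw [Real.log_div hf1.ne' hTpos.ne', Real.log_div hf2.ne' hTpos.ne']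
    rw [hScard, Real.log_div (by positivity) (by positivity), Real.log_mul hTpos.ne' (by positivity),
      Real.log_pow] at hlog
    rw [hE]
    linarith
  obtain ⟨n1, n2, hn12, habs, hexp⟩ := round_weights ((q : ℤ) * s1 - t * e) ((q : ℤ) * s2 - t * e)
    w hw0 hw1 hws (f1 / T) (f2 / T) hp1 hp1' hp2 hp2' E hEle M
  have hs12 : |s2 - s1| ≤ 2 * ((D : ℤ) * e) := by
    rw [hS0, mem_Icc] at hs1 hs2
    rw [abs_le]
    constructor <;> linarith [hs1.1, hs1.2, hs2.1, hs2.2]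
  have hu12 : |(q : ℤ) * s2 - t * e - ((q : ℤ) * s1 - t * e)| ≤ q * (2 * ((D : ℤ) * e)) := by
    have h1 : (q : ℤ) * s2 - t * e - ((q : ℤ) * s1 - t * e) = q * (s2 - s1) := by ring
    rw [h1, abs_mul, abs_of_pos hqZ]
    exact mul_le_mul_of_nonneg_left hs12 hqZ.le
  -- the constant for one hub
  set B : ℝ := A / e.factorial / (2 * (2 * D + 1) * m) with hB
  have hB0 : 0 ≤ B := by positivity
  set LB : ℝ := B ^ M * Real.exp (-((M : ℝ) + 2) * E) *
      (κ / (4 * (2 * D + 1) ^ 2 * (m : ℝ) ^ 2)) ^ I.card * (κ / (2 * m)) ^ J with hLB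
  have hLB0 : 0 ≤ LB := by positivity
  have hβ : ∀ s : ℤ, (1 / (2 * (2 * (D : ℝ) + 1))) * (∑ z, rr c e z (s, 0)) / n / m =
      (NN c e (s, 0) : ℝ) / T * B := by
    intro s
    rw [sum_rr, hB, hT, ← hn]
    have hDp : (0 : ℝ) < 2 * D + 1 := by positivity
    have hfac : (0 : ℝ) < e.factorial := by positivity
    rcases eq_or_ne (m : ℝ) 0 with hm0 | hm0
    · rw [hm0]
      simp
    · field_simp
      ring
  have key : ∀ y : V, (y ∈ U ∧
      1 / 2 * ∑ z, rr c e z (s1, 0) ≤ sm (fun z => (c z y).2 = 0) (fun z => rr c e z (s1, 0)) ∧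
      1 / 2 * ∑ z, rr c e z (s2, 0) ≤ sm (fun z => (c z y).2 = 0) (fun z => rr c e z (s2, 0))) →
      LB ≤ rr c m y (r0 y, 0) := by
    rintro y ⟨hyU, hy1, hy2⟩
    have hDp : (0 : ℝ) < 2 * D + 1 := by positivity
    have hnn : ∀ s : ℤ, 0 ≤ ∑ z, rr c e z (s, 0) := fun s =>
      sum_nonneg fun z _ => rr_nonneg c e z (s, 0)
    have hval : ∀ s : ℤ, (2 * (D : ℝ) + 1) *
        ((1 / (2 * (2 * (D : ℝ) + 1))) * (∑ z, rr c e z (s, 0)) / n) * n =
        1 / 2 * ∑ z, rr c e z (s, 0) := by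
      intro s
      field_simp
    have hb0 : ∀ s : ℤ, 0 ≤ (1 / (2 * (2 * (D : ℝ) + 1))) * (∑ z, rr c e z (s, 0)) / n := fun s =>
      div_nonneg (mul_nonneg (by positivity) (hnn s)) hnpos.le
    obtain ⟨j0, hj0, hcore⟩ := core H κ hκ0 I hκ e s1 s2
      ((1 / (2 * (2 * (D : ℝ) + 1))) * (∑ z, rr c e z (s1, 0)) / n)
      ((1 / (2 * (2 * (D : ℝ) + 1))) * (∑ z, rr c e z (s2, 0)) / n)
      (hb0 s1) (hb0 s2) y hyU
      (by rw [← hn, hval]; exact hy1) (by rw [← hn, hval]; exact hy2) n1 n2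
    set r : ℤ := r0 y - ((n1 : ℤ) * s1 + n2 * s2 + j0) with hr
    have hMn : ((n1 : ℤ) + n2) = (M : ℤ) := by exact_mod_cast hn12
    have hmZ : (m : ℤ) = M * (e + 1) + 2 * I.card + J := by exact_mod_cast hm
    have hrle : |(q : ℤ) * r - t * J| + (C : ℤ) ≤ J := by
      have e0 : (q : ℤ) * r - t * J = ((q : ℤ) * r0 y - t * m) -
          ((n1 : ℤ) * ((q : ℤ) * s1 - t * e) + n2 * ((q : ℤ) * s2 - t * e)) +
          (t * M + 2 * t * I.card) - q * j0 := by
        rw [hr, hmZ, ← hMn]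
        ring
      have a1 := hr0 y
      have a2 : |(n1 : ℤ) * ((q : ℤ) * s1 - t * e) + n2 * ((q : ℤ) * s2 - t * e)| ≤
          q * (2 * ((D : ℤ) * e)) := habs.trans hu12
      have a3 : |t * M + 2 * t * I.card| ≤ (q : ℤ) * D * (M + 2 * I.card) := by
        have e1 : t * M + 2 * t * I.card = t * (M + 2 * I.card) := by ring
        rw [e1, abs_mul, abs_of_nonneg (by positivity : (0 : ℤ) ≤ M + 2 * I.card)]
        exact mul_le_mul_of_nonneg_right ht (by positivity)
      have a4 : |(q : ℤ) * j0| ≤ q * ((D : ℤ) * M + 2 * (D : ℤ) * I.card) := by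
        rw [abs_mul, abs_of_pos hqZ]
        rw [hMn] at hj0
        exact mul_le_mul_of_nonneg_left hj0 hqZ.le
      have h3 : ((R + 2 * q * D * e + 2 * q * D * M + 4 * q * D * I.card + C : ℕ) : ℤ) ≤ (J : ℤ) := by
        exact_mod_cast hJ
      push_cast at h3
      have b1 := abs_le.1 a1
      have b2 := abs_le.1 a2
      have b3 := abs_le.1 a3
      have b4 := abs_le.1 a4
      have h4 : |(q : ℤ) * r - t * J| ≤ (R : ℤ) + q * (2 * ((D : ℤ) * e)) +
          (q : ℤ) * D * (M + 2 * I.card) + q * ((D : ℤ) * M + 2 * (D : ℤ) * I.card) := by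
        rw [e0, abs_le]
        constructor <;> linarith [b1.1, b1.2, b2.1, b2.2, b3.1, b3.2, b4.1, b4.2]
      linarith
    obtain ⟨ν, hν1, hν2⟩ := hpat J r hrle
    have h4 := hcore ν m (by rw [hm, hν1, hn12])
    rw [hν2, hν1, hβ s1, hβ s2] at h4
    have h5 : ((n1 : ℤ) * s1 + n2 * s2 + j0 + r) = r0 y := by rw [hr]; ring
    rw [h5] at h4
    refine le_trans ?_ h4
    rw [hLB]
    have h6 : (f1 / T * B) ^ n1 * (f2 / T * B) ^ n2 =
        B ^ M * ((f1 / T) ^ n1 * (f2 / T) ^ n2) := by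
      rw [← hn12, pow_add, mul_pow, mul_pow]
      ring
    rw [h6]
    gcongr
  have hub := hub_two H e he s1 s2
  rw [cnt_eq_card] at hub
  have hsum : n / 2 * LB ≤ sm (fun y : V => y ∈ U) (fun y => rr c m y (r0 y, 0)) := by
    rw [sm_eq]
    calc n / 2 * LB ≤ ((univ.filter (fun y : V => y ∈ U ∧
          1 / 2 * ∑ z, rr c e z (s1, 0) ≤ sm (fun z => (c z y).2 = 0) (fun z => rr c e z (s1, 0)) ∧
          1 / 2 * ∑ z, rr c e z (s2, 0) ≤
            sm (fun z => (c z y).2 = 0) (fun z => rr c e z (s2, 0)))).card : ℝ) * LB := by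
          gcongr
          linarith
      _ = ∑ y ∈ univ.filter (fun y : V => y ∈ U ∧
          1 / 2 * ∑ z, rr c e z (s1, 0) ≤ sm (fun z => (c z y).2 = 0) (fun z => rr c e z (s1, 0)) ∧
          1 / 2 * ∑ z, rr c e z (s2, 0) ≤
            sm (fun z => (c z y).2 = 0) (fun z => rr c e z (s2, 0))), LB := by
          rw [sum_const, nsmul_eq_mul]
      _ ≤ ∑ y ∈ univ.filter (fun y : V => y ∈ U ∧
          1 / 2 * ∑ z, rr c e z (s1, 0) ≤ sm (fun z => (c z y).2 = 0) (fun z => rr c e z (s1, 0)) ∧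
          1 / 2 * ∑ z, rr c e z (s2, 0) ≤
            sm (fun z => (c z y).2 = 0) (fun z => rr c e z (s2, 0))), rr c m y (r0 y, 0) :=
          sum_le_sum fun y hy => key y (mem_filter.1 hy).2
      _ ≤ ∑ y ∈ univ.filter (fun y : V => y ∈ U), rr c m y (r0 y, 0) :=
          sum_le_sum_of_subset_of_nonneg (fun y hy => mem_filter.2 ⟨mem_univ _, (mem_filter.1 hy).2.1⟩)
            fun y _ _ => rr_nonneg c m y _
  have hfin := mul_le_mul_of_nonneg_left hsum (by positivity : 0 ≤ (m.factorial : ℝ) * n ^ m)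
  refine le_trans (le_of_eq ?_) hfin
  rw [hLB, pow_succ]
  ring

end Pool.Agent.ZT
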