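import Pool.Agent.ZT.Defs
import Pool.Agent.Lib.helper11.Kneser

/-! # ZC : Kneser's theorem for `J` sets -/

set_option autoImplicit false

open Finset

namespace Pool.Agent.ZT

open Classical in
/-- The number of cosets of `H` met by the family `v`. -/
noncomputable def ncos {G : Type} [AddCommGroup G] (H : AddSubgroup G) {r : ℕ} (v : Fin r → G) : ℕ :=
  (univ.image (fun i => (QuotientAddGroup.mk (v i) : G ⧸ H))).card

theorem one_le_ncos {G : Type} [AddCommGroup G] (H : AddSubgroup G) {r : ℕ} (hr : 1 ≤ r)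
    (v : Fin r → G) : 1 ≤ ncos H v := by
  classical
  unfold ncos
  rw [Nat.one_le_iff_ne_zero, ← Nat.pos_iff_ne_zero, card_pos]
  exact ⟨_, mem_image_of_mem _ (mem_univ (⟨0, hr⟩ : Fin r))⟩

theorem ncos_le {G : Type} [AddCommGroup G] (H : AddSubgroup G) {r : ℕ} (v : Fin r → G) :
    ncos H v ≤ r := by
  classical
  unfold ncos
  refine card_image_le.trans ?_
  rw [card_univ, Fintype.card_fin]

/-- the sumset -/
noncomputable def knj_sm {G : Type} [AddCommGroup G] [DecidableEq G] {n : ℕ} (A : Fin n → Finset G) :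
    Finset G :=
  (Fintype.piFinset A).image (fun a => ∑ j, a j)

theorem knj_mem {G : Type} [AddCommGroup G] [DecidableEq G] {n : ℕ} {A : Fin n → Finset G} {x : G} :
    x ∈ knj_sm A ↔ ∃ a : Fin n → G, (∀ j, a j ∈ A j) ∧ ∑ j, a j = x := by
  unfold knj_sm
  rw [mem_image]
  simp only [Fintype.mem_piFinset]

open Pointwise in
theorem knj_succ {G : Type} [AddCommGroup G] [DecidableEq G] {n : ℕ} (A : Fin (n + 1) → Finset G) :
    knj_sm A = knj_sm (fun j : Fin n => A j.castSucc) + A (Fin.last n) := by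
  ext x
  rw [knj_mem, mem_add]
  constructor
  · rintro ⟨a, ha, rfl⟩
    refine ⟨∑ j : Fin n, a j.castSucc, knj_mem.2 ⟨fun j => a j.castSucc, fun j => ha _, rfl⟩,
      a (Fin.last n), ha _, ?_⟩
    rw [Fin.sum_univ_castSucc]
  · rintro ⟨y, hy, z, hz, rfl⟩
    obtain ⟨a, ha, rfl⟩ := knj_mem.1 hy
    refine ⟨Fin.snoc a z, fun j => ?_, ?_⟩
    · refine Fin.lastCases ?_ (fun i => ?_) j
      · rw [Fin.snoc_last]
        exact hz
      · rw [Fin.snoc_castSucc]
        exact ha i
    · rw [Fin.sum_univ_castSucc]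
      simp only [Fin.snoc_castSucc, Fin.snoc_last]

theorem knj_img_bot {G : Type} [AddCommGroup G] [DecidableEq G] (A : Finset G) :
    (Pool.Agent.Lib.helper11.img (⊥ : AddSubgroup G) A).card = A.card := by
  classical
  have h1 : A.card = (A.image (fun x => (QuotientAddGroup.mk x : G ⧸ (⊥ : AddSubgroup G)))).card := by
    rw [card_image_of_injOn]
    intro x _ y _ h
    have h2 := QuotientAddGroup.eq.1 h
    rw [AddSubgroup.mem_bot] at h2
    exact (neg_add_eq_zero.1 h2)
  rw [h1]
  congr 1

open Pointwise in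
theorem knj_main {G : Type} [AddCommGroup G] [Fintype G] [DecidableEq G] (J : ℕ) :
    ∀ (A : Fin (J + 1) → Finset G), (∀ j, (A j).Nonempty) →
    (∀ h : G, (∀ x ∈ knj_sm A, h + x ∈ knj_sm A) → h = 0) →
    ∑ j, (A j).card ≤ (knj_sm A).card + J := by
  induction J with
  | zero =>
    intro A _ _
    rw [Fin.sum_univ_one, add_zero]
    refine card_le_card fun x hx => ?_
    rw [knj_mem]
    refine ⟨fun _ => x, fun j => ?_, ?_⟩
    · rw [Fin.fin_one_eq_zero j]
      exact hx
    · rw [Fin.sum_univ_one]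
  | succ J ih =>
    intro A hA hp
    set A' : Fin (J + 1) → Finset G := fun j => A j.castSucc with hA'
    have hsum : knj_sm A = knj_sm A' + A (Fin.last (J + 1)) := knj_succ A
    have hne : (knj_sm A').Nonempty := by
      choose a ha using fun j : Fin (J + 1) => hA j.castSucc
      exact ⟨_, knj_mem.2 ⟨a, ha, rfl⟩⟩
    have h1 := ih A' (fun j => hA _) (fun h hh => hp h (fun x hx => by
      rw [hsum, mem_add] at hx ⊢
      obtain ⟨y, hy, z, hz, rfl⟩ := hx
      exact ⟨h + y, hh y hy, z, hz, add_assoc _ _ _⟩))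
    obtain ⟨H, hH1, _, hH3⟩ := Pool.Agent.Lib.helper11.kneser (knj_sm A') (A (Fin.last (J + 1))) hne (hA _)
    have hH : H = ⊥ := by
      rw [AddSubgroup.eq_bot_iff_forall]
      intro h hh
      apply hp h
      intro x hx
      rw [hsum] at hx ⊢
      exact hH1 h hh x hx
    rw [hH, knj_img_bot, knj_img_bot, knj_img_bot, ← hsum] at hH3
    rw [Fin.sum_univ_castSucc]
    have h2 : ∑ j : Fin (J + 1), (A j.castSucc).card ≤ (knj_sm A').card + J := h1
    omega

/-- Kneser for `J` sets, trivial stabiliser: if the sumset of the nonempty sets `A j` has only the trivial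
period then it has at least `∑ |A j| - (J - 1)` elements.

PROOF.  Induction on `J` (`Fin.sum_univ_castSucc`): a period of the sum `S` of the first `J` sets is a
period of the total sum `S + A_J`; `Pool.Agent.Lib.helper11.kneser` for `S` and `A_J` gives a subgroup `H`
of periods of the total sum, so `H = ⊥` and `img ⊥` is a bijection. -/
theorem kneser_triv {G : Type} [AddCommGroup G] [Fintype G] [DecidableEq G] (J : ℕ)
    (A : Fin (J + 1) → Finset G) (hA : ∀ j, (A j).Nonempty)
    (hp : ∀ h : G, (∀ a : Fin (J + 1) → G, (∀ j, a j ∈ A j) →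
      ∃ b : Fin (J + 1) → G, (∀ j, b j ∈ A j) ∧ ∑ j, b j = h + ∑ j, a j) → h = 0) :
    ∃ T : Finset G, (∀ t ∈ T, ∃ a : Fin (J + 1) → G, (∀ j, a j ∈ A j) ∧ ∑ j, a j = t) ∧
      ∑ j, (A j).card ≤ T.card + J := by
  refine ⟨knj_sm A, fun t ht => ?_, knj_main J A hA (fun h hh => hp h fun a ha => ?_)⟩
  · exact knj_mem.1 ht
  · exact knj_mem.1 (hh _ (knj_mem.2 ⟨a, ha, rfl⟩))

/-- Kneser for `J` rows with all values in a coset `x0 + K`: either every element of `J x0 + K` is a sum
(one entry from every row), or there is a proper subgroup `H` of `K` with `∑_j (k_j - 1) |H| < |K|`, where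
`k_j` is the number of cosets of `H` met by row `j`.

PROOF.  Let `Σ = {∑ v j (i j)}` (nonempty, contained in `J x0 + K`) and `H` its group of periods; `H ≤ K`.
If `H = K` the first alternative holds (`Σ` is a union of cosets of `K` contained in one coset of `K`).
Otherwise apply `kneser_triv` in `G ⧸ H` to the images of the rows: the image of `Σ` has no period `≠ 0`
(a period of the image gives a period of `Σ` as `Σ` is `H`-periodic), so
`∑_j k_j ≤ |Σ / H| + J - 1 ≤ |K|/|H| + J - 1`, and `∑_j (k_j - 1) |H| ≤ |K| - |H| < |K|`. -/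
theorem kneser_cos {G : Type} [AddCommGroup G] [Fintype G] [DecidableEq G] (K : AddSubgroup G)
    (x0 : G) (J r : ℕ) (hJ : 1 ≤ J) (hr : 1 ≤ r) (v : Fin J → Fin r → G)
    (hv : ∀ j i, v j i - x0 ∈ K) :
    (∀ τ : G, τ - J • x0 ∈ K → ∃ i : Fin J → Fin r, ∑ j, v j (i j) = τ) ∨
    (∃ H < K, (∑ j, (ncos H (v j) - 1)) * Nat.card H < Nat.card K) := by
  classical
  obtain ⟨J', rfl⟩ : ∃ J', J = J' + 1 := ⟨J - 1, by omega⟩
  have hFr : Nonempty (Fin r) := ⟨⟨0, hr⟩⟩
  set X : Finset G := univ.image (fun i : Fin (J' + 1) → Fin r => ∑ j, v j (i j)) with hX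
  have memX : ∀ x, x ∈ X ↔ ∃ i : Fin (J' + 1) → Fin r, ∑ j, v j (i j) = x := by
    intro x
    rw [hX, mem_image]
    simp
  have hXK : ∀ x ∈ X, x - (J' + 1) • x0 ∈ K := by
    intro x hx
    obtain ⟨i, rfl⟩ := (memX x).1 hx
    have e : ∑ j, v j (i j) - (J' + 1) • x0 = ∑ j, (v j (i j) - x0) := by
      rw [sum_sub_distrib, sum_const, card_univ, Fintype.card_fin]
    rw [e]
    exact K.sum_mem fun j _ => hv j (i j)
  obtain ⟨x1, hx1⟩ : ∃ x1, x1 ∈ X := ⟨_, (memX _).2 ⟨fun _ => Classical.arbitrary _, rfl⟩⟩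
  -- the group of periods
  let H : AddSubgroup G :=
    { carrier := {h | ∀ x, h + x ∈ X ↔ x ∈ X}
      zero_mem' := by
        intro x
        rw [zero_add]
      add_mem' := by
        intro a b ha hb x
        rw [add_assoc, ha (b + x), hb x]
      neg_mem' := by
        intro a ha x
        have h := ha (-a + x)
        rw [add_neg_cancel_left] at h
        exact h.symm }
  have memH : ∀ h, h ∈ H ↔ ∀ x, h + x ∈ X ↔ x ∈ X := fun h => Iff.rfl
  have hHK : H ≤ K := by
    intro h hh
    have h1 : h + x1 ∈ X := ((memH h).1 hh x1).2 hx1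
    have h2 := K.sub_mem (hXK _ h1) (hXK _ hx1)
    have e : h + x1 - (J' + 1) • x0 - (x1 - (J' + 1) • x0) = h := by abel
    rwa [e] at h2
  by_cases hEq : H = K
  · left
    intro τ hτ
    have h1 : τ - x1 ∈ H := by
      rw [hEq]
      have h2 := K.sub_mem hτ (hXK _ hx1)
      have e : τ - (J' + 1) • x0 - (x1 - (J' + 1) • x0) = τ - x1 := by abel
      rwa [e] at h2
    have h3 := ((memH _).1 h1 x1).2 hx1
    rw [sub_add_cancel] at h3
    exact (memX τ).1 h3
  · right
    refine ⟨H, lt_of_le_of_ne hHK hEq, ?_⟩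
    have : Fintype (G ⧸ H) := Fintype.ofFinite _
    set A : Fin (J' + 1) → Finset (G ⧸ H) :=
      fun j => univ.image (fun i => (QuotientAddGroup.mk (v j i) : G ⧸ H)) with hA
    have hAc : ∀ j, ncos H (v j) = (A j).card := fun j => by
      unfold ncos
      rw [hA]
    have memA : ∀ j q, q ∈ A j ↔ ∃ i, (QuotientAddGroup.mk (v j i) : G ⧸ H) = q := by
      intro j q
      rw [hA, mem_image]
      simp
    -- sums of elements of the images
    have hlift : ∀ a : Fin (J' + 1) → G ⧸ H, (∀ j, a j ∈ A j) →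
        ∃ x ∈ X, (QuotientAddGroup.mk x : G ⧸ H) = ∑ j, a j := by
      intro a ha
      choose i hi using fun j => (memA j (a j)).1 (ha j)
      refine ⟨∑ j, v j (i j), (memX _).2 ⟨i, rfl⟩, ?_⟩
      have e : (QuotientAddGroup.mk (∑ j, v j (i j)) : G ⧸ H) =
          ∑ j, (QuotientAddGroup.mk (v j (i j)) : G ⧸ H) :=
        map_sum (QuotientAddGroup.mk' H) _ _
      rw [e]
      exact sum_congr rfl fun j _ => hi j
    obtain ⟨T, hT1, hT2⟩ := kneser_triv J' A (fun j => by
      obtain ⟨i⟩ := hFr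
      exact ⟨_, (memA j _).2 ⟨i, rfl⟩⟩) (fun hb hhb => by
      obtain ⟨h, rfl⟩ := QuotientAddGroup.mk_surjective hb
      rw [QuotientAddGroup.eq_zero_iff]
      have h1 : ∀ x ∈ X, h + x ∈ X := by
        intro x hx
        obtain ⟨i, hi⟩ := (memX x).1 hx
        obtain ⟨b, hb1, hb2⟩ := hhb (fun j => QuotientAddGroup.mk (v j (i j)))
          (fun j => (memA j _).2 ⟨_, rfl⟩)
        obtain ⟨y, hy1, hy2⟩ := hlift b hb1
        have e : ∑ j, (QuotientAddGroup.mk (v j (i j)) : G ⧸ H) = QuotientAddGroup.mk x := by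
          rw [← hi]
          exact (map_sum (QuotientAddGroup.mk' H) _ _).symm
        rw [e, ← hy2] at hb2
        have h3 : (QuotientAddGroup.mk y : G ⧸ H) = QuotientAddGroup.mk (h + x) := hb2
        have h4 := QuotientAddGroup.eq.1 h3
        have h5 := ((memH _).1 h4 y).2 hy1
        have e2 : -y + (h + x) + y = h + x := by abel
        rwa [e2] at h5
      rw [memH]
      intro x
      refine ⟨fun h2 => ?_, h1 x⟩
      have h3 : X.image (fun z => h + z) = X := by
        refine eq_of_subset_of_card_le (fun z hz => ?_) ?_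
        · obtain ⟨w, hw, rfl⟩ := mem_image.1 hz
          exact h1 w hw
        · rw [card_image_of_injective _ (add_right_injective h)]
      rw [← h3] at h2
      obtain ⟨w, hw, hw2⟩ := mem_image.1 h2
      rw [← add_left_cancel hw2]
      exact hw)
    -- the number of elements of `T`
    have hTc : T.card * Nat.card H ≤ Nat.card K := by
      rw [mul_comm, ← Pool.Agent.Lib.helper11.card_pre, ← Pool.Agent.Lib.helper11.card_els K]
      refine card_le_card_of_injOn (fun x => x - (J' + 1) • x0) (fun x hx => ?_) (fun x _ y _ h => ?_)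
      · rw [mem_coe, Pool.Agent.Lib.helper11.mem_pre] at hx
        rw [mem_coe, Pool.Agent.Lib.helper11.mem_els]
        obtain ⟨a, ha1, ha2⟩ := hT1 _ hx
        obtain ⟨y, hy1, hy2⟩ := hlift a ha1
        have h3 : (QuotientAddGroup.mk y : G ⧸ H) = QuotientAddGroup.mk x := by
          rw [hy2, ha2]
        have h4 := hHK (QuotientAddGroup.eq.1 h3)
        have h5 := K.add_mem h4 (hXK y hy1)
        have e2 : -y + x + (y - (J' + 1) • x0) = x - (J' + 1) • x0 := by abel
        rwa [e2] at h5
      · exact sub_left_injective h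
    have hcount : (∑ j, (ncos H (v j) - 1)) + 1 ≤ T.card := by
      have h1 : ∑ j, ncos H (v j) = ∑ j, (ncos H (v j) - 1) + (J' + 1) := by
        have h2 : ∀ j ∈ (univ : Finset (Fin (J' + 1))), ncos H (v j) = (ncos H (v j) - 1) + 1 := by
          intro j _
          have := one_le_ncos H hr (v j)
          omega
        rw [sum_congr rfl h2, sum_add_distrib, sum_const, card_univ, Fintype.card_fin, smul_eq_mul,
          mul_one]
      have h2 : ∑ j, (A j).card = ∑ j, ncos H (v j) := sum_congr rfl fun j _ => (hAc j).symm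
      omega
    have hHpos : 0 < Nat.card H := Nat.card_pos
    have h1 := Nat.mul_le_mul_right (Nat.card H) hcount
    rw [add_mul, one_mul] at h1
    omega

end Pool.Agent.ZT
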