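import Pool.Agent.ZT.Defs

/-! # ZC : subgroups of `ZMod m` -/

set_option autoImplicit false

open Finset

namespace Pool.Agent.ZT

theorem subgr_mem_iff {m : ℕ} [NeZero m] (H : AddSubgroup (ZMod m)) (x : ZMod m) :
    x ∈ H ↔ Nat.card H • x = 0 := by
  classical
  have hpos : 0 < Nat.card H := Nat.card_pos
  have h1 : (univ.filter (fun x : ZMod m => Nat.card H • x = 0)).card ≤ Nat.card H :=
    IsAddCyclic.card_nsmul_eq_zero_le hpos
  have h2 : univ.filter (fun x : ZMod m => x ∈ H) ⊆
      univ.filter (fun x : ZMod m => Nat.card H • x = 0) := by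
    intro y hy
    simp only [mem_filter, mem_univ, true_and] at hy ⊢
    have h3 : Nat.card H • (⟨y, hy⟩ : H) = 0 := card_nsmul_eq_zero'
    have h4 := congrArg (fun z : H => (z : ZMod m)) h3
    simp only [AddSubgroup.coe_nsmul, ZeroMemClass.coe_zero] at h4
    exact h4
  have h3 : (univ.filter (fun x : ZMod m => x ∈ H)).card = Nat.card H := by
    rw [Nat.card_eq_fintype_card, Fintype.card_subtype]
  have h4 := Finset.eq_of_subset_of_card_le h2 (by rw [h3]; exact h1)
  have h5 := Finset.ext_iff.1 h4 x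
  simpa using h5

/-- A subgroup of the cyclic group `ZMod m` is determined by its order. -/
theorem subgr_unique {m : ℕ} [NeZero m] (H H' : AddSubgroup (ZMod m))
    (h : Nat.card H = Nat.card H') : H = H' := by
  ext x
  rw [subgr_mem_iff, subgr_mem_iff, h]

/-- The order of a proper subgroup `H < K` divides the order of `K`; the quotient is `≥ 2`. -/
theorem subgr_index {m : ℕ} [NeZero m] (H K : AddSubgroup (ZMod m)) (h : H < K) :
    ∃ j : ℕ, 2 ≤ j ∧ Nat.card K = j * Nat.card H := by
  obtain ⟨j, hj⟩ := AddSubgroup.card_dvd_of_le h.le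
  have hK : 0 < Nat.card K := Nat.card_pos
  refine ⟨j, ?_, by rw [hj, mul_comm]⟩
  by_contra hlt
  have h2 : j = 0 ∨ j = 1 := by omega
  rcases h2 with h2 | h2
  · rw [h2, mul_zero] at hj
    omega
  · rw [h2, mul_one] at hj
    exact h.ne (subgr_unique H K hj.symm)

/-- The order of a subgroup is at most `m` (and at least `1`). -/
theorem subgr_card_le {m : ℕ} [NeZero m] (H : AddSubgroup (ZMod m)) :
    1 ≤ Nat.card H ∧ Nat.card H ≤ m := by
  refine ⟨Nat.card_pos, ?_⟩
  have h := Nat.card_le_card_of_injective (fun x : H => (x : ZMod m)) Subtype.val_injective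
  rwa [Nat.card_zmod] at h

open Classical in
/-- A sum over the proper subgroups of `K` is at most the sum over the possible indices.

PROOF.  The index `j_H` (`subgr_index`) is an injective function of `H` (`subgr_unique`), with values in
`[2, m]`. -/
theorem subgr_sum {m : ℕ} [NeZero m] (K : AddSubgroup (ZMod m)) (w : ℕ → ℝ) (hw : ∀ j, 0 ≤ w j) :
    ∑ H ∈ univ.filter (fun H : AddSubgroup (ZMod m) => H < K), w (Nat.card K / Nat.card H) ≤
      ∑ j ∈ Icc 2 m, w j := by
  have hq : ∀ H : AddSubgroup (ZMod m), H < K → 2 ≤ Nat.card K / Nat.card H ∧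
      Nat.card K = (Nat.card K / Nat.card H) * Nat.card H := by
    intro H hH
    obtain ⟨j, hj, hjK⟩ := subgr_index H K hH
    have hpos : 0 < Nat.card H := Nat.card_pos
    have h1 : Nat.card K / Nat.card H = j := by
      rw [hjK]
      exact Nat.mul_div_cancel j hpos
    rw [h1]
    exact ⟨hj, hjK⟩
  rw [← Finset.sum_image (f := w) (g := fun H : AddSubgroup (ZMod m) => Nat.card K / Nat.card H)]
  · refine Finset.sum_le_sum_of_subset_of_nonneg ?_ (fun j _ _ => hw j)
    intro j hj
    simp only [mem_image, mem_filter, mem_univ, true_and] at hj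
    obtain ⟨H, hH, rfl⟩ := hj
    rw [Finset.mem_Icc]
    exact ⟨(hq H hH).1, (Nat.div_le_self _ _).trans (subgr_card_le K).2⟩
  · intro H1 hH1 H2 hH2 heq
    simp only [coe_filter, mem_univ, true_and, Set.mem_ofPred_eq] at hH1 hH2
    have heq' : Nat.card K / Nat.card H1 = Nat.card K / Nat.card H2 := heq
    have h1 := hq H1 hH1
    have h2 := hq H2 hH2
    apply subgr_unique
    rw [← heq'] at h2
    have h3 : (Nat.card K / Nat.card H1) * Nat.card H1 = (Nat.card K / Nat.card H1) * Nat.card H2 := by
      rw [← h1.2, ← h2.2]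
    exact Nat.eq_of_mul_eq_mul_left (by omega) h3

theorem subgr_geom (m : ℕ) : ∑ j ∈ Icc 2 m, (1 / 4 : ℝ) ^ j ≤ 1 / 12 := by
  rcases Nat.lt_or_ge m 1 with h | h
  · have h0 : m = 0 := by omega
    subst h0
    norm_num
  · have key : ∑ j ∈ Icc 2 m, (1 / 4 : ℝ) ^ j = 1 / 12 - (1 / 3) * (1 / 4) ^ m := by
      induction m, h using Nat.le_induction with
      | base => norm_num
      | succ k hk ih =>
        rw [Finset.sum_Icc_succ_top (by omega), ih, pow_succ]
        ring
    rw [key]
    have : (0 : ℝ) ≤ (1 / 4) ^ m := by positivity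
    linarith

theorem subgr_exp (j : ℕ) : Real.exp (-(2 * (j : ℝ))) ≤ (1 / 4 : ℝ) ^ j := by
  have h1 : -(2 * (j : ℝ)) = (j : ℝ) * (-2) := by ring
  rw [h1, Real.exp_nat_mul]
  apply pow_le_pow_left₀ (Real.exp_pos _).le
  have h2 : (2 : ℝ) ≤ Real.exp 1 := by
    have := Real.add_one_le_exp (1 : ℝ)
    linarith
  have h3 : Real.exp 2 = Real.exp 1 * Real.exp 1 := by
    rw [← Real.exp_add]
    norm_num
  have h4 : (4 : ℝ) ≤ Real.exp 2 := by
    rw [h3]
    nlinarith
  rw [Real.exp_neg, one_div]
  exact inv_anti₀ (by norm_num) h4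

/-- The two sums which are needed. -/
theorem subgr_num1 (m : ℕ) : ∑ j ∈ Icc 2 m, Real.exp (-(2 * (j : ℝ))) ≤ 1 / 4 := by
  refine (Finset.sum_le_sum fun j _ => subgr_exp j).trans ((subgr_geom m).trans ?_)
  norm_num

theorem subgr_num2 (m : ℕ) : ∑ j ∈ Icc 2 m, (j : ℝ) * Real.exp (-(10 * (j : ℝ))) ≤ 1 / 8 := by
  refine (Finset.sum_le_sum (g := fun j : ℕ => (1 / 4 : ℝ) ^ j) fun j _ => ?_).trans
    ((subgr_geom m).trans ?_)
  · refine le_trans ?_ (subgr_exp j)
    have h1 : (j : ℝ) ≤ Real.exp j := by
      have := Real.add_one_le_exp (j : ℝ)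
      linarith
    refine (mul_le_mul_of_nonneg_right h1 (Real.exp_pos _).le).trans ?_
    rw [← Real.exp_add]
    apply Real.exp_le_exp.2
    have : (0 : ℝ) ≤ j := Nat.cast_nonneg j
    linarith
  · norm_num

/-- Representatives: for `H ≤ K` there is a set `Z` of at most `|K| / |H|` elements such that every
`z ∈ x0 + K` is congruent modulo `H` to an element of `Z`. -/
theorem coset_reps {m : ℕ} [NeZero m] (H K : AddSubgroup (ZMod m)) (h : H ≤ K) (x0 : ZMod m) :
    ∃ Z : Finset (ZMod m), Z.card * Nat.card H ≤ Nat.card K ∧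
      ∀ z, z - x0 ∈ K → ∃ z' ∈ Z, z - z' ∈ H := by
  classical
  let r : ZMod m → ZMod m := fun z => (QuotientAddGroup.mk z : ZMod m ⧸ H).out
  have hr : ∀ z, z - r z ∈ H := by
    intro z
    have h1 : (QuotientAddGroup.mk (r z) : ZMod m ⧸ H) = QuotientAddGroup.mk z :=
      Quotient.out_eq _
    have h2 := QuotientAddGroup.eq.1 h1
    rwa [neg_add_eq_sub] at h2
  have hr2 : ∀ z w, z - w ∈ H → r z = r w := by
    intro z w hzw
    have h1 : (QuotientAddGroup.mk z : ZMod m ⧸ H) = QuotientAddGroup.mk w := by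
      refine QuotientAddGroup.eq.2 ?_
      have h2 := H.neg_mem hzw
      rwa [show -(z - w) = -z + w by ring] at h2
    show (QuotientAddGroup.mk z : ZMod m ⧸ H).out = (QuotientAddGroup.mk w : ZMod m ⧸ H).out
    rw [h1]
  let s : Finset (ZMod m) := univ.filter (fun z => z - x0 ∈ K)
  have hs : s.card = Nat.card K := by
    have h1 : s.card = (univ.filter (fun z : ZMod m => z ∈ K)).card := by
      refine Finset.card_bij (fun z _ => z - x0) ?_ ?_ ?_
      · intro z hz
        simp only [s, mem_filter, mem_univ, true_and] at hz ⊢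
        exact hz
      · intro z _ w _ h
        exact sub_left_injective h
      · intro w hw
        simp only [mem_filter, mem_univ, true_and] at hw
        refine ⟨w + x0, ?_, by ring⟩
        simp only [s, mem_filter, mem_univ, true_and]
        rwa [add_sub_cancel_right]
    rw [h1, Nat.card_eq_fintype_card, Fintype.card_subtype]
  have hcH : (univ.filter (fun z : ZMod m => z ∈ H)).card = Nat.card H := by
    rw [Nat.card_eq_fintype_card, Fintype.card_subtype]
  refine ⟨s.image r, ?_, ?_⟩
  · rw [← hs, mul_comm]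
    refine Finset.mul_card_image_le_card (f := r) s (Nat.card H) ?_
    intro a ha
    obtain ⟨z, hz, rfl⟩ := Finset.mem_image.1 ha
    rw [← hcH]
    refine Finset.card_le_card_of_injOn (fun h => z + h) ?_ ?_
    · intro y hy
      simp only [coe_filter, mem_univ, true_and, Set.mem_ofPred_eq] at hy
      simp only [s, mem_filter, mem_univ, true_and] at hz
      simp only [s, coe_filter, mem_filter, mem_univ, true_and, Set.mem_ofPred_eq]
      refine ⟨?_, hr2 _ _ ?_⟩
      · rw [show z + y - x0 = (z - x0) + y by ring]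
        exact K.add_mem hz (h hy)
      · rw [add_sub_cancel_left]
        exact hy
    · intro y _ y' _ hyy
      exact add_left_cancel hyy
  · intro z hz
    refine ⟨r z, Finset.mem_image.2 ⟨z, ?_, rfl⟩, hr z⟩
    simp only [s, mem_filter, mem_univ, true_and]
    exact hz

/-- The number of subgroups of `ZMod m` is at most `m`. -/
theorem subgr_number (m : ℕ) [NeZero m] : Fintype.card (AddSubgroup (ZMod m)) ≤ m := by
  have h1 : (Icc 1 m).card = m := by
    rw [Nat.card_Icc]
    omega
  rw [← Finset.card_univ]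
  refine le_trans ?_ h1.le
  refine Finset.card_le_card_of_injOn (fun H : AddSubgroup (ZMod m) => Nat.card H) ?_ ?_
  · intro H _
    have h2 := subgr_card_le H
    exact Finset.mem_coe.2 (Finset.mem_Icc.2 h2)
  · intro H _ H' _ h
    exact subgr_unique H H' h

end Pool.Agent.ZT
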