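import Pool.Agent.ZC.Chern
import Pool.Agent.ZC.Subgr
import Pool.Agent.ZC.KnJ
import Pool.Agent.ZT.Coin

/-! # ZC : coins in `ZMod m` (Kneser version) -/

set_option autoImplicit false

open Finset

namespace Pool.Agent.ZT

/-- matrices which are bad for `H` -/
def KcBad {m : ℕ} {S : Type} (f : S → ZMod m) (K H : AddSubgroup (ZMod m)) {r J : ℕ}
    (B : Fin J → Fin r → S) : Prop :=
  (∑ j, (ncos H (fun i => f (B j i)) - 1)) * Nat.card H < Nat.card K

theorem kcoin_big {m : ℕ} [NeZero m] {S : Type} [Fintype S] (f : S → ZMod m)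
    (K H : AddSubgroup (ZMod m)) (r J : ℕ) (hJ : 1 ≤ J) (hH : H < K)
    (rows : Finset (Fin r → S))
    (hbig : 16 * ((Nat.card K : ℝ) / Nat.card H) / J * (rows.card : ℝ) ≤
        (rows.filter (fun B => 2 ≤ ncos H (fun i => f (B i)))).card) :
    (cnt (fun B : Fin J → Fin r → S => (∀ j, B j ∈ rows) ∧ KcBad f K H B) : ℝ) ≤
      Real.exp (-(2 * ((Nat.card K / Nat.card H : ℕ) : ℝ))) * (rows.card : ℝ) ^ J := by
  classical
  obtain ⟨j, hj2, hj⟩ := subgr_index H K hH
  have hH1 := (subgr_card_le H).1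
  have hH0 : (Nat.card H : ℝ) ≠ 0 := by
    have : Nat.card H ≠ 0 := by omega
    exact_mod_cast this
  have hdiv : Nat.card K / Nat.card H = j := by
    rw [hj]
    exact Nat.mul_div_cancel j (by omega)
  have hdivR : (Nat.card K : ℝ) / Nat.card H = j := by
    rw [hj]
    push_cast
    field_simp
  have hJ0 : (0 : ℝ) < J := by exact_mod_cast hJ
  rw [hdiv]
  rw [hdivR] at hbig
  set g : (Fin r → S) → ℝ := fun B => if 2 ≤ ncos H (fun i => f (B i)) then 1 else 0 with hg
  have hsum : ∑ x ∈ rows, g x =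
      ((rows.filter (fun B => 2 ≤ ncos H (fun i => f (B i)))).card : ℝ) := by
    rw [card_filter]
    push_cast
    rfl
  have h := chern_lower rows g 1 (16 * (j : ℝ) / J) one_pos (by positivity)
    (fun x _ => by simp only [hg]; split_ifs <;> norm_num)
    (fun x _ => by simp only [hg]; split_ifs <;> norm_num)
    (by rw [hsum]; exact hbig) J
  have e1 : -((J : ℝ) * (16 * (j : ℝ) / J) / (8 * 1)) = -(2 * (j : ℝ)) := by
    field_simp
    ring
  rw [e1] at h
  refine le_trans ?_ h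
  have h2 : cnt (fun B : Fin J → Fin r → S => (∀ j, B j ∈ rows) ∧ KcBad f K H B) ≤
      cnt (fun y : Fin J → Fin r → S => (∀ i, y i ∈ rows) ∧
        ∑ i, g (y i) ≤ J * (16 * (j : ℝ) / J) / 2) := by
    refine cnt_mono fun B hB => ⟨hB.1, ?_⟩
    have hb := hB.2
    unfold KcBad at hb
    rw [hj] at hb
    have hb2 : (∑ j, (ncos H (fun i => f (B j i)) - 1)) < j := Nat.lt_of_mul_lt_mul_right hb
    have hb3 : ∑ i, g (B i) ≤ ((∑ j, (ncos H (fun i => f (B j i)) - 1) : ℕ) : ℝ) := by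
      push_cast
      refine sum_le_sum fun i _ => ?_
      simp only [hg]
      split_ifs with h5
      · have h6 : 1 ≤ ncos H (fun k => f (B i k)) - 1 := by omega
        exact_mod_cast h6
      · exact Nat.cast_nonneg _
    have hb4 : ((∑ j, (ncos H (fun i => f (B j i)) - 1) : ℕ) : ℝ) < j := by exact_mod_cast hb2
    have e2 : (J : ℝ) * (16 * (j : ℝ) / J) / 2 = 8 * j := by
      field_simp
      ring
    rw [e2]
    have hj0 : (0 : ℝ) ≤ j := Nat.cast_nonneg _
    linarith
  exact_mod_cast h2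

theorem kcoin_small {m : ℕ} [NeZero m] {S : Type} [Fintype S] (f : S → ZMod m)
    (K H : AddSubgroup (ZMod m)) (r J : ℕ) (hr : 1 ≤ r) (lam : ℝ) (hlam : 0 < lam)
    (rows : Finset (Fin r → S))
    (hsmall : lam * r / 4 * (rows.card : ℝ) ≤
        ∑ B ∈ rows, ((ncos H (fun i => f (B i)) : ℝ) - 1))
    (hJ1 : 8 * (m : ℝ) ≤ lam * r * J) :
    (cnt (fun B : Fin J → Fin r → S => (∀ j, B j ∈ rows) ∧ KcBad f K H B) : ℝ) ≤
      Real.exp (-(lam * J / 32)) * (rows.card : ℝ) ^ J := by
  classical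
  have hr0 : (0 : ℝ) < r := by exact_mod_cast hr
  have hH1 := (subgr_card_le H).1
  have hKm := (subgr_card_le K).2
  have h := chern_lower rows (fun B => (ncos H (fun i => f (B i)) : ℝ) - 1) r (lam * r / 4) hr0
    (by positivity)
    (fun x _ => by
      have : (1 : ℝ) ≤ ncos H (fun i => f (x i)) := by exact_mod_cast one_le_ncos H hr _
      linarith)
    (fun x _ => by
      have : (ncos H (fun i => f (x i)) : ℝ) ≤ r := by exact_mod_cast ncos_le H _
      linarith)
    hsmall J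
  have e1 : -((J : ℝ) * (lam * r / 4) / (8 * r)) = -(lam * J / 32) := by
    field_simp
    ring
  rw [e1] at h
  refine le_trans ?_ h
  have h2 : cnt (fun B : Fin J → Fin r → S => (∀ j, B j ∈ rows) ∧ KcBad f K H B) ≤
      cnt (fun y : Fin J → Fin r → S => (∀ i, y i ∈ rows) ∧
        ∑ i, ((ncos H (fun k => f (y i k)) : ℝ) - 1) ≤ J * (lam * r / 4) / 2) := by
    refine cnt_mono fun B hB => ⟨hB.1, ?_⟩
    have hb := hB.2
    unfold KcBad at hb
    have hb2 : (∑ j, (ncos H (fun i => f (B j i)) - 1)) ≤ m := by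
      have a1 : (∑ j, (ncos H (fun i => f (B j i)) - 1)) * 1 ≤
          (∑ j, (ncos H (fun i => f (B j i)) - 1)) * Nat.card H := Nat.mul_le_mul_left _ hH1
      omega
    have hb3 : ∑ i, ((ncos H (fun k => f (B i k)) : ℝ) - 1) =
        ((∑ j, (ncos H (fun i => f (B j i)) - 1) : ℕ) : ℝ) := by
      push_cast
      refine sum_congr rfl fun i _ => ?_
      have h6 : 1 ≤ ncos H (fun k => f (B i k)) := one_le_ncos H hr _
      rw [Nat.cast_sub h6]
      push_cast
      ring
    rw [hb3]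
    have hb4 : ((∑ j, (ncos H (fun i => f (B j i)) - 1) : ℕ) : ℝ) ≤ m := by exact_mod_cast hb2
    linarith
  exact_mod_cast h2

theorem kcoin_good {m : ℕ} [NeZero m] {S : Type} [Fintype S] [DecidableEq S] (f : S → ZMod m)
    (K : AddSubgroup (ZMod m)) (r J R0 : ℕ) (lam : ℝ) (hr : 1 ≤ r) (hJ : 1 ≤ J) (hlam : 0 < lam)
    (rows : Finset (Fin r → S))
    (hbig : ∀ H : AddSubgroup (ZMod m), H < K → R0 ≤ Nat.card H →
      16 * ((Nat.card K : ℝ) / Nat.card H) / J * (rows.card : ℝ) ≤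
        cnt (fun B : Fin r → S => B ∈ rows ∧ 2 ≤ ncos H (fun i => f (B i))))
    (hsmall : ∀ H : AddSubgroup (ZMod m), H < K → Nat.card H < R0 →
      lam * r / 4 * (rows.card : ℝ) ≤
        sm (fun B : Fin r → S => B ∈ rows) (fun B => (ncos H (fun i => f (B i)) : ℝ) - 1))
    (hJ1 : 8 * (m : ℝ) ≤ lam * r * J) (hJ2 : (m : ℝ) * Real.exp (-(lam * J / 32)) ≤ 1 / 4) :
    1 / 2 * (rows.card : ℝ) ^ J ≤
      cnt (fun B : Fin J → Fin r → S => (∀ j, B j ∈ rows) ∧
        ∀ H : AddSubgroup (ZMod m), H < K → ¬ KcBad f K H B) := by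
  classical
  set w : AddSubgroup (ZMod m) → ℝ := fun H =>
    Real.exp (-(2 * ((Nat.card K / Nat.card H : ℕ) : ℝ))) + Real.exp (-(lam * J / 32)) with hw
  have hone : ∀ H : AddSubgroup (ZMod m), H < K →
      (cnt (fun B : Fin J → Fin r → S => (∀ j, B j ∈ rows) ∧ KcBad f K H B) : ℝ) ≤
        w H * (rows.card : ℝ) ^ J := by
    intro H hH
    have hp : (0 : ℝ) ≤ (rows.card : ℝ) ^ J := by positivity
    rcases le_or_gt R0 (Nat.card H) with hc | hc
    · have h1 := hbig H hH hc
      have e1 : (cnt (fun B : Fin r → S => B ∈ rows ∧ 2 ≤ ncos H (fun i => f (B i))) : ℝ) =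
          (rows.filter (fun B => 2 ≤ ncos H (fun i => f (B i)))).card := by
        rw [cnt_eq_card]
        congr 2
        ext B
        simp
      rw [e1] at h1
      have h2 := kcoin_big f K H r J hJ hH rows h1
      refine h2.trans (mul_le_mul_of_nonneg_right ?_ hp)
      simp only [hw]
      linarith [Real.exp_pos (-(lam * J / 32))]
    · have h1 := hsmall H hH hc
      have e1 : sm (fun B : Fin r → S => B ∈ rows) (fun B => (ncos H (fun i => f (B i)) : ℝ) - 1) =
          ∑ B ∈ rows, ((ncos H (fun i => f (B i)) : ℝ) - 1) := by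
        rw [sm_eq]
        congr 1
        ext B
        simp
      rw [e1] at h1
      have h2 := kcoin_small f K H r J hr lam hlam rows h1 hJ1
      refine h2.trans (mul_le_mul_of_nonneg_right ?_ hp)
      simp only [hw]
      linarith [Real.exp_pos (-(2 * ((Nat.card K / Nat.card H : ℕ) : ℝ)))]
  set L := univ.filter (fun H : AddSubgroup (ZMod m) => H < K) with hL
  have hwsum : ∑ H ∈ L, w H ≤ 1 / 2 := by
    have h1 : ∑ H ∈ L, w H = ∑ H ∈ L, Real.exp (-(2 * ((Nat.card K / Nat.card H : ℕ) : ℝ))) +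
        L.card * Real.exp (-(lam * J / 32)) := by
      simp only [hw]
      rw [sum_add_distrib, sum_const, nsmul_eq_mul]
    have h2 := subgr_sum K (fun j => Real.exp (-(2 * (j : ℝ)))) (fun j => (Real.exp_pos _).le)
    have h3 := subgr_num1 m
    have h4 : (L.card : ℝ) ≤ m := by
      have a1 : L.card ≤ Fintype.card (AddSubgroup (ZMod m)) := card_le_univ _
      exact_mod_cast a1.trans (subgr_number m)
    have h5 : (L.card : ℝ) * Real.exp (-(lam * J / 32)) ≤ m * Real.exp (-(lam * J / 32)) :=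
      mul_le_mul_of_nonneg_right h4 (Real.exp_pos _).le
    rw [h1]
    have h6 : ∑ H ∈ L, Real.exp (-(2 * ((Nat.card K / Nat.card H : ℕ) : ℝ))) ≤
        ∑ j ∈ Icc 2 m, Real.exp (-(2 * (j : ℝ))) := h2
    linarith
  set all := univ.filter (fun B : Fin J → Fin r → S => ∀ j, B j ∈ rows) with hall
  have hallc : all.card = rows.card ^ J := by
    have : all = Fintype.piFinset (fun _ : Fin J => rows) := by
      ext B
      simp [hall, Fintype.mem_piFinset]
    rw [this, Fintype.card_piFinset]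
    simp
  have hsub : all ⊆ univ.filter (fun B : Fin J → Fin r → S => (∀ j, B j ∈ rows) ∧
        ∀ H : AddSubgroup (ZMod m), H < K → ¬ KcBad f K H B) ∪
      L.biUnion (fun H => univ.filter (fun B : Fin J → Fin r → S =>
        (∀ j, B j ∈ rows) ∧ KcBad f K H B)) := by
    intro B hB
    rw [hall, mem_filter] at hB
    rw [mem_union, mem_filter]
    by_cases h2 : ∀ H : AddSubgroup (ZMod m), H < K → ¬ KcBad f K H B
    · exact Or.inl ⟨mem_univ _, hB.2, h2⟩
    · push Not at h2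
      obtain ⟨H, hH, hb⟩ := h2
      refine Or.inr ?_
      rw [mem_biUnion]
      refine ⟨H, by simp [hL, hH], ?_⟩
      rw [mem_filter]
      exact ⟨mem_univ _, hB.2, hb⟩
  have hc : (all.card : ℝ) ≤ cnt (fun B : Fin J → Fin r → S => (∀ j, B j ∈ rows) ∧
        ∀ H : AddSubgroup (ZMod m), H < K → ¬ KcBad f K H B) +
      ∑ H ∈ L, (cnt (fun B : Fin J → Fin r → S => (∀ j, B j ∈ rows) ∧ KcBad f K H B) : ℝ) := by
    have h1 := (card_le_card hsub).trans ((card_union_le _ _).trans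
      (Nat.add_le_add_left card_biUnion_le _))
    have h2 : ((univ.filter (fun B : Fin J → Fin r → S => (∀ j, B j ∈ rows) ∧
        ∀ H : AddSubgroup (ZMod m), H < K → ¬ KcBad f K H B)).card +
        ∑ H ∈ L, (univ.filter (fun B : Fin J → Fin r → S =>
        (∀ j, B j ∈ rows) ∧ KcBad f K H B)).card : ℕ) =
        cnt (fun B : Fin J → Fin r → S => (∀ j, B j ∈ rows) ∧
        ∀ H : AddSubgroup (ZMod m), H < K → ¬ KcBad f K H B) +
      ∑ H ∈ L, cnt (fun B : Fin J → Fin r → S => (∀ j, B j ∈ rows) ∧ KcBad f K H B) := by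
      rw [cnt_eq_card]
      congr 1
      exact sum_congr rfl fun H _ => (cnt_eq_card _).symm
    rw [h2] at h1
    exact_mod_cast h1
  have hsumb : ∑ H ∈ L, (cnt (fun B : Fin J → Fin r → S => (∀ j, B j ∈ rows) ∧ KcBad f K H B) : ℝ) ≤
      1 / 2 * (rows.card : ℝ) ^ J := by
    calc ∑ H ∈ L, (cnt (fun B : Fin J → Fin r → S => (∀ j, B j ∈ rows) ∧ KcBad f K H B) : ℝ)
        ≤ ∑ H ∈ L, w H * (rows.card : ℝ) ^ J := by
          refine sum_le_sum fun H hH => hone H ?_
          simpa [hL] using hH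
      _ = (∑ H ∈ L, w H) * (rows.card : ℝ) ^ J := by rw [sum_mul]
      _ ≤ 1 / 2 * (rows.card : ℝ) ^ J := mul_le_mul_of_nonneg_right hwsum (by positivity)
  rw [hallc] at hc
  push_cast at hc
  linarith

/-- Coins with Kneser's theorem.

PROOF.  Rows are the functions `B : Fin r → S` with values in `S0` (`X = Fin r → S`, the finset
`R = Fintype.piFinset fun _ => S0` of rows has `|S0|^r` elements); matrices are `Fin J → (Fin r → S)` with
all rows in `R`, there are `|S0|^(r J)` of them.  Call a matrix BAD for the proper subgroup `H < K` if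
`(∑_j (ncos H (row j) - 1)) |H| < |K|`.

* `|H| ≥ R0` (index `j_H = |K|/|H| ≥ 2`, `subgr_index`): `g = 1` if `2 ≤ ncos`, `0` otherwise, `b = 1`,
  `μ = 16 j_H / J`; a bad matrix has `∑ g < j_H ≤ J μ/2 = 8 j_H`, so by `chern_lower` at most
  `e^{-Jμ/8} = e^{-2 j_H}` of the matrices are bad for `H`; by `subgr_sum` and `subgr_num1` at most
  `1/4` of them are bad for some `H` of this kind.
* `|H| < R0`: `g = ncos - 1 ∈ [0, r]`, `b = r`, `μ = lam r/4`; `Jμ/2 = lam r J/8 ≥ m ≥ |K|/|H|` by `hJ1`, so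
  at most `e^{-Jμ/(8r)} = e^{-lam J/32}` are bad for `H`; by `hJ2` and `subgr_number` at most `1/4` are bad
  for some `H` of this kind.

So at least half of the matrices are bad for no `H`, and `kneser_cos` (with `v j i = f (B j i)`) gives
`i : Fin J → Fin r` with `∑_j f (B j (i j)) = τ`.  As in `Pool.Agent.ZT.coin` (file ZT/Coin.lean; copy the
end of that proof) the map `B ↦ (i, (B j (i j))_j, the other entries)` is injective:
`1/2 |S0|^(r J) ≤ r^J · #{s} · |S0|^((r-1) J)`. -/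
theorem kcoin {m : ℕ} [NeZero m] {S : Type} [Fintype S] [DecidableEq S] (f : S → ZMod m)
    (S0 : Finset S) (hne : S0.Nonempty) (K : AddSubgroup (ZMod m)) (x0 : ZMod m)
    (hK : ∀ s ∈ S0, f s - x0 ∈ K) (r J R0 : ℕ) (lam : ℝ) (hr : 1 ≤ r) (hJ : 1 ≤ J) (hlam : 0 < lam)
    (hbig : ∀ H : AddSubgroup (ZMod m), H < K → R0 ≤ Nat.card H →
      16 * ((Nat.card K : ℝ) / Nat.card H) / J * (S0.card : ℝ) ^ r ≤
        cnt (fun B : Fin r → S => (∀ i, B i ∈ S0) ∧ 2 ≤ ncos H (fun i => f (B i))))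
    (hsmall : ∀ H : AddSubgroup (ZMod m), H < K → Nat.card H < R0 →
      lam * r / 4 * (S0.card : ℝ) ^ r ≤
        sm (fun B : Fin r → S => ∀ i, B i ∈ S0) (fun B => (ncos H (fun i => f (B i)) : ℝ) - 1))
    (hJ1 : 8 * (m : ℝ) ≤ lam * r * J) (hJ2 : (m : ℝ) * Real.exp (-(lam * J / 32)) ≤ 1 / 4)
    (τ : ZMod m) (hτ : τ - J • x0 ∈ K) :
    1 / 2 * ((S0.card : ℝ) / r) ^ J ≤
      cnt (fun s : Fin J → S => (∀ j, s j ∈ S0) ∧ ∑ j, f (s j) = τ) := by
  classical
  have h0 : 0 < S0.card := hne.card_pos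
  set rows := Fintype.piFinset (fun _ : Fin r => S0) with hrows
  have hrc : rows.card = S0.card ^ r := by
    rw [hrows, Fintype.card_piFinset]
    simp
  have hrcR : (rows.card : ℝ) = (S0.card : ℝ) ^ r := by
    rw [hrc]
    push_cast
    rfl
  have hmem : ∀ B : Fin r → S, B ∈ rows ↔ ∀ i, B i ∈ S0 := fun B => by
    rw [hrows, Fintype.mem_piFinset]
  have hgood := kcoin_good f K r J R0 lam hr hJ hlam rows
    (fun H hH hc => by
      rw [hrcR]
      simp only [hmem]
      exact hbig H hH hc)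
    (fun H hH hc => by
      rw [hrcR]
      simp only [hmem]
      exact hsmall H hH hc) hJ1 hJ2
  set Gd := univ.filter (fun B : Fin J → Fin r → S => (∀ j, B j ∈ rows) ∧
        ∀ H : AddSubgroup (ZMod m), H < K → ¬ KcBad f K H B) with hGd
  set T := (univ : Finset (Fin J → S)).filter (fun s => (∀ j, s j ∈ S0) ∧ ∑ j, f (s j) = τ) with hT
  have hsub : Gd ⊆ (univ : Finset (Fin J → Fin r)).biUnion (fun i => T.biUnion (fun s =>
      Fintype.piFinset (fun j => rows.filter (fun b => b (i j) = s j)))) := by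
    intro B hB
    rw [hGd, mem_filter] at hB
    obtain ⟨_, hB1, hB2⟩ := hB
    have hB3 : ∀ j i, B j i ∈ S0 := fun j => (hmem _).1 (hB1 j)
    have hex : ∃ i : Fin J → Fin r, ∑ j, f (B j (i j)) = τ := by
      rcases kneser_cos K x0 J r hJ hr (fun j i => f (B j i)) (fun j i => hK _ (hB3 j i)) with h1 | h1
      · exact h1 τ hτ
      · obtain ⟨H, hH, hb⟩ := h1
        exact absurd hb (hB2 H hH)
    obtain ⟨i, hi⟩ := hex
    rw [mem_biUnion]
    refine ⟨i, mem_univ _, ?_⟩
    rw [mem_biUnion]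
    refine ⟨fun j => B j (i j), ?_, ?_⟩
    · rw [hT, mem_filter]
      exact ⟨mem_univ _, fun j => hB3 j _, hi⟩
    · rw [Fintype.mem_piFinset]
      intro j
      rw [mem_filter]
      exact ⟨hB1 j, rfl⟩
  have hcard : Gd.card ≤ r ^ J * (T.card * (S0.card ^ (r - 1)) ^ J) := by
    refine (card_le_card hsub).trans (card_biUnion_le.trans ?_)
    calc ∑ i : Fin J → Fin r, (T.biUnion (fun s =>
          Fintype.piFinset (fun j => rows.filter (fun b => b (i j) = s j)))).card
        ≤ ∑ i : Fin J → Fin r, (T.card * (S0.card ^ (r - 1)) ^ J) := by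
          refine sum_le_sum fun i _ => ?_
          refine card_biUnion_le.trans ?_
          calc ∑ s ∈ T, (Fintype.piFinset (fun j => rows.filter (fun b => b (i j) = s j))).card
              ≤ ∑ s ∈ T, (S0.card ^ (r - 1)) ^ J := by
                refine sum_le_sum fun s _ => ?_
                rw [Fintype.card_piFinset]
                calc ∏ j, (rows.filter (fun b => b (i j) = s j)).card ≤ ∏ _j : Fin J, S0.card ^ (r - 1) :=
                      prod_le_prod (fun _ _ => Nat.zero_le _) (fun j _ => coin_fib S0 r (i j) (s j) h0)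
                  _ = (S0.card ^ (r - 1)) ^ J := by simp
            _ = T.card * (S0.card ^ (r - 1)) ^ J := by rw [sum_const, smul_eq_mul]
      _ = r ^ J * (T.card * (S0.card ^ (r - 1)) ^ J) := by
          rw [sum_const, smul_eq_mul, card_univ, Fintype.card_fun, Fintype.card_fin, Fintype.card_fin]
  have hcard' : (Gd.card : ℝ) ≤ (r : ℝ) ^ J * (T.card * ((S0.card : ℝ) ^ (r - 1)) ^ J) := by
    exact_mod_cast hcard
  have hGc : (cnt (fun B : Fin J → Fin r → S => (∀ j, B j ∈ rows) ∧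
        ∀ H : AddSubgroup (ZMod m), H < K → ¬ KcBad f K H B) : ℝ) = Gd.card := by
    rw [cnt_eq_card]
  have hTc : (cnt (fun s : Fin J → S => (∀ j, s j ∈ S0) ∧ ∑ j, f (s j) = τ) : ℝ) = T.card := by
    rw [cnt_eq_card]
  rw [hTc]
  rw [hGc, hrcR] at hgood
  have hσ : (0 : ℝ) < S0.card := by exact_mod_cast h0
  have hr0 : (0 : ℝ) < r := by exact_mod_cast hr
  have hpow : (S0.card : ℝ) ^ r = (S0.card : ℝ) ^ (r - 1) * S0.card := by
    rw [← pow_succ]
    congr 1
    omega
  have h2 : 1 / 2 * ((S0.card : ℝ) ^ r) ^ J =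
      (1 / 2 * ((S0.card : ℝ) / r) ^ J) * ((r : ℝ) ^ J * ((S0.card : ℝ) ^ (r - 1)) ^ J) := by
    have e1 : ((S0.card : ℝ) / r) ^ J * ((r : ℝ) ^ J * ((S0.card : ℝ) ^ (r - 1)) ^ J) =
        ((S0.card : ℝ) ^ r) ^ J := by
      rw [← mul_pow, ← mul_pow]
      congr 1
      rw [hpow]
      field_simp
    rw [mul_assoc, e1]
  have h3 : (1 / 2 * ((S0.card : ℝ) / r) ^ J) * ((r : ℝ) ^ J * ((S0.card : ℝ) ^ (r - 1)) ^ J) ≤
      (T.card : ℝ) * ((r : ℝ) ^ J * ((S0.card : ℝ) ^ (r - 1)) ^ J) := by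
    rw [← h2]
    refine hgood.trans (hcard'.trans (le_of_eq ?_))
    ring
  exact le_of_mul_le_mul_right h3 (by positivity)

end Pool.Agent.ZT
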