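import Pool.Agent.ZC.Subgr

/-! # ZC : the minimal subgroup -/

set_option autoImplicit false

open Finset

namespace Pool.Agent.ZT

/-- union bound -/
theorem kmin_or {S : Type} [Fintype S] {P Q R : S → Prop} (h : ∀ s, P s → Q s ∨ R s) :
    cnt P ≤ cnt Q + cnt R := by
  classical
  rw [cnt_eq_card, cnt_eq_card, cnt_eq_card]
  refine (card_le_card fun s hs => ?_).trans (card_union_le _ _)
  simp only [mem_filter, mem_univ, true_and, mem_union] at hs ⊢
  exact h s hs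

/-- the number of elements outside of `U` -/
theorem kmin_compl {V : Type} [Fintype V] (U : Finset V) :
    (cnt (fun x : V => x ∉ U) : ℝ) = (Fintype.card V : ℝ) - U.card := by
  classical
  rw [cnt_eq_card]
  have h1 : univ.filter (fun x : V => x ∉ U) = Uᶜ := by
    ext x
    simp
  rw [h1, card_compl, Nat.cast_sub (card_le_univ U)]

/-- The smallest subgroup `K` of order `≥ R0` such that all but `B/|K|` of the pairs have their colour in
one coset of `K`.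

PROOF.  The set of subgroups `K` with `R0 ≤ |K|` for which some `x0` has
`cnt (¬ c - x0 ∈ K) ≤ B/|K| n^2` contains `⊤` (`|⊤| = m`, `x0 = 0`).  Take one of minimal order; a proper
subgroup `H < K` has smaller order. -/
theorem kmin {m : ℕ} [NeZero m] {V : Type} [Fintype V] (c : V → V → ZMod m) (B : ℝ) (hB : 0 ≤ B)
    (R0 : ℕ) (hR : R0 ≤ m) :
    ∃ (K : AddSubgroup (ZMod m)) (x0 : ZMod m), R0 ≤ Nat.card K ∧
      (cnt (fun q : V × V => ¬ (c q.1 q.2 - x0 ∈ K)) : ℝ) ≤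
        B / Nat.card K * (Fintype.card V : ℝ) ^ 2 ∧
      ∀ H : AddSubgroup (ZMod m), H < K → R0 ≤ Nat.card H → ∀ z : ZMod m,
        B / Nat.card H * (Fintype.card V : ℝ) ^ 2 < cnt (fun q : V × V => ¬ (c q.1 q.2 - z ∈ H)) := by
  classical
  let Q : AddSubgroup (ZMod m) → Prop := fun K => R0 ≤ Nat.card K ∧ ∃ x0 : ZMod m,
    (cnt (fun q : V × V => ¬ (c q.1 q.2 - x0 ∈ K)) : ℝ) ≤ B / Nat.card K * (Fintype.card V : ℝ) ^ 2
  have hex : ∃ k : ℕ, ∃ K : AddSubgroup (ZMod m), Q K ∧ Nat.card K = k := by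
    refine ⟨_, ⊤, ⟨?_, 0, ?_⟩, rfl⟩
    · rw [AddSubgroup.card_top, Nat.card_zmod]
      exact hR
    · have h0 : cnt (fun q : V × V => ¬ (c q.1 q.2 - 0 ∈ (⊤ : AddSubgroup (ZMod m)))) = 0 := by
        rw [cnt_eq_card, card_eq_zero, filter_eq_empty_iff]
        intro q _ h
        exact h (AddSubgroup.mem_top _)
      rw [h0, Nat.cast_zero]
      positivity
  obtain ⟨K, ⟨hK1, x0, hK2⟩, hK3⟩ := Nat.find_spec hex
  refine ⟨K, x0, hK1, hK2, fun H hH hHR z => ?_⟩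
  by_contra hcon
  have hlt : Nat.card H < Nat.card K := by
    by_contra hge
    exact hH.ne (AddSubgroup.eq_of_le_of_card_ge hH.le (not_lt.1 hge))
  rw [hK3] at hlt
  exact Nat.find_min hex hlt ⟨H, ⟨hHR, z, not_lt.1 hcon⟩, rfl⟩

/-- A symmetric set of pairs loses at most half of its mass, and `|V \ U|^2`, when the first entry is
restricted to `U`. -/
theorem pair_loss {V : Type} [Fintype V] (U : Finset V) (P : V → V → Prop)
    (hP : ∀ x y, P x y ↔ P y x) :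
    (cnt (fun q : V × V => P q.1 q.2) : ℝ) ≤
      2 * cnt (fun q : V × V => q.1 ∈ U ∧ P q.1 q.2) + ((Fintype.card V : ℝ) - U.card) ^ 2 := by
  classical
  have h1 : cnt (fun q : V × V => P q.1 q.2) ≤ cnt (fun q : V × V => q.1 ∈ U ∧ P q.1 q.2) +
      cnt (fun q : V × V => (q.2 ∈ U ∧ P q.1 q.2) ∨ (q.1 ∉ U ∧ q.2 ∉ U)) := by
    refine kmin_or fun q hq => ?_
    by_cases h1 : q.1 ∈ U
    · exact Or.inl ⟨h1, hq⟩
    · by_cases h2 : q.2 ∈ U
      · exact Or.inr (Or.inl ⟨h2, hq⟩)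
      · exact Or.inr (Or.inr ⟨h1, h2⟩)
  have h2 : cnt (fun q : V × V => (q.2 ∈ U ∧ P q.1 q.2) ∨ (q.1 ∉ U ∧ q.2 ∉ U)) ≤
      cnt (fun q : V × V => q.2 ∈ U ∧ P q.1 q.2) + cnt (fun q : V × V => q.1 ∉ U ∧ q.2 ∉ U) :=
    kmin_or fun q hq => hq
  have h3 : cnt (fun q : V × V => q.2 ∈ U ∧ P q.1 q.2) ≤
      cnt (fun q : V × V => q.1 ∈ U ∧ P q.1 q.2) := by
    refine cnt_inj Prod.swap (fun q hq => ⟨hq.1, (hP _ _).1 hq.2⟩) fun q r _ _ h =>
      Prod.swap_injective h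
  have h4 : (cnt (fun q : V × V => q.1 ∉ U ∧ q.2 ∉ U) : ℝ) =
      ((Fintype.card V : ℝ) - U.card) ^ 2 := by
    rw [cnt_prod (fun x : V => x ∉ U) (fun x : V => x ∉ U), Nat.cast_mul, kmin_compl, pow_two]
  have h5 : (cnt (fun q : V × V => P q.1 q.2) : ℝ) ≤ cnt (fun q : V × V => q.1 ∈ U ∧ P q.1 q.2) +
      (cnt (fun q : V × V => q.1 ∈ U ∧ P q.1 q.2) + cnt (fun q : V × V => q.1 ∉ U ∧ q.2 ∉ U)) := by
    have := h1.trans (Nat.add_le_add_left (h2.trans (Nat.add_le_add_right h3 _)) _)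
    exact_mod_cast this
  rw [h4] at h5
  linarith

end Pool.Agent.ZT
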