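import Pool.Agent.ZC.KnJ

/-! # ZC : the number of cosets met by a random row -/

set_option autoImplicit false

open Finset

namespace Pool.Agent.ZT

theorem mixb_num (q : ℕ) (β : ℝ) (h0 : 0 ≤ β) (h1 : β ≤ 1) :
    min 1 ((q : ℝ) * β) / 2 ≤ 1 - (1 - β) ^ q := by
  have hx : 0 ≤ (q : ℝ) * β := by positivity
  have e1 : (1 - β) ^ q ≤ 1 / (1 + (q : ℝ) * β) := by
    have a1 : 1 - β ≤ Real.exp (-β) := by
      have := Real.add_one_le_exp (-β)
      linarith
    have a2 : (1 - β) ^ q ≤ (Real.exp (-β)) ^ q := pow_le_pow_left₀ (by linarith) a1 q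
    have a3 : (Real.exp (-β)) ^ q = Real.exp (-((q : ℝ) * β)) := by
      rw [← Real.exp_nat_mul]
      congr 1
      ring
    have a4 : Real.exp (-((q : ℝ) * β)) ≤ 1 / (1 + (q : ℝ) * β) := by
      rw [Real.exp_neg, ← one_div]
      refine one_div_le_one_div_of_le (by linarith) ?_
      have := Real.add_one_le_exp ((q : ℝ) * β)
      linarith
    rw [a3] at a2
    exact a2.trans a4
  set x : ℝ := (q : ℝ) * β with hxd
  rcases le_total x 1 with hle | hle
  · rw [min_eq_right hle]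
    have b1 : 1 / (1 + x) ≤ 1 - x / 2 := by
      rw [div_le_iff₀ (by linarith)]
      nlinarith
    linarith
  · rw [min_eq_left hle]
    have b1 : 1 / (1 + x) ≤ 1 / 2 := one_div_le_one_div_of_le (by norm_num) (by linarith)
    linarith

theorem mixb_bad {G : Type} [AddCommGroup G] {S : Type} [Fintype S] [DecidableEq S] (f : S → G)
    (S0 : Finset S) (H : AddSubgroup G) (q : ℕ) (β : ℝ)
    (h : ∀ z : G, (cnt (fun s : S => s ∈ S0 ∧ f s - z ∈ H) : ℝ) ≤ (1 - β) * S0.card) :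
    (cnt (fun B : Fin (q + 1) → S => (∀ i, B i ∈ S0) ∧ ∀ i, f (B i) - f (B 0) ∈ H) : ℝ) ≤
      S0.card * ((1 - β) * S0.card) ^ q := by
  classical
  set T : S → Finset S := fun s => univ.filter (fun s' : S => s' ∈ S0 ∧ f s' - f s ∈ H) with hT
  set P : S → Fin (q + 1) → Finset S := fun s => Fin.cons {s} (fun _ => T s) with hP
  have hsub : univ.filter (fun B : Fin (q + 1) → S =>
      (∀ i, B i ∈ S0) ∧ ∀ i, f (B i) - f (B 0) ∈ H) ⊆ S0.biUnion (fun s => Fintype.piFinset (P s)) := by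
    intro B hB
    rw [mem_filter] at hB
    obtain ⟨_, hB1, hB2⟩ := hB
    rw [mem_biUnion]
    refine ⟨B 0, hB1 0, ?_⟩
    rw [Fintype.mem_piFinset]
    intro i
    refine Fin.cases ?_ (fun i => ?_) i
    · simp [hP]
    · have : P (B 0) i.succ = T (B 0) := by simp [hP]
      rw [this, hT]
      simp only [mem_filter, mem_univ, true_and]
      exact ⟨hB1 _, hB2 _⟩
  have hcard : ∀ s, (Fintype.piFinset (P s)).card = (T s).card ^ q := by
    intro s
    rw [Fintype.card_piFinset, Fin.prod_univ_succ]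
    simp [hP]
  have hTc : ∀ s, ((T s).card : ℝ) ≤ (1 - β) * S0.card := by
    intro s
    have := h (f s)
    rw [cnt_eq_card] at this
    exact this
  rw [cnt_eq_card]
  calc ((univ.filter (fun B : Fin (q + 1) → S =>
      (∀ i, B i ∈ S0) ∧ ∀ i, f (B i) - f (B 0) ∈ H)).card : ℝ)
      ≤ ((S0.biUnion (fun s => Fintype.piFinset (P s))).card : ℝ) := by
        exact_mod_cast card_le_card hsub
    _ ≤ ((∑ s ∈ S0, (Fintype.piFinset (P s)).card : ℕ) : ℝ) := by exact_mod_cast card_biUnion_le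
    _ = ∑ s ∈ S0, ((T s).card : ℝ) ^ q := by
        push_cast
        exact sum_congr rfl fun s _ => by rw [hcard]; push_cast; rfl
    _ ≤ ∑ s ∈ S0, ((1 - β) * S0.card) ^ q :=
        sum_le_sum fun s _ => pow_le_pow_left₀ (Nat.cast_nonneg _) (hTc s) q
    _ = S0.card * ((1 - β) * S0.card) ^ q := by rw [sum_const, nsmul_eq_mul]

/-- Rows which meet at least two cosets, if no coset has more than `1 - β` of the mass.

PROOF.  A row `B` (with entries in `S0`) with `ncos H = 1` has `f (B i) - f (B 0) ∈ H` for all `i`; their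
number is `∑_{s ∈ S0} #{s' ∈ S0 | f s' - f s ∈ H}^(r-1) ≤ |S0| ((1-β) |S0|)^(r-1)`.  So the number of the
other rows is at least `|S0|^r (1 - (1-β)^(r-1)) ≥ |S0|^r (1 - e^{-(r-1)β})`, and `1 - e^{-x} ≥ x/2` for
`0 ≤ x ≤ 1`, `1 - e^{-x} ≥ 1/2` for `x ≥ 1`. -/
theorem mix_big {G : Type} [AddCommGroup G] {S : Type} [Fintype S] (f : S → G) (S0 : Finset S)
    (H : AddSubgroup G) (r : ℕ) (hr : 2 ≤ r) (β : ℝ) (h0 : 0 ≤ β) (h1 : β ≤ 1)
    (h : ∀ z : G, (cnt (fun s : S => s ∈ S0 ∧ f s - z ∈ H) : ℝ) ≤ (1 - β) * S0.card) :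
    min 1 (((r : ℝ) - 1) * β) / 2 * (S0.card : ℝ) ^ r ≤
      cnt (fun B : Fin r → S => (∀ i, B i ∈ S0) ∧ 2 ≤ ncos H (fun i => f (B i))) := by
  classical
  obtain ⟨q, rfl⟩ : ∃ q, r = q + 1 := ⟨r - 1, by omega⟩
  have hbad := mixb_bad f S0 H q β h
  set all := univ.filter (fun B : Fin (q + 1) → S => ∀ i, B i ∈ S0) with hall
  have hallc : all.card = S0.card ^ (q + 1) := by
    have : all = Fintype.piFinset (fun _ : Fin (q + 1) => S0) := by
      ext B
      simp [hall, Fintype.mem_piFinset]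
    rw [this, Fintype.card_piFinset]
    simp
  have hsub : all ⊆ univ.filter (fun B : Fin (q + 1) → S =>
        (∀ i, B i ∈ S0) ∧ 2 ≤ ncos H (fun i => f (B i))) ∪
      univ.filter (fun B : Fin (q + 1) → S => (∀ i, B i ∈ S0) ∧ ∀ i, f (B i) - f (B 0) ∈ H) := by
    intro B hB
    rw [hall, mem_filter] at hB
    rw [mem_union, mem_filter, mem_filter]
    by_cases h2 : 2 ≤ ncos H (fun i => f (B i))
    · exact Or.inl ⟨mem_univ _, hB.2, h2⟩
    · refine Or.inr ⟨mem_univ _, hB.2, fun i => ?_⟩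
      have h3 : ncos H (fun i => f (B i)) ≤ 1 := by omega
      unfold ncos at h3
      rw [card_le_one] at h3
      have h4 := h3 (QuotientAddGroup.mk (f (B 0))) (mem_image_of_mem _ (mem_univ 0))
        (QuotientAddGroup.mk (f (B i))) (mem_image_of_mem _ (mem_univ i))
      have h5 := QuotientAddGroup.eq.1 h4
      have h6 : f (B i) - f (B 0) = -f (B 0) + f (B i) := by abel
      rw [h6]
      exact h5
  have hc : (all.card : ℝ) ≤ cnt (fun B : Fin (q + 1) → S =>
        (∀ i, B i ∈ S0) ∧ 2 ≤ ncos H (fun i => f (B i))) +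
      cnt (fun B : Fin (q + 1) → S => (∀ i, B i ∈ S0) ∧ ∀ i, f (B i) - f (B 0) ∈ H) := by
    rw [cnt_eq_card, cnt_eq_card]
    exact_mod_cast (card_le_card hsub).trans (card_union_le _ _)
  rw [hallc] at hc
  push_cast at hc
  have hnum := mixb_num q β h0 h1
  have hσ : (0 : ℝ) ≤ (S0.card : ℝ) ^ (q + 1) := by positivity
  have e1 : (((q + 1 : ℕ) : ℝ) - 1) = q := by push_cast; ring
  rw [e1]
  have e2 : (S0.card : ℝ) * ((1 - β) * S0.card) ^ q = (1 - β) ^ q * (S0.card : ℝ) ^ (q + 1) := by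
    rw [mul_pow]
    ring
  rw [e2] at hbad
  have e3 := mul_le_mul_of_nonneg_right hnum hσ
  nlinarith

end Pool.Agent.ZT
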