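import Pool.Agent.ZC.KnJ

/-! # ZC : the number of cosets met by a random row -/

set_option autoImplicit false

open Finset

namespace Pool.Agent.ZT

/-- one index of a row -/
theorem mixs_one {S : Type} [Fintype S] [DecidableEq S] (S0 : Finset S) (r : ℕ) (i : Fin r) (φ : S → ℝ) :
    ∑ B ∈ Fintype.piFinset (fun _ : Fin r => S0), φ (B i) =
      (∑ s ∈ S0, φ s) * (S0.card : ℝ) ^ (r - 1) := by
  have h1 := Finset.prod_univ_sum (fun _ : Fin r => S0)
    (fun (k : Fin r) (s : S) => if k = i then φ s else (1 : ℝ))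
  have h2 : ∀ B : Fin r → S, ∏ k, (if k = i then φ (B k) else (1 : ℝ)) = φ (B i) := by
    intro B
    rw [Finset.prod_eq_single i (fun k _ hk => if_neg hk) (fun h => absurd (Finset.mem_univ i) h),
      if_pos rfl]
  rw [Finset.sum_congr rfl fun B _ => h2 B] at h1
  rw [← h1, ← Finset.mul_prod_erase _ _ (Finset.mem_univ i)]
  congr 1
  · simp
  · rw [Finset.prod_congr rfl (g := fun _ => (S0.card : ℝ)) fun k hk => by
      simp [Finset.ne_of_mem_erase hk]]
    rw [Finset.prod_const, Finset.card_erase_of_mem (Finset.mem_univ i), Finset.card_univ,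
      Fintype.card_fin]

/-- two indices of a row -/
theorem mixs_two {S : Type} [Fintype S] [DecidableEq S] (S0 : Finset S) (r : ℕ) (i j : Fin r)
    (hij : j ≠ i) (φ ψ : S → ℝ) :
    ∑ B ∈ Fintype.piFinset (fun _ : Fin r => S0), φ (B i) * ψ (B j) =
      (∑ s ∈ S0, φ s) * ((∑ s ∈ S0, ψ s) * (S0.card : ℝ) ^ (r - 2)) := by
  have h1 := Finset.prod_univ_sum (fun _ : Fin r => S0)
    (fun (k : Fin r) (s : S) => if k = i then φ s else if k = j then ψ s else (1 : ℝ))
  have h2 : ∀ B : Fin r → S, ∏ k, (if k = i then φ (B k) else if k = j then ψ (B k) else (1 : ℝ)) =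
      φ (B i) * ψ (B j) := by
    intro B
    rw [Finset.prod_eq_mul i j hij.symm (fun k _ hk => by rw [if_neg hk.1, if_neg hk.2])
      (fun h => absurd (Finset.mem_univ i) h) (fun h => absurd (Finset.mem_univ j) h), if_pos rfl,
      if_neg hij, if_pos rfl]
  rw [Finset.sum_congr rfl fun B _ => h2 B] at h1
  have hj : j ∈ (Finset.univ : Finset (Fin r)).erase i := Finset.mem_erase.2 ⟨hij, Finset.mem_univ j⟩
  rw [← h1, ← Finset.mul_prod_erase _ _ (Finset.mem_univ i), ← Finset.mul_prod_erase _ _ hj]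
  congr 1
  · simp
  congr 1
  · simp [hij]
  · rw [Finset.prod_congr rfl (g := fun _ => (S0.card : ℝ)) fun k hk => by
      have h3 := Finset.ne_of_mem_erase hk
      have h4 := Finset.ne_of_mem_erase (Finset.mem_of_mem_erase hk)
      simp [h3, h4]]
    rw [Finset.prod_const, Finset.card_erase_of_mem hj, Finset.card_erase_of_mem (Finset.mem_univ i),
      Finset.card_univ, Fintype.card_fin, Nat.sub_sub]

open Classical in
/-- the number of cosets of one row -/
theorem mixs_row {G : Type} [AddCommGroup G] {S : Type} (f : S → G) (H : AddSubgroup G) (P : S → Prop)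
    (r : ℕ) (B : Fin r → S) :
    ∑ i, (if P (B i) then (1 : ℝ) else 0) ≤ (ncos H (fun i => f (B i)) : ℝ) +
      ∑ i, ∑ j ∈ Finset.Iio i,
        (if P (B i) ∧ P (B j) ∧ f (B j) - f (B i) ∈ H then (1 : ℝ) else 0) := by
  set I : Finset (Fin r) := univ.filter (fun i => P (B i) ∧ ¬ ∃ j, j < i ∧ P (B j) ∧
    f (B j) - f (B i) ∈ H) with hI
  have h1 : (I.card : ℝ) ≤ (ncos H (fun i => f (B i)) : ℝ) := by
    have : I.card ≤ ncos H (fun i => f (B i)) := by
      unfold ncos
      refine Finset.card_le_card_of_injOn (fun i => (QuotientAddGroup.mk (f (B i)) : G ⧸ H))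
        (fun i _ => Finset.mem_coe.2 (Finset.mem_image_of_mem _ (Finset.mem_univ i))) ?_
      intro i hi k hk hik
      rw [hI, Finset.mem_coe, Finset.mem_filter] at hi hk
      have hik2 : f (B i) - f (B k) ∈ H := by
        have h3 := (QuotientAddGroup.eq (s := H)).1 hik
        have h4 := H.neg_mem h3
        have e : -(-f (B i) + f (B k)) = f (B i) - f (B k) := by abel
        rwa [e] at h4
      rcases lt_trichotomy i k with h | h | h
      · exact absurd ⟨i, h, hi.2.1, hik2⟩ hk.2.2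
      · exact h
      · refine absurd ⟨k, h, hk.2.1, ?_⟩ hi.2.2
        have h4 := H.neg_mem hik2
        rwa [neg_sub] at h4
    exact_mod_cast this
  have h2 : (I.card : ℝ) = ∑ i, (if P (B i) ∧ ¬ ∃ j, j < i ∧ P (B j) ∧
      f (B j) - f (B i) ∈ H then (1 : ℝ) else 0) := by
    rw [hI, Finset.card_filter]
    push_cast
    rfl
  refine le_trans ?_ (add_le_add_left h1 _)
  rw [h2, ← Finset.sum_add_distrib]
  refine Finset.sum_le_sum fun i _ => ?_
  have h0 : 0 ≤ ∑ j ∈ Finset.Iio i,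
      (if P (B i) ∧ P (B j) ∧ f (B j) - f (B i) ∈ H then (1 : ℝ) else 0) :=
    Finset.sum_nonneg fun j _ => by split_ifs <;> norm_num
  by_cases hp : P (B i)
  · by_cases hq : ∃ j, j < i ∧ P (B j) ∧ f (B j) - f (B i) ∈ H
    · obtain ⟨j, hj, hPj, hH⟩ := hq
      have h3 : (1 : ℝ) ≤ ∑ j ∈ Finset.Iio i,
          (if P (B i) ∧ P (B j) ∧ f (B j) - f (B i) ∈ H then (1 : ℝ) else 0) := by
        have h4 := Finset.single_le_sum (f := fun j =>
          (if P (B i) ∧ P (B j) ∧ f (B j) - f (B i) ∈ H then (1 : ℝ) else 0))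
          (fun j _ => by split_ifs <;> norm_num) (Finset.mem_Iio.2 hj)
        rw [if_pos ⟨hp, hPj, hH⟩] at h4
        exact h4
      rw [if_pos hp]
      have h5 : 0 ≤ (if P (B i) ∧ ¬ ∃ j, j < i ∧ P (B j) ∧ f (B j) - f (B i) ∈ H then (1 : ℝ)
          else 0) := by split_ifs <;> norm_num
      linarith
    · rw [if_pos hp, if_pos ⟨hp, hq⟩]
      linarith
  · rw [if_neg hp]
    have h5 : 0 ≤ (if P (B i) ∧ ¬ ∃ j, j < i ∧ P (B j) ∧ f (B j) - f (B i) ∈ H then (1 : ℝ)
        else 0) := by split_ifs <;> norm_num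
    linarith

/-- Expected number of cosets, if the elements with property `P` have mass `≥ lam` and no coset contains
more than `θ |S0|` of them, `r θ ≤ 1`.

PROOF.  For a row `B` let `I_B` be the set of indices `i` with `P (B i)` such that there is no `j < i` with
`P (B j)` and `f (B j) - f (B i) ∈ H`; the entries `f (B i)`, `i ∈ I_B`, lie in different cosets, so
`ncos H ≥ |I_B| ≥ #{i | P (B i)} - #{(j, i) | j < i, P (B j), P (B i), f (B j) - f (B i) ∈ H}`.  Let
`σ = |S0|` and `ρ0 σ` the number of `s ∈ S0` with `P s`.  Sum over all rows: the first term gives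
`r ρ0 σ^r`, the second at most `(r^2/2) ρ0 σ · θ σ · σ^(r-2) ≤ (r/2) ρ0 σ^r`.  So the sum of `ncos` is at
least `(r/2) ρ0 σ^r ≥ (r lam/2) σ^r`; subtract the number `σ^r` of rows. -/
theorem mix_small {G : Type} [AddCommGroup G] {S : Type} [Fintype S] (f : S → G) (S0 : Finset S)
    (H : AddSubgroup G) (P : S → Prop) (r : ℕ) (lam θ : ℝ) (hlam : 0 ≤ lam)
    (hP : lam * S0.card ≤ (cnt (fun s : S => s ∈ S0 ∧ P s) : ℝ))
    (hθ : ∀ z : G, (cnt (fun s : S => s ∈ S0 ∧ P s ∧ f s - z ∈ H) : ℝ) ≤ θ * S0.card)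
    (hrθ : r * θ ≤ 1) :
    ((r : ℝ) * lam / 2 - 1) * (S0.card : ℝ) ^ r ≤
      sm (fun B : Fin r → S => ∀ i, B i ∈ S0) (fun B => (ncos H (fun i => f (B i)) : ℝ) - 1) := by
  classical
  set σ : ℝ := (S0.card : ℝ) with hσ
  have hσ0 : 0 ≤ σ := Nat.cast_nonneg _
  set U : Finset (Fin r → S) := Fintype.piFinset (fun _ : Fin r => S0) with hU
  have hUf : (univ.filter (fun B : Fin r → S => ∀ i, B i ∈ S0)) = U := by
    ext B
    simp [hU, Fintype.mem_piFinset]
  have hUc : (U.card : ℝ) = σ ^ r := by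
    rw [hU, Fintype.card_piFinset, Finset.prod_const, Finset.card_univ, Fintype.card_fin, hσ]
    push_cast
    rfl
  rw [sm_eq, hUf, Finset.sum_sub_distrib, Finset.sum_const, nsmul_eq_mul, mul_one, hUc]
  rcases Nat.eq_zero_or_pos r with hr | hr
  · subst hr
    have h0 : 0 ≤ ∑ B ∈ U, (ncos H (fun i => f (B i)) : ℝ) :=
      Finset.sum_nonneg fun _ _ => Nat.cast_nonneg _
    simp only [Nat.cast_zero, zero_mul, zero_div, pow_zero]
    linarith
  -- the masses
  set p : S → ℝ := fun s => if P s then 1 else 0 with hp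
  set ρ : ℝ := ∑ s ∈ S0, p s with hρ
  have hρc : ρ = (cnt (fun s : S => s ∈ S0 ∧ P s) : ℝ) := by
    rw [cnt_eq_sum, hρ, ← Finset.sum_subset (Finset.subset_univ S0) (fun s _ hs => by simp [hs])]
    refine Finset.sum_congr rfl fun s hs => ?_
    rw [hp]
    simp [hs]
  have hρ0 : 0 ≤ ρ := by
    rw [hρc]
    exact Nat.cast_nonneg _
  have hρ1 : lam * σ ≤ ρ := by
    rw [hρc]
    exact hP
  set q : S → S → ℝ := fun s t => if P s ∧ P t ∧ f t - f s ∈ H then 1 else 0 with hq
  have hX : ∑ B ∈ U, ∑ i, p (B i) = r * (ρ * σ ^ (r - 1)) := by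
    rw [Finset.sum_comm]
    rw [Finset.sum_congr rfl fun i _ => mixs_one S0 r i p, Finset.sum_const, Finset.card_univ,
      Fintype.card_fin, nsmul_eq_mul]
  have hqs : ∀ s, ∑ t ∈ S0, q s t ≤ p s * (θ * σ) := by
    intro s
    by_cases hs : P s
    · have h1 : p s = 1 := by rw [hp]; simp [hs]
      rw [h1, one_mul]
      refine le_trans (le_of_eq ?_) (hθ (f s))
      rw [cnt_eq_sum, ← Finset.sum_subset (Finset.subset_univ S0) (fun t _ ht => by simp [ht])]
      refine Finset.sum_congr rfl fun t ht => ?_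
      rw [hq]
      simp [ht, hs]
    · have h1 : p s = 0 := by rw [hp]; simp [hs]
      rw [h1, zero_mul]
      refine le_of_eq (Finset.sum_eq_zero fun t _ => ?_)
      rw [hq]
      simp [hs]
  have hY2 : ∀ i j : Fin r, j ∈ Finset.Iio i → ∑ B ∈ U, q (B i) (B j) ≤ ρ * θ * σ ^ (r - 1) := by
    intro i j hj
    have hji : j ≠ i := (Finset.mem_Iio.1 hj).ne
    have hr2 : 2 ≤ r := by
      have h1 := (Finset.mem_Iio.1 hj)
      have h2 : (j : ℕ) < (i : ℕ) := h1
      have h3 := i.2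
      omega
    have h1 : ∀ B ∈ U, q (B i) (B j) = ∑ s ∈ S0, (if B i = s then (1 : ℝ) else 0) * q s (B j) := by
      intro B hB
      have hBi : B i ∈ S0 := (Fintype.mem_piFinset.1 hB) i
      rw [Finset.sum_eq_single (B i) (fun s _ hs => by rw [if_neg (Ne.symm hs), zero_mul])
        (fun h => absurd hBi h), if_pos rfl, one_mul]
    rw [Finset.sum_congr rfl h1, Finset.sum_comm]
    have h2 : ∀ s ∈ S0, ∑ B ∈ U, (if B i = s then (1 : ℝ) else 0) * q s (B j) ≤
        p s * (θ * σ) * σ ^ (r - 2) := by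
      intro s hs
      have h3 := mixs_two S0 r i j hji (fun t => if t = s then (1 : ℝ) else 0) (q s)
      rw [Finset.sum_ite_eq' S0 s, if_pos hs, one_mul] at h3
      rw [h3]
      exact mul_le_mul_of_nonneg_right (hqs s) (pow_nonneg hσ0 _)
    refine (Finset.sum_le_sum h2).trans (le_of_eq ?_)
    rw [← Finset.sum_mul, ← Finset.sum_mul]
    have h4 : σ ^ (r - 1) = σ * σ ^ (r - 2) := by
      rw [← pow_succ']
      congr 1
      omega
    rw [h4]
    ring
  have hpairs : ∑ i : Fin r, ((Finset.Iio i).card : ℝ) = (r : ℝ) * (r - 1) / 2 := by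
    have h1 : ∑ i : Fin r, ((Finset.Iio i).card : ℝ) = ((∑ i ∈ Finset.range r, i : ℕ) : ℝ) := by
      rw [← Fin.sum_univ_eq_sum_range (fun i => i) r]
      push_cast
      exact Finset.sum_congr rfl fun i _ => by rw [Fin.card_Iio]
    have h2 := Finset.sum_range_id_mul_two r
    have h3 : (((∑ i ∈ Finset.range r, i : ℕ) * 2 : ℕ) : ℝ) = ((r * (r - 1) : ℕ) : ℝ) := by
      exact_mod_cast h2
    rw [h1]
    push_cast [Nat.cast_sub hr] at h3 ⊢
    linarith
  have hY : ∑ B ∈ U, ∑ i, ∑ j ∈ Finset.Iio i, q (B i) (B j) ≤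
      ρ * θ * σ ^ (r - 1) * ((r : ℝ) * (r - 1) / 2) := by
    rw [Finset.sum_comm, ← hpairs, Finset.mul_sum]
    refine Finset.sum_le_sum fun i _ => ?_
    rw [Finset.sum_comm]
    refine (Finset.sum_le_sum (hY2 i)).trans (le_of_eq ?_)
    rw [Finset.sum_const, nsmul_eq_mul, mul_comm]
  have hrow : ∑ B ∈ U, ∑ i, p (B i) ≤ ∑ B ∈ U, (ncos H (fun i => f (B i)) : ℝ) +
      ∑ B ∈ U, ∑ i, ∑ j ∈ Finset.Iio i, q (B i) (B j) := by
    rw [← Finset.sum_add_distrib]
    refine Finset.sum_le_sum fun B _ => ?_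
    exact mixs_row f H P r B
  have hr1 : (1 : ℝ) ≤ r := by exact_mod_cast hr
  have hθr : θ * (r - 1) ≤ 1 := by
    rcases le_total 0 θ with h | h
    · nlinarith
    · have : θ * ((r : ℝ) - 1) ≤ 0 := mul_nonpos_of_nonpos_of_nonneg h (by linarith)
      linarith
  have hc0 : 0 ≤ ρ * σ ^ (r - 1) := mul_nonneg hρ0 (pow_nonneg hσ0 _)
  have hfin : r * (ρ * σ ^ (r - 1)) / 2 ≤ r * (ρ * σ ^ (r - 1)) -
      ρ * θ * σ ^ (r - 1) * ((r : ℝ) * (r - 1) / 2) := by
    have h1 : 0 ≤ (ρ * σ ^ (r - 1)) * r * (1 - θ * (r - 1)) :=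
      mul_nonneg (mul_nonneg hc0 (by linarith)) (by linarith)
    nlinarith
  have hlast : (r : ℝ) * lam / 2 * σ ^ r ≤ r * (ρ * σ ^ (r - 1)) / 2 := by
    have h1 : σ ^ r = σ * σ ^ (r - 1) := by
      rw [← pow_succ']
      congr 1
      omega
    rw [h1]
    have h2 : lam * σ * σ ^ (r - 1) ≤ ρ * σ ^ (r - 1) :=
      mul_le_mul_of_nonneg_right hρ1 (pow_nonneg hσ0 _)
    have h3 := mul_le_mul_of_nonneg_left h2 (by linarith : (0 : ℝ) ≤ r / 2)
    linarith
  rw [hX] at hrow
  linarith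

end Pool.Agent.ZT
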