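import Pool.Agent.ZC.KCoin
import Pool.Agent.ZC.MixB
import Pool.Agent.ZC.MixS

/-! # ZC : coins for a well mixed law -/

set_option autoImplicit false

open Finset

namespace Pool.Agent.ZT

/-- the elements of `L` in a coset of a small subgroup have few preimages -/
theorem mixa_fib {m : ℕ} [NeZero m] {S : Type} [Fintype S] [DecidableEq S] (f : S → ZMod m)
    (S0 : Finset S) (L : Finset (ZMod m)) (H : AddSubgroup (ZMod m)) (z : ZMod m) (t : ℝ) (R0 : ℕ)
    (ht : 0 ≤ t) (hH : Nat.card H ≤ R0)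
    (hfib : ∀ a ∈ L, (cnt (fun s : S => s ∈ S0 ∧ f s = a) : ℝ) ≤ t) :
    (cnt (fun s : S => s ∈ S0 ∧ f s ∈ L ∧ f s - z ∈ H) : ℝ) ≤ R0 * t := by
  classical
  set L' : Finset (ZMod m) := L.filter (fun a => a - z ∈ H) with hL'
  have h1 : L'.card ≤ Nat.card H := by
    have h2 : L'.card ≤ (univ.filter fun a : ZMod m => a ∈ H).card := by
      refine card_le_card_of_injOn (fun a => a - z) (fun a ha => ?_) (fun a _ b _ h => ?_)
      · rw [mem_coe, hL', mem_filter] at ha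
        rw [mem_coe, mem_filter]
        exact ⟨mem_univ _, ha.2⟩
      · exact sub_left_injective h
    have h3 : Nat.card H = (univ.filter fun a : ZMod m => a ∈ H).card := by
      rw [Nat.card_eq_fintype_card]
      exact Fintype.card_subtype _
    rw [h3]
    exact h2
  have h4 : (cnt (fun s : S => s ∈ S0 ∧ f s ∈ L ∧ f s - z ∈ H)) =
      ∑ a ∈ L', cnt (fun s : S => s ∈ S0 ∧ f s = a) := by
    rw [cnt_eq_card, card_eq_sum_card_fiberwise (f := f) (t := L')]
    · refine sum_congr rfl fun a ha => ?_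
      rw [cnt_eq_card]
      congr 1
      ext s
      rw [hL', mem_filter] at ha
      simp only [mem_filter, mem_univ, true_and]
      constructor
      · rintro ⟨⟨h5, _, _⟩, h8⟩
        exact ⟨h5, h8⟩
      · rintro ⟨h5, h6⟩
        exact ⟨⟨h5, h6 ▸ ha.1, h6 ▸ ha.2⟩, h6⟩
    · intro s hs
      simp only [coe_filter, mem_univ, true_and, Set.mem_ofPred_eq] at hs
      rw [hL', mem_coe, mem_filter]
      exact ⟨hs.2.1, hs.2.2⟩
  rw [h4]
  push_cast
  calc ∑ a ∈ L', (cnt (fun s : S => s ∈ S0 ∧ f s = a) : ℝ) ≤ ∑ _a ∈ L', t := by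
        refine sum_le_sum fun a ha => hfib a ?_
        rw [hL', mem_filter] at ha
        exact ha.1
    _ = (L'.card : ℝ) * t := by rw [sum_const, nsmul_eq_mul]
    _ ≤ R0 * t := by
        refine mul_le_mul_of_nonneg_right ?_ ht
        exact_mod_cast h1.trans hH

/-- `kcoin` with its hypotheses checked by `mix_big`, `mix_small`.

PROOF.  `hbig`: `mix_big` with `β = B/|H| ≤ B/R0 ≤ 1` and `hcos`.  As `J ≥ C m/r` and `|K| ≤ m`
(`subgr_card_le`): `16 (|K|/|H|)/J ≤ 16 r/(C |H|)`.  If the minimum is `1`: `1/2 ≥ 16 r/(C|H|)` by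
`32 r ≤ C R0 ≤ C |H|`.  Otherwise `(r-1) B/(2|H|) ≥ r B/(4|H|) ≥ 16 r/(C|H|)` by `64 ≤ B C`.
`hsmall`: `mix_small` with `P s = (f s ∈ L)`, `θ' = R0 θ`: for every `z` the elements with `f s ∈ L` and
`f s - z ∈ H` have at most `|H| ≤ R0` different values of `f`, each taken at most `θ |S0|` times; then
`r lam/2 - 1 ≥ r lam/4` by `4 ≤ r lam`.  `hJ1`: `lam r J ≥ lam C m ≥ 8 m`. -/
theorem mix_apply {m : ℕ} [NeZero m] {S : Type} [Fintype S] [DecidableEq S] (f : S → ZMod m)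
    (S0 : Finset S) (hne : S0.Nonempty) (K : AddSubgroup (ZMod m)) (x0 : ZMod m)
    (hK : ∀ s ∈ S0, f s - x0 ∈ K) (L : Finset (ZMod m)) (r J R0 : ℕ) (lam θ B C : ℝ)
    (hlam : 0 < lam) (hB : 0 < B) (hC : 0 < C) (hθ0 : 0 ≤ θ)
    (hL : lam * S0.card ≤ (cnt (fun s : S => s ∈ S0 ∧ f s ∈ L) : ℝ))
    (hfib : ∀ a ∈ L, (cnt (fun s : S => s ∈ S0 ∧ f s = a) : ℝ) ≤ θ * S0.card)
    (hcos : ∀ H : AddSubgroup (ZMod m), H < K → R0 ≤ Nat.card H → ∀ z : ZMod m,
      (cnt (fun s : S => s ∈ S0 ∧ f s - z ∈ H) : ℝ) ≤ (1 - B / Nat.card H) * S0.card)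
    (hr : 2 ≤ r) (h1 : 4 ≤ r * lam) (h2 : r * (R0 * θ) ≤ 1) (h3 : C * m ≤ J * r) (h4 : 64 ≤ B * C)
    (h5 : 32 * r ≤ C * R0) (h6 : B ≤ R0) (h7 : 8 ≤ lam * C) (hJ : 1 ≤ J)
    (h8 : (m : ℝ) * Real.exp (-(lam * J / 32)) ≤ 1 / 4) (τ : ZMod m) (hτ : τ - J • x0 ∈ K) :
    1 / 2 * ((S0.card : ℝ) / r) ^ J ≤
      cnt (fun s : Fin J → S => (∀ j, s j ∈ S0) ∧ ∑ j, f (s j) = τ) := by
  have hr1 : 1 ≤ r := by omega
  have hJ0 : (0 : ℝ) < J := by exact_mod_cast hJ
  have hrR : (2 : ℝ) ≤ r := by exact_mod_cast hr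
  have hS : (0 : ℝ) ≤ (S0.card : ℝ) ^ r := by positivity
  have hm0 : (0 : ℝ) ≤ m := Nat.cast_nonneg m
  refine kcoin f S0 hne K x0 hK r J R0 lam hr1 hJ hlam ?_ ?_ ?_ h8 τ hτ
  · intro H hH hR
    have hHpos : (0 : ℝ) < Nat.card H := by exact_mod_cast (subgr_card_le H).1
    have hRH : (R0 : ℝ) ≤ Nat.card H := by exact_mod_cast hR
    have hKm : (Nat.card K : ℝ) ≤ m := by exact_mod_cast (subgr_card_le K).2
    have hβ0 : 0 ≤ B / Nat.card H := by positivity
    have hβ1 : B / Nat.card H ≤ 1 := by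
      rw [div_le_one hHpos]
      linarith
    have hmix := mix_big f S0 H r hr (B / Nat.card H) hβ0 hβ1 (fun z => hcos H hH hR z)
    refine le_trans (mul_le_mul_of_nonneg_right ?_ hS) hmix
    -- the numerical inequality
    have hA : 16 * ((Nat.card K : ℝ) / Nat.card H) / J ≤ 16 * r / (C * Nat.card H) := by
      rw [div_le_div_iff₀ hJ0 (by positivity)]
      have e : 16 * ((Nat.card K : ℝ) / Nat.card H) * (C * Nat.card H) = 16 * (C * Nat.card K) := by
        field_simp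
      rw [e]
      have h9 : C * (Nat.card K : ℝ) ≤ C * m := mul_le_mul_of_nonneg_left hKm hC.le
      linarith
    refine hA.trans ?_
    rw [le_div_iff₀ (by norm_num : (0 : ℝ) < 2)]
    refine le_min ?_ ?_
    · rw [div_mul_eq_mul_div, div_le_one (by positivity)]
      have h9 : C * (R0 : ℝ) ≤ C * Nat.card H := mul_le_mul_of_nonneg_left hRH hC.le
      linarith
    · have e1 : 16 * (r : ℝ) / (C * Nat.card H) * 2 = (32 * r / C) / Nat.card H := by
        field_simp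
        norm_num
      have e2 : ((r : ℝ) - 1) * (B / Nat.card H) = (((r : ℝ) - 1) * B) / Nat.card H := by
        rw [mul_div_assoc]
      rw [e1, e2]
      refine div_le_div_of_nonneg_right ?_ hHpos.le
      rw [div_le_iff₀ hC]
      have h9 : (r : ℝ) / 2 ≤ r - 1 := by linarith
      have h10 : (r : ℝ) / 2 * (B * C) ≤ (r - 1) * (B * C) :=
        mul_le_mul_of_nonneg_right h9 (by positivity)
      have h11 : (r : ℝ) / 2 * 64 ≤ (r : ℝ) / 2 * (B * C) :=
        mul_le_mul_of_nonneg_left h4 (by positivity)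
      linarith
  · intro H hH hR
    have hmix := mix_small f S0 H (fun s => f s ∈ L) r lam (R0 * θ) hlam.le hL (fun z => ?_) h2
    · refine le_trans (mul_le_mul_of_nonneg_right ?_ hS) hmix
      linarith
    · have h9 := mixa_fib f S0 L H z (θ * S0.card) R0 (by positivity) hR.le hfib
      linarith
  · have h9 : lam * (C * m) ≤ lam * (J * r) := mul_le_mul_of_nonneg_left h3 hlam.le
    have h10 : 8 * (m : ℝ) ≤ lam * C * m := mul_le_mul_of_nonneg_right h7 hm0
    linarith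

end Pool.Agent.ZT
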