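import Pool.Agent.ZC.Chern
import Pool.Agent.ZC.Subgr

/-! # ZC : typical positions (light case) -/

set_option autoImplicit false

open Finset

namespace Pool.Agent.ZT

open Classical in
/-- The colour sample seen from the positions `y`: pairs `(i, v)` such that the colour of `{v, y i}` lies in
the coset `x0 + K`. -/
noncomputable def smp {m : ℕ} {V : Type} [Fintype V] (c : V → V → ZMod m)
    (K : AddSubgroup (ZMod m)) (x0 : ZMod m) {N : ℕ} (y : Fin N → V) : Finset (Fin N × V) :=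
  univ.filter (fun s => c s.2 (y s.1) - x0 ∈ K)

/-- Typical positions: the colour sample is large, its light part is large and spread, and no coset of a
proper subgroup `H` of `K` with `|H| ≥ R0` has more than `1 - B/|H|` of its mass. -/
structure TypG {m : ℕ} {V : Type} [Fintype V] (c : V → V → ZMod m) (K : AddSubgroup (ZMod m))
    (x0 : ZMod m) (L : Finset (ZMod m)) (R0 : ℕ) (B lam κ : ℝ) {N : ℕ} (y : Fin N → V) : Prop where
  big : (N : ℝ) * Fintype.card V / 2 ≤ (smp c K x0 y).card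
  light : lam * (smp c K x0 y).card ≤
    (cnt (fun s : Fin N × V => s ∈ smp c K x0 y ∧ c s.2 (y s.1) ∈ L) : ℝ)
  fib : ∀ a ∈ L, (cnt (fun s : Fin N × V => s ∈ smp c K x0 y ∧ c s.2 (y s.1) = a) : ℝ) ≤
    8 * κ * (smp c K x0 y).card
  cos : ∀ H : AddSubgroup (ZMod m), H < K → R0 ≤ Nat.card H → ∀ z : ZMod m,
    (cnt (fun s : Fin N × V => s ∈ smp c K x0 y ∧ c s.2 (y s.1) - z ∈ H) : ℝ) ≤
      (1 - B / Nat.card H) * (smp c K x0 y).card

theorem typ_mem {m : ℕ} {V : Type} [Fintype V] {c : V → V → ZMod m}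
    {K : AddSubgroup (ZMod m)} {x0 : ZMod m} {N : ℕ} {y : Fin N → V} {s : Fin N × V} :
    s ∈ smp c K x0 y ↔ c s.2 (y s.1) - x0 ∈ K := by
  classical
  unfold smp
  rw [mem_filter]
  exact ⟨fun h => h.2, fun h => ⟨mem_univ _, h⟩⟩

/-- counting by positions -/
theorem typ_sum {m : ℕ} {V : Type} [Fintype V] (c : V → V → ZMod m) (Q : ZMod m → Prop) {N : ℕ}
    (y : Fin N → V) : (cnt (fun s : Fin N × V => Q (c s.2 (y s.1))) : ℝ) =
      ∑ i, (cnt (fun v : V => Q (c v (y i))) : ℝ) := by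
  classical
  rw [cnt_eq_sum, Fintype.sum_prod_type]
  exact sum_congr rfl fun i _ => (cnt_eq_sum _).symm

/-- counting pairs -/
theorem typ_pairs {m : ℕ} {V : Type} [Fintype V] (c : V → V → ZMod m) (Q : ZMod m → Prop)
    (U : Finset V) : (cnt (fun q : V × V => q.1 ∈ U ∧ Q (c q.2 q.1)) : ℝ) =
      ∑ x ∈ U, (cnt (fun v : V => Q (c v x)) : ℝ) := by
  classical
  rw [cnt_eq_sum, Fintype.sum_prod_type, ← sum_filter_add_sum_filter_not univ (fun x => x ∈ U)]
  have h1 : ∑ x ∈ univ.filter (fun x => ¬ x ∈ U), ∑ v : V,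
      (if (x, v).1 ∈ U ∧ Q (c (x, v).2 (x, v).1) then (1 : ℝ) else 0) = 0 := by
    refine sum_eq_zero fun x hx => sum_eq_zero fun v _ => ?_
    rw [mem_filter] at hx
    rw [if_neg fun h => hx.2 h.1]
  have h2 : univ.filter (fun x => x ∈ U) = U := by
    ext x
    simp
  rw [h1, add_zero, h2]
  refine sum_congr rfl fun x hx => ?_
  rw [cnt_eq_sum]
  refine sum_congr rfl fun v _ => ?_
  by_cases h : Q (c v x)
  · rw [if_pos ⟨hx, h⟩, if_pos h]
  · rw [if_neg fun h' => h h'.2, if_neg h]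

theorem typ_lower {m : ℕ} {V : Type} [Fintype V] (c : V → V → ZMod m) (U : Finset V)
    (Q : ZMod m → Prop) (μ : ℝ) (hμ : 0 ≤ μ) (hn : 0 < Fintype.card V) (N : ℕ)
    (h : μ * (Fintype.card V : ℝ) ^ 2 ≤ (cnt (fun q : V × V => q.1 ∈ U ∧ Q (c q.2 q.1)) : ℝ)) :
    (cnt (fun y : Fin N → V => (∀ i, y i ∈ U) ∧
      (cnt (fun s : Fin N × V => Q (c s.2 (y s.1))) : ℝ) ≤ N * μ / 2 * (Fintype.card V : ℝ)) : ℝ) ≤
      Real.exp (-(N * μ / 8)) * (U.card : ℝ) ^ N := by
  have hn' : (0 : ℝ) < Fintype.card V := by exact_mod_cast hn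
  have hU : (U.card : ℝ) ≤ Fintype.card V := by exact_mod_cast card_le_univ U
  have h1 := chern_lower U (fun x => (cnt (fun v : V => Q (c v x)) : ℝ) / Fintype.card V) 1 μ
    one_pos hμ (fun x _ => by positivity) (fun x _ => by
      rw [div_le_one hn']
      exact_mod_cast cnt_le_card _) (by
      rw [← sum_div, ← typ_pairs c Q U, le_div_iff₀ hn']
      refine le_trans ?_ h
      have : μ * (U.card : ℝ) * Fintype.card V ≤ μ * (Fintype.card V : ℝ) * Fintype.card V :=
        mul_le_mul_of_nonneg_right (mul_le_mul_of_nonneg_left hU hμ) hn'.le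
      linarith) N
  rw [mul_one] at h1
  refine le_trans ?_ h1
  have h2 : cnt (fun y : Fin N → V => (∀ i, y i ∈ U) ∧
      (cnt (fun s : Fin N × V => Q (c s.2 (y s.1))) : ℝ) ≤ N * μ / 2 * (Fintype.card V : ℝ)) ≤
      cnt (fun y : Fin N → V => (∀ i, y i ∈ U) ∧
        ∑ i, (cnt (fun v : V => Q (c v (y i))) : ℝ) / Fintype.card V ≤ N * μ / 2) := by
    refine cnt_mono fun y hy => ⟨hy.1, ?_⟩
    rw [← sum_div, ← typ_sum c Q y, div_le_iff₀ hn']
    exact hy.2
  exact_mod_cast h2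

theorem typ_upper {m : ℕ} {V : Type} [Fintype V] (c : V → V → ZMod m) (U : Finset V)
    (Q : ZMod m → Prop) (κ : ℝ) (hκ : 0 ≤ κ) (hn : 0 < Fintype.card V)
    (hU : (Fintype.card V : ℝ) / 2 ≤ U.card) (N : ℕ)
    (h : (cnt (fun q : V × V => q.1 ∈ U ∧ Q (c q.2 q.1)) : ℝ) ≤ κ * (Fintype.card V : ℝ) ^ 2) :
    (cnt (fun y : Fin N → V => (∀ i, y i ∈ U) ∧
      2 * N * (2 * κ) * (Fintype.card V : ℝ) ≤ (cnt (fun s : Fin N × V => Q (c s.2 (y s.1))) : ℝ)) : ℝ) ≤
      Real.exp (-(2 * κ * N / 3)) * (U.card : ℝ) ^ N := by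
  have hn' : (0 : ℝ) < Fintype.card V := by exact_mod_cast hn
  have h1 := chern_upper U (fun x => (cnt (fun v : V => Q (c v x)) : ℝ) / Fintype.card V) 1 (2 * κ)
    one_pos (by positivity) (fun x _ => by positivity) (fun x _ => by
      rw [div_le_one hn']
      exact_mod_cast cnt_le_card _) (by
      rw [← sum_div, ← typ_pairs c Q U, div_le_iff₀ hn']
      refine h.trans ?_
      have h3 : κ * (Fintype.card V : ℝ) * (Fintype.card V / 2) ≤ κ * (Fintype.card V : ℝ) * U.card :=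
        mul_le_mul_of_nonneg_left hU (by positivity)
      nlinarith) N
  have e : -(2 * κ * N / 3) = -(N * (2 * κ) / (3 * 1)) := by ring
  rw [e]
  refine le_trans ?_ h1
  have h2 : cnt (fun y : Fin N → V => (∀ i, y i ∈ U) ∧
      2 * N * (2 * κ) * (Fintype.card V : ℝ) ≤ (cnt (fun s : Fin N × V => Q (c s.2 (y s.1))) : ℝ)) ≤
      cnt (fun y : Fin N → V => (∀ i, y i ∈ U) ∧
        2 * N * (2 * κ) ≤ ∑ i, (cnt (fun v : V => Q (c v (y i))) : ℝ) / Fintype.card V) := by
    refine cnt_mono fun y hy => ⟨hy.1, ?_⟩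
    rw [← sum_div, ← typ_sum c Q y, le_div_iff₀ hn']
    exact hy.2
  exact_mod_cast h2

/-- At least half of the tuples of positions in `U` are typical.

PROOF.  Let `n = card V`, `S0 = smp c K x0 y`; always `|S0| ≤ N n` and, for `y` in `U`, `|S0| ≥ N n/2` by
`hdeg`.  Three kinds of exceptional `y` (`chern_lower`, `chern_upper` with `X = V`, the finset `U`, `b = 1`
and `g x = (number of v with a certain property of c v x)/n ∈ [0, 1]`; note `n/2 ≤ |U| ≤ n`):
* light: `g x = #{v | c v x ∈ L, c v x - x0 ∈ K}/n`, `∑_{x ∈ U} g x ≥ 2 lam n ≥ 2 lam |U|`; so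
  `∑ g (y i) ≤ N lam` for at most `e^{-N lam/4} |U|^N` tuples, and otherwise the light part of `S0` has more
  than `N lam n ≥ lam |S0|` elements.
* fibres, for every `a ∈ L` (at most `m` colours): `g x = #{v | c v x = a}/n`, `∑_{x ∈ U} g x ≤ κ n ≤ 2κ |U|`;
  so `∑ g (y i) ≥ 4 κ N` for at most `e^{-2κN/3} |U|^N` tuples, otherwise the fibre has at most
  `4 κ N n ≤ 8 κ |S0|` elements.
* cosets, for every `H < K` with `|H| ≥ R0`, index `j_H = |K|/|H|`, and every `z` in the set `Z` of at most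
  `j_H` representatives (`coset_reps`): `g x = #{v | c v x - x0 ∈ K, c v x - z ∉ H}/n`,
  `∑_{x ∈ U} g x ≥ (2B/|H|) n ≥ (2B/|H|) |U|`, so `∑ g (y i) ≤ N B/|H|` for at most
  `e^{-N B/(4|H|)} |U|^N ≤ e^{-10 j_H} |U|^N` tuples (`N B ≥ 40 m ≥ 40 |K|`), otherwise
  `#{s ∈ S0 | c - z ∉ H} ≥ (B/|H|) N n ≥ (B/|H|) |S0|`.  For `z` not in `x0 + K` no element of `S0` has
  `c - z ∈ H` (and `1 - B/|H| ≥ 0`); every `z ∈ x0 + K` is congruent mod `H` to an element of `Z`.
The exceptional tuples have total mass at most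
`1/16 + 1/16 + ∑_H j_H e^{-10 j_H} ≤ 1/16 + 1/16 + 1/8 ≤ 1/2` (`subgr_sum`, `subgr_num2`). -/
theorem typ {m : ℕ} [NeZero m] {V : Type} [Fintype V] (c : V → V → ZMod m)
    (K : AddSubgroup (ZMod m)) (x0 : ZMod m) (U : Finset V) (L : Finset (ZMod m)) (R0 N : ℕ)
    (B lam κ : ℝ) (hB : 0 < B) (hlam : 0 < lam) (hκ : 0 < κ) (hBR : B ≤ R0)
    (hU : (Fintype.card V : ℝ) / 2 ≤ U.card)
    (hdeg : ∀ x ∈ U, (Fintype.card V : ℝ) / 2 ≤ cnt (fun v : V => c v x - x0 ∈ K))
    (hbig : ∀ H : AddSubgroup (ZMod m), H < K → R0 ≤ Nat.card H → ∀ z : ZMod m,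
      2 * B / Nat.card H * (Fintype.card V : ℝ) ^ 2 ≤
        cnt (fun q : V × V => q.1 ∈ U ∧ c q.2 q.1 - x0 ∈ K ∧ ¬ (c q.2 q.1 - z ∈ H)))
    (hL : ∀ a ∈ L, (cnt (fun q : V × V => c q.2 q.1 = a) : ℝ) ≤ κ * (Fintype.card V : ℝ) ^ 2)
    (hlight : 2 * lam * (Fintype.card V : ℝ) ^ 2 ≤
      cnt (fun q : V × V => q.1 ∈ U ∧ c q.2 q.1 ∈ L ∧ c q.2 q.1 - x0 ∈ K))
    (hN1 : 40 * (m : ℝ) ≤ B * N) (hN2 : Real.exp (-(N * lam / 4)) ≤ 1 / 16)
    (hN3 : (m : ℝ) * Real.exp (-(2 * κ * N / 3)) ≤ 1 / 16) :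
    1 / 2 * (U.card : ℝ) ^ N ≤
      cnt (fun y : Fin N → V => (∀ i, y i ∈ U) ∧ TypG c K x0 L R0 B lam κ y) := by
  classical
  set n : ℝ := (Fintype.card V : ℝ) with hn
  have hm1 : (1 : ℝ) ≤ m := by
    have := NeZero.pos m
    exact_mod_cast this
  have hN0 : 0 < (N : ℝ) := by
    rcases Nat.eq_zero_or_pos N with h | h
    · rw [h] at hN1
      push_cast at hN1
      linarith
    · exact_mod_cast h
  have hNne : N ≠ 0 := by
    rintro rfl
    simp at hN0
  have hUle : (U.card : ℝ) ≤ n := by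
    rw [hn]
    exact_mod_cast card_le_univ U
  by_cases hn0 : Fintype.card V = 0
  · have h1 : U.card = 0 := Nat.le_zero.1 (hn0 ▸ card_le_univ U)
    rw [h1, Nat.cast_zero, zero_pow hNne, mul_zero]
    exact Nat.cast_nonneg _
  have hnpos : 0 < n := by
    rw [hn]
    exact_mod_cast Nat.pos_of_ne_zero hn0
  have hW : (0 : ℝ) ≤ (U.card : ℝ) ^ N := by positivity
  -- the size of the sample
  have hsmp : ∀ y : Fin N → V, ((smp c K x0 y).card : ℝ) =
      (cnt (fun s : Fin N × V => c s.2 (y s.1) - x0 ∈ K) : ℝ) := by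
    intro y
    rw [cnt_eq_card]
    unfold smp
    congr
  have hsmp_le : ∀ y : Fin N → V, ((smp c K x0 y).card : ℝ) ≤ N * n := by
    intro y
    have h1 : ((smp c K x0 y).card : ℝ) ≤ (Fintype.card (Fin N × V) : ℝ) := by
      exact_mod_cast card_le_univ _
    rw [Fintype.card_prod, Fintype.card_fin] at h1
    push_cast at h1
    exact h1
  have hsmp_ge : ∀ y : Fin N → V, (∀ i, y i ∈ U) → N * n / 2 ≤ ((smp c K x0 y).card : ℝ) := by
    intro y hy
    rw [hsmp, typ_sum c (fun t => t - x0 ∈ K) y]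
    have h1 : ∑ _i : Fin N, n / 2 ≤ ∑ i, (cnt (fun v : V => c v (y i) - x0 ∈ K) : ℝ) :=
      sum_le_sum fun i _ => hdeg (y i) (hy i)
    rw [sum_const, card_univ, Fintype.card_fin, nsmul_eq_mul] at h1
    linarith
  -- the exceptional sets
  set E1 : Finset (Fin N → V) := univ.filter (fun y => (∀ i, y i ∈ U) ∧
    (cnt (fun s : Fin N × V => c s.2 (y s.1) ∈ L ∧ c s.2 (y s.1) - x0 ∈ K) : ℝ) ≤
      N * (2 * lam) / 2 * n) with hE1
  set E2 : ZMod m → Finset (Fin N → V) := fun a => univ.filter (fun y => (∀ i, y i ∈ U) ∧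
    2 * N * (2 * κ) * n ≤ (cnt (fun s : Fin N × V => c s.2 (y s.1) = a) : ℝ)) with hE2
  set E3 : AddSubgroup (ZMod m) → ZMod m → Finset (Fin N → V) := fun H z =>
    univ.filter (fun y => (∀ i, y i ∈ U) ∧
      (cnt (fun s : Fin N × V => c s.2 (y s.1) - x0 ∈ K ∧ ¬ (c s.2 (y s.1) - z ∈ H)) : ℝ) ≤
        N * (2 * B / Nat.card H) / 2 * n) with hE3
  have b1 : (E1.card : ℝ) ≤ 1 / 16 * (U.card : ℝ) ^ N := by
    have h1 := typ_lower c U (fun t => t ∈ L ∧ t - x0 ∈ K) (2 * lam) (by positivity)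
      (Nat.pos_of_ne_zero hn0) N hlight
    rw [cnt_eq_card] at h1
    refine h1.trans (mul_le_mul_of_nonneg_right ?_ hW)
    have e : -(N * (2 * lam) / 8) = -(N * lam / 4) := by ring
    rw [e]
    exact hN2
  have b2 : ∀ a ∈ L, ((E2 a).card : ℝ) ≤ Real.exp (-(2 * κ * N / 3)) * (U.card : ℝ) ^ N := by
    intro a ha
    have h0 : (cnt (fun q : V × V => q.1 ∈ U ∧ c q.2 q.1 = a) : ℝ) ≤ κ * (Fintype.card V : ℝ) ^ 2 := by
      refine le_trans ?_ (hL a ha)
      exact Nat.cast_le.2 (cnt_mono fun q hq => hq.2)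
    have h1 := typ_upper c U (fun t => t = a) κ hκ.le (Nat.pos_of_ne_zero hn0) hU N h0
    rw [cnt_eq_card] at h1
    exact h1
  have b3 : ∀ H : AddSubgroup (ZMod m), H < K → R0 ≤ Nat.card H → ∀ z : ZMod m,
      ((E3 H z).card : ℝ) ≤
        Real.exp (-(10 * ((Nat.card K / Nat.card H : ℕ) : ℝ))) * (U.card : ℝ) ^ N := by
    intro H hH hR z
    have hHpos : (0 : ℝ) < Nat.card H := by exact_mod_cast (subgr_card_le H).1
    have h1 := typ_lower c U (fun t => t - x0 ∈ K ∧ ¬ (t - z ∈ H)) (2 * B / Nat.card H)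
      (by positivity) (Nat.pos_of_ne_zero hn0) N (hbig H hH hR z)
    rw [cnt_eq_card] at h1
    refine h1.trans (mul_le_mul_of_nonneg_right (Real.exp_le_exp.2 (neg_le_neg ?_)) hW)
    have h2 : ((Nat.card K / Nat.card H : ℕ) : ℝ) ≤ (Nat.card K : ℝ) / Nat.card H := Nat.cast_div_le
    have h3 : (Nat.card K : ℝ) / Nat.card H ≤ m / Nat.card H := by
      refine div_le_div_of_nonneg_right ?_ hHpos.le
      exact_mod_cast (subgr_card_le K).2
    have h4 : N * (2 * B / Nat.card H) / 8 = (B * N / 4) / Nat.card H := by ring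
    rw [h4]
    have h5 : 10 * ((m : ℝ) / Nat.card H) = (10 * m) / Nat.card H := by ring
    have h6 : (10 * (m : ℝ)) / Nat.card H ≤ (B * N / 4) / Nat.card H :=
      div_le_div_of_nonneg_right (by linarith) hHpos.le
    linarith
  -- representatives
  set Zf : AddSubgroup (ZMod m) → Finset (ZMod m) := fun H =>
    if h : H ≤ K then (coset_reps H K h x0).choose else ∅ with hZf
  have hZ1 : ∀ H : AddSubgroup (ZMod m), H ≤ K → ((Zf H).card : ℝ) ≤ ((Nat.card K / Nat.card H : ℕ) : ℝ) := by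
    intro H h
    have h1 := (coset_reps H K h x0).choose_spec.1
    have h2 : (Zf H).card * Nat.card H ≤ Nat.card K := by
      rw [hZf]
      simp only [dif_pos h]
      exact h1
    have h3 : 0 < Nat.card H := (subgr_card_le H).1
    exact_mod_cast (Nat.le_div_iff_mul_le h3).2 h2
  have hZ2 : ∀ H : AddSubgroup (ZMod m), H ≤ K → ∀ z, z - x0 ∈ K → ∃ z' ∈ Zf H, z - z' ∈ H := by
    intro H h z hz
    have h1 := (coset_reps H K h x0).choose_spec.2 z hz
    rw [hZf]
    simp only [dif_pos h]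
    exact h1
  set SH : Finset (AddSubgroup (ZMod m)) := univ.filter (fun H => H < K ∧ R0 ≤ Nat.card H) with hSH
  -- the cover
  set Gd : Finset (Fin N → V) := univ.filter (fun y => (∀ i, y i ∈ U) ∧ TypG c K x0 L R0 B lam κ y) with hGd
  have hcover : (Fintype.piFinset fun _ : Fin N => U) ⊆
      Gd ∪ (E1 ∪ (L.biUnion E2 ∪ SH.biUnion fun H => (Zf H).biUnion (E3 H))) := by
    intro y hy
    have hyU : ∀ i, y i ∈ U := fun i => Fintype.mem_piFinset.1 hy i
    by_contra hcon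
    simp only [mem_union, mem_biUnion, not_or, not_exists, not_and] at hcon
    obtain ⟨c0, c1, c2, c3⟩ := hcon
    apply c0
    rw [hGd, mem_filter]
    refine ⟨mem_univ _, hyU, ⟨hsmp_ge y hyU, ?_, ?_, ?_⟩⟩
    · -- light
      have h1 : N * (2 * lam) / 2 * n <
          (cnt (fun s : Fin N × V => c s.2 (y s.1) ∈ L ∧ c s.2 (y s.1) - x0 ∈ K) : ℝ) := by
        by_contra h2
        exact c1 (mem_filter.2 ⟨mem_univ _, hyU, not_lt.1 h2⟩)
      have h2 : lam * ((smp c K x0 y).card : ℝ) ≤ lam * (N * n) :=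
        mul_le_mul_of_nonneg_left (hsmp_le y) hlam.le
      have h3 : (cnt (fun s : Fin N × V => c s.2 (y s.1) ∈ L ∧ c s.2 (y s.1) - x0 ∈ K) : ℝ) ≤
          (cnt (fun s : Fin N × V => s ∈ smp c K x0 y ∧ c s.2 (y s.1) ∈ L) : ℝ) := by
        exact Nat.cast_le.2 (cnt_mono fun s hs => ⟨typ_mem.2 hs.2, hs.1⟩)
      linarith
    · -- fibres
      intro a ha
      have h1 : (cnt (fun s : Fin N × V => c s.2 (y s.1) = a) : ℝ) < 2 * N * (2 * κ) * n := by
        by_contra h2
        exact c2 a ha (mem_filter.2 ⟨mem_univ _, hyU, not_lt.1 h2⟩)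
      have h2 : 8 * κ * (N * n / 2) ≤ 8 * κ * ((smp c K x0 y).card : ℝ) :=
        mul_le_mul_of_nonneg_left (hsmp_ge y hyU) (by positivity)
      have h3 : (cnt (fun s : Fin N × V => s ∈ smp c K x0 y ∧ c s.2 (y s.1) = a) : ℝ) ≤
          (cnt (fun s : Fin N × V => c s.2 (y s.1) = a) : ℝ) := by
        exact Nat.cast_le.2 (cnt_mono fun s hs => hs.2)
      linarith
    · -- cosets
      intro H hH hR z
      have hHpos : (0 : ℝ) < Nat.card H := by exact_mod_cast (subgr_card_le H).1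
      have hRH : (R0 : ℝ) ≤ Nat.card H := by exact_mod_cast hR
      have hfrac : B / Nat.card H ≤ 1 := by
        rw [div_le_one hHpos]
        linarith
      by_cases hz : z - x0 ∈ K
      · obtain ⟨z', hz', hzz⟩ := hZ2 H hH.le z hz
        have h1 : N * (2 * B / Nat.card H) / 2 * n <
            (cnt (fun s : Fin N × V => c s.2 (y s.1) - x0 ∈ K ∧ ¬ (c s.2 (y s.1) - z' ∈ H)) : ℝ) := by
          by_contra h2
          exact c3 H (mem_filter.2 ⟨mem_univ _, hH, hR⟩) z' hz'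
            (mem_filter.2 ⟨mem_univ _, hyU, not_lt.1 h2⟩)
        have h2 : B / Nat.card H * ((smp c K x0 y).card : ℝ) ≤ B / Nat.card H * (N * n) :=
          mul_le_mul_of_nonneg_left (hsmp_le y) (by positivity)
        have h3 : (cnt (fun s : Fin N × V => s ∈ smp c K x0 y ∧ c s.2 (y s.1) - z ∈ H) : ℝ) +
            (cnt (fun s : Fin N × V => c s.2 (y s.1) - x0 ∈ K ∧ ¬ (c s.2 (y s.1) - z' ∈ H)) : ℝ) =
            ((smp c K x0 y).card : ℝ) := by
          have h4 : ((smp c K x0 y).filter fun s => c s.2 (y s.1) - z ∈ H).card +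
              ((smp c K x0 y).filter fun s => ¬ (c s.2 (y s.1) - z ∈ H)).card =
              (smp c K x0 y).card := card_filter_add_card_filter_not _
          have h5 : cnt (fun s : Fin N × V => s ∈ smp c K x0 y ∧ c s.2 (y s.1) - z ∈ H) =
              ((smp c K x0 y).filter fun s => c s.2 (y s.1) - z ∈ H).card := by
            rw [cnt_eq_card]
            congr 1
            ext s
            simp only [mem_filter, mem_univ, true_and]
          have h6 : cnt (fun s : Fin N × V => c s.2 (y s.1) - x0 ∈ K ∧ ¬ (c s.2 (y s.1) - z' ∈ H)) =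
              ((smp c K x0 y).filter fun s => ¬ (c s.2 (y s.1) - z ∈ H)).card := by
            rw [cnt_eq_card]
            congr 1
            ext s
            simp only [mem_filter, mem_univ, true_and]
            rw [typ_mem]
            refine and_congr_right fun _ => not_congr ?_
            constructor
            · intro h7
              have h8 := H.sub_mem h7 hzz
              have e : c s.2 (y s.1) - z' - (z - z') = c s.2 (y s.1) - z := by abel
              rwa [e] at h8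
            · intro h7
              have h8 := H.add_mem h7 hzz
              have e : c s.2 (y s.1) - z + (z - z') = c s.2 (y s.1) - z' := by abel
              rwa [e] at h8
          rw [h5, h6]
          exact_mod_cast h4
        have e : (1 - B / Nat.card H) * ((smp c K x0 y).card : ℝ) =
            ((smp c K x0 y).card : ℝ) - B / Nat.card H * ((smp c K x0 y).card : ℝ) := by ring
        rw [e]
        have e2 : N * (2 * B / Nat.card H) / 2 * n = B / Nat.card H * (N * n) := by ring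
        rw [e2] at h1
        linarith
      · have h1 : cnt (fun s : Fin N × V => s ∈ smp c K x0 y ∧ c s.2 (y s.1) - z ∈ H) = 0 := by
          rw [cnt_eq_card, card_eq_zero, filter_eq_empty_iff]
          rintro s _ ⟨h2, h3⟩
          apply hz
          have h4 := K.sub_mem (typ_mem.1 h2) (hH.le h3)
          have e : c s.2 (y s.1) - x0 - (c s.2 (y s.1) - z) = z - x0 := by abel
          rwa [e] at h4
        rw [h1, Nat.cast_zero]
        exact mul_nonneg (by linarith) (Nat.cast_nonneg _)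
  -- the count
  have hcard : (U.card : ℝ) ^ N ≤ Gd.card + (E1.card + (∑ a ∈ L, ((E2 a).card : ℝ) +
      ∑ H ∈ SH, ∑ z ∈ Zf H, ((E3 H z).card : ℝ))) := by
    have h1 := card_le_card hcover
    rw [Fintype.card_piFinset, prod_const, card_univ, Fintype.card_fin] at h1
    have h2 := card_union_le Gd (E1 ∪ (L.biUnion E2 ∪ SH.biUnion fun H => (Zf H).biUnion (E3 H)))
    have h3 := card_union_le E1 (L.biUnion E2 ∪ SH.biUnion fun H => (Zf H).biUnion (E3 H))
    have h4 := card_union_le (L.biUnion E2) (SH.biUnion fun H => (Zf H).biUnion (E3 H))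
    have h5 : (L.biUnion E2).card ≤ ∑ a ∈ L, (E2 a).card := card_biUnion_le
    have h6 : (SH.biUnion fun H => (Zf H).biUnion (E3 H)).card ≤ ∑ H ∈ SH, ∑ z ∈ Zf H, (E3 H z).card :=
      card_biUnion_le.trans (sum_le_sum fun H _ => card_biUnion_le)
    have h7 : U.card ^ N ≤ Gd.card + (E1.card + (∑ a ∈ L, (E2 a).card +
        ∑ H ∈ SH, ∑ z ∈ Zf H, (E3 H z).card)) := by omega
    exact_mod_cast h7
  have s2 : ∑ a ∈ L, ((E2 a).card : ℝ) ≤ 1 / 16 * (U.card : ℝ) ^ N := by
    calc ∑ a ∈ L, ((E2 a).card : ℝ)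
        ≤ ∑ _a ∈ L, Real.exp (-(2 * κ * N / 3)) * (U.card : ℝ) ^ N := sum_le_sum b2
      _ = (L.card : ℝ) * Real.exp (-(2 * κ * N / 3)) * (U.card : ℝ) ^ N := by
        rw [sum_const, nsmul_eq_mul]
        ring
      _ ≤ 1 / 16 * (U.card : ℝ) ^ N := by
        refine mul_le_mul_of_nonneg_right (le_trans ?_ hN3) hW
        refine mul_le_mul_of_nonneg_right ?_ (Real.exp_nonneg _)
        have h1 : L.card ≤ m := by
          have := card_le_univ L
          rwa [ZMod.card] at this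
        exact_mod_cast h1
  have s3 : ∑ H ∈ SH, ∑ z ∈ Zf H, ((E3 H z).card : ℝ) ≤ 1 / 8 * (U.card : ℝ) ^ N := by
    have h1 : ∀ H ∈ SH, ∑ z ∈ Zf H, ((E3 H z).card : ℝ) ≤
        (fun j : ℕ => (j : ℝ) * Real.exp (-(10 * (j : ℝ)))) (Nat.card K / Nat.card H) *
          (U.card : ℝ) ^ N := by
      intro H hH
      obtain ⟨-, hH1, hH2⟩ := mem_filter.1 hH
      calc ∑ z ∈ Zf H, ((E3 H z).card : ℝ)
          ≤ ∑ _z ∈ Zf H, Real.exp (-(10 * ((Nat.card K / Nat.card H : ℕ) : ℝ))) * (U.card : ℝ) ^ N :=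
            sum_le_sum fun z _ => b3 H hH1 hH2 z
        _ = ((Zf H).card : ℝ) * (Real.exp (-(10 * ((Nat.card K / Nat.card H : ℕ) : ℝ))) *
              (U.card : ℝ) ^ N) := by
            rw [sum_const, nsmul_eq_mul]
        _ ≤ ((Nat.card K / Nat.card H : ℕ) : ℝ) * (Real.exp (-(10 * ((Nat.card K / Nat.card H : ℕ) : ℝ))) *
              (U.card : ℝ) ^ N) :=
            mul_le_mul_of_nonneg_right (hZ1 H hH1.le) (mul_nonneg (Real.exp_nonneg _) hW)
        _ = _ := by ring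
    refine (sum_le_sum h1).trans ?_
    rw [← sum_mul]
    refine mul_le_mul_of_nonneg_right ?_ hW
    have h2 := subgr_sum K (fun j : ℕ => (j : ℝ) * Real.exp (-(10 * (j : ℝ)))) (fun j => by positivity)
    refine le_trans ?_ (h2.trans (subgr_num2 m))
    refine sum_le_sum_of_subset_of_nonneg (fun H hH => ?_) (fun H _ _ => by positivity)
    rw [mem_filter] at hH ⊢
    exact ⟨hH.1, hH.2.1⟩
  have hfin : (Gd.card : ℝ) =
      (cnt (fun y : Fin N → V => (∀ i, y i ∈ U) ∧ TypG c K x0 L R0 B lam κ y) : ℝ) := by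
    rw [cnt_eq_card]
  rw [← hfin]
  linarith

end Pool.Agent.ZT
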