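import Pool.Agent.ZC.CHFin
import Pool.Agent.ZC.MixA
import Pool.Agent.ZC.Typ
import Pool.Agent.ZC.Clean

/-! # ZC : the light case, every modulus -/

set_option autoImplicit false

open Finset

namespace Pool.Agent.ZT

theorem light_exp {a ε m : ℝ} (ha : 0 < a) (hε : 0 < ε) (hm : 2 / (a ^ 2 * ε) ≤ m) :
    m * Real.exp (-(a * m)) ≤ ε := by
  have hm0 : 0 < m := lt_of_lt_of_le (by positivity) hm
  have h1 : (a * m) ^ 2 / 2 ≤ Real.exp (a * m) := by
    have := Real.quadratic_le_exp_of_nonneg (mul_pos ha hm0).le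
    have h2 := mul_pos ha hm0
    linarith
  rw [div_le_iff₀ (by positivity)] at hm
  rw [Real.exp_neg, ← div_eq_mul_inv, div_le_iff₀ (Real.exp_pos _)]
  have h3 := mul_le_mul_of_nonneg_left h1 hε.le
  nlinarith

/-- The light case.

PROOF.  We may assume `ρ1 ≤ 1` (otherwise the hypothesis fails unless `n = 0`, and `n = 0` is trivial:
`0 ^ (m+1) = 0`).  Constants: `ρ = 1/10`, `B1 = 640000` (for `kmin`, `clean`), `B = B1/16 = 40000` (for `typ`,
`mix_apply`), `lam = ρ1/4`, `C = 8/lam`, then `r ≥ 2` with `4 ≤ r lam` and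
`(C/r + 1/r)·(log (2 r) + 1) ≤ 1/100`… (so that, with `J = ⌈C m/r⌉`, `J ≤ N = ⌈m/1000⌉` and
`J log (2r) ≤ m/50` for large `m`), then `R0 ∈ ℕ` with `32 r ≤ C R0`, `B1 ≤ R0`, `2 B1 ≤ ρ^2 R0`,
`2 B1/(ρ R0) ≤ ρ1/2` and `3 B1/(ρ R0) ≤ 1/10`, then `κ ≤ 1` with `r R0 · 8 κ ≤ 1`.
For large `m` (`R0 ≤ m`, the conditions on exponentials): `kmin` gives `K, x0`;
`U = {x | cnt (¬ c x y - x0 ∈ K) ≤ ρ n}`; `clean` gives its four conclusions.  The light colours are
`L = {a | cnt (c = a) ≤ κ n^2}`; `typ` (with `B`, `2B/|H| = B1/(8|H|)`) gives at least `1/2 |U|^N` typical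
`y`.  For a typical `y`, `mix_apply` with `S = Fin N × V`, `S0 = smp c K x0 y`, `f s = c s.2 (y s.1)`,
`θ = 8κ` gives for every `τ ∈ J x0 + K` at least
`1/2 (|S0|/r)^J ≥ 1/2 (N n/(2r))^J = 1/2 w (N n)^J` tuples, `w = (2r)^{-J} ≥ e^{-m/50}`.  Finally
`ch_fin` with `X = {a | a - x0 ∈ K}`. -/
theorem light (ρ1 : ℝ) (hρ : 0 < ρ1) : ∃ κ > (0 : ℝ), κ ≤ 1 ∧ ∃ m0 : ℕ, ∀ m ≥ m0,
    ∀ (V : Type) [Fintype V] (c : V → V → ZMod m), (∀ x y, c x y = c y x) →
    (ρ1 * (Fintype.card V : ℝ) ^ 2 ≤ cnt (fun q : V × V =>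
      (cnt (fun q' : V × V => c q'.1 q'.2 = c q.1 q.2) : ℝ) ≤ κ * (Fintype.card V : ℝ) ^ 2)) →
    (3 / 5 : ℝ) ^ m * ((m + 1 : ℕ) : ℝ) ^ (m - 1) * (Fintype.card V : ℝ) ^ (m + 1) ≤ NN c m 0 := by
  classical
  by_cases hρ1 : ρ1 ≤ 1
  swap
  · -- the hypothesis fails unless `V` is empty
    refine ⟨1, one_pos, le_rfl, 0, fun m _ V _ c hc hl => ?_⟩
    rw [not_le] at hρ1
    have h1 : (cnt (fun q : V × V =>
      (cnt (fun q' : V × V => c q'.1 q'.2 = c q.1 q.2) : ℝ) ≤ 1 * (Fintype.card V : ℝ) ^ 2) : ℝ) ≤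
        (Fintype.card V : ℝ) ^ 2 := by
      have := cnt_le_card (fun q : V × V =>
        (cnt (fun q' : V × V => c q'.1 q'.2 = c q.1 q.2) : ℝ) ≤ 1 * (Fintype.card V : ℝ) ^ 2)
      rw [Fintype.card_prod] at this
      refine (Nat.cast_le (α := ℝ).2 this).trans (le_of_eq ?_)
      push_cast
      ring
    have h2 : (Fintype.card V : ℝ) ^ 2 = 0 := by
      have h3 : (0 : ℝ) ≤ (Fintype.card V : ℝ) ^ 2 := sq_nonneg _
      nlinarith
    have h4 : (Fintype.card V : ℝ) = 0 := by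
      rwa [sq_eq_zero_iff] at h2
    rw [h4, zero_pow (Nat.succ_ne_zero m), mul_zero]
    exact Nat.cast_nonneg _
  -- the constants
  obtain ⟨lam, hlamd⟩ : ∃ lam : ℝ, lam = ρ1 / 4 := ⟨_, rfl⟩
  have hlam : 0 < lam := by rw [hlamd]; positivity
  have hlam1 : lam ≤ 1 / 4 := by rw [hlamd]; linarith
  obtain ⟨C, hCd⟩ : ∃ C : ℝ, C = 8 / lam := ⟨_, rfl⟩
  have hlC : lam * C = 8 := by rw [hCd]; field_simp
  have hC32 : 32 ≤ C := by
    rw [hCd, le_div_iff₀ hlam]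
    linarith
  have hC : 0 < C := by linarith
  obtain ⟨k, hk⟩ := exists_nat_ge (200 * C)
  have hk0 : (0 : ℝ) < k := by linarith
  have hk1 : (6400 : ℝ) ≤ k := by linarith
  obtain ⟨r, hrd⟩ : ∃ r : ℕ, r = k * k := ⟨_, rfl⟩
  have hrr : (r : ℝ) = k * k := by rw [hrd]; push_cast; ring
  have hrk : 200 * C * k ≤ (r : ℝ) := by rw [hrr]; exact mul_le_mul_of_nonneg_right hk hk0.le
  have hr0 : (0 : ℝ) < r := by rw [hrr]; positivity
  have hC2000 : 2000 * C ≤ r := by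
    have h1 : (10 : ℝ) ≤ k := by linarith
    have := mul_le_mul_of_nonneg_left h1 hC.le
    linarith
  have hr2 : 2 ≤ r := by
    have : (2 : ℝ) ≤ r := by linarith
    exact_mod_cast this
  have hlog : Real.log (2 * r) ≤ 2 * k := by
    have h1 : Real.log (2 * r) = Real.log 2 + (Real.log k + Real.log k) := by
      rw [Real.log_mul two_ne_zero hr0.ne', hrr, Real.log_mul hk0.ne' hk0.ne']
    have h2 := Real.log_le_sub_one_of_pos hk0
    have h3 := Real.log_le_sub_one_of_pos (two_pos : (0 : ℝ) < 2)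
    linarith
  have hlog0 : 0 ≤ Real.log (2 * r) := by
    refine Real.log_nonneg ?_
    have : (2 : ℝ) ≤ r := by exact_mod_cast hr2
    linarith
  have hClog : 100 * C * Real.log (2 * r) ≤ r := by
    have h1 := mul_le_mul_of_nonneg_left hlog (by positivity : (0 : ℝ) ≤ 100 * C)
    linarith
  obtain ⟨R, hR⟩ := exists_nat_ge (300 * 640000 / ρ1)
  obtain ⟨R0, hR0d⟩ : ∃ R0 : ℕ, R0 = R + r := ⟨_, rfl⟩
  have hR0r : (R0 : ℝ) = R + r := by rw [hR0d]; push_cast; ring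
  have hRρ : 300 * 640000 ≤ (R0 : ℝ) * ρ1 := by
    rw [div_le_iff₀ hρ] at hR
    rw [hR0r]
    nlinarith
  have hRbig : (300 * 640000 : ℝ) ≤ R0 := by
    have : (R0 : ℝ) * ρ1 ≤ R0 * 1 := mul_le_mul_of_nonneg_left hρ1 (Nat.cast_nonneg _)
    linarith
  have hR0pos : (0 : ℝ) < R0 := by linarith
  have hR0r' : (r : ℝ) ≤ R0 := by
    rw [hR0r]
    have : (0 : ℝ) ≤ R := Nat.cast_nonneg _
    linarith
  obtain ⟨κ, hκd⟩ : ∃ κ : ℝ, κ = 1 / (8 * r * R0) := ⟨_, rfl⟩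
  have hκ : 0 < κ := by rw [hκd]; positivity
  have hκ1 : κ ≤ 1 := by
    rw [hκd, div_le_one (by positivity)]
    have h1 : (1 : ℝ) ≤ r := by exact_mod_cast (by omega : 1 ≤ r)
    nlinarith
  have hrlam : 4 ≤ (r : ℝ) * lam := by
    have := mul_le_mul_of_nonneg_right hC2000 hlam.le
    have h1 : 2000 * C * lam = 2000 * (lam * C) := by ring
    rw [h1, hlC] at this
    linarith
  have hRC : 32 * (r : ℝ) ≤ C * R0 := by
    have := mul_le_mul_of_nonneg_right hC32 hR0pos.le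
    linarith
  have hκR : (r : ℝ) * (R0 * (8 * κ)) = 1 := by
    rw [hκd]
    field_simp
  -- the conditions on `m`
  obtain ⟨m1, hm1⟩ := exists_nat_ge (2 / ((lam / 4000) ^ 2 * (1 / 16)))
  obtain ⟨m2, hm2⟩ := exists_nat_ge (2 / ((2 * κ / 3000) ^ 2 * (1 / 16)))
  obtain ⟨m3, hm3⟩ := exists_nat_ge (2 / ((1 / (4 * (r : ℝ))) ^ 2 * (1 / 4)))
  obtain ⟨m4, hm4⟩ := exists_nat_ge (100 * Real.log (2 * r))
  obtain ⟨m5, hch⟩ := ch_fin
  refine ⟨κ, hκ, hκ1, m1 + m2 + m3 + m4 + m5 + R0 + 2000, fun m hm V _ c hc hl => ?_⟩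
  have hmR : R0 ≤ m := by omega
  have hm2000 : (2000 : ℝ) ≤ m := by exact_mod_cast (by omega : 2000 ≤ m)
  have hmpos : (0 : ℝ) < m := by linarith
  have ht1 : 2 / ((lam / 4000) ^ 2 * (1 / 16)) ≤ (m : ℝ) := hm1.trans (by exact_mod_cast (by omega : m1 ≤ m))
  have ht2 : 2 / ((2 * κ / 3000) ^ 2 * (1 / 16)) ≤ (m : ℝ) := hm2.trans (by exact_mod_cast (by omega : m2 ≤ m))
  have ht3 : 2 / ((1 / (4 * (r : ℝ))) ^ 2 * (1 / 4)) ≤ (m : ℝ) := hm3.trans (by exact_mod_cast (by omega : m3 ≤ m))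
  have ht4 : 100 * Real.log (2 * r) ≤ (m : ℝ) := hm4.trans (by exact_mod_cast (by omega : m4 ≤ m))
  have hne : NeZero m := ⟨by omega⟩
  obtain ⟨n, hn⟩ : ∃ n : ℝ, n = (Fintype.card V : ℝ) := ⟨_, rfl⟩
  have hn0 : 0 ≤ n := by rw [hn]; exact Nat.cast_nonneg _
  by_cases hV : Fintype.card V = 0
  · rw [hV, Nat.cast_zero, zero_pow (Nat.succ_ne_zero m), mul_zero]
    exact Nat.cast_nonneg _
  have hnpos : 0 < n := by
    rw [hn]
    exact_mod_cast Nat.pos_of_ne_zero hV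
  -- the numbers `N`, `J`
  obtain ⟨N, hN⟩ : ∃ N : ℕ, N = ⌈(m : ℝ) / 1000⌉₊ := ⟨_, rfl⟩
  obtain ⟨J, hJ⟩ : ∃ J : ℕ, J = ⌈C * (m : ℝ) / r⌉₊ := ⟨_, rfl⟩
  have hN1 : (m : ℝ) / 1000 ≤ N := by rw [hN]; exact Nat.le_ceil _
  have hJ1 : C * (m : ℝ) / r ≤ J := by rw [hJ]; exact Nat.le_ceil _
  have hJ2 : (J : ℝ) < C * (m : ℝ) / r + 1 := by rw [hJ]; exact Nat.ceil_lt_add_one (by positivity)
  have hJr : C * m ≤ J * r := by
    rwa [div_le_iff₀ hr0] at hJ1
  have hCmr : C * (m : ℝ) / r ≤ m / 2000 := by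
    rw [div_le_div_iff₀ hr0 (by norm_num)]
    have := mul_le_mul_of_nonneg_right hC2000 hmpos.le
    linarith
  have hJN : J ≤ N := by
    have : (J : ℝ) ≤ N := by linarith
    exact_mod_cast this
  have hJpos : 1 ≤ J := by
    have h1 : (0 : ℝ) < J := lt_of_lt_of_le (by positivity) hJ1
    exact_mod_cast h1
  have hNpos : (0 : ℝ) < N := lt_of_lt_of_le (by positivity) hN1
  -- the numerical conditions
  have hN2 : Real.exp (-(N * lam / 4)) ≤ 1 / 16 := by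
    have h1 := light_exp (a := lam / 4000) (ε := 1 / 16) (m := (m : ℝ)) (by positivity) (by norm_num) ht1
    have h2 : Real.exp (-(N * lam / 4)) ≤ Real.exp (-(lam / 4000 * m)) := by
      refine Real.exp_le_exp.2 ?_
      have := mul_le_mul_of_nonneg_left hN1 hlam.le
      linarith
    have h3 : Real.exp (-(lam / 4000 * m)) ≤ m * Real.exp (-(lam / 4000 * m)) :=
      le_mul_of_one_le_left (Real.exp_pos _).le (by linarith)
    linarith
  have hN3 : (m : ℝ) * Real.exp (-(2 * κ * N / 3)) ≤ 1 / 16 := by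
    have h1 := light_exp (a := 2 * κ / 3000) (ε := 1 / 16) (m := (m : ℝ)) (by positivity) (by norm_num) ht2
    refine le_trans (mul_le_mul_of_nonneg_left (Real.exp_le_exp.2 ?_) hmpos.le) h1
    have := mul_le_mul_of_nonneg_left hN1 hκ.le
    linarith
  have h8 : (m : ℝ) * Real.exp (-(lam * J / 32)) ≤ 1 / 4 := by
    have h1 := light_exp (a := 1 / (4 * (r : ℝ))) (ε := 1 / 4) (m := (m : ℝ)) (by positivity) (by norm_num) ht3
    refine le_trans (mul_le_mul_of_nonneg_left (Real.exp_le_exp.2 ?_) hmpos.le) h1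
    have h2 : 1 / (4 * (r : ℝ)) * m = lam * (C * m / r) / 32 := by
      have : lam * (C * m / r) / 32 = (lam * C) * m / r / 32 := by ring
      rw [this, hlC]
      field_simp
      norm_num
    rw [h2]
    have h3 := mul_le_mul_of_nonneg_left hJ1 hlam.le
    linarith
  -- the subgroup
  obtain ⟨K, x0, hK, hKN, hmin⟩ := kmin c (640000 : ℝ) (by norm_num) R0 hmR
  obtain ⟨U, hUd⟩ : ∃ U : Finset V, U = univ.filter
    (fun x => (cnt (fun y : V => ¬ (c x y - x0 ∈ K)) : ℝ) ≤ 1 / 10 * (Fintype.card V : ℝ)) := ⟨_, rfl⟩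
  have hUm : ∀ x, x ∈ U ↔ (cnt (fun y : V => ¬ (c x y - x0 ∈ K)) : ℝ) ≤ 1 / 10 * (Fintype.card V : ℝ) := by
    intro x
    rw [hUd, mem_filter]
    exact ⟨fun h => h.2, fun h => ⟨mem_univ _, h⟩⟩
  obtain ⟨cl1, cl2, cl3, cl4⟩ := clean c hc (640000 : ℝ) (1 / 10) (by norm_num) (by norm_num) (by norm_num) R0 K x0
    hK hKN hmin (by linarith) (by
      have : (1 : ℝ) ≤ R0 := by linarith
      exact_mod_cast this) U (fun x hx => by
      rw [hUm, not_le] at hx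
      exact hx)
  have hb1 : 640000 / (1 / 10 * (R0 : ℝ)) ≤ 1 / 30 := by
    rw [div_le_iff₀ (by positivity)]
    linarith
  have hb3 : 3 * 640000 / (1 / 10 * (R0 : ℝ)) ≤ 1 / 10 := by
    rw [div_le_iff₀ (by positivity)]
    linarith
  have hb2 : 2 * 640000 / (1 / 10 * (R0 : ℝ)) ≤ ρ1 / 2 := by
    rw [div_le_iff₀ (by positivity)]
    linarith
  have hU9 : 9 / 10 * (Fintype.card V : ℝ) ≤ U.card := by
    rw [← hn] at cl1 ⊢
    have := mul_le_mul_of_nonneg_right hb1 hn0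
    generalize 640000 / (1 / 10 * (R0 : ℝ)) = t at *
    linarith
  have hpairs : 9 / 10 * (Fintype.card V : ℝ) ^ 2 ≤
      cnt (fun q : V × V => q.1 ∈ U ∧ q.2 ∈ U ∧ c q.1 q.2 - x0 ∈ K) := by
    rw [← hn] at cl4 ⊢
    have := mul_le_mul_of_nonneg_right hb3 (sq_nonneg n)
    generalize 3 * 640000 / (1 / 10 * (R0 : ℝ)) = t at *
    linarith
  -- degrees
  have hdeg9 : ∀ x ∈ U, 9 / 10 * (Fintype.card V : ℝ) ≤ cnt (fun y : V => c x y - x0 ∈ K) := by
    intro x hx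
    have h1 := (hUm x).1 hx
    have h2 := cnt_add_not (fun y : V => c x y - x0 ∈ K)
    have h3 : (cnt (fun y : V => c x y - x0 ∈ K) : ℝ) + (cnt (fun y : V => ¬ (c x y - x0 ∈ K)) : ℝ) =
        (Fintype.card V : ℝ) := by exact_mod_cast h2
    linarith
  -- the light colours
  obtain ⟨L, hLd⟩ : ∃ L : Finset (ZMod m), L = univ.filter
    (fun a => (cnt (fun q : V × V => c q.1 q.2 = a) : ℝ) ≤ κ * (Fintype.card V : ℝ) ^ 2) := ⟨_, rfl⟩
  have hLm : ∀ a, a ∈ L ↔ (cnt (fun q : V × V => c q.1 q.2 = a) : ℝ) ≤ κ * (Fintype.card V : ℝ) ^ 2 := by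
    intro a
    rw [hLd, mem_filter]
    exact ⟨fun h => h.2, fun h => ⟨mem_univ _, h⟩⟩
  have hl' : ρ1 * (Fintype.card V : ℝ) ^ 2 ≤ cnt (fun q : V × V => c q.1 q.2 ∈ L) := by
    refine hl.trans (Nat.cast_le.2 (cnt_mono fun q hq => ?_))
    rw [hLm]
    exact hq
  have cl3' := cl3 L ρ1 hb2 hl'
  -- typical positions
  have htyp := typ c K x0 U L R0 N (40000 : ℝ) lam κ (by norm_num) hlam hκ (by linarith)
    (by linarith [Nat.cast_nonneg (α := ℝ) (Fintype.card V)])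
    (fun x hx => by
      have h1 := hdeg9 x hx
      have h2 : cnt (fun v : V => c v x - x0 ∈ K) = cnt (fun y : V => c x y - x0 ∈ K) :=
        cnt_congr fun v => by rw [hc v x]
      rw [h2]
      linarith [Nat.cast_nonneg (α := ℝ) (Fintype.card V)])
    (fun H hH hR z => by
      have h1 := cl2 H hH hR z
      refine le_trans (le_of_eq ?_) h1
      have h2 : (Nat.card H : ℝ) ≠ 0 := by
        have : (R0 : ℝ) ≤ Nat.card H := by exact_mod_cast hR
        linarith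
      field_simp
      norm_num)
    (fun a ha => by
      have h1 := (hLm a).1 ha
      have h2 : cnt (fun q : V × V => c q.2 q.1 = a) = cnt (fun q : V × V => c q.1 q.2 = a) :=
        cnt_congr fun q => by rw [hc q.2 q.1]
      rw [h2]
      exact h1)
    (by
      have h1 : 2 * lam = ρ1 / 2 := by rw [hlamd]; ring
      rw [h1]
      exact cl3')
    (by linarith) hN2 hN3
  -- assembly
  have hw : Real.exp (-((m : ℝ) / 50)) ≤ (1 / (2 * (r : ℝ))) ^ J := by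
    have h1 : (1 / (2 * (r : ℝ))) ^ J = Real.exp (-(J * Real.log (2 * r))) := by
      rw [Real.exp_neg, Real.exp_nat_mul, Real.exp_log (by positivity), one_div, inv_pow]
    rw [h1]
    refine Real.exp_le_exp.2 (neg_le_neg ?_)
    have h2 : (J : ℝ) * Real.log (2 * r) ≤ (C * (m : ℝ) / r + 1) * Real.log (2 * r) :=
      mul_le_mul_of_nonneg_right hJ2.le hlog0
    have h3 : C * (m : ℝ) / r * Real.log (2 * r) ≤ m / 100 := by
      rw [div_mul_eq_mul_div, div_le_div_iff₀ hr0 (by norm_num)]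
      have := mul_le_mul_of_nonneg_left hClog hmpos.le
      linarith
    linarith
  refine hch m (by omega) V c hc {a | a - x0 ∈ K} K x0 (fun a ha => ha) U hU9
    (fun x hx => hdeg9 x hx) hpairs N J ((1 / (2 * (r : ℝ))) ^ J) hN hJN hw ?_
  refine htyp.trans (Nat.cast_le.2 (cnt_mono fun y hy => ⟨hy.1, fun τ hτ => ?_⟩))
  obtain ⟨-, T⟩ := hy
  have hS0 : (smp c K x0 y).Nonempty := by
    rw [← Finset.card_pos]
    have h1 : (0 : ℝ) < (smp c K x0 y).card := by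
      refine lt_of_lt_of_le ?_ T.big
      rw [← hn]
      positivity
    exact_mod_cast h1
  have hmix := mix_apply (fun s : Fin N × V => c s.2 (y s.1)) (smp c K x0 y) hS0 K x0
    (fun s hs => by
      unfold smp at hs
      exact (mem_filter.1 hs).2) L r J R0 lam (8 * κ) (40000 : ℝ) C hlam (by norm_num) hC (by positivity)
    T.light T.fib T.cos hr2 hrlam hκR.le hJr (by linarith) hRC (by linarith) hlC.ge hJpos h8 τ hτ
  refine le_trans ?_ (hmix.trans (Nat.cast_le.2 (cnt_mono fun s hs => hs.2)))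
  have h1 : (1 / (2 * (r : ℝ))) ^ J * ((N : ℝ) * Fintype.card V) ^ J = ((N : ℝ) * Fintype.card V / 2 / r) ^ J := by
    rw [← mul_pow]
    congr 1
    field_simp
  rw [mul_assoc, h1]
  refine mul_le_mul_of_nonneg_left (pow_le_pow_left₀ (by positivity) ?_ J) (by norm_num)
  exact div_le_div_of_nonneg_right T.big hr0.le

end Pool.Agent.ZT
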