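import Pool.Agent.ZT.Leaf

/-! # ZC : planting connectors, positions and leaves -/

set_option autoImplicit false

open Finset

namespace Pool.Agent.ZT

theorem plant_plc {V : Type} {e J : ℕ}
    (q : (Fin (e + 1) → Fin (e + 1)) × (Fin (e + 1) → V)) (s : Fin J → Fin (e + 1) × V) (k : Fin J) :
    (leaf_map (q, s)).2 (leaf_sig e J (Sum.inr k)) = (s k).2 := by
  show leaf_plc q.2 s ((leaf_sig e J).symm (leaf_sig e J (Sum.inr k))) = (s k).2
  rw [Equiv.symm_apply_apply]
  rfl

/-- the map of the planting -/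
def plant_map {V : Type} (e N J : ℕ) (q : ((Fin (e + 1) → Fin (e + 1)) × (Fin (e + 1) → V)) ×
        ((Equiv.Perm (Fin N) × (Fin N → Fin (e + 1)) × (Fin N → V)) ×
          (Fin N → V) × (Fin J → Fin N × V))) :
    (Fin (e + N + N + J + 1) → Fin (e + N + N + J + 1)) × (Fin (e + N + N + J + 1) → V) :=
  leaf_map (leaf_map (leaf_map (q.1, fun j => (q.2.1.2.1 j, q.2.1.2.2 j)),
    fun i => (leaf_sig e N (Sum.inr (q.2.1.1 i)), q.2.2.1 i)),
    fun j => (leaf_sig (e + N) N (Sum.inr (q.2.2.2 j).1), (q.2.2.2 j).2))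

theorem plant_map_inj {V : Type} (e N J : ℕ) (q q' : ((Fin (e + 1) → Fin (e + 1)) × (Fin (e + 1) → V)) ×
        ((Equiv.Perm (Fin N) × (Fin N → Fin (e + 1)) × (Fin N → V)) ×
          (Fin N → V) × (Fin J → Fin N × V))) (h : plant_map e N J q = plant_map e N J q') : q = q' := by
  obtain ⟨⟨p, x⟩, ⟨σ, t, z⟩, y, s⟩ := q
  obtain ⟨⟨p', x'⟩, ⟨σ', t', z'⟩, y', s'⟩ := q'
  have h1 := leaf_map_inj _ _ h
  have h2 := congrArg Prod.snd h1
  have h3 := leaf_map_inj _ _ (congrArg Prod.fst h1)
  have h4 := congrArg Prod.snd h3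
  have h5 := leaf_map_inj _ _ (congrArg Prod.fst h3)
  have h6 := congrArg Prod.snd h5
  have h7 := congrArg Prod.fst h5
  simp only at h2 h4 h6 h7
  have hs : s = s' := by
    funext j
    have := congrFun h2 j
    rw [Prod.mk.injEq] at this
    exact Prod.ext (Sum.inr_injective ((leaf_sig (e + N) N).injective this.1)) this.2
  have hy : y = y' := by
    funext j
    have := congrFun h4 j
    rw [Prod.mk.injEq] at this
    exact this.2
  have hσ : σ = σ' := by
    ext j
    have := congrFun h4 j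
    rw [Prod.mk.injEq] at this
    rw [Sum.inr_injective ((leaf_sig e N).injective this.1)]
  have ht : t = t' := by
    funext j
    have := congrFun h6 j
    rw [Prod.mk.injEq] at this
    exact this.1
  have hz : z = z' := by
    funext j
    have := congrFun h6 j
    rw [Prod.mk.injEq] at this
    exact this.2
  rw [h7, hs, hy, hσ, ht, hz]

/-- Core tree `(p, x)` with `e` edges; `N` connectors (connector `j` hangs on the core label `t j` and is
placed at `z j`); `N` positions (position `i` hangs on the connector `σ i` and is placed at `y i`); `J`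
leaves (leaf `j` hangs on the position `(s j).1` and is placed at `(s j).2`).

PROOF.  Compose `leaf_map` (ZT/Leaf.lean, with `leaf_map_PT`, `leaf_map_PS`, `leaf_map_inj`) three times:
`q1 = leaf_map ((p, x), fun j => (t j, z j))` (a pair on `Fin (e + N + 1)`),
`q2 = leaf_map (q1, fun i => (leaf_sig e N (Sum.inr (σ i)), y i))` (on `Fin (e + N + N + 1)`),
`q3 = leaf_map (q2, fun j => (leaf_sig (e + N) N (Sum.inr (s j).1), (s j).2))`; the placement of `q1` at the
label `leaf_sig e N (Sum.inr k)` is `z k`, that of `q2` at `leaf_sig (e+N) N (Sum.inr i)` is `y i`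
(`leaf_plc`, `Equiv.symm_apply_apply`).  Then `cnt_inj`. -/
theorem plant3 {V G : Type} [Fintype V] [AddCommMonoid G] (c : V → V → G) (e N J : ℕ) (g : G) :
    cnt (fun q : ((Fin (e + 1) → Fin (e + 1)) × (Fin (e + 1) → V)) ×
        ((Equiv.Perm (Fin N) × (Fin N → Fin (e + 1)) × (Fin N → V)) ×
          (Fin N → V) × (Fin J → Fin N × V)) =>
      q.1.1 ∈ PT (Fin (e + 1)) 0 ∧
      PS c q.1.1 0 q.1.2 + ∑ j, c (q.2.1.2.2 j) (q.1.2 (q.2.1.2.1 j)) +
        ∑ i, c (q.2.2.1 i) (q.2.1.2.2 (q.2.1.1 i)) +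
        ∑ j, c (q.2.2.2 j).2 (q.2.2.1 (q.2.2.2 j).1) = g)
    ≤ NN c (e + N + N + J) g := by
  unfold NN
  refine cnt_inj (plant_map e N J) ?_ ?_
  · rintro ⟨⟨p, x⟩, ⟨σ, t, z⟩, y, s⟩ ⟨hp, hg⟩
    simp only at hp hg
    refine ⟨leaf_map_PT _ _ _ (leaf_map_PT _ _ _ (leaf_map_PT p x _ hp)), ?_⟩
    rw [← hg]
    show PS c (leaf_map (leaf_map (leaf_map ((p, x), fun j => (t j, z j)),
      fun i => (leaf_sig e N (Sum.inr (σ i)), y i)),
      fun j => (leaf_sig (e + N) N (Sum.inr (s j).1), (s j).2))).1 0 (leaf_map (leaf_map (leaf_map ((p, x), fun j => (t j, z j)),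
      fun i => (leaf_sig e N (Sum.inr (σ i)), y i)),
      fun j => (leaf_sig (e + N) N (Sum.inr (s j).1), (s j).2))).2 = _
    rw [leaf_map_PS, leaf_map_PS, leaf_map_PS]
    congr 1
    · congr 1
      refine sum_congr rfl fun i _ => ?_
      simp only
      rw [plant_plc]
    · refine sum_congr rfl fun j _ => ?_
      simp only
      rw [plant_plc]
  · intro q q' _ _ h
    exact plant_map_inj e N J q q' h

end Pool.Agent.ZT
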