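import Pool.Agent.ZT.Transfer

/-! # ZC : integer kernel versus colour sums modulo a subgroup -/

set_option autoImplicit false

open Finset

namespace Pool.Agent.ZT

open Classical in
/-- A tree whose edges are all allowed and whose integers have sum `r` has colour sum in
`e x0 + r g + Γ`.

PROOF.  `RR (ic c U F a 0) … (r, 0)` counts pairs `(p, x)` with `x 0 = y`, all edges allowed
(second component `0`) and `∑ a = r`; then `PS c p 0 x - e • x0 - r • g = ∑ (colour - x0 - a • g) ∈ Γ`.  So these
pairs are contained in the disjoint union over `γ ∈ Γ` of the pairs counted by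
`RR c … (e • x0 + r • g + γ)`. -/
theorem trans2 {V : Type} [Fintype V] {m : ℕ} [NeZero m] (c : V → V → ZMod m) (U : Finset V)
    (F : Finset (ZMod m)) (a : ZMod m → ℕ) (Γ : AddSubgroup (ZMod m)) (x0 g : ZMod m)
    (ha : ∀ x ∈ F, x - x0 - a x • g ∈ Γ) (e : ℕ) (y : V) (r : ℤ) :
    rr (ic c U F a 0) e y (r, 0) ≤
      ∑ γ ∈ univ.filter (fun γ : ZMod m => γ ∈ Γ), rr c e y (e • x0 + r • g + γ) := by
  unfold rr
  rw [← sum_div]
  refine div_le_div_of_nonneg_right ?_ (by positivity)
  have key : RR (ic c U F a 0) (Fin (e + 1)) 0 y (r, 0) ≤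
      ∑ γ ∈ univ.filter (fun γ : ZMod m => γ ∈ Γ), RR c (Fin (e + 1)) 0 y (e • x0 + r • g + γ) := by
    unfold RR
    simp only [cnt_eq_card]
    rw [card_eq_sum_card_fiberwise
      (f := fun q : (Fin (e + 1) → Fin (e + 1)) × (Fin (e + 1) → V) =>
        PS c q.1 0 q.2 - (e • x0 + r • g))
      (t := univ.filter (fun γ : ZMod m => γ ∈ Γ)) ?_]
    · refine sum_le_sum fun γ _ => card_le_card fun q hq => ?_
      simp only [mem_filter, mem_univ, true_and] at hq ⊢
      refine ⟨hq.1.1, hq.1.2.1, ?_⟩
      rw [← hq.2]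
      abel
    · intro q hq
      rw [mem_coe, mem_filter] at hq
      rw [mem_coe, mem_filter]
      refine ⟨mem_univ _, ?_⟩
      obtain ⟨p, x⟩ := q
      have h0 := hq.2.2.2
      simp only at h0 ⊢
      unfold PS at h0 ⊢
      have h2 : ∑ w ∈ univ.erase (0 : Fin (e + 1)), (ic c U F a 0 (x w) (x (p w))).2 = 0 := by
        have := congrArg Prod.snd h0
        rwa [Prod.snd_sum] at this
      have h1 : ∑ w ∈ univ.erase (0 : Fin (e + 1)), (ic c U F a 0 (x w) (x (p w))).1 = r := by
        have := congrArg Prod.fst h0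
        rwa [Prod.fst_sum] at this
      have hall : ∀ w ∈ univ.erase (0 : Fin (e + 1)), (ic c U F a 0 (x w) (x (p w))).2 = 0 :=
        Finset.sum_eq_zero_iff.mp h2
      rw [sum_congr rfl fun w hw => transfer_ic1 c U F a 0 _ _ (hall w hw)] at h1
      simp only [sub_zero] at h1
      have h3 : ∑ w ∈ univ.erase (0 : Fin (e + 1)), c (x w) (x (p w)) - (e • x0 + r • g) =
          ∑ w ∈ univ.erase (0 : Fin (e + 1)),
            (c (x w) (x (p w)) - x0 - a (c (x w) (x (p w))) • g) := by
        rw [sum_sub_distrib, sum_sub_distrib, sum_const, card_erase_of_mem (mem_univ _), card_univ,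
          Fintype.card_fin, Nat.add_sub_cancel, ← h1, sum_smul, sub_sub]
        congr 2
        refine sum_congr rfl fun w _ => ?_
        rw [natCast_zsmul]
      rw [h3]
      exact AddSubgroup.sum_mem _ fun w hw =>
        ha _ ((transfer_ic2 c U F a 0 _ _).mp (hall w hw)).2.2
  exact_mod_cast key

end Pool.Agent.ZT
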